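import Mathlib

set_option autoImplicit false

open Filter

namespace Pool.Agent.V11103

/-- A Hardy field: a subring of the ring of germs at `+∞` of real functions which is a field and
is closed under differentiation: every element has a representative that is differentiable at all
large `t` and whose derivative again has its germ in the subring. -/
def IsHardyField (H : Subring ((atTop : Filter ℝ).Germ ℝ)) : Prop :=
  IsField H ∧
    ∀ φ ∈ H, ∃ f : ℝ → ℝ, ((f : (atTop : Filter ℝ).Germ ℝ) = φ) ∧
      (∀ᶠ t in atTop, DifferentiableAt ℝ f t) ∧
      ((deriv f : ℝ → ℝ) : (atTop : Filter ℝ).Germ ℝ) ∈ H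

end Pool.Agent.V11103
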