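import Mathlib

set_option autoImplicit false

open Filter

namespace Pool.Agent.V11103

/-- The upper density `limsup_N |E ∩ {1,…,N}| / N` of a set of natural numbers. -/
noncomputable def upperDensity (E : Set ℕ) : ℝ :=
  Filter.limsup (fun N : ℕ => ((E ∩ Set.Icc 1 N).ncard : ℝ) / (N : ℝ)) Filter.atTop

/-- `R_f(E) = {n ≥ 1 : E ∩ (E - ⌊f(n)⌋) ≠ ∅}`: there are `x, y ∈ E` with `y = x + ⌊f(n)⌋`. -/
def returnSet (f : ℝ → ℝ) (E : Set ℕ) : Set ℕ :=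
  {n | 1 ≤ n ∧ ∃ x ∈ E, ∃ y ∈ E, (y : ℤ) = (x : ℤ) + ⌊f (n : ℝ)⌋}

/-- A set of natural numbers is thick if it contains arbitrarily long intervals. -/
def Thick (S : Set ℕ) : Prop :=
  ∀ L : ℕ, ∃ a : ℕ, ∀ i : ℕ, i ≤ L → a + i ∈ S

end Pool.Agent.V11103
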