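import Mathlib
import Pool.Agent.V11103.ThickDefs

set_option autoImplicit false

open Filter

namespace Pool.Agent.V11103

/-- pigeonhole: one of finitely many classes has positive upper density -/
lemma exists_class_upperDensity_pos (M : ℕ) (hM : 0 < M) (c : ℕ → ℕ)
    (hc : ∀ n, c n < M) :
    ∃ k < M, 0 < upperDensity {n | 1 ≤ n ∧ c n = k} := by
  by_contra hcon
  push Not at hcon
  have hbd : ∀ k, ∀ N : ℕ, (({n | 1 ≤ n ∧ c n = k} ∩ Set.Icc 1 N).ncard : ℝ) / (N : ℝ) ≤ 1 := by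
    intro k N
    rcases Nat.eq_zero_or_pos N with rfl | hN
    · simp
    · rw [div_le_one (by exact_mod_cast hN)]
      have h1 : ({n | 1 ≤ n ∧ c n = k} ∩ Set.Icc 1 N).ncard ≤ (Set.Icc 1 N).ncard :=
        Set.ncard_le_ncard Set.inter_subset_right (Set.finite_Icc 1 N)
      have h2 : (Set.Icc 1 N).ncard = N := by
        rw [← Finset.coe_Icc, Set.ncard_coe_finset]; simp
      rw [h2] at h1
      exact_mod_cast h1
  have h1 : ∀ k < M, ∀ᶠ N : ℕ in atTop,
      (({n | 1 ≤ n ∧ c n = k} ∩ Set.Icc 1 N).ncard : ℝ) / (N : ℝ) < 1 / (2 * M) := by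
    intro k hk
    have h2 := hcon k hk
    have h3 : upperDensity {n | 1 ≤ n ∧ c n = k} < 1 / (2 * M) :=
      lt_of_le_of_lt h2 (by positivity)
    exact Filter.eventually_lt_of_limsup_lt h3
      (Filter.isBoundedUnder_of ⟨1, hbd k⟩)
  have h4 : ∀ᶠ N : ℕ in atTop, ∀ k ∈ Finset.range M,
      (({n | 1 ≤ n ∧ c n = k} ∩ Set.Icc 1 N).ncard : ℝ) / (N : ℝ) < 1 / (2 * M) := by
    rw [Filter.eventually_all_finset]
    intro k hk
    exact h1 k (Finset.mem_range.mp hk)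
  obtain ⟨N, hN, hN1⟩ := (h4.and (eventually_ge_atTop 1)).exists
  have hNpos : (0 : ℝ) < N := by exact_mod_cast hN1
  have hMpos : (0 : ℝ) < M := by exact_mod_cast hM
  have h5 : (N : ℝ) = ∑ k ∈ Finset.range M, (({n | 1 ≤ n ∧ c n = k} ∩ Set.Icc 1 N).ncard : ℝ) := by
    have h6 : (Finset.Icc 1 N).card
        = ∑ k ∈ Finset.range M, ((Finset.Icc 1 N).filter (fun n => c n = k)).card :=
      Finset.card_eq_sum_card_fiberwise (fun n _ => Finset.mem_range.mpr (hc n))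
    have h7 : ∀ k, ({n | 1 ≤ n ∧ c n = k} ∩ Set.Icc 1 N).ncard
        = ((Finset.Icc 1 N).filter (fun n => c n = k)).card := by
      intro k
      rw [← Set.ncard_coe_finset]
      congr 1
      ext n
      simp
      tauto
    simp only [h7]
    rw [← Nat.cast_sum, ← h6]
    simp
  have h8 : ∑ k ∈ Finset.range M, (({n | 1 ≤ n ∧ c n = k} ∩ Set.Icc 1 N).ncard : ℝ)
      ≤ ∑ k ∈ Finset.range M, (1 / (2 * (M : ℝ))) * N := by
    refine Finset.sum_le_sum fun k hk => ?_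
    have := hN k hk
    rw [div_lt_iff₀ hNpos] at this
    exact this.le
  rw [← h5] at h8
  simp only [Finset.sum_const, Finset.card_range, nsmul_eq_mul] at h8
  have h9 : (M : ℝ) * (1 / (2 * M) * N) = N / 2 := by field_simp
  rw [h9] at h8
  linarith

/-- distance of a real to the nearest integer, as a predicate -/
def Near (η x : ℝ) : Prop := ∃ z : ℤ, |x - z| < η

lemma Near.sub {η ε x y : ℝ} (hx : Near η x) (hy : Near ε y) : Near (η + ε) (x - y) := by
  obtain ⟨z, hz⟩ := hx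
  obtain ⟨w, hw⟩ := hy
  refine ⟨z - w, ?_⟩
  push_cast
  have : x - y - (z - w) = (x - z) - (y - w) := by ring
  rw [this]
  calc |(x - z) - (y - w)| ≤ |x - z| + |y - w| := abs_sub _ _
    _ < η + ε := by linarith

/-- the Bohr colouring -/
noncomputable def bohr (θ : ℝ) (M : ℕ) (n : ℕ) : ℕ := ⌊(M : ℝ) * Int.fract ((n : ℝ) * θ)⌋₊

lemma bohr_lt (θ : ℝ) (M : ℕ) (hM : 0 < M) (n : ℕ) : bohr θ M n < M := by
  unfold bohr
  rw [Nat.floor_lt (by positivity)]
  have h1 := Int.fract_lt_one ((n : ℝ) * θ)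
  have h2 : (0 : ℝ) < M := by exact_mod_cast hM
  nlinarith

lemma near_of_bohr {θ : ℝ} {M : ℕ} (hM : 0 < M) {x y : ℕ} (h : bohr θ M x = bohr θ M y)
    {m : ℤ} (hm : (y : ℤ) = x + m) : Near (1 / (M : ℝ)) ((m : ℝ) * θ) := by
  have hMr : (0 : ℝ) < M := by exact_mod_cast hM
  have hx : (0 : ℝ) ≤ (M : ℝ) * Int.fract ((x : ℝ) * θ) := by positivity
  have hy : (0 : ℝ) ≤ (M : ℝ) * Int.fract ((y : ℝ) * θ) := by positivity
  have h1 := Nat.floor_le hx
  have h2 := Nat.lt_floor_add_one ((M : ℝ) * Int.fract ((x : ℝ) * θ))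
  have h3 := Nat.floor_le hy
  have h4 := Nat.lt_floor_add_one ((M : ℝ) * Int.fract ((y : ℝ) * θ))
  unfold bohr at h
  rw [h] at h1 h2
  have h5 : |Int.fract ((y : ℝ) * θ) - Int.fract ((x : ℝ) * θ)| < 1 / M := by
    have h6 : |(Int.fract ((y : ℝ) * θ) - Int.fract ((x : ℝ) * θ)) * M| < 1 := by
      rw [abs_lt]
      constructor <;> nlinarith
    rw [abs_mul, abs_of_pos hMr] at h6
    rw [lt_div_iff₀ hMr]
    exact h6
  refine ⟨⌊(y : ℝ) * θ⌋ - ⌊(x : ℝ) * θ⌋, ?_⟩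
  have h6 : (m : ℝ) = y - x := by
    have : m = (y : ℤ) - x := by omega
    rw [this]; push_cast; ring
  have h7 : (m : ℝ) * θ - ((⌊(y : ℝ) * θ⌋ - ⌊(x : ℝ) * θ⌋ : ℤ) : ℝ)
      = Int.fract ((y : ℝ) * θ) - Int.fract ((x : ℝ) * θ) := by
    rw [h6]
    unfold Int.fract
    push_cast
    ring
  rw [h7]
  exact h5

/-- `t^{3/2}` as `t * sqrt t`. -/
lemma rpow_three_half {t : ℝ} (ht : 0 ≤ t) : t ^ (3 / 2 : ℝ) = t * Real.sqrt t := by
  rcases ht.eq_or_lt with h | h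
  · rw [← h]; norm_num
  · rw [show (3 / 2 : ℝ) = 1 + 1 / 2 by norm_num, Real.rpow_add h, Real.rpow_one,
      ← Real.sqrt_eq_rpow]

/-- first difference of `t^{3/2}` against its derivative -/
lemma diff_est {x : ℝ} (hx : 0 < x) :
    |((x + 1) ^ (3 / 2 : ℝ) - x ^ (3 / 2 : ℝ)) - (3 / 2) * Real.sqrt x| ≤ 1 / Real.sqrt x := by
  rw [rpow_three_half hx.le, rpow_three_half (by linarith : (0 : ℝ) ≤ x + 1)]
  set s := Real.sqrt x with hs
  set r := Real.sqrt (x + 1) with hr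
  have hs0 : 0 < s := Real.sqrt_pos.mpr hx
  have hr0 : 0 < r := Real.sqrt_pos.mpr (by linarith)
  have hs2 : s ^ 2 = x := Real.sq_sqrt hx.le
  have hr2 : r ^ 2 = x + 1 := Real.sq_sqrt (by linarith)
  have hrs : s ≤ r := Real.sqrt_le_sqrt (by linarith)
  have h1 : (r - s) * (r + s) = 1 := by nlinarith
  have h2 : r - s ≤ 1 / s := by
    rw [le_div_iff₀ hs0]
    nlinarith [mul_nonneg (sub_nonneg.mpr hrs) hr0.le]
  have h3 : ((x + 1) * r - x * s) - 3 / 2 * s = (r - s) * ((r - s) * (r + s / 2)) := by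
    have e1 : (x + 1) * r - x * s = r ^ 3 - s ^ 3 := by rw [← hr2, ← hs2]; ring
    rw [e1]
    have e2 : r ^ 3 - s ^ 3 = (r - s) * (r ^ 2 + r * s + s ^ 2) := by ring
    rw [e2]
    have e3 : 3 / 2 * s = (r - s) * (r + s) * (3 / 2 * s) := by rw [h1, one_mul]
    rw [e3]; ring
  rw [h3]
  have h4 : 0 ≤ (r - s) * (r + s / 2) := mul_nonneg (sub_nonneg.mpr hrs) (by positivity)
  have h5 : (r - s) * (r + s / 2) ≤ 1 := by nlinarith [mul_nonneg (sub_nonneg.mpr hrs) hs0.le]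
  rw [abs_of_nonneg (mul_nonneg (sub_nonneg.mpr hrs) h4)]
  calc (r - s) * ((r - s) * (r + s / 2)) ≤ (r - s) * 1 :=
        mul_le_mul_of_nonneg_left h5 (sub_nonneg.mpr hrs)
    _ ≤ 1 / s := by linarith

/-- second differences of `t^{3/2}` over a bounded window tend to zero -/
lemma second_diff {n : ℕ} (hn : 1 ≤ n) {L i j : ℕ} (hi : i ≤ L) (hj : j ≤ L) :
    |((((n + i : ℕ) : ℝ) + 1) ^ (3 / 2 : ℝ) - ((n + i : ℕ) : ℝ) ^ (3 / 2 : ℝ))
      - ((((n + j : ℕ) : ℝ) + 1) ^ (3 / 2 : ℝ) - ((n + j : ℕ) : ℝ) ^ (3 / 2 : ℝ))|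
      ≤ (2 + 3 * (L : ℝ)) / Real.sqrt n := by
  have hn0 : (0 : ℝ) < n := by exact_mod_cast hn
  have hsn : 0 < Real.sqrt n := Real.sqrt_pos.mpr hn0
  have key : ∀ k : ℕ, k ≤ L →
      |((((n + k : ℕ) : ℝ) + 1) ^ (3 / 2 : ℝ) - ((n + k : ℕ) : ℝ) ^ (3 / 2 : ℝ))
        - (3 / 2) * Real.sqrt n| ≤ (1 + 3 / 2 * (L : ℝ)) / Real.sqrt n := by
    intro k hk
    have hx : (0 : ℝ) < ((n + k : ℕ) : ℝ) := by
      have : 0 < n + k := by omega
      exact_mod_cast this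
    have h1 := diff_est hx
    have hmono : Real.sqrt n ≤ Real.sqrt ((n + k : ℕ) : ℝ) :=
      Real.sqrt_le_sqrt (by push_cast; linarith [(Nat.cast_nonneg k : (0 : ℝ) ≤ k)])
    have h2 : 1 / Real.sqrt ((n + k : ℕ) : ℝ) ≤ 1 / Real.sqrt n :=
      one_div_le_one_div_of_le hsn hmono
    have h3 : Real.sqrt ((n + k : ℕ) : ℝ) - Real.sqrt n ≤ L / Real.sqrt n := by
      rw [le_div_iff₀ hsn]
      have e1 : Real.sqrt ((n + k : ℕ) : ℝ) ^ 2 = (n : ℝ) + k := by
        rw [Real.sq_sqrt hx.le]; push_cast; ring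
      have e2 : Real.sqrt n ^ 2 = (n : ℝ) := Real.sq_sqrt hn0.le
      have e3 : (k : ℝ) ≤ L := by exact_mod_cast hk
      have e4 : (0 : ℝ) ≤ k := Nat.cast_nonneg k
      nlinarith [mul_nonneg (sub_nonneg.mpr hmono) hsn.le,
        mul_nonneg (sub_nonneg.mpr hmono) (Real.sqrt_nonneg ((n + k : ℕ) : ℝ))]
    have h4 : 0 ≤ Real.sqrt ((n + k : ℕ) : ℝ) - Real.sqrt n := sub_nonneg.mpr hmono
    rw [abs_le] at h1 ⊢
    have h5 : (1 + 3 / 2 * (L : ℝ)) / Real.sqrt n = 1 / Real.sqrt n + 3 / 2 * (L / Real.sqrt n) := by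
      ring
    rw [h5]
    constructor <;> linarith [h1.1, h1.2]
  have h1 := key i hi
  have h2 := key j hj
  have h3 : (2 + 3 * (L : ℝ)) / Real.sqrt n
      = (1 + 3 / 2 * (L : ℝ)) / Real.sqrt n + (1 + 3 / 2 * (L : ℝ)) / Real.sqrt n := by ring
  rw [h3]
  rw [abs_le] at h1 h2 ⊢
  constructor <;> linarith [h1.1, h1.2, h2.1, h2.2]

/-- the common part: floors of an almost linear sequence all near a Bohr set have constant
increments -/
lemma const_increments {θ η : ℝ} (h1 : ¬ Near (4 * η) θ) (h2 : ¬ Near (4 * η) (2 * θ))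
    {L : ℕ} (g : ℕ → ℝ)
    (hlin : ∀ i < L, ∀ j < L, |(g (i + 1) - g i) - (g (j + 1) - g j)| ≤ 1)
    (hnear : ∀ i ≤ L, Near η ((⌊g i⌋ : ℝ) * θ)) :
    ∀ i < L, ⌊g (i + 1)⌋ - ⌊g i⌋ = ⌊g 1⌋ - ⌊g 0⌋ := by
  intro i hi
  have hL : 0 < L := by omega
  have hn : Near (4 * η) ((((⌊g (i + 1)⌋ - ⌊g i⌋) - (⌊g 1⌋ - ⌊g 0⌋) : ℤ) : ℝ) * θ) := by
    have a1 := (hnear (i + 1) (by omega)).sub (hnear i (by omega))
    have a2 := (hnear 1 (by omega)).sub (hnear 0 (by omega))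
    have a3 := a1.sub a2
    have e : (((⌊g (i + 1)⌋ - ⌊g i⌋) - (⌊g 1⌋ - ⌊g 0⌋) : ℤ) : ℝ) * θ
        = ((⌊g (i + 1)⌋ : ℝ) * θ - (⌊g i⌋ : ℝ) * θ) - ((⌊g 1⌋ : ℝ) * θ - (⌊g 0⌋ : ℝ) * θ) := by
      push_cast; ring
    rw [e, show (4 * η) = (η + η) + (η + η) by ring]
    exact a3
  set D : ℤ := (⌊g (i + 1)⌋ - ⌊g i⌋) - (⌊g 1⌋ - ⌊g 0⌋) with hD
  have hb : |(D : ℝ)| < 3 := by
    have b := hlin i hi 0 hL
    simp only [zero_add] at b
    have f1 := Int.fract_nonneg (g (i + 1))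
    have f1' := Int.fract_lt_one (g (i + 1))
    have f2 := Int.fract_nonneg (g i)
    have f2' := Int.fract_lt_one (g i)
    have f3 := Int.fract_nonneg (g 1)
    have f3' := Int.fract_lt_one (g 1)
    have f4 := Int.fract_nonneg (g 0)
    have f4' := Int.fract_lt_one (g 0)
    unfold Int.fract at *
    rw [hD]
    push_cast
    rw [abs_le] at b
    rw [abs_lt]
    constructor <;> linarith [b.1, b.2]
  have hb' : |D| < 3 := by
    have : ((|D| : ℤ) : ℝ) < 3 := by push_cast; exact hb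
    exact_mod_cast this
  rw [abs_lt] at hb'
  have hneg : ∀ {a : ℝ}, Near (4 * η) (-a) → Near (4 * η) a := by
    rintro a ⟨z, hz⟩
    refine ⟨-z, ?_⟩
    push_cast
    rw [← abs_neg]
    have : -(a - -(z : ℝ)) = -a - z := by ring
    rw [this]; exact hz
  have hcases : D = 0 ∨ D = 1 ∨ D = -1 ∨ D = 2 ∨ D = -2 := by omega
  rcases hcases with h | h | h | h | h
  · omega
  · rw [h] at hn
    exfalso; apply h1
    simpa using hn
  · rw [h] at hn
    exfalso; apply h1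
    apply hneg
    simpa using hn
  · rw [h] at hn
    exfalso; apply h2
    simpa using hn
  · rw [h] at hn
    exfalso; apply h2
    apply hneg
    have e : ((-2 : ℤ) : ℝ) * θ = -(2 * θ) := by push_cast; ring
    rw [e] at hn
    exact hn

lemma telescoping {L : ℕ} (g : ℕ → ℤ) (d : ℤ) (h : ∀ i < L, g (i + 1) - g i = d) :
    g L - g 0 = L * d := by
  induction L with
  | zero => simp
  | succ n ih =>
    have h1 := ih (fun i hi => h i (by omega))
    have h2 := h n (by omega)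
    push_cast
    linarith

lemma exists_eta {θ : ℝ} (hθ : Irrational θ) :
    ∃ M : ℕ, 0 < M ∧ ¬ Near (4 * (1 / (M : ℝ))) θ ∧ ¬ Near (4 * (1 / (M : ℝ))) (2 * θ) := by
  have key : ∀ x : ℝ, Irrational x → ∃ M0 : ℕ, 0 < M0 ∧ ∀ M : ℕ, M0 ≤ M → ¬ Near (4 * (1 / (M : ℝ))) x := by
    intro x hx
    have hd : 0 < |x - round x| := by
      rw [abs_pos, sub_ne_zero]
      intro h
      apply hx
      exact ⟨(round x : ℚ), by push_cast; exact h.symm⟩
    obtain ⟨M0, hM0⟩ := exists_nat_gt (4 / |x - round x|)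
    have hM0pos : (0 : ℝ) < M0 := lt_trans (by positivity) hM0
    refine ⟨M0, by exact_mod_cast hM0pos, ?_⟩
    rintro M hM ⟨z, hz⟩
    have hMpos : (0 : ℝ) < M := lt_of_lt_of_le hM0pos (by exact_mod_cast hM)
    have h1 : |x - round x| ≤ |x - z| := round_le x z
    have h2 : (M0 : ℝ) ≤ M := by exact_mod_cast hM
    rw [div_lt_iff₀ hd] at hM0
    have h3 : 4 * (1 / (M : ℝ)) ≤ |x - round x| := by
      rw [mul_one_div, div_le_iff₀ hMpos]
      nlinarith
    linarith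
  obtain ⟨M1, h1, h1'⟩ := key θ hθ
  obtain ⟨M2, h2, h2'⟩ := key (2 * θ) (by
    have := hθ.natCast_mul (m := 2) (by norm_num)
    simpa using this)
  exact ⟨max M1 M2, by omega, h1' _ (le_max_left _ _), h2' _ (le_max_right _ _)⟩

/-- Main theorem: the joint return times are not thick. -/
theorem not_thick (α : ℝ) (hα : Irrational α) :
    ∃ E : Set ℕ, (∀ n ∈ E, 1 ≤ n) ∧ 0 < upperDensity E ∧
      ¬ Thick (returnSet (fun t => t ^ (3 / 2 : ℝ)) E ∩
        returnSet (fun t => α * t ^ (3 / 2 : ℝ) + t) E) := by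
  have hα0 : α ≠ 0 := hα.ne_zero
  set θ : ℝ := α⁻¹ with hθdef
  have hθ : Irrational θ := hα.inv
  obtain ⟨M, hM, hM1, hM2⟩ := exists_eta hθ
  obtain ⟨k, hk, hk'⟩ := exists_class_upperDensity_pos M hM (bohr θ M) (bohr_lt θ M hM)
  refine ⟨{n | 1 ≤ n ∧ bohr θ M n = k}, fun n hn => hn.1, hk', ?_⟩
  set E : Set ℕ := {n | 1 ≤ n ∧ bohr θ M n = k} with hE
  intro hthick
  have hMr : (0 : ℝ) < M := by exact_mod_cast hM
  have hαabs : 0 < |α| := abs_pos.mpr hα0
  -- length of the window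
  obtain ⟨L, hL⟩ := exists_nat_gt ((1 + |α|) / |α| * M)
  have hLpos : (0 : ℝ) < L := lt_trans (by positivity) hL
  have hL0 : 0 < L := by exact_mod_cast hLpos
  -- starting point
  obtain ⟨N0, hN0⟩ := exists_nat_gt (((2 + 3 * (L : ℝ)) * (1 + |α|)) ^ 2)
  have hN0pos : (0 : ℝ) < N0 := lt_of_le_of_lt (by positivity) hN0
  have hN0' : 1 ≤ N0 := by exact_mod_cast hN0pos
  obtain ⟨a, ha⟩ := hthick (N0 + L)
  set n : ℕ := a + N0 with hn
  have hn1 : 1 ≤ n := by omega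
  have hmem : ∀ i ≤ L, n + i ∈ returnSet (fun t => t ^ (3 / 2 : ℝ)) E ∩
        returnSet (fun t => α * t ^ (3 / 2 : ℝ) + t) E := by
    intro i hi
    have := ha (N0 + i) (by omega)
    rw [hn, add_assoc]
    exact this
  -- the two sequences
  set g : ℕ → ℝ := fun i => ((n + i : ℕ) : ℝ) ^ (3 / 2 : ℝ) with hg
  set h : ℕ → ℝ := fun i => α * ((n + i : ℕ) : ℝ) ^ (3 / 2 : ℝ) + ((n + i : ℕ) : ℝ) with hh
  have hgnear : ∀ i ≤ L, Near (1 / (M : ℝ)) ((⌊g i⌋ : ℝ) * θ) := by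
    intro i hi
    obtain ⟨-, x, hx, y, hy, hxy⟩ := (hmem i hi).1
    exact near_of_bohr hM (hx.2.trans hy.2.symm) hxy
  have hhnear : ∀ i ≤ L, Near (1 / (M : ℝ)) ((⌊h i⌋ : ℝ) * θ) := by
    intro i hi
    obtain ⟨-, x, hx, y, hy, hxy⟩ := (hmem i hi).2
    exact near_of_bohr hM (hx.2.trans hy.2.symm) hxy
  have hsq : (2 + 3 * (L : ℝ)) * (1 + |α|) ≤ Real.sqrt n := by
    apply Real.le_sqrt_of_sq_le
    have : (N0 : ℝ) ≤ n := by
      have : N0 ≤ n := by omega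
      exact_mod_cast this
    linarith
  have hsn : 0 < Real.sqrt n := lt_of_lt_of_le (by positivity) hsq
  have hdd : ∀ i < L, ∀ j < L, |(g (i + 1) - g i) - (g (j + 1) - g j)| * (1 + |α|) ≤ 1 := by
    intro i hi j hj
    have h1 := second_diff hn1 hi.le hj.le
    have e : ∀ i : ℕ, g (i + 1) = (((n + i : ℕ) : ℝ) + 1) ^ (3 / 2 : ℝ) := by
      intro i
      simp only [hg]
      congr 1
      push_cast; ring
    rw [e i, e j]
    simp only [hg]
    have h2 : (2 + 3 * (L : ℝ)) / Real.sqrt n * (1 + |α|) ≤ 1 := by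
      rw [div_mul_eq_mul_div, div_le_one hsn]
      exact hsq
    exact (mul_le_mul_of_nonneg_right h1 (by positivity)).trans h2
  have hglin : ∀ i < L, ∀ j < L, |(g (i + 1) - g i) - (g (j + 1) - g j)| ≤ 1 := by
    intro i hi j hj
    have h1 := hdd i hi j hj
    have h2 := abs_nonneg ((g (i + 1) - g i) - (g (j + 1) - g j))
    nlinarith [mul_nonneg h2 hαabs.le]
  have hhlin : ∀ i < L, ∀ j < L, |(h (i + 1) - h i) - (h (j + 1) - h j)| ≤ 1 := by
    intro i hi j hj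
    have h1 := hdd i hi j hj
    have h2 := abs_nonneg ((g (i + 1) - g i) - (g (j + 1) - g j))
    have e : (h (i + 1) - h i) - (h (j + 1) - h j)
        = α * ((g (i + 1) - g i) - (g (j + 1) - g j)) := by
      simp only [hh, hg]
      push_cast; ring
    rw [e, abs_mul]
    nlinarith
  have hg2 := const_increments hM1 hM2 g hglin hgnear
  have hh2 := const_increments hM1 hM2 h hhlin hhnear
  set m : ℤ := ⌊g 1⌋ - ⌊g 0⌋ with hm
  set p : ℤ := ⌊h 1⌋ - ⌊h 0⌋ with hp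
  have hg3 := telescoping (fun i => ⌊g i⌋) m hg2
  have hh3 := telescoping (fun i => ⌊h i⌋) p hh2
  have hg4 : (⌊g L⌋ : ℝ) - ⌊g 0⌋ = L * m := by exact_mod_cast hg3
  have hh4 : (⌊h L⌋ : ℝ) - ⌊h 0⌋ = L * p := by exact_mod_cast hh3
  have hg5 : |(g L - g 0) - L * m| < 1 := by
    rw [← hg4]
    have f1 := Int.fract_nonneg (g L)
    have f1' := Int.fract_lt_one (g L)
    have f2 := Int.fract_nonneg (g 0)
    have f2' := Int.fract_lt_one (g 0)
    unfold Int.fract at *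
    rw [abs_lt]
    constructor <;> linarith
  have hh5 : |(h L - h 0) - L * p| < 1 := by
    rw [← hh4]
    have f1 := Int.fract_nonneg (h L)
    have f1' := Int.fract_lt_one (h L)
    have f2 := Int.fract_nonneg (h 0)
    have f2' := Int.fract_lt_one (h 0)
    unfold Int.fract at *
    rw [abs_lt]
    constructor <;> linarith
  have hhg : h L - h 0 = α * (g L - g 0) + L := by
    simp only [hh, hg]
    push_cast; ring
  -- combine
  have hcomb : |(L : ℝ) * (α * m + 1 - p)| < 1 + |α| := by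
    have e : (L : ℝ) * (α * m + 1 - p)
        = ((h L - h 0) - L * p) - α * ((g L - g 0) - L * m) := by
      rw [hhg]; ring
    rw [e]
    calc |((h L - h 0) - L * p) - α * ((g L - g 0) - L * m)|
        ≤ |(h L - h 0) - L * p| + |α * ((g L - g 0) - L * m)| := abs_sub _ _
      _ < 1 + |α| := by
          rw [abs_mul]
          have : |α| * |g L - g 0 - L * m| ≤ |α| * 1 :=
            mul_le_mul_of_nonneg_left hg5.le (abs_nonneg _)
          linarith
  have hcomb2 : |(m : ℝ) + θ - p * θ| < 1 / M := by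
    have e : (m : ℝ) + θ - p * θ = θ * (α * m + 1 - p) := by
      rw [hθdef]; field_simp
    rw [e, abs_mul, hθdef, abs_inv]
    rw [abs_mul, abs_of_pos hLpos] at hcomb
    have h3 : |α * m + 1 - p| < (1 + |α|) / L := by
      rw [lt_div_iff₀ hLpos]; linarith
    have h4 : (1 + |α|) / L < |α| / M := by
      rw [div_lt_div_iff₀ hLpos hMr]
      have h5 : (1 + |α|) / |α| * M * |α| < L * |α| := mul_lt_mul_of_pos_right hL hαabs
      have h6 : (1 + |α|) / |α| * M * |α| = (1 + |α|) * M := by field_simp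
      rw [h6] at h5
      linarith
    calc |α|⁻¹ * |α * m + 1 - p| < |α|⁻¹ * (|α| / M) :=
          mul_lt_mul_of_pos_left (h3.trans h4) (by positivity)
      _ = 1 / M := by field_simp
  -- near for p θ
  have hpn : Near (1 / (M : ℝ) + 1 / M) ((p : ℝ) * θ) := by
    have a1 := (hhnear 1 (by omega)).sub (hhnear 0 (by omega))
    have e : (p : ℝ) * θ = (⌊h 1⌋ : ℝ) * θ - (⌊h 0⌋ : ℝ) * θ := by
      rw [hp]; push_cast; ring
    rw [e]; exact a1
  apply hM1
  obtain ⟨z, hz⟩ := hpn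
  refine ⟨z - m, ?_⟩
  have e : θ - ((z - m : ℤ) : ℝ) = ((m : ℝ) + θ - p * θ) + ((p : ℝ) * θ - z) := by
    push_cast; ring
  rw [e]
  have h1M : (0 : ℝ) < 1 / M := by positivity
  calc |((m : ℝ) + θ - p * θ) + ((p : ℝ) * θ - z)|
      ≤ |(m : ℝ) + θ - p * θ| + |(p : ℝ) * θ - z| := abs_add_le _ _
    _ < 1 / M + (1 / M + 1 / M) := by linarith
    _ ≤ 4 * (1 / (M : ℝ)) := by linarith

end Pool.Agent.V11103
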