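import Mathlib
import Pool.Agent.V11103.Thick
import Pool.Agent.V11103.HardyDefs

set_option autoImplicit false

open Filter Topology Polynomial

namespace Pool.Agent.V11103

/-- rational functions of `√t` -/
noncomputable def ratSqrt (P Q : ℝ[X]) (t : ℝ) : ℝ := P.eval (Real.sqrt t) / Q.eval (Real.sqrt t)

lemma ev_ne {Q : ℝ[X]} (hQ : Q ≠ 0) : ∀ᶠ t : ℝ in atTop, Q.eval (Real.sqrt t) ≠ 0 := by
  have h := Q.eventually_atTop_not_isRoot hQ
  exact (Real.tendsto_sqrt_atTop.eventually h)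

/-- the field of germs of rational functions of `√t` -/
noncomputable def sqrtField : Subring ((atTop : Filter ℝ).Germ ℝ) where
  carrier := {φ | ∃ P Q : ℝ[X], Q ≠ 0 ∧ φ = ((ratSqrt P Q : ℝ → ℝ) : (atTop : Filter ℝ).Germ ℝ)}
  mul_mem' := by
    rintro _ _ ⟨P, Q, hQ, rfl⟩ ⟨R, S, hS, rfl⟩
    refine ⟨P * R, Q * S, mul_ne_zero hQ hS, ?_⟩
    rw [← Germ.coe_mul, Germ.coe_eq]
    filter_upwards with t
    simp only [ratSqrt, Pi.mul_apply, eval_mul]
    rw [div_mul_div_comm]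
  one_mem' := by
    refine ⟨1, 1, one_ne_zero, ?_⟩
    rw [← Germ.coe_one, Germ.coe_eq]
    filter_upwards with t
    simp [ratSqrt]
  add_mem' := by
    rintro _ _ ⟨P, Q, hQ, rfl⟩ ⟨R, S, hS, rfl⟩
    refine ⟨P * S + R * Q, Q * S, mul_ne_zero hQ hS, ?_⟩
    rw [← Germ.coe_add, Germ.coe_eq]
    filter_upwards [ev_ne hQ, ev_ne hS] with t h1 h2
    simp only [ratSqrt, Pi.add_apply, eval_mul, eval_add]
    field_simp
  zero_mem' := by
    refine ⟨0, 1, one_ne_zero, ?_⟩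
    rw [← Germ.coe_zero, Germ.coe_eq]
    filter_upwards with t
    simp [ratSqrt]
  neg_mem' := by
    rintro _ ⟨P, Q, hQ, rfl⟩
    refine ⟨-P, Q, hQ, ?_⟩
    rw [← Germ.coe_neg, Germ.coe_eq]
    filter_upwards with t
    simp [ratSqrt, neg_div]

lemma mem_sqrtField (φ : (atTop : Filter ℝ).Germ ℝ) : φ ∈ sqrtField ↔
    ∃ P Q : ℝ[X], Q ≠ 0 ∧ φ = ((ratSqrt P Q : ℝ → ℝ) : (atTop : Filter ℝ).Germ ℝ) := Iff.rfl

lemma isField_sqrtField : IsField sqrtField where
  exists_pair_ne := by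
    refine ⟨0, 1, ?_⟩
    intro h
    have h1 : ((0 : sqrtField) : (atTop : Filter ℝ).Germ ℝ) = (1 : sqrtField) := by rw [h]
    have h2 : ((fun _ => (0 : ℝ) : ℝ → ℝ) : (atTop : Filter ℝ).Germ ℝ)
        = ((fun _ => (1 : ℝ) : ℝ → ℝ) : (atTop : Filter ℝ).Germ ℝ) := h1
    rw [Germ.coe_eq] at h2
    obtain ⟨t, ht⟩ := h2.exists
    norm_num at ht
  mul_comm := mul_comm
  mul_inv_cancel := by
    rintro ⟨φ, P, Q, hQ, rfl⟩ hne
    have hP : P ≠ 0 := by
      rintro rfl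
      apply hne
      apply Subtype.ext
      show ((ratSqrt 0 Q : ℝ → ℝ) : (atTop : Filter ℝ).Germ ℝ) = 0
      rw [← Germ.coe_zero, Germ.coe_eq]
      filter_upwards with t
      simp [ratSqrt]
    refine ⟨⟨((ratSqrt Q P : ℝ → ℝ) : (atTop : Filter ℝ).Germ ℝ), Q, P, hP, rfl⟩, ?_⟩
    apply Subtype.ext
    show ((ratSqrt P Q : ℝ → ℝ) : (atTop : Filter ℝ).Germ ℝ) * ((ratSqrt Q P : ℝ → ℝ) : (atTop : Filter ℝ).Germ ℝ) = 1
    rw [← Germ.coe_mul, ← Germ.coe_one, Germ.coe_eq]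
    filter_upwards [ev_ne hQ, ev_ne hP] with t h1 h2
    simp only [ratSqrt, Pi.mul_apply, Pi.one_apply]
    field_simp

lemma hasDerivAt_ratSqrt (P Q : ℝ[X]) {t : ℝ} (ht : 0 < t) (hQ : Q.eval (Real.sqrt t) ≠ 0) :
    HasDerivAt (ratSqrt P Q)
      (ratSqrt (derivative P * Q - P * derivative Q) (2 * X * Q ^ 2) t) t := by
  have hs : 0 < Real.sqrt t := Real.sqrt_pos.mpr ht
  have h1 : HasDerivAt Real.sqrt (1 / (2 * Real.sqrt t)) t := Real.hasDerivAt_sqrt ht.ne'
  have h2 := (P.hasDerivAt (Real.sqrt t)).comp t h1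
  have h3 := (Q.hasDerivAt (Real.sqrt t)).comp t h1
  have h4 := h2.div h3 hQ
  have h5 : HasDerivAt (ratSqrt P Q)
      ((derivative P).eval (Real.sqrt t) * (1 / (2 * Real.sqrt t)) * Q.eval (Real.sqrt t)
        - P.eval (Real.sqrt t) * ((derivative Q).eval (Real.sqrt t) * (1 / (2 * Real.sqrt t)))
        |> (· / (Q.eval (Real.sqrt t)) ^ 2)) t := h4
  convert h5 using 1
  simp only [ratSqrt, eval_sub, eval_mul, eval_pow, eval_X, eval_ofNat]
  field_simp

lemma isHardyField_sqrtField : IsHardyField sqrtField := by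
  refine ⟨isField_sqrtField, ?_⟩
  rintro φ ⟨P, Q, hQ, rfl⟩
  have hX : (2 * X * Q ^ 2 : ℝ[X]) ≠ 0 := by
    refine mul_ne_zero (mul_ne_zero ?_ X_ne_zero) (pow_ne_zero _ hQ)
    exact two_ne_zero
  refine ⟨ratSqrt P Q, rfl, ?_, derivative P * Q - P * derivative Q, 2 * X * Q ^ 2, hX, ?_⟩
  · filter_upwards [ev_ne hQ, eventually_gt_atTop 0] with t h1 h2
    exact (hasDerivAt_ratSqrt P Q h2 h1).differentiableAt
  · rw [Germ.coe_eq]
    filter_upwards [ev_ne hQ, eventually_gt_atTop 0] with t h1 h2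
    exact (hasDerivAt_ratSqrt P Q h2 h1).deriv

lemma f1_mem : ((fun t : ℝ => t ^ (3 / 2 : ℝ) : ℝ → ℝ) : (atTop : Filter ℝ).Germ ℝ) ∈ sqrtField := by
  refine ⟨X ^ 3, 1, one_ne_zero, ?_⟩
  rw [Germ.coe_eq]
  filter_upwards [eventually_ge_atTop 0] with t ht
  rw [rpow_three_half ht]
  simp only [ratSqrt, eval_pow, eval_X, eval_one, div_one]
  have := Real.sq_sqrt ht
  calc t * Real.sqrt t = Real.sqrt t ^ 2 * Real.sqrt t := by rw [this]
    _ = _ := by ring

lemma f2_mem (α : ℝ) : ((fun t : ℝ => α * t ^ (3 / 2 : ℝ) + t : ℝ → ℝ) : (atTop : Filter ℝ).Germ ℝ)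
    ∈ sqrtField := by
  refine ⟨C α * X ^ 3 + X ^ 2, 1, one_ne_zero, ?_⟩
  rw [Germ.coe_eq]
  filter_upwards [eventually_ge_atTop 0] with t ht
  rw [rpow_three_half ht]
  simp only [ratSqrt, eval_add, eval_mul, eval_C, eval_pow, eval_X, eval_one, div_one]
  have := Real.sq_sqrt ht
  calc α * (t * Real.sqrt t) + t = α * (Real.sqrt t ^ 2 * Real.sqrt t) + Real.sqrt t ^ 2 := by
        rw [this]
    _ = _ := by ring

lemma iter_f1 (m : ℕ) : iteratedDeriv m (fun t : ℝ => t ^ (3 / 2 : ℝ))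
    = fun t => (descPochhammer ℝ m).eval (3 / 2) * t ^ ((3 / 2 : ℝ) - m) := by
  ext t
  rw [iteratedDeriv_eq_iterate, Real.iter_deriv_rpow_const]

lemma iter_f2 (α : ℝ) (m : ℕ) {t : ℝ} (ht : 0 < t) :
    iteratedDeriv m (fun t : ℝ => α * t ^ (3 / 2 : ℝ) + t) t
    = α * iteratedDeriv m (fun t : ℝ => t ^ (3 / 2 : ℝ)) t
      + (if m = 0 then t else if m = 1 then 1 else 0) := by
  have h1 : ContDiffAt ℝ m (fun t : ℝ => α * t ^ (3 / 2 : ℝ)) t :=
    contDiffAt_const.mul (Real.contDiffAt_rpow_const_of_ne ht.ne')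
  have h2 : ContDiffAt ℝ m (fun t : ℝ => t) t := contDiffAt_id
  rw [iteratedDeriv_fun_add h1 h2, iteratedDeriv_const_mul_field]
  congr 1
  exact iteratedDeriv_id

/-- the shape of the remainder: derivatives of order at least two tend to zero -/
lemma iter_tendsto {m : ℕ} (hm : 2 ≤ m) :
    Tendsto (iteratedDeriv m (fun t : ℝ => t ^ (3 / 2 : ℝ))) atTop (𝓝 0) := by
  rw [iter_f1]
  have h1 : (0 : ℝ) < m - 3 / 2 := by
    have : (2 : ℝ) ≤ m := by exact_mod_cast hm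
    linarith
  have h2 := (tendsto_rpow_neg_atTop h1).const_mul ((descPochhammer ℝ m).eval (3 / 2))
  simp only [neg_sub, mul_zero] at h2
  exact h2

lemma poly_case (a b c d : ℝ) (r : ℝ → ℝ) (hr : Tendsto r atTop (𝓝 0))
    (hd : a = 0 → b = 0 → c = 0 → d = 0) (F : ℝ → ℝ)
    (hF : ∀ᶠ t in atTop, F t = a * t ^ (3 / 2 : ℝ) + b * t + c * Real.sqrt t + d + r t) :
    Tendsto (fun t => |F t|) atTop (𝓝 0) ∨ Tendsto (fun t => |F t|) atTop atTop := by
  set P : ℝ[X] := C a * X ^ 3 + C b * X ^ 2 + C c * X + C d with hP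
  have hF' : ∀ᶠ t in atTop, F t = P.eval (Real.sqrt t) + r t := by
    filter_upwards [hF, eventually_ge_atTop 0] with t h1 h2
    rw [h1, rpow_three_half h2]
    simp only [hP, eval_add, eval_mul, eval_C, eval_pow, eval_X]
    have := Real.sq_sqrt h2
    have e : t * Real.sqrt t = Real.sqrt t ^ 3 := by
      calc t * Real.sqrt t = Real.sqrt t ^ 2 * Real.sqrt t := by rw [this]
        _ = _ := by ring
    rw [e, this]
  by_cases hdeg : 0 < P.degree
  · right
    have h1 := (P.abs_tendsto_atTop hdeg).comp Real.tendsto_sqrt_atTop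
    have h2 : ∀ᶠ t in atTop, |P.eval (Real.sqrt t)| - 1 ≤ |F t| := by
      have h3 : ∀ᶠ t in atTop, |r t| < 1 := by
        have := hr.eventually (Metric.ball_mem_nhds 0 one_pos)
        filter_upwards [this] with t ht
        simpa [Real.dist_eq] using ht
      filter_upwards [hF', h3] with t h4 h5
      rw [h4]
      have h6 : |P.eval (Real.sqrt t)| ≤ |P.eval (Real.sqrt t) + r t| + |r t| := by
        calc |P.eval (Real.sqrt t)| = |(P.eval (Real.sqrt t) + r t) - r t| := by ring_nf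
          _ ≤ _ := abs_sub _ _
      linarith
    refine tendsto_atTop_mono' atTop h2 ?_
    exact tendsto_atTop_add_const_right _ (-1) h1
  · left
    have h0 : P.degree ≤ 0 := not_lt.mp hdeg
    have hc := fun n (hn : 0 < n) => coeff_eq_zero_of_degree_lt (lt_of_le_of_lt h0 (by exact_mod_cast hn) : P.degree < (n : ℕ))
    have ha : a = 0 := by
      have := hc 3 (by norm_num)
      simpa [hP, coeff_X, coeff_C] using this
    have hb : b = 0 := by
      have := hc 2 (by norm_num)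
      simpa [hP, coeff_X, coeff_C] using this
    have hc' : c = 0 := by
      have := hc 1 (by norm_num)
      simpa [hP, coeff_X, coeff_C] using this
    have hd' := hd ha hb hc'
    have hP0 : P = 0 := by
      rw [hP, ha, hb, hc', hd']; simp
    have h1 : F =ᶠ[atTop] r := by
      filter_upwards [hF'] with t h4
      rw [h4, hP0]; simp
    have h2 : Tendsto F atTop (𝓝 0) := hr.congr' h1.symm
    simpa using h2.abs

/-- the hypothesis on integer combinations of derivatives -/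
lemma combos (α : ℝ) (hα : Irrational α) (c1 c2 : ℤ) (m1 m2 : ℕ) :
    Tendsto (fun t => |(c1 : ℝ) * iteratedDeriv m1 (fun t : ℝ => t ^ (3 / 2 : ℝ)) t
      + (c2 : ℝ) * iteratedDeriv m2 (fun t : ℝ => α * t ^ (3 / 2 : ℝ) + t) t|) atTop (𝓝 0) ∨
    Tendsto (fun t => |(c1 : ℝ) * iteratedDeriv m1 (fun t : ℝ => t ^ (3 / 2 : ℝ)) t
      + (c2 : ℝ) * iteratedDeriv m2 (fun t : ℝ => α * t ^ (3 / 2 : ℝ) + t) t|) atTop atTop := by
  -- an integer combination of 1 and α vanishes only trivially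
  have hlin : ∀ x y : ℤ, (x : ℝ) + y * α = 0 → x = 0 ∧ y = 0 := by
    intro x y h
    by_cases hy : y = 0
    · subst hy
      simp at h
      exact ⟨h, rfl⟩
    · exfalso
      apply hα
      refine ⟨-(x : ℚ) / y, ?_⟩
      have hy' : (y : ℝ) ≠ 0 := by exact_mod_cast hy
      push_cast
      field_simp
      linarith
  -- the decomposition of the derivatives of `t^{3/2}`
  set ρ : ℕ → ℝ → ℝ := fun m t => if 2 ≤ m then iteratedDeriv m (fun t : ℝ => t ^ (3 / 2 : ℝ)) t else 0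
    with hρ
  have hρ0 : ∀ m, Tendsto (ρ m) atTop (𝓝 0) := by
    intro m
    by_cases hm : 2 ≤ m
    · simp only [hρ, hm, if_true]
      exact iter_tendsto hm
    · simp only [hρ, hm, if_false]
      exact tendsto_const_nhds
  set A : ℕ → ℤ := fun m => if m = 0 then 1 else 0 with hA
  set B : ℕ → ℤ := fun m => if m = 1 then 1 else 0 with hB
  have hdec : ∀ m : ℕ, ∀ t : ℝ, 0 < t → iteratedDeriv m (fun t : ℝ => t ^ (3 / 2 : ℝ)) t
      = (A m : ℝ) * t ^ (3 / 2 : ℝ) + (B m : ℝ) * (3 / 2 * Real.sqrt t) + ρ m t := by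
    intro m t ht
    rcases Nat.lt_or_ge m 2 with hm | hm
    · have hm2 : ¬ 2 ≤ m := by omega
      simp only [hρ, hm2, if_false, add_zero]
      interval_cases m
      · simp [hA, hB]
      · rw [iter_f1]
        simp only [hA, hB, descPochhammer_one, eval_X]
        norm_num
        rw [← Real.sqrt_eq_rpow]
    · have h0 : m ≠ 0 := by omega
      have h1 : m ≠ 1 := by omega
      simp [hA, hB, hρ, hm, h0, h1]
  refine poly_case (((c1 * A m1 : ℤ) : ℝ) + ((c2 * A m2 : ℤ) : ℝ) * α) ((c2 * A m2 : ℤ) : ℝ)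
    (3 / 2 * (((c1 * B m1 : ℤ) : ℝ) + ((c2 * B m2 : ℤ) : ℝ) * α)) ((c2 * B m2 : ℤ) : ℝ)
    (fun t => (c1 : ℝ) * ρ m1 t + c2 * (α * ρ m2 t)) ?_ ?_ _ ?_
  · have h1 := ((hρ0 m1).const_mul (c1 : ℝ)).add (((hρ0 m2).const_mul α).const_mul (c2 : ℝ))
    simpa using h1
  · intro _ _ hc
    have hc' : ((c1 * B m1 : ℤ) : ℝ) + ((c2 * B m2 : ℤ) : ℝ) * α = 0 := by linarith
    have := (hlin _ _ hc').2
    rw [this]; simp
  · filter_upwards [eventually_gt_atTop 0] with t ht
    rw [iter_f2 α m2 ht, hdec m1 t ht, hdec m2 t ht]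
    have h3 : (if m2 = 0 then t else if m2 = 1 then (1 : ℝ) else 0)
        = (A m2 : ℝ) * t + (B m2 : ℝ) := by
      by_cases h0 : m2 = 0
      · simp [hA, hB, h0]
      · by_cases h1 : m2 = 1
        · simp [hA, hB, h1]
        · simp [hA, hB, h0, h1]
    rw [h3]
    push_cast
    ring

end Pool.Agent.V11103
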