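import Mathlib

/-!
Averages over balls and ergodic averages in a metric measure space.
-/

set_option autoImplicit false

open Filter Topology MeasureTheory

namespace Pool.Agent.V11103

/-- The average `μ(B(x,r))⁻¹ ∫_{B(x,r)} f dμ` of `f` over the open ball `B(x,r)`. -/
noncomputable def ballMean {X : Type*} [PseudoMetricSpace X] [MeasurableSpace X] (μ : Measure X)
    (f : X → ℝ) (x : X) (r : ℝ) : ℝ :=
  (μ.real (Metric.ball x r))⁻¹ * ∫ y in Metric.ball x r, f y ∂μ

/-- The ergodic average `A_k f = (1/k) ∑_{j=0}^{k-1} f ∘ T^j`. -/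
noncomputable def timeMean {X : Type*} (T : X → X) (f : X → ℝ) (k : ℕ) (x : X) : ℝ :=
  (1 / (k : ℝ)) * ∑ j ∈ Finset.range k, f (T^[j] x)

/-- The Lebesgue differentiation property of `μ`. -/
def LebesgueDifferentiation {X : Type*} [PseudoMetricSpace X] [MeasurableSpace X]
    (μ : Measure X) : Prop :=
  ∀ f : X → ℝ, Integrable f μ →
    ∀ᵐ x ∂μ, Tendsto (fun r : ℝ => ballMean μ f x r) (𝓝[>] 0) (𝓝 (f x))

end Pool.Agent.V11103
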