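import Mathlib
import Pool.Agent.V11103.ErgLebDefs

/-!
The centred Hardy–Littlewood maximal operator and its weak type `(1,1)` property.
-/

set_option autoImplicit false

open Filter Topology MeasureTheory
open scoped ENNReal

namespace Pool.Agent.V11103

/-- `H^* f(x) = sup_{r>0} μ(B(x,r))⁻¹ ∫_{B(x,r)} |f| dμ`, with values in `[0,∞]`. -/
noncomputable def centredMax {X : Type*} [PseudoMetricSpace X] [MeasurableSpace X] (μ : Measure X)
    (f : X → ℝ) (x : X) : ℝ≥0∞ :=
  ⨆ (r : ℝ) (_ : 0 < r), (μ (Metric.ball x r))⁻¹ * ∫⁻ y in Metric.ball x r, ENNReal.ofReal |f y| ∂μ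

/-- The Hardy–Littlewood property: the centred maximal operator is of weak type `(1,1)`. -/
def HardyLittlewood {X : Type*} [PseudoMetricSpace X] [MeasurableSpace X]
    (μ : Measure X) : Prop :=
  ∃ C : ℝ, 1 ≤ C ∧ ∀ f : X → ℝ, Integrable f μ → ∀ ε : ℝ, 0 < ε →
    μ {x | ENNReal.ofReal ε ≤ centredMax μ f x} ≤ ENNReal.ofReal (C * (∫ x, |f x| ∂μ) / ε)

end Pool.Agent.V11103
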