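import Mathlib
import Pool.Agent.V11103.HLDefs

set_option autoImplicit false

open Set Filter Topology MeasureTheory
open scoped ENNReal

namespace Pool.Agent.V11103

variable {X : Type*} [PseudoMetricSpace X] [MeasurableSpace X] [OpensMeasurableSpace X]
  {μ : Measure X}

omit [MeasurableSpace X] [OpensMeasurableSpace X] in
lemma ultra_balls (hu : ∀ x y z : X, dist x z ≤ max (dist x y) (dist y z)) {x y : X} {r s : ℝ}
    (hrs : s ≤ r) (h : ¬ Disjoint (Metric.ball x r) (Metric.ball y s)) :
    Metric.ball y s ⊆ Metric.ball x r := by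
  rw [Set.not_disjoint_iff] at h
  obtain ⟨z, hz1, hz2⟩ := h
  rw [Metric.mem_ball] at hz1 hz2
  intro w hw
  rw [Metric.mem_ball] at hw ⊢
  have h1 : dist w x ≤ max (dist w z) (dist z x) := hu w z x
  have h2 : dist w z ≤ max (dist w y) (dist y z) := hu w y z
  rw [dist_comm y z] at h2
  refine lt_of_le_of_lt h1 (max_lt (lt_of_le_of_lt h2 (max_lt ?_ ?_)) hz1)
  · linarith
  · linarith

/-- finite families of balls on which the mean is large -/
lemma ultra_finite (hu : ∀ x y z : X, dist x z ≤ max (dist x y) (dist y z))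
    (g : X → ℝ≥0∞) (c : ℝ≥0∞) (r : X → ℝ) :
    ∀ (n : ℕ) (F : Finset X), F.card = n →
      (∀ x ∈ F, c * μ (Metric.ball x (r x)) ≤ ∫⁻ y in Metric.ball x (r x), g y ∂μ) →
      c * μ (⋃ x ∈ F, Metric.ball x (r x)) ≤ ∫⁻ y in ⋃ x ∈ F, Metric.ball x (r x), g y ∂μ := by
  classical
  intro n
  induction n using Nat.strong_induction_on with
  | _ n ih =>
    intro F hF hle
    rcases F.eq_empty_or_nonempty with h | h
    · subst h; simp
    obtain ⟨x0, hx0, hmax⟩ := F.exists_max_image r h
    set F' := F.filter (fun x => Disjoint (Metric.ball x0 (r x0)) (Metric.ball x (r x))) with hF'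
    by_cases hcard : F' = F
    · -- then the ball at `x0` is disjoint from itself, so empty
      have h0 : x0 ∈ F' := by rw [hcard]; exact hx0
      have h1 := (Finset.mem_filter.mp h0).2
      rw [disjoint_self] at h1
      have h1' : Metric.ball x0 (r x0) = ∅ := h1
      have h2 : (⋃ x ∈ F, Metric.ball x (r x)) = ⋃ x ∈ F.erase x0, Metric.ball x (r x) := by
        ext z
        simp only [mem_iUnion, Finset.mem_erase, exists_prop]
        constructor
        · rintro ⟨x, hx, hz⟩
          refine ⟨x, ⟨?_, hx⟩, hz⟩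
          rintro rfl
          rw [h1'] at hz
          exact hz
        · rintro ⟨x, ⟨-, hx⟩, hz⟩
          exact ⟨x, hx, hz⟩
      rw [h2]
      have hlt : (F.erase x0).card < n := by
        rw [← hF]; exact Finset.card_erase_lt_of_mem hx0
      exact ih _ hlt _ rfl fun x hx => hle x (Finset.mem_of_mem_erase hx)
    · have hlt : F'.card < n := by
        rw [← hF]
        refine Finset.card_lt_card ?_
        exact (Finset.filter_subset _ _).ssubset_of_ne hcard
      have hIH := ih _ hlt F' rfl fun x hx => hle x (Finset.mem_filter.mp hx).1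
      have hun : (⋃ x ∈ F, Metric.ball x (r x))
          = Metric.ball x0 (r x0) ∪ ⋃ x ∈ F', Metric.ball x (r x) := by
        ext z
        simp only [mem_union, mem_iUnion, exists_prop]
        constructor
        · rintro ⟨x, hx, hz⟩
          by_cases hd : Disjoint (Metric.ball x0 (r x0)) (Metric.ball x (r x))
          · right; exact ⟨x, Finset.mem_filter.mpr ⟨hx, hd⟩, hz⟩
          · left; exact ultra_balls hu (hmax x hx) hd hz
        · rintro (hz | ⟨x, hx, hz⟩)
          · exact ⟨x0, hx0, hz⟩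
          · exact ⟨x, (Finset.mem_filter.mp hx).1, hz⟩
      have hdisj : Disjoint (Metric.ball x0 (r x0)) (⋃ x ∈ F', Metric.ball x (r x)) := by
        rw [Set.disjoint_iUnion₂_right]
        intro x hx
        exact (Finset.mem_filter.mp hx).2
      have hm : MeasurableSet (⋃ x ∈ F', Metric.ball x (r x)) :=
        F'.measurableSet_biUnion fun x _ => Metric.isOpen_ball.measurableSet
      rw [hun, measure_union hdisj hm, lintegral_union hm hdisj, mul_add]
      exact add_le_add (hle x0 hx0) hIH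

/-- weak type bound in a second countable ultrametric space -/
lemma ultra_weak [SecondCountableTopology X]
    (hu : ∀ x y z : X, dist x z ≤ max (dist x y) (dist y z)) (g : X → ℝ≥0∞) (c : ℝ≥0∞) :
    c * μ {x | ∃ r : ℝ, 0 < r ∧ c * μ (Metric.ball x r) < ∫⁻ y in Metric.ball x r, g y ∂μ}
      ≤ ∫⁻ y, g y ∂μ := by
  classical
  set U : Set X := {x | ∃ r : ℝ, 0 < r ∧ c * μ (Metric.ball x r) < ∫⁻ y in Metric.ball x r, g y ∂μ}
    with hU
  have hch : ∀ x : X, ∃ r : ℝ, x ∈ U →
      0 < r ∧ c * μ (Metric.ball x r) < ∫⁻ y in Metric.ball x r, g y ∂μ := by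
    intro x
    by_cases hx : x ∈ U
    · obtain ⟨r, hr⟩ := hx
      exact ⟨r, fun _ => hr⟩
    · exact ⟨0, fun h => absurd h hx⟩
  choose r hr using hch
  obtain ⟨t, htU, htc, hcov⟩ := TopologicalSpace.isOpen_biUnion_countable U
    (fun x => Metric.ball x (r x)) (fun x _ => Metric.isOpen_ball)
  have hsub : U ⊆ ⋃ x ∈ t, Metric.ball x (r x) := by
    rw [hcov]
    intro x hx
    exact mem_iUnion₂.mpr ⟨x, hx, Metric.mem_ball_self (hr x hx).1⟩
  rcases t.eq_empty_or_nonempty with h | h
  · subst h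
    have : U = ∅ := by simpa using hsub
    rw [this]; simp
  obtain ⟨f, hf⟩ := htc.exists_eq_range h
  set A : ℕ → Set X := fun n => ⋃ x ∈ (Finset.range n).image f, Metric.ball x (r x) with hA
  have hAmono : Monotone A := by
    intro m n hmn
    refine biUnion_subset_biUnion_left ?_
    intro x hx
    rw [Finset.mem_coe, Finset.mem_image] at hx ⊢
    obtain ⟨i, hi, rfl⟩ := hx
    exact ⟨i, Finset.mem_range.mpr (lt_of_lt_of_le (Finset.mem_range.mp hi) hmn), rfl⟩
  have hAU : (⋃ x ∈ t, Metric.ball x (r x)) ⊆ ⋃ n, A n := by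
    intro z hz
    rw [mem_iUnion₂] at hz
    obtain ⟨x, hx, hz⟩ := hz
    rw [hf] at hx
    obtain ⟨i, rfl⟩ := hx
    refine mem_iUnion.mpr ⟨i + 1, ?_⟩
    refine mem_iUnion₂.mpr ⟨f i, ?_, hz⟩
    exact Finset.mem_image.mpr ⟨i, Finset.mem_range.mpr (by omega), rfl⟩
  calc c * μ U ≤ c * μ (⋃ n, A n) := by
        gcongr
        exact hsub.trans hAU
    _ = c * ⨆ n, μ (A n) := by rw [hAmono.measure_iUnion]
    _ = ⨆ n, c * μ (A n) := ENNReal.mul_iSup _ _
    _ ≤ ∫⁻ y, g y ∂μ := by
        refine iSup_le fun n => ?_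
        refine (ultra_finite hu g c r _ ((Finset.range n).image f) rfl ?_).trans
          (setLIntegral_le_lintegral _ _)
        intro x hx
        obtain ⟨i, -, rfl⟩ := Finset.mem_image.mp hx
        have hfi : f i ∈ U := htU (by rw [hf]; exact mem_range_self i)
        exact (hr _ hfi).2.le

/-- every finite Borel measure on a separable ultrametric space has the Hardy–Littlewood
property -/
theorem hardyLittlewood_ultra [SecondCountableTopology X] [IsFiniteMeasure μ]
    (hu : ∀ x y z : X, dist x z ≤ max (dist x y) (dist y z)) : HardyLittlewood μ := by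
  refine ⟨2, by norm_num, fun f hf ε hε => ?_⟩
  have hw := ultra_weak (μ := μ) hu (fun y => ENNReal.ofReal |f y|) (ENNReal.ofReal (ε / 2))
  have hsub : {x | ENNReal.ofReal ε ≤ centredMax μ f x} ⊆
      {x | ∃ r : ℝ, 0 < r ∧ ENNReal.ofReal (ε / 2) * μ (Metric.ball x r)
        < ∫⁻ y in Metric.ball x r, ENNReal.ofReal |f y| ∂μ} := by
    intro x hx
    have h1 : ENNReal.ofReal (ε / 2) < centredMax μ f x :=
      lt_of_lt_of_le ((ENNReal.ofReal_lt_ofReal_iff hε).mpr (by linarith)) hx
    unfold centredMax at h1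
    rw [lt_iSup_iff] at h1
    obtain ⟨r, h1⟩ := h1
    rw [lt_iSup_iff] at h1
    obtain ⟨hr, h1⟩ := h1
    refine ⟨r, hr, ?_⟩
    have hne0 : μ (Metric.ball x r) ≠ 0 := by
      intro h0
      have h2 : ∫⁻ y in Metric.ball x r, ENNReal.ofReal |f y| ∂μ = 0 :=
        setLIntegral_measure_zero _ _ h0
      rw [h2, mul_zero] at h1
      exact not_lt_bot h1
    have htop := measure_ne_top μ (Metric.ball x r)
    rw [← ENNReal.div_eq_inv_mul] at h1
    exact (ENNReal.lt_div_iff_mul_lt (Or.inl hne0) (Or.inl htop)).mp h1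
  have hint : ∫⁻ y, ENNReal.ofReal |f y| ∂μ = ENNReal.ofReal (∫ y, |f y| ∂μ) :=
    (ofReal_integral_eq_lintegral_ofReal hf.abs (Eventually.of_forall fun y => abs_nonneg _)).symm
  rw [hint] at hw
  refine (measure_mono hsub).trans ?_
  set V := {x | ∃ r : ℝ, 0 < r ∧ ENNReal.ofReal (ε / 2) * μ (Metric.ball x r)
        < ∫⁻ y in Metric.ball x r, ENNReal.ofReal |f y| ∂μ} with hV
  rw [← ENNReal.ofReal_toReal (measure_ne_top μ V), ← ENNReal.ofReal_mul (by positivity)] at hw
  rw [← ENNReal.ofReal_toReal (measure_ne_top μ V)]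
  apply ENNReal.ofReal_le_ofReal
  have hI : 0 ≤ ∫ y, |f y| ∂μ := integral_nonneg fun y => abs_nonneg _
  have h3 := (ENNReal.ofReal_le_ofReal_iff hI).mp hw
  rw [le_div_iff₀ hε]
  linarith

end Pool.Agent.V11103
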