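import Mathlib
import Pool.Agent.V11103.HLUltra

set_option autoImplicit false

open Set Filter Topology MeasureTheory
open scoped ENNReal

namespace Pool.Agent.V11103

/-! ### the space -/

/-- sequences of pairs of natural numbers -/
def Blk : Type := ℕ → ℕ × ℕ

instance : MeasurableSpace Blk := inferInstanceAs (MeasurableSpace (ℕ → ℕ × ℕ))

/-- the interleaved sequence -/
def enc (x : Blk) : ℕ → ℕ := fun j => if j % 2 = 0 then (x (j / 2)).1 else (x (j / 2)).2

/-- the inverse -/
def dec (y : ℕ → ℕ) : Blk := fun i => (y (2 * i), y (2 * i + 1))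

lemma dec_enc (x : Blk) : dec (enc x) = x := by
  funext i
  unfold dec enc
  have h1 : (2 * i) % 2 = 0 := by omega
  have h2 : (2 * i + 1) % 2 ≠ 0 := by omega
  have h3 : 2 * i / 2 = i := by omega
  have h4 : (2 * i + 1) / 2 = i := by omega
  simp [h1, h3, h4]

lemma enc_inj : Function.Injective enc := Function.LeftInverse.injective dec_enc

lemma enc_dec (y : ℕ → ℕ) : enc (dec y) = y := by
  funext j
  unfold dec enc
  by_cases h : j % 2 = 0
  · simp only [h, if_true]
    congr 1; omega
  · simp only [h, if_false]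
    congr 1; omega

lemma measurable_enc : Measurable enc := by
  rw [measurable_pi_iff]
  intro j
  unfold enc
  have h : Measurable (fun x : Blk => x (j / 2)) :=
    (measurable_pi_apply (X := fun _ : ℕ => ℕ × ℕ) (j / 2))
  by_cases hj : j % 2 = 0
  · simp only [hj, if_true]; exact measurable_fst.comp h
  · simp only [hj, if_false]; exact measurable_snd.comp h

lemma measurable_dec : Measurable dec := by
  refine measurable_pi_iff.mpr fun i => ?_
  exact (measurable_pi_apply (2 * i)).prodMk (measurable_pi_apply (2 * i + 1))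

noncomputable instance : MetricSpace Blk :=
  MetricSpace.induced enc enc_inj (PiNat.metricSpace (E := fun _ => ℕ))

lemma dist_blk (x y : Blk) : dist x y = (PiNat.dist (E := fun _ => ℕ)).dist (enc x) (enc y) := rfl

lemma blk_ultra (x y z : Blk) : dist x z ≤ max (dist x y) (dist y z) := by
  rw [dist_blk, dist_blk, dist_blk]
  exact PiNat.dist_triangle_nonarch _ _ _

instance : SecondCountableTopology Blk := by
  show @SecondCountableTopology Blk
    (TopologicalSpace.induced enc (inferInstance : TopologicalSpace (ℕ → ℕ)))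
  exact TopologicalSpace.secondCountableTopology_induced Blk (ℕ → ℕ) enc

instance : BorelSpace Blk := by
  constructor
  have h1 : borel Blk = (borel (ℕ → ℕ)).comap enc := by
    have h0 : borel Blk = @borel Blk
      (TopologicalSpace.induced enc (inferInstance : TopologicalSpace (ℕ → ℕ))) := rfl
    rw [h0, borel_comap]
  rw [h1, ← (inferInstance : BorelSpace (ℕ → ℕ)).measurable_eq]
  have hemb : MeasurableEmbedding enc := by
    have hr : range enc = univ := by
      rw [range_eq_univ]
      intro y; exact ⟨dec y, enc_dec y⟩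
    refine MeasurableEmbedding.of_measurable_inverse measurable_enc ?_ measurable_dec dec_enc
    rw [hr]; exact MeasurableSet.univ
  exact hemb.comap_eq.symm

lemma mem_ball_pow (x y : Blk) (i : ℕ) :
    y ∈ Metric.ball x ((1 / 2 : ℝ) ^ (2 * i)) ↔ (∀ l < i, y l = x l) ∧ (y i).1 = (x i).1 := by
  rw [Metric.mem_ball, dist_blk]
  constructor
  · intro h
    have h1 : ∀ j ≤ 2 * i, enc y j = enc x j := fun j hj => PiNat.apply_eq_of_dist_lt h hj
    constructor
    · intro l hl
      have a1 := h1 (2 * l) (by omega)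
      have a2 := h1 (2 * l + 1) (by omega)
      unfold enc at a1 a2
      have h3 : 2 * l / 2 = l := by omega
      have h4 : (2 * l + 1) / 2 = l := by omega
      have h5 : (2 * l + 1) % 2 ≠ 0 := by omega
      simp only [Nat.mul_mod_right, h3, if_true] at a1
      simp only [h4, h5, if_false] at a2
      exact Prod.ext a1 a2
    · have a1 := h1 (2 * i) le_rfl
      unfold enc at a1
      have h3 : 2 * i / 2 = i := by omega
      simpa only [Nat.mul_mod_right, h3, if_true] using a1
  · rintro ⟨h1, h2⟩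
    have h3 : enc y ∈ PiNat.cylinder (enc x) (2 * i + 1) := by
      rw [PiNat.mem_cylinder_iff]
      intro j hj
      unfold enc
      by_cases hji : j / 2 < i
      · rw [h1 _ hji]
      · have h4 : j / 2 = i := by omega
        have h5 : j % 2 = 0 := by omega
        rw [h4]; simp only [h5, if_true]; exact h2
    have h4 := PiNat.mem_cylinder_iff_dist_le.mp h3
    refine lt_of_le_of_lt h4 ?_
    exact pow_lt_pow_right_of_lt_one₀ (by norm_num) (by norm_num) (by omega)

/-! ### uniform measures on finite sets -/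

/-- the uniform probability measure on a finite set of pairs -/
noncomputable def unif (S : Finset (ℕ × ℕ)) : Measure (ℕ × ℕ) :=
  (S.card : ℝ≥0∞)⁻¹ • ∑ s ∈ S, Measure.dirac s

lemma unif_apply (S : Finset (ℕ × ℕ)) (A : Set (ℕ × ℕ)) :
    unif S A = (S.card : ℝ≥0∞)⁻¹ * ∑ s ∈ S, A.indicator 1 s := by
  unfold unif
  rw [Measure.smul_apply, Measure.finsetSum_apply, smul_eq_mul]
  simp only [Measure.dirac_apply]

lemma unif_prob {S : Finset (ℕ × ℕ)} (h : S.Nonempty) : IsProbabilityMeasure (unif S) := by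
  constructor
  rw [unif_apply]
  simp only [indicator_univ, Pi.one_apply, Finset.sum_const, nsmul_eq_mul, mul_one]
  refine ENNReal.inv_mul_cancel ?_ (ENNReal.natCast_ne_top _)
  exact_mod_cast h.card_pos.ne'

lemma unif_preserving {S : Finset (ℕ × ℕ)} {τ : ℕ × ℕ → ℕ × ℕ} (hm : ∀ s ∈ S, τ s ∈ S)
    (hi : Set.InjOn τ S) : MeasurePreserving τ (unif S) (unif S) := by
  classical
  have hτ : Measurable τ := measurable_of_countable τ
  refine ⟨hτ, ?_⟩
  ext A hA
  rw [Measure.map_apply hτ hA, unif_apply, unif_apply]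
  congr 1
  have himg : S.image τ = S := by
    refine Finset.eq_of_subset_of_card_le ?_ ?_
    · intro s hs
      obtain ⟨t, ht, rfl⟩ := Finset.mem_image.mp hs
      exact hm t ht
    · rw [Finset.card_image_of_injOn hi]
  calc ∑ s ∈ S, (τ ⁻¹' A).indicator (1 : ℕ × ℕ → ℝ≥0∞) s
      = ∑ s ∈ S, A.indicator (1 : ℕ × ℕ → ℝ≥0∞) (τ s) := by
        refine Finset.sum_congr rfl fun s _ => ?_
        by_cases h : τ s ∈ A
        · rw [indicator_of_mem h, indicator_of_mem (s := τ ⁻¹' A) h]; rfl
        · rw [indicator_of_notMem h, indicator_of_notMem (s := τ ⁻¹' A) h]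
    _ = ∑ s ∈ S.image τ, A.indicator (1 : ℕ × ℕ → ℝ≥0∞) s := by
        rw [Finset.sum_image hi]
    _ = _ := by rw [himg]

/-! ### the block map -/

/-- the cyclic predecessor on `[0, 2^M)` -/
def prd (M j : ℕ) : ℕ := if j = 0 then 2 ^ M - 1 else j - 1

/-- the block map -/
def tau (L M : ℕ) (s : ℕ × ℕ) : ℕ × ℕ :=
  if s.1 = Nat.log 2 s.2 - L ∧ s.2 < 2 ^ M then (Nat.log 2 (prd M s.2) - L, prd M s.2) else s

lemma prd_lt {M j : ℕ} (hj : j < 2 ^ M) : prd M j < 2 ^ M := by
  unfold prd; split_ifs <;> omega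

lemma prd_inj {M i j : ℕ} (hi : i < 2 ^ M) (hj : j < 2 ^ M) (h : prd M i = prd M j) : i = j := by
  unfold prd at h; split_ifs at h <;> omega

/-- the box -/
def box (m M : ℕ) : Finset (ℕ × ℕ) := Finset.range m ×ˢ Finset.range (2 ^ M)

lemma mem_box {m M : ℕ} {s : ℕ × ℕ} : s ∈ box m M ↔ s.1 < m ∧ s.2 < 2 ^ M := by
  simp [box]

lemma log_lt {L m j : ℕ} (hm : 0 < m) (hj : j < 2 ^ (L + m)) : Nat.log 2 j - L < m := by
  rcases Nat.eq_zero_or_pos j with h | h
  · subst h; simpa using hm
  · have := Nat.log_lt_of_lt_pow h.ne' hj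
    omega

lemma tau_mem {L m : ℕ} (hm : 0 < m) {s : ℕ × ℕ} (hs : s ∈ box m (L + m)) :
    tau L (L + m) s ∈ box m (L + m) := by
  rw [mem_box] at hs ⊢
  unfold tau
  split_ifs with h
  · exact ⟨log_lt hm (prd_lt h.2), prd_lt h.2⟩
  · exact hs

lemma tau_injOn (L M : ℕ) : Function.Injective (tau L M) := by
  intro s t h
  unfold tau at h
  split_ifs at h with h1 h2 h2
  · have e := prd_inj h1.2 h2.2 (Prod.ext_iff.mp h).2
    exact Prod.ext (by rw [h1.1, h2.1, e]) e
  · exfalso
    apply h2
    rw [← h]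
    exact ⟨rfl, prd_lt h1.2⟩
  · exfalso
    apply h1
    rw [h]
    exact ⟨rfl, prd_lt h2.2⟩
  · exact h

lemma tau_step {L M t : ℕ} (ht : t + 1 < 2 ^ M) :
    tau L M (Nat.log 2 (t + 1) - L, t + 1) = (Nat.log 2 t - L, t) := by
  unfold tau prd
  rw [if_pos ⟨rfl, ht⟩]
  simp

lemma tau_iter {L M t : ℕ} (ht : t < 2 ^ M) :
    (tau L M)^[t] (Nat.log 2 t - L, t) = (0, 0) := by
  induction t with
  | zero => simp
  | succ t ih =>
    rw [Function.iterate_succ_apply, tau_step ht]
    exact ih (by omega)

end Pool.Agent.V11103
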