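import Mathlib
import Pool.Agent.V11103.Mix

set_option autoImplicit false

open Set Filter Topology MeasureTheory
open scoped ENNReal

namespace Pool.Agent.V11103

/-- number of levels at scale `i` -/
def mm (i : ℕ) : ℕ := 4 ^ (i + 1)
/-- `M_i` -/
def MM (i : ℕ) : ℕ := i + mm i
/-- the box at scale `i` -/
def bx (i : ℕ) : Finset (ℕ × ℕ) := box (mm i) (MM i)

lemma mm_pos (i : ℕ) : 0 < mm i := by unfold mm; positivity

lemma bx_nonempty (i : ℕ) : (bx i).Nonempty := by
  refine ⟨(0, 0), ?_⟩
  rw [bx, mem_box]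
  exact ⟨mm_pos i, by positivity⟩

lemma bx_card (i : ℕ) : (bx i).card = mm i * 2 ^ MM i := by
  simp [bx, box]

/-- the measure at scale `i` -/
noncomputable def nu (i : ℕ) : Measure (ℕ × ℕ) := unif (bx i)

noncomputable instance (i : ℕ) : IsProbabilityMeasure (nu i) := unif_prob (bx_nonempty i)

/-- the product measure -/
noncomputable def mu : Measure Blk := Measure.infinitePi nu

noncomputable instance : IsProbabilityMeasure mu :=
  inferInstanceAs (IsProbabilityMeasure (Measure.infinitePi nu))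

/-- the transformation -/
def TT (x : Blk) : Blk := fun i => tau i (MM i) (x i)

lemma TT_iter (t : ℕ) (x : Blk) (i : ℕ) : (TT^[t] x) i = (tau i (MM i))^[t] (x i) := by
  induction t generalizing x with
  | zero => rfl
  | succ t ih =>
    rw [Function.iterate_succ_apply, Function.iterate_succ_apply, ih]
    rfl

lemma tau_preserving (i : ℕ) : MeasurePreserving (tau i (MM i)) (nu i) (nu i) := by
  unfold nu
  refine unif_preserving (fun s hs => ?_) ((tau_injOn i (MM i)).injOn)
  exact tau_mem (mm_pos i) hs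

lemma TT_preserving : MeasurePreserving TT mu mu := by
  have hτ : ∀ i, Measurable (tau i (MM i)) := fun i => measurable_of_countable _
  refine ⟨?_, ?_⟩
  · refine measurable_pi_iff.mpr fun i => ?_
    exact (hτ i).comp (measurable_pi_apply (X := fun _ : ℕ => ℕ × ℕ) i)
  · have h := Measure.infinitePi_map_pi (μ := nu) (f := fun i => tau i (MM i)) hτ
    have h2 : (fun i => (nu i).map (tau i (MM i))) = nu := by
      funext i; exact (tau_preserving i).map_eq
    have h3 : Measure.infinitePi (fun i => (nu i).map (tau i (MM i))) = Measure.infinitePi nu := by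
      congr 1
    rw [h3] at h
    exact h

lemma mu_cyl (x : Blk) (i : ℕ) (A : Set (ℕ × ℕ)) :
    mu {y | (∀ l < i, y l = x l) ∧ y i ∈ A} = (∏ l ∈ Finset.range i, nu l {x l}) * nu i A := by
  classical
  have hset : {y : Blk | (∀ l < i, y l = x l) ∧ y i ∈ A}
      = Set.pi (Finset.range (i + 1) : Finset ℕ) (fun l => if l = i then A else {x l}) := by
    apply Set.Subset.antisymm
    · rintro y ⟨h1, h2⟩ l hl
      have hl' : l < i + 1 := by simpa using hl
      show y l ∈ (if l = i then A else ({x l} : Set (ℕ × ℕ)))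
      by_cases h : l = i
      · rw [if_pos h, h]; exact h2
      · rw [if_neg h]; exact h1 l (by omega)
    · intro y h
      constructor
      · intro l hl
        have h3 : y l ∈ (if l = i then A else ({x l} : Set (ℕ × ℕ))) :=
          h l (by simp only [Finset.coe_range, mem_Iio]; exact Nat.lt_succ_of_lt hl)
        rw [if_neg (by omega)] at h3
        exact h3
      · have h3 : y i ∈ (if i = i then A else ({x i} : Set (ℕ × ℕ))) :=
          h i (by simp only [Finset.coe_range, mem_Iio]; exact Nat.lt_succ_self i)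
        rw [if_pos rfl] at h3
        exact h3
  rw [hset]
  have h := Measure.infinitePi_pi (μ := nu) (s := Finset.range (i + 1))
    (t := fun l => if l = i then A else {x l}) (fun l _ => MeasurableSet.of_discrete)
  refine h.trans ?_
  rw [Finset.prod_range_succ, if_pos rfl]
  congr 1
  refine Finset.prod_congr rfl fun l hl => ?_
  rw [if_neg (Finset.mem_range.mp hl).ne]

lemma nu_singleton {i : ℕ} {s : ℕ × ℕ} (hs : s ∈ bx i) :
    nu i {s} = ((bx i).card : ℝ≥0∞)⁻¹ := by
  classical
  unfold nu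
  rw [unif_apply]
  have : ∑ u ∈ bx i, ({s} : Set (ℕ × ℕ)).indicator (1 : ℕ × ℕ → ℝ≥0∞) u = 1 := by
    rw [Finset.sum_eq_single_of_mem s hs]
    · simp
    · intro u _ hu
      exact indicator_of_notMem (by simpa using hu) _
  rw [this, mul_one]

lemma nu_column {i a : ℕ} (ha : a < mm i) :
    nu i {p | p.1 = a} = ((bx i).card : ℝ≥0∞)⁻¹ * (2 ^ MM i : ℕ) := by
  classical
  unfold nu
  rw [unif_apply]
  congr 1
  have : ∑ u ∈ bx i, ({p : ℕ × ℕ | p.1 = a}).indicator (1 : ℕ × ℕ → ℝ≥0∞) u
      = ((bx i).filter (fun p => p.1 = a)).card := by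
    rw [Finset.card_filter]
    push_cast
    refine Finset.sum_congr rfl fun u _ => ?_
    by_cases h : u.1 = a
    · rw [if_pos h, indicator_of_mem (s := {p : ℕ × ℕ | p.1 = a}) h]; rfl
    · rw [if_neg h, indicator_of_notMem (s := {p : ℕ × ℕ | p.1 = a}) h]
  rw [this]
  congr 1
  have h2 : (bx i).filter (fun p => p.1 = a) = {a} ×ˢ Finset.range (2 ^ MM i) := by
    ext ⟨u, v⟩
    simp only [bx, box, Finset.mem_filter, Finset.mem_product, Finset.mem_range,
      Finset.mem_singleton]
    constructor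
    · rintro ⟨⟨-, h1⟩, h2⟩; exact ⟨h2, h1⟩
    · rintro ⟨h1, h2⟩; subst h1; exact ⟨⟨ha, h2⟩, rfl⟩
  rw [h2]; simp

/-- the height at scale `i` -/
noncomputable def FF (i : ℕ) : ℝ := 2 ^ (i + MM i + 1)

/-- the function, with values in `[0,∞]` -/
noncomputable def GG (y : Blk) : ℝ≥0∞ :=
  ∑' i : ℕ, ({y : Blk | y i = (0, 0)}.indicator (fun _ => ENNReal.ofReal (FF i)) y)

lemma meas_coord (i : ℕ) (A : Set (ℕ × ℕ)) : MeasurableSet {y : Blk | y i ∈ A} :=
  (measurable_pi_apply (X := fun _ : ℕ => ℕ × ℕ) i) (MeasurableSet.of_discrete (s := A))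

lemma mu_coord (i : ℕ) (A : Set (ℕ × ℕ)) : mu {y : Blk | y i ∈ A} = nu i A :=
  (measurePreserving_eval_infinitePi nu i).measure_preimage
    (MeasurableSet.of_discrete (s := A)).nullMeasurableSet

lemma GG_meas : Measurable GG := by
  refine Measurable.tsum fun i => ?_
  exact measurable_const.indicator (meas_coord i {(0, 0)})

lemma GG_int : ∫⁻ y, GG y ∂mu ≠ ⊤ := by
  unfold GG
  rw [lintegral_tsum]
  swap
  · intro i
    exact (measurable_const.indicator (meas_coord i {(0, 0)})).aemeasurable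
  have h : ∀ i : ℕ, ∫⁻ y, ({y : Blk | y i = (0, 0)}.indicator (fun _ => ENNReal.ofReal (FF i)) y) ∂mu
      = ENNReal.ofReal ((1 / 2) ^ (i + 1)) := by
    intro i
    have hm : MeasurableSet {y : Blk | y i = (0, 0)} := meas_coord i {(0, 0)}
    rw [lintegral_indicator_const hm]
    have h1 : mu {y : Blk | y i = (0, 0)} = nu i {(0, 0)} := mu_coord i {(0, 0)}
    have h0 : ((0, 0) : ℕ × ℕ) ∈ bx i := by
      rw [bx, mem_box]; exact ⟨mm_pos i, by positivity⟩
    rw [h1, nu_singleton h0, bx_card]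
    have h2 : ((mm i * 2 ^ MM i : ℕ) : ℝ≥0∞) = ENNReal.ofReal ((4 : ℝ) ^ (i + 1) * 2 ^ MM i) := by
      rw [← ENNReal.ofReal_natCast]
      congr 1
      unfold mm
      push_cast
      rfl
    rw [h2, ← ENNReal.ofReal_inv_of_pos (by positivity), ← ENNReal.ofReal_mul (by unfold FF; positivity)]
    congr 1
    unfold FF
    have h4 : (4 : ℝ) ^ (i + 1) = 2 ^ (i + 1) * 2 ^ (i + 1) := by
      rw [← mul_pow]; norm_num
    rw [h4, one_div, inv_pow]
    have e : (2 : ℝ) ^ (i + MM i + 1) = 2 ^ (i + 1) * 2 ^ MM i := by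
      rw [← pow_add]; congr 1; ring
    rw [e]
    field_simp
  simp only [h]
  rw [← ENNReal.ofReal_tsum_of_nonneg (fun i => by positivity)]
  · exact ENNReal.ofReal_ne_top
  · have := summable_geometric_of_lt_one (r := (1 / 2 : ℝ)) (by norm_num) (by norm_num)
    exact (summable_nat_add_iff 1).mpr this

/-- the integrable function -/
noncomputable def ff (y : Blk) : ℝ := (GG y).toReal

lemma ff_int : Integrable ff mu := integrable_toReal_of_lintegral_ne_top GG_meas.aemeasurable GG_int

lemma ff_nonneg (y : Blk) : 0 ≤ ff y := ENNReal.toReal_nonneg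

lemma ff_ge : ∀ᵐ y ∂mu, ∀ t i : ℕ, (TT^[t] y) i = (0, 0) → FF i ≤ ff (TT^[t] y) := by
  have h1 : ∀ᵐ y ∂mu, GG y < ⊤ := ae_lt_top GG_meas GG_int
  rw [ae_all_iff]
  intro t
  have h2 : ∀ᵐ y ∂mu, GG (TT^[t] y) < ⊤ := (TT_preserving.iterate t).quasiMeasurePreserving.ae h1
  filter_upwards [h2] with y hy i hi
  have h3 : ENNReal.ofReal (FF i) ≤ GG (TT^[t] y) := by
    have h4 := ENNReal.le_tsum (f := fun i : ℕ =>
      ({y : Blk | y i = (0, 0)}.indicator (fun _ => ENNReal.ofReal (FF i)) (TT^[t] y))) i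
    rw [indicator_of_mem (s := {y : Blk | y i = (0, 0)}) hi] at h4
    exact h4
  have h5 := ENNReal.toReal_mono hy.ne h3
  rwa [ENNReal.toReal_ofReal (by unfold FF; positivity)] at h5

/-- almost every point lies in the support boxes -/
lemma ae_box : ∀ᵐ x ∂mu, ∀ i : ℕ, x i ∈ bx i := by
  rw [ae_all_iff]
  intro i
  have h1 : mu {y : Blk | y i ∈ ((bx i : Finset (ℕ × ℕ)) : Set (ℕ × ℕ))ᶜ} = 0 := by
    rw [mu_coord]
    unfold nu
    rw [unif_apply, Finset.sum_eq_zero, mul_zero]
    intro s hs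
    exact indicator_of_notMem (by simpa using hs) _
  rw [ae_iff]
  exact h1

/-- the main lower bound -/
lemma main_bound {x : Blk} (hx : ∀ i : ℕ, x i ∈ bx i) (i : ℕ) :
    (2 : ℝ) ^ i ≤ ballMean mu (timeMean TT ff (2 * 2 ^ (i + (x i).1))) x ((1 / 2 : ℝ) ^ (2 * i)) := by
  classical
  set a : ℕ := (x i).1 with ha
  have ham : a < mm i := by
    have := hx i
    rw [bx, mem_box] at this
    exact this.1
  set K : ℕ := 2 ^ (i + a) with hK
  set B : Set Blk := Metric.ball x ((1 / 2 : ℝ) ^ (2 * i)) with hB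
  have hBeq : B = {y : Blk | (∀ l < i, y l = x l) ∧ y i ∈ {p : ℕ × ℕ | p.1 = a}} := by
    ext y
    exact mem_ball_pow x y i
  set P : ℝ≥0∞ := ∏ l ∈ Finset.range i, nu l {x l} with hP
  have hPpos : P ≠ 0 := by
    rw [hP, Finset.prod_ne_zero_iff]
    intro l _
    rw [nu_singleton (hx l)]
    exact ENNReal.inv_ne_zero.mpr (ENNReal.natCast_ne_top _)
  have hmB : mu B = P * (((bx i).card : ℝ≥0∞)⁻¹ * (2 ^ MM i : ℕ)) := by
    rw [hBeq, mu_cyl, nu_column ham]
  set C : ℕ → Set Blk := fun t => {y : Blk | (∀ l < i, y l = x l) ∧ y i ∈ ({(a, t)} : Set (ℕ × ℕ))}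
    with hC
  have hCB : ∀ t, C t ⊆ B := by
    intro t y hy
    rw [hBeq]
    refine ⟨hy.1, ?_⟩
    have : y i = (a, t) := hy.2
    show (y i).1 = a
    rw [this]
  have hmC : ∀ t < 2 ^ MM i, mu (C t) * (2 ^ MM i : ℕ) = mu B := by
    intro t ht
    rw [hmB]
    simp only [hC]
    rw [mu_cyl, nu_singleton (by rw [bx, mem_box]; exact ⟨ham, ht⟩)]
    ring
  have hCm : ∀ t, MeasurableSet (C t) := by
    intro t
    have : C t = (⋂ l ∈ Finset.range i, {y : Blk | y l ∈ ({x l} : Set (ℕ × ℕ))})
        ∩ {y : Blk | y i ∈ ({(a, t)} : Set (ℕ × ℕ))} := by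
      ext y
      simp [hC]
    rw [this]
    exact (Finset.measurableSet_biInter _ fun l _ => meas_coord l _).inter (meas_coord i _)
  have hBpos : 0 < mu.real B := by
    rw [Measure.real, ENNReal.toReal_pos_iff]
    refine ⟨?_, measure_lt_top mu B⟩
    rw [hmB, pos_iff_ne_zero]
    refine mul_ne_zero hPpos (mul_ne_zero (ENNReal.inv_ne_zero.mpr (ENNReal.natCast_ne_top _)) ?_)
    positivity
  have hCreal : ∀ t < 2 ^ MM i, mu.real (C t) = mu.real B / 2 ^ MM i := by
    intro t ht
    have h1 := congrArg ENNReal.toReal (hmC t ht)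
    rw [ENNReal.toReal_mul, ENNReal.toReal_natCast] at h1
    rw [eq_div_iff (by positivity)]
    push_cast at h1
    exact h1
  have hBm : MeasurableSet B := Metric.isOpen_ball.measurableSet
  -- integrals of the iterates
  have hfi : ∀ t : ℕ, Integrable (fun y => ff (TT^[t] y)) mu := fun t =>
    (TT_preserving.iterate t).integrable_comp_of_integrable ff_int
  have hint : ∀ t ∈ Finset.Ico K (2 * K), FF i * (mu.real B / 2 ^ MM i)
      ≤ ∫ y in B, ff (TT^[t] y) ∂mu := by
    intro t ht
    rw [Finset.mem_Ico] at ht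
    have hlog : Nat.log 2 t = i + a := by
      rw [Nat.log_eq_iff (Or.inr ⟨by norm_num, by have : 0 < K := by positivity
                                                  omega⟩)]
      refine ⟨ht.1, ?_⟩
      rw [pow_succ]; omega
    have htM : t < 2 ^ MM i := by
      refine lt_of_lt_of_le ht.2 ?_
      rw [hK, ← pow_succ']
      refine Nat.pow_le_pow_right (by norm_num) ?_
      unfold MM; omega
    rw [← hCreal t htM]
    have h1 : ∫ y in C t, (FF i) ∂mu ≤ ∫ y in C t, ff (TT^[t] y) ∂mu := by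
      refine setIntegral_mono_on_ae (integrable_const _).integrableOn (hfi t).integrableOn (hCm t) ?_
      filter_upwards [ff_ge] with y hy hyC
      apply hy t i
      rw [TT_iter]
      have h2 : y i = (a, t) := hyC.2
      have h3 := tau_iter (L := i) htM
      rw [hlog] at h3
      have h4 : i + a - i = a := by omega
      rw [h4] at h3
      rw [h2]; exact h3
    have h2 : ∫ y in C t, (FF i) ∂mu = FF i * mu.real (C t) := by
      rw [setIntegral_const, smul_eq_mul, mul_comm]
    rw [← h2]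
    refine h1.trans ?_
    exact setIntegral_mono_set (hfi t).integrableOn (Eventually.of_forall fun y => ff_nonneg _)
      (Filter.Eventually.of_forall (hCB t))
  -- assemble
  have hKpos : (0 : ℝ) < K := by
    have : 0 < K := by positivity
    exact_mod_cast this
  have hsum : ∫ y in B, timeMean TT ff (2 * K) y ∂mu
      = (1 / ((2 * K : ℕ) : ℝ)) * ∑ t ∈ Finset.range (2 * K), ∫ y in B, ff (TT^[t] y) ∂mu := by
    unfold timeMean
    rw [integral_const_mul, integral_finsetSum]
    intro t _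
    exact (hfi t).integrableOn
  have hsum2 : ∑ t ∈ Finset.Ico K (2 * K), FF i * (mu.real B / 2 ^ MM i)
      ≤ ∑ t ∈ Finset.range (2 * K), ∫ y in B, ff (TT^[t] y) ∂mu := by
    refine (Finset.sum_le_sum hint).trans ?_
    refine Finset.sum_le_sum_of_subset_of_nonneg ?_ ?_
    · intro t ht
      rw [Finset.mem_Ico] at ht
      exact Finset.mem_range.mpr ht.2
    · intro t _ _
      exact integral_nonneg fun y => ff_nonneg _
  unfold ballMean
  rw [← hB, hsum]
  have hcard : ∑ t ∈ Finset.Ico K (2 * K), FF i * (mu.real B / 2 ^ MM i)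
      = K * (FF i * (mu.real B / 2 ^ MM i)) := by
    rw [Finset.sum_const, Nat.card_Ico, nsmul_eq_mul]
    congr 2
    omega
  rw [hcard] at hsum2
  have hfin : (mu.real B)⁻¹ * ((1 / ((2 * K : ℕ) : ℝ)) * (K * (FF i * (mu.real B / 2 ^ MM i))))
      = 2 ^ i := by
    unfold FF
    have e : (2 : ℝ) ^ (i + MM i + 1) = 2 ^ i * 2 ^ MM i * 2 := by
      rw [pow_succ, pow_add]
    rw [e]
    push_cast
    field_simp
  rw [← hfin]
  refine mul_le_mul_of_nonneg_left ?_ (by positivity)
  exact mul_le_mul_of_nonneg_left hsum2 (by positivity)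

theorem mix_no_limit : ∀ᵐ x ∂mu, ¬ ∃ L : ℝ,
    Tendsto (fun q : ℝ × ℕ => ballMean mu (timeMean TT ff q.2) x q.1) (𝓝[>] 0 ×ˢ atTop) (𝓝 L) := by
  filter_upwards [ae_box] with x hx
  rintro ⟨L, hL⟩
  have h1 : Tendsto (fun i : ℕ => (1 / 2 : ℝ) ^ (2 * i)) atTop (𝓝[>] 0) := by
    rw [tendsto_nhdsWithin_iff]
    constructor
    · have h2 : Tendsto (fun i : ℕ => 2 * i) atTop atTop := tendsto_id.const_mul_atTop' (by norm_num)
      exact (tendsto_pow_atTop_nhds_zero_of_lt_one (by norm_num) (by norm_num)).comp h2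
    · exact Eventually.of_forall fun i => by
        show (0 : ℝ) < (1 / 2) ^ (2 * i)
        positivity
  have h2 : Tendsto (fun i : ℕ => 2 * 2 ^ (i + (x i).1)) atTop atTop := by
    refine tendsto_atTop_mono (fun i => ?_) tendsto_id
    have h3 : i < 2 ^ i := Nat.lt_two_pow_self
    have h4 : 2 ^ i ≤ 2 ^ (i + (x i).1) := Nat.pow_le_pow_right (by norm_num) (by omega)
    simp only [id]
    omega
  have h3 := hL.comp (h1.prodMk h2)
  have h4 : Tendsto (fun i : ℕ => (2 : ℝ) ^ i) atTop atTop :=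
    tendsto_pow_atTop_atTop_of_one_lt (by norm_num)
  have h5 := tendsto_atTop_mono (fun i => main_bound hx i) h4
  exact not_tendsto_nhds_of_tendsto_atTop h5 L h3

end Pool.Agent.V11103
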