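import Mathlib

/-!
# Counting sequences which are walks on a labelled path

`g l` is the largest value, over all ways `β` of arranging the `n` labels along a path, of the
product over consecutive entries of `l` of: `2` if they are equal, `1` if they are neighbours on
the path, `0` otherwise. We bound the sum of `g` over all sequences of length `t + 1`.
-/

set_option autoImplicit false

namespace Pool.Agent.V11103.AG

open Finset

variable {n : ℕ}

/-- the weight of a pair of positions -/
def a (p q : Fin n) : ℕ :=
  if p = q then 2 else if p.val + 1 = q.val ∨ q.val + 1 = p.val then 1 else 0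

/-- product of the weights of consecutive entries -/
def cc : List (Fin n) → ℕ
  | [] => 1
  | [_] => 1
  | x :: y :: l => a x y * cc (y :: l)

/-- the value of a sequence of labels for the arrangement `β` -/
def cN (β : Equiv.Perm (Fin n)) (l : List (Fin n)) : ℕ := cc (l.map β)

theorem cN_single (β : Equiv.Perm (Fin n)) (x : Fin n) : cN β [x] = 1 := rfl

theorem cN_cons (β : Equiv.Perm (Fin n)) (x y : Fin n) (l : List (Fin n)) :
    cN β (x :: y :: l) = a (β x) (β y) * cN β (y :: l) := rfl

/-- the largest value over all arrangements -/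
def g (l : List (Fin n)) : ℕ := univ.sup (fun β : Equiv.Perm (Fin n) => cN β l)

theorem cN_le_g (β : Equiv.Perm (Fin n)) (l : List (Fin n)) : cN β l ≤ g l :=
  Finset.le_sup (f := fun β : Equiv.Perm (Fin n) => cN β l) (mem_univ β)

theorem exists_of_g {l : List (Fin n)} (h : g l ≠ 0) : ∃ β, cN β l ≠ 0 := by
  by_contra hc
  push Not at hc
  apply h
  rw [← Nat.le_zero]
  exact Finset.sup_le fun β _ => by simp [hc β]

theorem g_single (x : Fin n) : g [x] = 1 := by
  unfold g
  simp only [cN_single]
  apply le_antisymm
  · exact Finset.sup_le fun β _ => le_rfl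
  · exact Finset.le_sup (f := fun _ : Equiv.Perm (Fin n) => 1) (mem_univ (Equiv.refl _))

theorem a_le (β : Equiv.Perm (Fin n)) (x y : Fin n) : a (β x) (β y) ≤ if x = y then 2 else 1 := by
  unfold a
  by_cases h : x = y
  · simp [h]
  · have : β x ≠ β y := fun h' => h (β.injective h')
    rw [if_neg this, if_neg h]
    split_ifs <;> omega

theorem g_cons_le (x y : Fin n) (l : List (Fin n)) :
    g (x :: y :: l) ≤ (if x = y then 2 else 1) * g (y :: l) := by
  apply Finset.sup_le
  intro β _
  rw [cN_cons]
  exact Nat.mul_le_mul (a_le β x y) (cN_le_g β _)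

/-- `y` is immediately followed by `x` in the list -/
def nb (y x : Fin n) : List (Fin n) → Prop
  | [] => False
  | [_] => False
  | u :: v :: l => (u = y ∧ v = x) ∨ nb y x (v :: l)

theorem nb_adj (β : Equiv.Perm (Fin n)) (y x : Fin n) :
    ∀ l : List (Fin n), cN β l ≠ 0 → nb y x l → a (β y) (β x) ≠ 0
  | [], _, h => by simp [nb] at h
  | [_], _, h => by simp [nb] at h
  | u :: v :: l, hc, h => by
      rw [cN_cons] at hc
      have h1 := left_ne_zero_of_mul hc
      have h2 := right_ne_zero_of_mul hc
      rcases h with ⟨rfl, rfl⟩ | h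
      · exact h1
      · exact nb_adj β y x (v :: l) h2 h

theorem walk_up (β : Equiv.Perm (Fin n)) (y x : Fin n) (hx : (β x).val = (β y).val + 1) :
    ∀ (l : List (Fin n)) (z : Fin n), cN β (z :: l) ≠ 0 → (β z).val ≤ (β y).val →
      x ∈ z :: l → nb y x (z :: l)
  | [], z, _, hz, hm => by
      simp only [List.mem_singleton] at hm
      subst hm
      omega
  | z' :: l, z, hc, hz, hm => by
      rw [cN_cons] at hc
      have h1 := left_ne_zero_of_mul hc
      have h2 := right_ne_zero_of_mul hc
      have hxz : x ≠ z := by
        rintro rfl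
        omega
      have hm' : x ∈ z' :: l := by
        rcases List.mem_cons.1 hm with h | h
        · exact absurd h hxz
        · exact h
      by_cases hz' : (β z').val ≤ (β y).val
      · exact Or.inr (walk_up β y x hx l z' h2 hz' hm')
      · left
        unfold a at h1
        have h3 : β z ≠ β z' := by
          intro h
          rw [h] at hz
          exact hz' hz
        rw [if_neg h3] at h1
        have h4 : (β z).val + 1 = (β z').val ∨ (β z').val + 1 = (β z).val := by
          by_contra h5
          rw [if_neg h5] at h1
          exact h1 rfl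
        constructor
        · apply β.injective
          apply Fin.ext
          omega
        · apply β.injective
          apply Fin.ext
          omega

theorem walk_down (β : Equiv.Perm (Fin n)) (y x : Fin n) (hx : (β x).val + 1 = (β y).val) :
    ∀ (l : List (Fin n)) (z : Fin n), cN β (z :: l) ≠ 0 → (β y).val ≤ (β z).val →
      x ∈ z :: l → nb y x (z :: l)
  | [], z, _, hz, hm => by
      simp only [List.mem_singleton] at hm
      subst hm
      omega
  | z' :: l, z, hc, hz, hm => by
      rw [cN_cons] at hc
      have h1 := left_ne_zero_of_mul hc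
      have h2 := right_ne_zero_of_mul hc
      have hxz : x ≠ z := by
        rintro rfl
        omega
      have hm' : x ∈ z' :: l := by
        rcases List.mem_cons.1 hm with h | h
        · exact absurd h hxz
        · exact h
      by_cases hz' : (β y).val ≤ (β z').val
      · exact Or.inr (walk_down β y x hx l z' h2 hz' hm')
      · left
        unfold a at h1
        have h3 : β z ≠ β z' := by
          intro h
          rw [h] at hz
          exact hz' hz
        rw [if_neg h3] at h1
        have h4 : (β z).val + 1 = (β z').val ∨ (β z').val + 1 = (β z).val := by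
          by_contra h5
          rw [if_neg h5] at h1
          exact h1 rfl
        constructor
        · apply β.injective
          apply Fin.ext
          omega
        · apply β.injective
          apply Fin.ext
          omega

theorem seen {y x : Fin n} {l : List (Fin n)} (hm : x ∈ y :: l) (hne : x ≠ y)
    (hg : g (x :: y :: l) ≠ 0) : nb y x (y :: l) := by
  obtain ⟨β, hβ⟩ := exists_of_g hg
  rw [cN_cons] at hβ
  have h1 := left_ne_zero_of_mul hβ
  have h2 := right_ne_zero_of_mul hβ
  unfold a at h1
  have h3 : β x ≠ β y := fun h => hne (β.injective h)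
  rw [if_neg h3] at h1
  have h4 : (β x).val + 1 = (β y).val ∨ (β y).val + 1 = (β x).val := by
    by_contra h5
    rw [if_neg h5] at h1
    exact h1 rfl
  rcases h4 with h | h
  · exact walk_down β y x h l y h2 le_rfl hm
  · exact walk_up β y x h.symm l y h2 le_rfl hm

theorem card_seen (y : Fin n) (l : List (Fin n)) :
    (univ.filter fun x : Fin n => x ∈ y :: l ∧ x ≠ y ∧ g (x :: y :: l) ≠ 0).card ≤ 2 := by
  by_cases hg : g (y :: l) = 0
  · have : (univ.filter fun x : Fin n => x ∈ y :: l ∧ x ≠ y ∧ g (x :: y :: l) ≠ 0) = ∅ := by
      apply Finset.filter_false_of_mem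
      intro x _ h
      apply h.2.2
      have := g_cons_le x y l
      rw [hg, mul_zero] at this
      omega
    rw [this]
    simp
  · obtain ⟨β, hβ⟩ := exists_of_g hg
    have hsub : (univ.filter fun x : Fin n => x ∈ y :: l ∧ x ≠ y ∧ g (x :: y :: l) ≠ 0) ⊆
        (univ.filter fun x : Fin n => (β x).val + 1 = (β y).val) ∪
        (univ.filter fun x : Fin n => (β y).val + 1 = (β x).val) := by
      intro x hx
      simp only [mem_filter, mem_univ, true_and] at hx
      have h1 := nb_adj β y x (y :: l) hβ (seen hx.1 hx.2.1 hx.2.2)
      simp only [mem_union, mem_filter, mem_univ, true_and]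
      unfold a at h1
      have h3 : β y ≠ β x := fun h => hx.2.1 (β.injective h).symm
      rw [if_neg h3] at h1
      by_contra h5
      rw [if_neg (by tauto)] at h1
      exact h1 rfl
    refine (Finset.card_le_card hsub).trans ((Finset.card_union_le _ _).trans ?_)
    have h1 : (univ.filter fun x : Fin n => (β x).val + 1 = (β y).val).card ≤ 1 := by
      rw [Finset.card_le_one]
      intro u hu v hv
      simp only [mem_filter, mem_univ, true_and] at hu hv
      apply β.injective
      apply Fin.ext
      omega
    have h2 : (univ.filter fun x : Fin n => (β y).val + 1 = (β x).val).card ≤ 1 := by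
      rw [Finset.card_le_one]
      intro u hu v hv
      simp only [mem_filter, mem_univ, true_and] at hu hv
      apply β.injective
      apply Fin.ext
      omega
    omega

theorem sum_seen (y : Fin n) (l : List (Fin n)) :
    ∑ x ∈ (y :: l).toFinset, g (x :: y :: l) ≤ 4 * g (y :: l) := by
  have h1 : ∑ x ∈ (y :: l).toFinset, g (x :: y :: l) ≤
      ∑ x ∈ (y :: l).toFinset, ((if x = y then 2 * g (y :: l) else 0) +
        if (x ≠ y ∧ g (x :: y :: l) ≠ 0) then g (y :: l) else 0) := by
    apply Finset.sum_le_sum
    intro x _
    have h := g_cons_le x y l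
    by_cases hxy : x = y
    · rw [if_pos hxy] at h ⊢
      rw [if_neg (by tauto)]
      omega
    · rw [if_neg hxy] at h ⊢
      by_cases h0 : g (x :: y :: l) = 0
      · omega
      · rw [if_pos ⟨hxy, h0⟩]
        omega
  refine h1.trans ?_
  rw [Finset.sum_add_distrib, ← Finset.sum_filter, ← Finset.sum_filter, Finset.sum_const,
    Finset.sum_const, smul_eq_mul, smul_eq_mul]
  have h2 : ((y :: l).toFinset.filter fun x => x = y).card ≤ 1 := by
    rw [Finset.card_le_one]
    intro u hu v hv
    rw [mem_filter] at hu hv
    rw [hu.2, hv.2]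
  have h3 : ((y :: l).toFinset.filter fun x => x ≠ y ∧ g (x :: y :: l) ≠ 0).card ≤ 2 := by
    refine (Finset.card_le_card ?_).trans (card_seen y l)
    intro x hx
    rw [mem_filter] at hx ⊢
    exact ⟨mem_univ _, List.mem_toFinset.1 hx.1, hx.2⟩
  nlinarith [Nat.mul_le_mul h2 (le_refl (2 * g (y :: l))), Nat.mul_le_mul h3 (le_refl (g (y :: l)))]

/-- one step of the recursion -/
def Mop (n : ℕ) (h : ℕ → ℕ) (r : ℕ) : ℕ := 4 * h r + (n - r) * h (r + 1)

theorem step (y : Fin n) (l : List (Fin n)) (h : ℕ → ℕ) :
    ∑ x : Fin n, g (x :: y :: l) * h (x :: y :: l).toFinset.card ≤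
      g (y :: l) * Mop n h (y :: l).toFinset.card := by
  rw [← Finset.sum_add_sum_compl (y :: l).toFinset]
  have h1 : ∑ x ∈ (y :: l).toFinset, g (x :: y :: l) * h (x :: y :: l).toFinset.card ≤
      (4 * g (y :: l)) * h (y :: l).toFinset.card := by
    have : ∀ x ∈ (y :: l).toFinset, g (x :: y :: l) * h (x :: y :: l).toFinset.card =
        g (x :: y :: l) * h (y :: l).toFinset.card := by
      intro x hx
      rw [List.toFinset_cons (a := x), Finset.insert_eq_of_mem hx]
    rw [Finset.sum_congr rfl this, ← Finset.sum_mul]
    exact Nat.mul_le_mul (sum_seen y l) le_rfl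
  have h2 : ∑ x ∈ ((y :: l).toFinset)ᶜ, g (x :: y :: l) * h (x :: y :: l).toFinset.card ≤
      (n - (y :: l).toFinset.card) * (g (y :: l) * h ((y :: l).toFinset.card + 1)) := by
    have : ∀ x ∈ ((y :: l).toFinset)ᶜ, g (x :: y :: l) * h (x :: y :: l).toFinset.card ≤
        g (y :: l) * h ((y :: l).toFinset.card + 1) := by
      intro x hx
      rw [mem_compl] at hx
      rw [List.toFinset_cons (a := x), Finset.card_insert_of_notMem hx]
      apply Nat.mul_le_mul _ le_rfl
      have h3 := g_cons_le x y l
      have h4 : x ≠ y := by
        rintro rfl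
        exact hx (by simp)
      rw [if_neg h4, one_mul] at h3
      exact h3
    refine (Finset.sum_le_card_nsmul _ _ _ this).trans ?_
    rw [card_compl, Fintype.card_fin, smul_eq_mul]
  refine (Nat.add_le_add h1 h2).trans ?_
  unfold Mop
  apply le_of_eq
  ring

theorem total (t : ℕ) : ∀ h : ℕ → ℕ,
    ∑ j : Fin (t + 1) → Fin n, g (List.ofFn j) * h (List.ofFn j).toFinset.card ≤
      n * ((Mop n)^[t] h) 1 := by
  induction t with
  | zero =>
      intro h
      have : ∀ j : Fin 1 → Fin n, g (List.ofFn j) * h (List.ofFn j).toFinset.card = h 1 := by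
        intro j
        simp [List.ofFn_succ, g_single]
      rw [Finset.sum_congr rfl fun j _ => this j]
      simp
  | succ t ih =>
      intro h
      rw [← (Fin.consEquiv (fun _ : Fin (t + 2) => Fin n)).sum_comp, Fintype.sum_prod_type,
        Finset.sum_comm]
      have h1 : ∀ j : Fin (t + 1) → Fin n,
          ∑ x : Fin n, g (List.ofFn ((Fin.consEquiv (fun _ : Fin (t + 2) => Fin n)) (x, j))) *
            h (List.ofFn ((Fin.consEquiv (fun _ : Fin (t + 2) => Fin n)) (x, j))).toFinset.card ≤
          g (List.ofFn j) * Mop n h (List.ofFn j).toFinset.card := by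
        intro j
        have h2 : ∀ x, List.ofFn ((Fin.consEquiv (fun _ : Fin (t + 2) => Fin n)) (x, j)) =
            x :: List.ofFn j := by
          intro x
          rw [List.ofFn_succ]
          simp [Fin.consEquiv]
        simp only [h2]
        rw [List.ofFn_succ (f := j)]
        exact step _ _ h
      refine (Finset.sum_le_sum fun j _ => h1 j).trans ?_
      rw [Function.iterate_succ_apply]
      exact ih (Mop n h)

end Pool.Agent.V11103.AG
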