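import Mathlib
import Pool.Agent.V11103.AGComb

/-!
# The matrices

For the arrangement `β` of the labels `0, …, n-1` along a path the label `i` is sent to the root
vector `e_p - e_(p+1)` with `p = β i`. The matrix of the label `i` is the direct sum over all
arrangements of the rank one matrices given by these vectors.
-/

set_option autoImplicit false

namespace Pool.Agent.V11103.AG

open Finset Matrix
open scoped Matrix.Norms.L2Operator ComplexOrder

variable {n : ℕ}

/-- the root vector `e_k - e_(k+1)` -/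
def u (k : Fin n) (c : Fin (n + 1)) : ℤ :=
  if c = k.castSucc then 1 else if c = k.succ then -1 else 0

/-- the inner products of the root vectors -/
def s (p q : Fin n) : ℤ :=
  if p = q then 2 else if p.val + 1 = q.val ∨ q.val + 1 = p.val then -1 else 0

theorem sum_u (p q : Fin n) : ∑ c, u p c * u q c = s p q := by
  have h : ∀ c, u p c * u q c = (if c = p.castSucc then u q c else 0) -
      (if c = p.succ then u q c else 0) := by
    intro c
    have hne : p.castSucc ≠ p.succ := by
      intro h
      have := congrArg Fin.val h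
      simp at this
    show (if c = p.castSucc then (1 : ℤ) else if c = p.succ then -1 else 0) * u q c = _
    by_cases h1 : c = p.castSucc
    · have h2 : c ≠ p.succ := by rw [h1]; exact hne
      rw [if_pos h1, if_pos h1, if_neg h2]
      ring
    · by_cases h2 : c = p.succ
      · rw [if_neg h1, if_neg h1, if_pos h2, if_pos h2]
        ring
      · rw [if_neg h1, if_neg h1, if_neg h2, if_neg h2]
        ring
  rw [Finset.sum_congr rfl fun c _ => h c, Finset.sum_sub_distrib]
  simp only [Finset.sum_ite_eq', mem_univ, if_true]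
  unfold u s
  simp only [Fin.ext_iff, Fin.val_castSucc, Fin.val_succ]
  by_cases h1 : p.val = q.val
  · simp [h1]
  · by_cases h2 : p.val + 1 = q.val
    · have h3 : p.val ≠ q.val + 1 := by omega
      simp [h1, h2, h3]
    · by_cases h3 : q.val + 1 = p.val
      · have h4 : p.val ≠ q.val := by omega
        have h5 : p.val + 1 ≠ q.val := by omega
        have h6 : p.val + 1 ≠ q.val + 1 := by omega
        rw [if_neg h4, if_pos h3.symm, if_neg h5, if_neg h6, if_neg h4, if_pos (Or.inr h3)]
        norm_num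
      · have h4 : p.val ≠ q.val := h1
        have h5 : p.val ≠ q.val + 1 := fun h => h3 h.symm
        have h6 : p.val + 1 ≠ q.val + 1 := by omega
        rw [if_neg h4, if_neg h5, if_neg h2, if_neg h6, if_neg h4, if_neg (by tauto)]
        norm_num

theorem s_abs (p q : Fin n) : ‖((s p q : ℤ) : ℂ)‖ = (a p q : ℝ) := by
  unfold s a
  split_ifs <;> simp

/-- the index type of the direct sum -/
abbrev Ix (n : ℕ) : Type := Equiv.Perm (Fin n) × Fin (n + 1)

/-- the dimension -/
noncomputable def dm (n : ℕ) : ℕ := Fintype.card (Ix n)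

/-- the enumeration of the index type -/
noncomputable def en (n : ℕ) : Ix n ≃ Fin (dm n) := Fintype.equivFin (Ix n)

/-- the row vectors of the label `i`, one for each arrangement -/
noncomputable def B (i : Fin n) : Matrix (Equiv.Perm (Fin n)) (Fin (dm n)) ℂ :=
  Matrix.of fun β c => if ((en n).symm c).1 = β then ((u (β i) ((en n).symm c).2 : ℤ) : ℂ) else 0

/-- the positive semidefinite matrix of the label `i` -/
noncomputable def A (i : Fin n) : Matrix (Fin (dm n)) (Fin (dm n)) ℂ := (B i)ᴴ * B i

theorem A_psd (i : Fin n) : (A i).PosSemidef := Matrix.posSemidef_conjTranspose_mul_self _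

theorem B_mul (i k : Fin n) :
    B i * (B k)ᴴ = Matrix.diagonal fun β => ((s (β i) (β k) : ℤ) : ℂ) := by
  ext β γ
  rw [Matrix.mul_apply, ← (en n).sum_comp]
  simp only [B, Matrix.of_apply, Matrix.conjTranspose_apply, Equiv.symm_apply_apply]
  rw [Fintype.sum_prod_type]
  by_cases h : β = γ
  · subst h
    rw [Matrix.diagonal_apply_eq, Finset.sum_eq_single β]
    · simp only [if_true]
      rw [← sum_u]
      push_cast
      apply Finset.sum_congr rfl
      intro c _
      simp
    · intro δ _ hδ
      apply Finset.sum_eq_zero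
      intro c _
      simp [hδ]
    · intro h
      exact absurd (mem_univ _) h
  · rw [Matrix.diagonal_apply_ne _ h]
    apply Finset.sum_eq_zero
    intro δ _
    apply Finset.sum_eq_zero
    intro c _
    by_cases h1 : δ = β
    · have h2 : δ ≠ γ := by rw [h1]; exact h
      simp [h2]
    · simp [h1]

theorem normB (i : Fin n) : ‖B i‖ * ‖B i‖ = 2 := by
  have h1 := l2_opNorm_conjTranspose_mul_self ((B i)ᴴ)
  rw [conjTranspose_conjTranspose, B_mul, l2_opNorm_diagonal, l2_opNorm_conjTranspose] at h1
  rw [← h1]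
  have h2 : (fun β : Equiv.Perm (Fin n) => ((s (β i) (β i) : ℤ) : ℂ)) = fun _ => (2 : ℂ) := by
    funext β
    simp [s]
  rw [h2, pi_norm_const]
  simp

/-- the product of the inner products along a list -/
def sp (β : Equiv.Perm (Fin n)) : List (Fin n) → ℤ
  | [] => 1
  | [_] => 1
  | x :: y :: l => s (β x) (β y) * sp β (y :: l)

theorem sp_norm (β : Equiv.Perm (Fin n)) : ∀ l : List (Fin n), ‖((sp β l : ℤ) : ℂ)‖ = (cN β l : ℝ)
  | [] => by simp [sp, cN, cc]
  | [_] => by simp [sp, cN, cc]
  | x :: y :: l => by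
      have ih := sp_norm β (y :: l)
      rw [cN_cons]
      have : sp β (x :: y :: l) = s (β x) (β y) * sp β (y :: l) := rfl
      rw [this]
      push_cast
      rw [norm_mul, s_abs, ih]

/-- the diagonal of a list -/
noncomputable def dv (l : List (Fin n)) : Equiv.Perm (Fin n) → ℂ := fun β => ((sp β l : ℤ) : ℂ)

theorem dv_norm_le (l : List (Fin n)) : ‖dv l‖ ≤ (g l : ℝ) := by
  rw [pi_norm_le_iff_of_nonneg (Nat.cast_nonneg _)]
  intro β
  unfold dv
  rw [sp_norm]
  exact_mod_cast cN_le_g β l

theorem le_dv_norm (β : Equiv.Perm (Fin n)) (l : List (Fin n)) : (cN β l : ℝ) ≤ ‖dv l‖ := by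
  rw [← sp_norm]
  exact norm_le_pi_norm (dv l) β

theorem prod_eq : ∀ (l : List (Fin n)) (x : Fin n), ∃ z : Fin n,
    ((x :: l).map A).prod = (B x)ᴴ * (diagonal (dv (x :: l)) * B z)
  | [], x => by
      refine ⟨x, ?_⟩
      have : dv [x] = fun _ => (1 : ℂ) := by
        funext β
        simp [dv, sp]
      rw [this]
      simp [A]
  | y :: l, x => by
      obtain ⟨z, hz⟩ := prod_eq l y
      refine ⟨z, ?_⟩
      rw [List.map_cons, List.prod_cons, hz]
      have h1 : A x * ((B y)ᴴ * (diagonal (dv (y :: l)) * B z)) =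
          (B x)ᴴ * ((B x * (B y)ᴴ) * diagonal (dv (y :: l)) * B z) := by
        unfold A
        simp only [Matrix.mul_assoc]
      rw [h1, B_mul, diagonal_mul_diagonal]
      congr 3
      funext β
      have : sp β (x :: y :: l) = s (β x) (β y) * sp β (y :: l) := rfl
      simp only [dv, this]
      push_cast
      rfl

theorem norm_le (x : Fin n) (l : List (Fin n)) :
    ‖((x :: l).map A).prod‖ ≤ 2 * (g (x :: l) : ℝ) := by
  obtain ⟨z, hz⟩ := prod_eq l x
  rw [hz]
  have h1 : ‖(B x)ᴴ * (diagonal (dv (x :: l)) * B z)‖ ≤ ‖B x‖ * (‖dv (x :: l)‖ * ‖B z‖) := by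
    refine (l2_opNorm_mul _ _).trans ?_
    rw [l2_opNorm_conjTranspose]
    apply mul_le_mul_of_nonneg_left _ (norm_nonneg _)
    refine (l2_opNorm_mul _ _).trans ?_
    rw [l2_opNorm_diagonal]
  refine h1.trans ?_
  have hx := normB x
  have hz' := normB z
  have h0 := norm_nonneg (B x)
  have h0' := norm_nonneg (B z)
  have heq : ‖B x‖ = ‖B z‖ := by nlinarith
  rw [heq]
  have h2 := dv_norm_le (x :: l)
  have h3 : ‖B z‖ * (‖dv (x :: l)‖ * ‖B z‖) = 2 * ‖dv (x :: l)‖ := by
    rw [← hz']
    ring
  rw [h3]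
  linarith

theorem le_norm (x : Fin n) (l : List (Fin n)) (β : Equiv.Perm (Fin n)) :
    2 * (cN β (x :: l) : ℝ) ≤ ‖((x :: l).map A).prod‖ := by
  obtain ⟨z, hz⟩ := prod_eq l x
  set P := ((x :: l).map A).prod with hP
  have h1 : B x * P * (B z)ᴴ = diagonal (fun β => (4 : ℂ) * dv (x :: l) β) := by
    rw [hz]
    have : B x * ((B x)ᴴ * (diagonal (dv (x :: l)) * B z)) * (B z)ᴴ =
        (B x * (B x)ᴴ) * diagonal (dv (x :: l)) * (B z * (B z)ᴴ) := by
      simp only [Matrix.mul_assoc]
    rw [this, B_mul, B_mul, diagonal_mul_diagonal, diagonal_mul_diagonal]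
    congr 1
    funext β
    simp only [s, if_true]
    push_cast
    ring
  have h2 : 4 * (cN β (x :: l) : ℝ) ≤ ‖B x * P * (B z)ᴴ‖ := by
    rw [h1, l2_opNorm_diagonal]
    have h3 := norm_le_pi_norm (fun β => (4 : ℂ) * dv (x :: l) β) β
    refine le_trans ?_ h3
    rw [norm_mul]
    unfold dv
    rw [sp_norm]
    simp
  have h4 : ‖B x * P * (B z)ᴴ‖ ≤ ‖B x‖ * ‖P‖ * ‖B z‖ := by
    refine (l2_opNorm_mul _ _).trans ?_
    rw [l2_opNorm_conjTranspose]
    exact mul_le_mul_of_nonneg_right (l2_opNorm_mul _ _) (norm_nonneg _)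
  have hx := normB x
  have hz' := normB z
  have h0 := norm_nonneg (B x)
  have h0' := norm_nonneg (B z)
  have heq : ‖B x‖ = ‖B z‖ := by nlinarith
  rw [heq] at h4
  have h5 : ‖B z‖ * ‖P‖ * ‖B z‖ = 2 * ‖P‖ := by
    rw [← hz']
    ring
  rw [h5] at h4
  linarith

/-- the entries are integers -/
theorem A_int (i : Fin n) (b c : Fin (dm n)) : ∃ z : ℤ, A i b c = (z : ℂ) := by
  unfold A
  rw [Matrix.mul_apply]
  refine ⟨∑ β, (if ((en n).symm b).1 = β then (u (β i) ((en n).symm b).2) else 0) *
    (if ((en n).symm c).1 = β then (u (β i) ((en n).symm c).2) else 0), ?_⟩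
  push_cast
  apply Finset.sum_congr rfl
  intro β _
  simp only [B, Matrix.of_apply, Matrix.conjTranspose_apply]
  congr 1
  split_ifs <;> simp

end Pool.Agent.V11103.AG
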