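import Mathlib

/-! The averages along `Ω(m² + n²)`. -/

set_option autoImplicit false

namespace Pool.Agent.V11103.Om

/-- the average of `a (g m n)` over `1 ≤ m, n ≤ N`, where `a` is the indicator function of the
set of the `j` with `T^j x ∈ A` -/
noncomputable def avg {X : Type*} (g : ℕ → ℕ → ℕ) (T : X → X) (A : Set X) (x : X) (N : ℕ) : ℝ :=
  (∑ m ∈ Finset.Icc 1 N, ∑ n ∈ Finset.Icc 1 N, A.indicator (fun _ => (1 : ℝ)) (T^[g m n] x)) /
    (N : ℝ) ^ 2

end Pool.Agent.V11103.Om
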