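import Pool.Agent.V11103.OmErg
import Pool.Agent.V11103.OmDefs

/-! Sweeping out along a function of two variables which is concentrated. -/

set_option autoImplicit false

open MeasureTheory Set Filter Topology
open scoped ENNReal

namespace Pool.Agent.V11103.Om

universe u

set_option linter.unusedSectionVars false

variable {X : Type u} [MeasurableSpace X] {μ : Measure X} [IsProbabilityMeasure μ] {T : X → X}

/-- the values of `g` on most pairs up to some large `N` are near `L`, for every large `L` -/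
def Concentrated (g : ℕ → ℕ → ℕ) : Prop :=
  ∀ η : ℝ, 0 < η → ∃ L₀ : ℕ, ∀ L : ℕ, L₀ ≤ L → ∃ N : ℕ, L ≤ N ∧ 1 ≤ N ∧
    (((Finset.Icc 1 N ×ˢ Finset.Icc 1 N).filter
      (fun q : ℕ × ℕ => ¬ ((1 - η) * L ≤ g q.1 q.2 ∧ (g q.1 q.2 : ℝ) ≤ (1 + η) * L))).card : ℝ) ≤
      η * (N : ℝ) ^ 2

lemma avg_nonneg (g : ℕ → ℕ → ℕ) (A : Set X) (x : X) (N : ℕ) : 0 ≤ avg g T A x N := by
  unfold avg
  apply div_nonneg _ (by positivity)
  exact Finset.sum_nonneg fun m _ => Finset.sum_nonneg fun n _ =>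
    Set.indicator_nonneg (fun _ _ => zero_le_one) _

lemma avg_le_one (g : ℕ → ℕ → ℕ) (A : Set X) (x : X) (N : ℕ) : avg g T A x N ≤ 1 := by
  unfold avg
  apply div_le_one_of_le₀ _ (by positivity)
  calc _ ≤ ∑ m ∈ Finset.Icc 1 N, ∑ n ∈ Finset.Icc 1 N, (1 : ℝ) :=
        Finset.sum_le_sum fun m _ => Finset.sum_le_sum fun n _ =>
          Set.indicator_le_self' (fun _ _ => zero_le_one) _
    _ = (N : ℝ) ^ 2 := by simp [pow_two]

lemma avg_ge (g : ℕ → ℕ → ℕ) (A : Set X) (x : X) (N L : ℕ) (hN : 1 ≤ N) (η : ℝ)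
    (hc : (((Finset.Icc 1 N ×ˢ Finset.Icc 1 N).filter
      (fun q : ℕ × ℕ => ¬ ((1 - η) * L ≤ g q.1 q.2 ∧ (g q.1 q.2 : ℝ) ≤ (1 + η) * L))).card : ℝ) ≤
      η * (N : ℝ) ^ 2)
    (hA : ∀ j : ℕ, (1 - η) * L ≤ j → (j : ℝ) ≤ (1 + η) * L → T^[j] x ∈ A) :
    1 - η ≤ avg g T A x N := by
  have hNpos : (0 : ℝ) < (N : ℝ) ^ 2 := by
    have : (0 : ℝ) < N := by exact_mod_cast hN
    positivity
  unfold avg
  rw [le_div_iff₀ hNpos, ← Finset.sum_product']
  have h1 : (∑ q ∈ Finset.Icc 1 N ×ˢ Finset.Icc 1 N, (1 : ℝ)) = (N : ℝ) ^ 2 := by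
    simp [pow_two]
  have h2 : ∑ q ∈ Finset.Icc 1 N ×ˢ Finset.Icc 1 N, (1 : ℝ) ≤
      ∑ q ∈ Finset.Icc 1 N ×ˢ Finset.Icc 1 N,
        (A.indicator (fun _ => (1 : ℝ)) (T^[g q.1 q.2] x) +
          if ¬ ((1 - η) * L ≤ g q.1 q.2 ∧ (g q.1 q.2 : ℝ) ≤ (1 + η) * L) then (1 : ℝ) else 0) := by
    apply Finset.sum_le_sum
    intro q _
    by_cases hq : (1 - η) * L ≤ g q.1 q.2 ∧ (g q.1 q.2 : ℝ) ≤ (1 + η) * L
    · rw [Set.indicator_of_mem (hA _ hq.1 hq.2), if_neg (not_not.2 hq)]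
      norm_num
    · rw [if_pos hq]
      have := Set.indicator_nonneg (s := A) (f := fun _ : X => (1 : ℝ)) (fun _ _ => zero_le_one)
        (T^[g q.1 q.2] x)
      linarith
  rw [Finset.sum_add_distrib, h1, Finset.sum_ite, Finset.sum_const_zero, add_zero,
    Finset.sum_const, nsmul_eq_mul, mul_one] at h2
  nlinarith [h2, hc]

lemma avg_compl (g : ℕ → ℕ → ℕ) (A : Set X) (x : X) (N : ℕ) (hN : 1 ≤ N) :
    avg g T Aᶜ x N = 1 - avg g T A x N := by
  have hNpos : (0 : ℝ) < (N : ℝ) ^ 2 := by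
    have : (0 : ℝ) < N := by exact_mod_cast hN
    positivity
  have h : ∀ y : X, Aᶜ.indicator (fun _ => (1 : ℝ)) y = 1 - A.indicator (fun _ => (1 : ℝ)) y := by
    intro y
    by_cases hy : y ∈ A
    · simp [hy]
    · simp [hy]
  unfold avg
  simp only [h, Finset.sum_sub_distrib]
  have h1 : ∑ m ∈ Finset.Icc 1 N, ∑ n ∈ Finset.Icc 1 N, (1 : ℝ) = (N : ℝ) ^ 2 := by
    simp [pow_two]
  rw [h1, sub_div, div_self hNpos.ne']

lemma geom_tsum (k : ℕ) : ∑' j : ℕ, ENNReal.ofReal ((1 / 2 : ℝ) ^ (k + 1 + j)) =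
    ENNReal.ofReal ((1 / 2 : ℝ) ^ k) := by
  have h1 : HasSum (fun j : ℕ => (1 / 2 : ℝ) ^ (k + 1 + j)) ((1 / 2 : ℝ) ^ k) := by
    have h2 := (hasSum_geometric_two).mul_left ((1 / 2 : ℝ) ^ (k + 1))
    have h3 : (1 / 2 : ℝ) ^ (k + 1) * 2 = (1 / 2) ^ k := by rw [pow_succ]; ring
    rw [h3] at h2
    refine h2.congr_fun ?_ |> fun h => h
    intro j
    rw [pow_add]
  rw [← ENNReal.ofReal_tsum_of_nonneg (fun j => by positivity) h1.summable, h1.tsum_eq]

theorem sweep (hT : Ergodic T μ)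
    (hsmall : ∀ δ : ℝ≥0∞, 0 < δ → ∃ D : Set X, MeasurableSet D ∧ 0 < μ D ∧ μ D < δ)
    (g : ℕ → ℕ → ℕ) (hg : Concentrated g) :
    ∃ A : Set X, MeasurableSet A ∧ ∀ᵐ x ∂μ,
      limsup (fun N => avg g T A x N) atTop = 1 ∧ liminf (fun N => avg g T A x N) atTop = 0 := by
  classical
  set ηf : ℕ → ℕ → ℝ := fun k t => (1 / 2 : ℝ) ^ k / (7 * ((t : ℝ) + 1)) with hηf
  have hη0 : ∀ k t, 0 < ηf k t := fun k t => by simp only [hηf]; positivity
  choose Lf hLf using fun k t => hg (ηf k t) (hη0 k t)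
  choose Bf Kf hBm hBμ hBF using fun k t => window hT hsmall (ηf k t) (hη0 k t) (max k (Lf k t))
  obtain ⟨τ, hτs⟩ : ∃ τ : ℕ → ℕ, ∀ k, τ (k + 1) = τ k + 2 * Kf k (τ k) :=
    ⟨fun k => Nat.rec (motive := fun _ => ℕ) 0 (fun k t => t + 2 * Kf k t) k, fun k => rfl⟩
  have hτmono : Monotone τ := monotone_nat_of_le_succ fun k => by rw [hτs]; omega
  set B : ℕ → Set X := fun k => Bf k (τ k) with hBdef
  set η : ℕ → ℝ := fun k => ηf k (τ k) with hηdef
  have hηpos : ∀ k, 0 < η k := fun k => hη0 k _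
  have hηle : ∀ k, η k ≤ (1 / 2 : ℝ) ^ k := by
    intro k
    simp only [hηdef, hηf]
    apply div_le_self (by positivity)
    have : (0 : ℝ) ≤ τ k := Nat.cast_nonneg _
    linarith
  have hη1 : ∀ k, η k ≤ 1 := fun k => (hηle k).trans (pow_le_one₀ (by norm_num) (by norm_num))
  have hBμ' : ∀ k, μ (B k) ≤ ENNReal.ofReal ((1 / 2 : ℝ) ^ k / ((τ k : ℝ) + 1)) := by
    intro k
    refine (hBμ k (τ k)).trans (le_of_eq ?_)
    congr 1
    simp only [hηf]
    have : ((τ k : ℝ) + 1) ≠ 0 := by positivity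
    field_simp
  set F : ℕ → Set X := fun k => {x | ¬ ∃ L : ℕ, max k (Lf k (τ k)) ≤ L ∧ L ≤ Kf k (τ k) ∧
        ∀ j : ℕ, (1 - η k) * L ≤ j → (j : ℝ) ≤ (1 + η k) * L → T^[j] x ∈ B k} with hF
  set G : ℕ → Set X := fun k => ⋃ i ∈ Finset.range (τ (k + 1) + 1), ⋃ j : ℕ,
    T^[i] ⁻¹' (B (k + 1 + j)) with hG
  have hFμ : ∀ k, μ (F k) ≤ ENNReal.ofReal ((1 / 2 : ℝ) ^ k) := fun k =>
    (hBF k (τ k)).trans (ENNReal.ofReal_le_ofReal (hηle k))
  have hGμ : ∀ k, μ (G k) ≤ ENNReal.ofReal ((1 / 2 : ℝ) ^ k) := by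
    intro k
    have h2 : ∀ i j : ℕ, μ (T^[i] ⁻¹' (B j)) = μ (B j) := fun i j =>
      (hT.toMeasurePreserving.iterate i).measure_preimage (hBm j (τ j)).nullMeasurableSet
    calc μ (G k) ≤ ∑ i ∈ Finset.range (τ (k + 1) + 1), μ (⋃ j : ℕ, T^[i] ⁻¹' (B (k + 1 + j))) :=
          measure_biUnion_finset_le _ _
      _ ≤ ∑ i ∈ Finset.range (τ (k + 1) + 1), ∑' j : ℕ, μ (B (k + 1 + j)) := by
          apply Finset.sum_le_sum
          intro i _
          refine (measure_iUnion_le _).trans (le_of_eq ?_)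
          simp only [h2]
      _ = ∑' j : ℕ, ((τ (k + 1) + 1 : ℕ) : ℝ≥0∞) * μ (B (k + 1 + j)) := by
          rw [Finset.sum_const, Finset.card_range, nsmul_eq_mul, ENNReal.tsum_mul_left]
      _ ≤ ∑' j : ℕ, ENNReal.ofReal ((1 / 2 : ℝ) ^ (k + 1 + j)) := by
          apply ENNReal.tsum_le_tsum
          intro j
          refine (mul_le_mul_right (hBμ' (k + 1 + j)) _).trans ?_
          rw [← ENNReal.ofReal_natCast, ← ENNReal.ofReal_mul (by positivity)]
          apply ENNReal.ofReal_le_ofReal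
          have h3 : (τ (k + 1) : ℝ) ≤ τ (k + 1 + j) := by
            exact_mod_cast hτmono (by omega)
          push_cast
          have h4 : (0 : ℝ) < (τ (k + 1 + j) : ℝ) + 1 := by positivity
          rw [mul_div_assoc', div_le_iff₀ h4]
          have h5 : (0 : ℝ) ≤ (1 / 2 : ℝ) ^ (k + 1 + j) := by positivity
          nlinarith
      _ = ENNReal.ofReal ((1 / 2 : ℝ) ^ k) := geom_tsum k
  have hBC : ∑' k, μ (F k ∪ G k) ≠ ∞ := by
    have h1 : ∀ k, μ (F k ∪ G k) ≤ ENNReal.ofReal (2 * (1 / 2 : ℝ) ^ k) := by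
      intro k
      refine (measure_union_le _ _).trans ?_
      rw [two_mul, ENNReal.ofReal_add (by positivity) (by positivity)]
      exact add_le_add (hFμ k) (hGμ k)
    refine ne_top_of_le_ne_top ?_ (ENNReal.tsum_le_tsum h1)
    rw [← ENNReal.ofReal_tsum_of_nonneg (fun j => by positivity)
      (summable_geometric_two.mul_left 2)]
    exact ENNReal.ofReal_ne_top
  set A : Set X := ⋃ k : ℕ, ⋃ _ : Odd k, (B k \ ⋃ j : ℕ, B (k + 1 + j)) with hA
  refine ⟨A, ?_, ?_⟩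
  · exact MeasurableSet.iUnion fun k => MeasurableSet.iUnion fun _ =>
      (hBm k (τ k)).diff (MeasurableSet.iUnion fun j => hBm _ _)
  filter_upwards [ae_eventually_notMem hBC] with x hx
  -- the main property
  have hmain : ∀ᶠ k in atTop, ∃ N : ℕ, k ≤ N ∧ 1 ≤ N ∧
      ((Odd k → 1 - η k ≤ avg g T A x N) ∧ (¬ Odd k → avg g T A x N ≤ η k)) := by
    filter_upwards [hx] with k hk
    rw [mem_union, not_or] at hk
    obtain ⟨hkF, hkG⟩ := hk
    simp only [hF, mem_setOf_eq, not_not] at hkF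
    obtain ⟨L, hL1, hL2, hL3⟩ := hkF
    obtain ⟨N, hN1, hN2, hN3⟩ := hLf k (τ k) L ((le_max_right _ _).trans hL1)
    have hjk : ∀ j : ℕ, (1 - η k) * L ≤ j → (j : ℝ) ≤ (1 + η k) * L →
        T^[j] x ∈ B k ∧ ∀ l : ℕ, T^[j] x ∉ B (k + 1 + l) := by
      intro j h1 h2
      refine ⟨hL3 j h1 h2, ?_⟩
      intro l hl
      apply hkG
      simp only [hG, mem_iUnion, Finset.mem_range, mem_preimage]
      refine ⟨j, ?_, l, hl⟩
      have h3 : (j : ℝ) ≤ ((2 * Kf k (τ k) : ℕ) : ℝ) := by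
        have h4 : (L : ℝ) ≤ Kf k (τ k) := by exact_mod_cast hL2
        have h5 : (0 : ℝ) ≤ L := Nat.cast_nonneg _
        have h6 := hη1 k
        push_cast
        nlinarith
      have h7 : j ≤ 2 * Kf k (τ k) := by exact_mod_cast h3
      rw [hτs]
      omega
    refine ⟨N, ((le_max_left _ _).trans hL1).trans hN1, hN2, ?_, ?_⟩
    · intro hodd
      apply avg_ge g A x N L hN2 (η k) hN3
      intro j h1 h2
      obtain ⟨h3, h4⟩ := hjk j h1 h2
      simp only [hA, mem_iUnion]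
      refine ⟨k, hodd, h3, ?_⟩
      simp only [mem_iUnion, not_exists]
      exact h4
    · intro hodd
      have h5 : 1 - η k ≤ avg g T Aᶜ x N := by
        apply avg_ge g Aᶜ x N L hN2 (η k) hN3
        intro j h1 h2
        obtain ⟨h3, h4⟩ := hjk j h1 h2
        simp only [hA, mem_compl_iff, mem_iUnion, not_exists]
        rintro l hl ⟨h6, h7⟩
        simp only [mem_iUnion, not_exists] at h7
        rcases lt_trichotomy l k with h | h | h
        · apply h7 (k - (l + 1))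
          have : l + 1 + (k - (l + 1)) = k := by omega
          rw [this]; exact h3
        · exact hodd (h ▸ hl)
        · apply h4 (l - (k + 1))
          have : k + 1 + (l - (k + 1)) = l := by omega
          rw [this]; exact h6
      rw [avg_compl g A x N hN2] at h5
      linarith
  have hbdd1 : IsBoundedUnder (· ≤ ·) atTop (fun N => avg g T A x N) :=
    isBoundedUnder_of ⟨1, fun N => avg_le_one g A x N⟩
  have hbdd0 : IsBoundedUnder (· ≥ ·) atTop (fun N => avg g T A x N) :=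
    isBoundedUnder_of ⟨0, fun N => avg_nonneg g A x N⟩
  have hηlim : ∀ ε : ℝ, 0 < ε → ∀ᶠ k in atTop, η k ≤ ε := by
    intro ε hε
    have h1 : Tendsto (fun k : ℕ => (1 / 2 : ℝ) ^ k) atTop (𝓝 0) :=
      tendsto_pow_atTop_nhds_zero_of_lt_one (by norm_num) (by norm_num)
    filter_upwards [h1.eventually_le_const hε] with k hk
    exact (hηle k).trans hk
  constructor
  · apply le_antisymm
    · exact limsup_le_of_le hbdd0.isCoboundedUnder_le (Eventually.of_forall fun N => avg_le_one g A x N)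
    · apply le_of_forall_pos_sub_le
      intro ε hε
      apply le_limsup_of_frequently_le _ hbdd1
      rw [frequently_atTop]
      intro a
      obtain ⟨k0, hk0⟩ := eventually_atTop.1 (hmain.and (hηlim ε hε))
      obtain ⟨⟨N, hN1, -, hN2, -⟩, h2⟩ := hk0 (2 * (max a k0) + 1) (by
        have := le_max_right a k0; omega)
      refine ⟨N, ?_, ?_⟩
      · have := le_max_left a k0; omega
      · have := hN2 ⟨max a k0, rfl⟩
        linarith
  · apply le_antisymm
    · apply le_of_forall_pos_le_add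
      intro ε hε
      rw [zero_add]
      apply liminf_le_of_frequently_le _ hbdd0
      rw [frequently_atTop]
      intro a
      obtain ⟨k0, hk0⟩ := eventually_atTop.1 (hmain.and (hηlim ε hε))
      obtain ⟨⟨N, hN1, -, -, hN2⟩, h2⟩ := hk0 (2 * (max a k0)) (by
        have := le_max_right a k0; omega)
      refine ⟨N, ?_, ?_⟩
      · have := le_max_left a k0; omega
      · have := hN2 (by rw [Nat.not_odd_iff_even]; exact ⟨max a k0, by ring⟩)
        linarith
    · exact le_liminf_of_le hbdd1.isCoboundedUnder_ge (Eventually.of_forall fun N => avg_nonneg g A x N)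

end Pool.Agent.V11103.Om
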