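import Pool.Agent.V11103.OmNT3
import Pool.Agent.V11103.OmSweep
import Pool.Agent.Helper379.Div3

/-! `Ω(m² + n²)` is concentrated. -/

set_option autoImplicit false

open Finset ArithmeticFunction

namespace Pool.Agent.V11103.Om

lemma Om_eq_sum (k : ℕ) : (cardFactors k : ℝ) = ∑ p ∈ k.primeFactors, (k.factorization p : ℝ) := by
  rw [cardFactors_eq_sum_factorization, Finsupp.sum, Nat.support_factorization]
  push_cast
  rfl

lemma om_le_Om (P : Finset ℕ) (hP : ∀ p ∈ P, p.Prime ∧ p % 4 = 1) (m n : ℕ) (hm : 1 ≤ m) :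
    om P m n ≤ (cardFactors (m ^ 2 + n ^ 2) : ℝ) := by
  have hk : m ^ 2 + n ^ 2 ≠ 0 := by positivity
  rw [Om_eq_sum]
  unfold om ind
  rw [Finset.sum_ite, Finset.sum_const_zero, add_zero]
  calc ∑ p ∈ P.filter (fun p => p ∣ m ^ 2 + n ^ 2), (1 : ℝ)
      ≤ ∑ p ∈ (m ^ 2 + n ^ 2).primeFactors, (1 : ℝ) := by
        apply Finset.sum_le_sum_of_subset_of_nonneg
        · intro p hp
          rw [mem_filter] at hp
          rw [Nat.mem_primeFactors]
          exact ⟨(hP p hp.1).1, hp.2, hk⟩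
        · intro _ _ _; norm_num
    _ ≤ _ := by
        apply Finset.sum_le_sum
        intro p hp
        rw [Nat.mem_primeFactors] at hp
        have := hp.1.factorization_pos_of_dvd hp.2.2 hp.2.1
        exact_mod_cast this

/-- the primes up to `z` which are `1` modulo `4` -/
def Pz (z : ℕ) : Finset ℕ := (Icc 1 z).filter (fun p => p.Prime ∧ p % 4 = 1)

lemma Pz_spec (z : ℕ) : ∀ p ∈ Pz z, p.Prime ∧ p % 4 = 1 := fun p hp => (mem_filter.1 hp).2

lemma Pz_le (z : ℕ) : ∀ p ∈ Pz z, p ≤ z := fun p hp => (mem_Icc.1 (mem_filter.1 hp).1).2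

lemma large_primes (k z : ℕ) (hz : 2 ≤ z) (hk : k ≠ 0) (hkz : k < z ^ 9) :
    ∑ p ∈ k.primeFactors.filter (fun p => ¬ p ≤ z), k.factorization p ≤ 8 := by
  have h1 : z ^ (∑ p ∈ k.primeFactors.filter (fun p => ¬ p ≤ z), k.factorization p) ≤ k := by
    rw [← Finset.prod_pow_eq_pow_sum]
    calc ∏ p ∈ k.primeFactors.filter (fun p => ¬ p ≤ z), z ^ k.factorization p
        ≤ ∏ p ∈ k.primeFactors.filter (fun p => ¬ p ≤ z), p ^ k.factorization p := by
          apply Finset.prod_le_prod' 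
          intro p hp
          rw [mem_filter] at hp
          exact Nat.pow_le_pow_left (by omega) _
      _ ≤ ∏ p ∈ k.primeFactors, p ^ k.factorization p := by
          apply Finset.prod_le_prod_of_subset_of_one_le' (Finset.filter_subset _ _)
          intro p hp _
          exact Nat.one_le_pow _ _ (Nat.pos_of_mem_primeFactors hp)
      _ = k := by
          have := Nat.prod_factorization_pow_eq_self hk
          rw [Finsupp.prod, Nat.support_factorization] at this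
          exact this
  have h2 := lt_of_le_of_lt h1 hkz
  have h3 := (Nat.pow_lt_pow_iff_right (by omega : 1 < z)).1 h2
  omega

lemma fact_two (a b : ℕ) (hab : Nat.Coprime a b) (hk : a ^ 2 + b ^ 2 ≠ 0) :
    (a ^ 2 + b ^ 2).factorization 2 ≤ 1 := by
  by_contra hcon
  push Not at hcon
  have h1 : 2 ^ 2 ∣ a ^ 2 + b ^ 2 :=
    (Nat.prime_two.pow_dvd_iff_le_factorization hk).2 hcon
  have h2 : ¬ (2 ∣ a ∧ 2 ∣ b) := by
    rintro ⟨h3, h4⟩
    have := Nat.dvd_gcd h3 h4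
    rw [hab] at this
    omega
  have h5 : (a ^ 2 + b ^ 2) % 4 = 0 := Nat.mod_eq_zero_of_dvd h1
  have h6 : a % 4 < 4 := Nat.mod_lt _ (by norm_num)
  have h7 : b % 4 < 4 := Nat.mod_lt _ (by norm_num)
  have h8 : (a ^ 2 + b ^ 2) % 4 = ((a % 4) ^ 2 + (b % 4) ^ 2) % 4 := by
    rw [Nat.add_mod, Nat.pow_mod, Nat.pow_mod b, ← Nat.add_mod]
  apply h2
  generalize hx : a % 4 = x at *
  generalize hy : b % 4 = y at *
  interval_cases x <;> interval_cases y <;> simp_all <;> omega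

lemma not_three (a b q : ℕ) (hab : Nat.Coprime a b) (hq : q.Prime) (h : q ∣ a ^ 2 + b ^ 2) :
    q % 4 ≠ 3 := by
  haveI := Fact.mk hq
  have h1 := ZMod.isSquare_neg_one_of_eq_sq_add_sq_of_coprime (rfl : a ^ 2 + b ^ 2 = a ^ 2 + b ^ 2) hab
  exact ZMod.exists_sq_eq_neg_one_iff.1 (ZMod.isSquare_neg_one_of_dvd h h1)

lemma fact_le (p J a b g : ℕ) (hp : p.Prime) (h4 : p % 4 = 1) (hab : Nat.Coprime a b)
    (hk : a ^ 2 + b ^ 2 ≠ 0) (hJ : a ^ 2 + b ^ 2 < 2 ^ (J + 1)) :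
    ((a ^ 2 + b ^ 2).factorization p : ℝ) ≤
      ind p (g * a) (g * b) + ∑ j ∈ Icc 2 J, ev p j (g * a) (g * b) := by
  set v := (a ^ 2 + b ^ 2).factorization p with hv
  rcases Nat.eq_zero_or_pos v with h0 | h0
  · rw [h0]
    have h1 := ind_nonneg p (g * a) (g * b)
    have h2 : 0 ≤ ∑ j ∈ Icc 2 J, ev p j (g * a) (g * b) :=
      Finset.sum_nonneg fun j _ => ev_nonneg _ _ _ _
    push_cast
    linarith
  · have hdvd : ∀ j ≤ v, p ^ j ∣ a ^ 2 + b ^ 2 := fun j hj =>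
      (hp.pow_dvd_iff_le_factorization hk).2 hj
    have h1 : ind p (g * a) (g * b) = 1 := by
      unfold ind
      rw [if_pos]
      have : (g * a) ^ 2 + (g * b) ^ 2 = g ^ 2 * (a ^ 2 + b ^ 2) := by ring
      rw [this]
      have := hdvd 1 h0
      rw [pow_one] at this
      exact this.mul_left _
    have hvJ : v ≤ J := by
      have h2 : 2 ^ v ≤ a ^ 2 + b ^ 2 := (Nat.pow_le_pow_left hp.two_le v).trans
        (Nat.le_of_dvd (Nat.pos_of_ne_zero hk) (hdvd v le_rfl))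
      have h3 := lt_of_le_of_lt h2 hJ
      have h4 := (Nat.pow_lt_pow_iff_right (by norm_num : 1 < 2)).1 h3
      omega
    have h2 : (v : ℝ) - 1 ≤ ∑ j ∈ Icc 2 J, ev p j (g * a) (g * b) := by
      calc (v : ℝ) - 1 = ∑ j ∈ Icc 2 v, (1 : ℝ) := by
            rw [Finset.sum_const, Nat.card_Icc, nsmul_eq_mul, mul_one]
            have : v + 1 - 2 = v - 1 := by omega
            rw [this]
            push_cast [Nat.cast_sub h0]
            ring
        _ = ∑ j ∈ Icc 2 v, ev p j (g * a) (g * b) := by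
            apply Finset.sum_congr rfl
            intro j hj
            rw [mem_Icc] at hj
            exact (ev_of_dvd p j a b g hp (by rintro rfl; omega) (by omega) hab (hdvd j hj.2)).symm
        _ ≤ _ := by
            apply Finset.sum_le_sum_of_subset_of_nonneg
            · intro j hj
              rw [mem_Icc] at hj ⊢
              omega
            · intro j _ _; exact ev_nonneg _ _ _ _
    rw [h1]
    linarith

lemma Om_le (z m n : ℕ) (hz : 5 ≤ z) (hm : 1 ≤ m) (hmN : m ≤ z ^ 4) (hn : 1 ≤ n)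
    (hnN : n ≤ z ^ 4) :
    (cardFactors (m ^ 2 + n ^ 2) : ℝ) ≤ om (Pz z) m n + 9 + 2 * comdiv (z ^ 4) m n +
      hi (Pz z) (9 * z) m n := by
  set g := Nat.gcd m n with hg
  have hgpos : 0 < g := Nat.gcd_pos_of_pos_left n hm
  obtain ⟨a, ha⟩ := Nat.gcd_dvd_left m n
  obtain ⟨b, hb⟩ := Nat.gcd_dvd_right m n
  rw [← hg] at ha hb
  have hab : Nat.Coprime a b := by
    have h1 : Nat.gcd (g * a) (g * b) = g := by rw [← ha, ← hb]
    rw [Nat.gcd_mul_left] at h1
    exact Nat.eq_of_mul_eq_mul_left hgpos (by rw [h1, mul_one])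
  have ha0 : 1 ≤ a := by
    rcases Nat.eq_zero_or_pos a with h | h
    · rw [h, mul_zero] at ha; omega
    · exact h
  have hk : a ^ 2 + b ^ 2 ≠ 0 := by positivity
  have hkk : m ^ 2 + n ^ 2 = g * g * (a ^ 2 + b ^ 2) := by rw [ha, hb]; ring
  have hOm : (cardFactors (m ^ 2 + n ^ 2) : ℝ) = 2 * cardFactors g + cardFactors (a ^ 2 + b ^ 2) := by
    rw [hkk, cardFactors_mul (by positivity) hk, cardFactors_mul hgpos.ne' hgpos.ne']
    push_cast; ring
  have hGle := Om_gcd_le (z ^ 4) m n hm hmN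
  rw [← hg] at hGle
  have hk8 : a ^ 2 + b ^ 2 ≤ 2 * z ^ 8 := by
    have h1 : a ≤ z ^ 4 := (Nat.le_mul_of_pos_left a hgpos).trans (ha ▸ hmN)
    have h2 : b ≤ z ^ 4 := (Nat.le_mul_of_pos_left b hgpos).trans (hb ▸ hnN)
    calc a ^ 2 + b ^ 2 ≤ (z ^ 4) ^ 2 + (z ^ 4) ^ 2 :=
          Nat.add_le_add (Nat.pow_le_pow_left h1 2) (Nat.pow_le_pow_left h2 2)
      _ = 2 * z ^ 8 := by ring
  have hk9 : a ^ 2 + b ^ 2 < z ^ 9 := by
    have h1 : 0 < z ^ 8 := by positivity
    calc a ^ 2 + b ^ 2 ≤ 2 * z ^ 8 := hk8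
      _ < z * z ^ 8 := by nlinarith
      _ = z ^ 9 := by ring
  have hkJ : a ^ 2 + b ^ 2 < 2 ^ (9 * z + 1) := by
    have h1 : z < 2 ^ z := Nat.lt_two_pow_self
    have h2 : z ^ 8 ≤ 2 ^ (8 * z) := by
      calc z ^ 8 ≤ (2 ^ z) ^ 8 := Nat.pow_le_pow_left h1.le 8
        _ = 2 ^ (8 * z) := by rw [← pow_mul, mul_comm]
    calc a ^ 2 + b ^ 2 ≤ 2 * z ^ 8 := hk8
      _ ≤ 2 * 2 ^ (8 * z) := by omega
      _ = 2 ^ (8 * z + 1) := by rw [pow_succ]; ring
      _ < 2 ^ (9 * z + 1) := Nat.pow_lt_pow_right (by norm_num) (by omega)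
  have hmain : (cardFactors (a ^ 2 + b ^ 2) : ℝ) ≤ om (Pz z) m n + 9 + hi (Pz z) (9 * z) m n := by
    rw [Om_eq_sum, ← Finset.sum_filter_add_sum_filter_not _ (fun p => p ≤ z)]
    have h1 : ((∑ p ∈ (a ^ 2 + b ^ 2).primeFactors.filter (fun p => ¬ p ≤ z),
        ((a ^ 2 + b ^ 2).factorization p : ℝ))) ≤ 8 := by
      have := large_primes (a ^ 2 + b ^ 2) z (by omega) hk hk9
      exact_mod_cast this
    have h2 : ∑ p ∈ (a ^ 2 + b ^ 2).primeFactors.filter (fun p => p ≤ z),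
        ((a ^ 2 + b ^ 2).factorization p : ℝ) ≤
        ∑ p ∈ insert 2 (Pz z), ((a ^ 2 + b ^ 2).factorization p : ℝ) := by
      apply Finset.sum_le_sum_of_subset_of_nonneg
      · intro p hp
        rw [mem_filter, Nat.mem_primeFactors] at hp
        rw [mem_insert]
        by_cases hp2 : p = 2
        · exact Or.inl hp2
        · right
          have h3 := not_three a b p hab hp.1.1 hp.1.2.1
          have h4 := hp.1.1.eq_two_or_odd
          unfold Pz
          rw [mem_filter, mem_Icc]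
          refine ⟨⟨hp.1.1.one_lt.le, hp.2⟩, hp.1.1, ?_⟩
          omega
      · intro p _ _; positivity
    have h5 : (2 : ℕ) ∉ Pz z := by
      intro h
      have := (Pz_spec z 2 h).2
      omega
    rw [Finset.sum_insert h5] at h2
    have h6 : ((a ^ 2 + b ^ 2).factorization 2 : ℝ) ≤ 1 := by exact_mod_cast fact_two a b hab hk
    have h7 : ∑ p ∈ Pz z, ((a ^ 2 + b ^ 2).factorization p : ℝ) ≤
        om (Pz z) m n + hi (Pz z) (9 * z) m n := by
      unfold om hi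
      rw [← Finset.sum_add_distrib]
      apply Finset.sum_le_sum
      intro p hp
      have := fact_le p (9 * z) a b g (Pz_spec z p hp).1 (Pz_spec z p hp).2 hab hk hkJ
      rw [← ha, ← hb] at this
      exact this
    linarith
  rw [hOm]
  linarith

lemma diff_sum (z : ℕ) (hz : 5 ≤ z) :
    ∑ m ∈ Icc 1 (z ^ 4), ∑ n ∈ Icc 1 (z ^ 4), ((cardFactors (m ^ 2 + n ^ 2) : ℝ) - om (Pz z) m n) ≤
      35 * ((z ^ 4 : ℕ) : ℝ) ^ 2 := by
  set N := z ^ 4 with hN
  have h1 : ∑ m ∈ Icc 1 N, ∑ n ∈ Icc 1 N, ((cardFactors (m ^ 2 + n ^ 2) : ℝ) - om (Pz z) m n) ≤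
      ∑ m ∈ Icc 1 N, ∑ n ∈ Icc 1 N, (9 + 2 * comdiv N m n + hi (Pz z) (9 * z) m n) := by
    apply Finset.sum_le_sum
    intro m hm
    apply Finset.sum_le_sum
    intro n hn
    rw [mem_Icc] at hm hn
    have := Om_le z m n hz hm.1 hm.2 hn.1 hn.2
    linarith
  refine h1.trans ?_
  simp only [Finset.sum_add_distrib, ← Finset.mul_sum]
  have h2 := sum_comdiv N
  have h3 := sum_hi (Pz z) (Pz_spec z) (9 * z) N z (Pz_le z)
  have h4 : ∑ m ∈ Icc 1 N, ∑ n ∈ Icc 1 N, (9 : ℝ) = 9 * (N : ℝ) ^ 2 := by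
    simp [pow_two]; ring
  rw [h4]
  have h5 : 2 * (N : ℝ) * ((9 * z : ℕ) : ℝ) * z ≤ 18 * (N : ℝ) ^ 2 := by
    have h6 : (z : ℝ) ^ 2 ≤ N := by
      have : z ^ 2 ≤ N := by rw [hN]; exact Nat.pow_le_pow_right (by omega) (by norm_num)
      exact_mod_cast this
    have h7 : (0 : ℝ) ≤ N := Nat.cast_nonneg _
    push_cast
    nlinarith
  linarith

lemma mean_Pz_mono (z : ℕ) : mean (Pz z) ≤ mean (Pz (z + 1)) := by
  unfold mean
  apply Finset.sum_le_sum_of_subset_of_nonneg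
  · intro p hp
    unfold Pz at hp ⊢
    rw [mem_filter, mem_Icc] at hp ⊢
    exact ⟨⟨hp.1.1, by omega⟩, hp.2⟩
  · intro _ _ _; positivity

lemma mean_Pz_succ (z : ℕ) : mean (Pz (z + 1)) ≤ mean (Pz z) + 1 := by
  have h1 : Pz (z + 1) ⊆ insert (z + 1) (Pz z) := by
    intro p hp
    unfold Pz at hp ⊢
    rw [mem_filter, mem_Icc] at hp
    rw [mem_insert, mem_filter, mem_Icc]
    by_cases h : p = z + 1
    · exact Or.inl h
    · exact Or.inr ⟨⟨hp.1.1, by omega⟩, hp.2⟩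
  by_cases hprime : z + 1 ∈ Pz (z + 1)
  · have h2 : z + 1 ∉ Pz z := by
      intro h
      have := Pz_le z _ h
      omega
    have h3 : (2 : ℝ) ≤ ((z + 1 : ℕ) : ℝ) := by
      exact_mod_cast (Pz_spec _ _ hprime).1.two_le
    unfold mean
    calc ∑ p ∈ Pz (z + 1), 2 / (p : ℝ) ≤ ∑ p ∈ insert (z + 1) (Pz z), 2 / (p : ℝ) :=
          Finset.sum_le_sum_of_subset_of_nonneg h1 (fun _ _ _ => by positivity)
      _ = 2 / ((z + 1 : ℕ) : ℝ) + ∑ p ∈ Pz z, 2 / (p : ℝ) := Finset.sum_insert h2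
      _ ≤ _ := by
          have : 2 / ((z + 1 : ℕ) : ℝ) ≤ 1 := by rw [div_le_one (by linarith)]; exact h3
          linarith
  · have h2 : Pz (z + 1) ⊆ Pz z := by
      intro p hp
      have := h1 hp
      rw [mem_insert] at this
      rcases this with h | h
      · exact absurd (h ▸ hp) hprime
      · exact h
    have h3 : mean (Pz (z + 1)) ≤ mean (Pz z) :=
      Finset.sum_le_sum_of_subset_of_nonneg h2 (fun _ _ _ => by positivity)
    linarith

lemma mean_Pz_unbounded (K : ℝ) : ∃ z : ℕ, K ≤ mean (Pz z) := by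
  have h1 := Pool.Agent.Helper379.Div3.not_summable_inv_primes_mod (q := 4) (a := 1) isUnit_one
  rw [not_summable_iff_tendsto_nat_atTop_of_nonneg] at h1
  swap
  · intro n; split_ifs <;> positivity
  obtain ⟨n, hn⟩ := (Filter.tendsto_atTop.1 h1 K).exists
  refine ⟨n, hn.trans ?_⟩
  unfold mean
  rw [← Finset.sum_filter]
  calc ∑ i ∈ (range n).filter (fun k : ℕ => k.Prime ∧ ((k : ℕ) : ZMod 4) = 1), (1 : ℝ) / (i : ℝ)
      ≤ ∑ i ∈ Pz n, (1 : ℝ) / (i : ℝ) := by
        apply Finset.sum_le_sum_of_subset_of_nonneg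
        · intro p hp
          rw [mem_filter, mem_range] at hp
          unfold Pz
          rw [mem_filter, mem_Icc]
          refine ⟨⟨hp.2.1.one_lt.le, hp.1.le⟩, hp.2.1, ?_⟩
          have h3 : ((p : ℕ) : ZMod 4) = ((1 : ℕ) : ZMod 4) := by rw [hp.2.2]; simp
          rw [ZMod.natCast_eq_natCast_iff'] at h3
          omega
        · intro _ _ _; positivity
    _ ≤ ∑ i ∈ Pz n, 2 / (i : ℝ) := by
        apply Finset.sum_le_sum
        intro i _
        gcongr
        norm_num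

theorem concentrated : Concentrated (fun m n => cardFactors (m ^ 2 + n ^ 2)) := by
  intro η hη
  obtain ⟨L₀, hL₀⟩ := exists_nat_ge (max (max (4 / η) ((320 / η ^ 2 + 70 / η) / η)) 1)
  refine ⟨L₀, fun L hL => ?_⟩
  have hL1 : max (max (4 / η) ((320 / η ^ 2 + 70 / η) / η)) 1 ≤ (L : ℝ) :=
    hL₀.trans (by exact_mod_cast hL)
  have hLa : 4 / η ≤ L := ((le_max_left _ _).trans (le_max_left _ _)).trans hL1
  have hLb : (320 / η ^ 2 + 70 / η) / η ≤ L := ((le_max_right _ _).trans (le_max_left _ _)).trans hL1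
  have hLc : (1 : ℝ) ≤ L := (le_max_right _ _).trans hL1
  rw [div_le_iff₀ hη] at hLa hLb
  classical
  have hex := mean_Pz_unbounded (L : ℝ)
  let z := Nat.find hex
  have hz1 : (L : ℝ) ≤ mean (Pz z) := Nat.find_spec hex
  have hz0 : z ≠ 0 := by
    intro h
    rw [h] at hz1
    have : mean (Pz 0) = 0 := by simp [mean, Pz]
    rw [this] at hz1
    linarith
  have hz2 : mean (Pz z) ≤ L + 1 := by
    obtain ⟨y, hy⟩ := Nat.exists_eq_succ_of_ne_zero hz0
    have h1 : ¬ (L : ℝ) ≤ mean (Pz y) := Nat.find_min hex (by change y < z; omega)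
    push Not at h1
    rw [hy]
    have := mean_Pz_succ y
    linarith
  have hcard : ((Pz z).card : ℝ) ≤ z := by
    have h1 : Pz z ⊆ Icc 1 z := Finset.filter_subset _ _
    have := Finset.card_le_card h1
    rw [Nat.card_Icc] at this
    exact_mod_cast (this.trans (by omega))
  have hmean : mean (Pz z) ≤ (Pz z).card := by
    unfold mean
    calc ∑ p ∈ Pz z, 2 / (p : ℝ) ≤ ∑ p ∈ Pz z, (1 : ℝ) := by
          apply Finset.sum_le_sum
          intro p hp
          have : (2 : ℝ) ≤ p := by exact_mod_cast (Pz_spec z p hp).1.two_le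
          rw [div_le_one (by linarith)]
          exact this
      _ = (Pz z).card := by simp
  have hLz : (L : ℝ) ≤ z := by linarith
  have hLz' : L ≤ z := by exact_mod_cast hLz
  have hz5 : 5 ≤ z := by
    have h1 : (Pz z).Nonempty := by
      rw [Finset.nonempty_iff_ne_empty]
      intro h
      have h0 : mean (∅ : Finset ℕ) = 0 := by simp [mean]
      rw [h, h0] at hz1
      linarith
    obtain ⟨p, hp⟩ := h1
    have h2 := Pz_le z p hp
    have h3 := Pz_spec z p hp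
    have h4 := h3.1.two_le
    omega
  have hzN : z ≤ z ^ 4 := Nat.le_self_pow (by norm_num) z
  refine ⟨z ^ 4, hLz'.trans hzN, by omega, ?_⟩
  set N := z ^ 4 with hN
  have hNsq : (z : ℝ) ^ 2 ≤ N := by
    have : z ^ 2 ≤ N := by rw [hN]; exact Nat.pow_le_pow_right (by omega) (by norm_num)
    exact_mod_cast this
  have hV := variance (Pz z) (Pz_spec z) N z (Pz_le z) hNsq (by omega)
  have hD := diff_sum z hz5
  rw [← hN] at hD
  have hLpos : (0 : ℝ) < L := by linarith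
  -- Chebyshev
  have hch : (((Icc 1 N ×ˢ Icc 1 N).filter (fun q : ℕ × ℕ =>
      ¬ ((1 - η) * L ≤ (cardFactors (q.1 ^ 2 + q.2 ^ 2) : ℕ) ∧ ((cardFactors (q.1 ^ 2 + q.2 ^ 2) : ℕ) : ℝ) ≤ (1 + η) * L))).card : ℝ) ≤
      ∑ q ∈ Icc 1 N ×ˢ Icc 1 N, (16 / (η ^ 2 * L ^ 2) * (om (Pz z) q.1 q.2 - mean (Pz z)) ^ 2 +
        2 / (η * L) * ((cardFactors (q.1 ^ 2 + q.2 ^ 2) : ℝ) - om (Pz z) q.1 q.2)) := by
    rw [← mul_one ((Finset.card _ : ℕ) : ℝ), ← nsmul_eq_mul, ← Finset.sum_const, Finset.sum_filter]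
    apply Finset.sum_le_sum
    intro q hq
    rw [mem_product, mem_Icc, mem_Icc] at hq
    have h1 := om_le_Om (Pz z) (Pz_spec z) q.1 q.2 hq.1.1
    have h2 : 0 ≤ 16 / (η ^ 2 * L ^ 2) * (om (Pz z) q.1 q.2 - mean (Pz z)) ^ 2 := by positivity
    have h3 : 0 ≤ 2 / (η * L) * ((cardFactors (q.1 ^ 2 + q.2 ^ 2) : ℝ) - om (Pz z) q.1 q.2) :=
      mul_nonneg (by positivity) (by linarith)
    split_ifs with hif
    · linarith
    · by_contra hcon
      push Not at hcon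
      apply hif
      have h4 : 16 / (η ^ 2 * L ^ 2) * (om (Pz z) q.1 q.2 - mean (Pz z)) ^ 2 < 1 := by linarith
      have h5 : 2 / (η * L) * ((cardFactors (q.1 ^ 2 + q.2 ^ 2) : ℝ) - om (Pz z) q.1 q.2) < 1 := by linarith
      have h6 : (om (Pz z) q.1 q.2 - mean (Pz z)) ^ 2 < (η * L / 4) ^ 2 := by
        rw [div_mul_eq_mul_div, div_lt_one (by positivity)] at h4
        nlinarith
      have h7 : (cardFactors (q.1 ^ 2 + q.2 ^ 2) : ℝ) - om (Pz z) q.1 q.2 < η * L / 2 := by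
        rw [div_mul_eq_mul_div, div_lt_one (by positivity)] at h5
        linarith
      have h8 := abs_lt.1 (abs_lt_of_sq_lt_sq h6 (by positivity))
      constructor
      · linarith [h8.1]
      · linarith [h8.2]
  refine hch.trans ?_
  rw [Finset.sum_add_distrib, ← Finset.mul_sum, ← Finset.mul_sum, Finset.sum_product,
    Finset.sum_product]
  have e1 : 16 / (η ^ 2 * L ^ 2) * ∑ m ∈ Icc 1 N, ∑ n ∈ Icc 1 N, (om (Pz z) m n - mean (Pz z)) ^ 2 ≤
      16 / (η ^ 2 * L ^ 2) * (20 * L * (N : ℝ) ^ 2) := by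
    apply mul_le_mul_of_nonneg_left _ (by positivity)
    refine hV.trans ?_
    have h0 : (0 : ℝ) ≤ (N : ℝ) ^ 2 := by positivity
    have : 5 * mean (Pz z) + 10 ≤ 20 * L := by linarith
    nlinarith
  have e2 : 2 / (η * L) * ∑ m ∈ Icc 1 N, ∑ n ∈ Icc 1 N,
      ((cardFactors (m ^ 2 + n ^ 2) : ℝ) - om (Pz z) m n) ≤ 2 / (η * L) * (35 * (N : ℝ) ^ 2) :=
    mul_le_mul_of_nonneg_left hD (by positivity)
  have e3 : 16 / (η ^ 2 * L ^ 2) * (20 * L * (N : ℝ) ^ 2) + 2 / (η * L) * (35 * (N : ℝ) ^ 2) =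
      (320 / η ^ 2 + 70 / η) / L * (N : ℝ) ^ 2 := by
    field_simp
    ring
  have e4 : (320 / η ^ 2 + 70 / η) / L ≤ η := by
    rw [div_le_iff₀ hLpos]
    linarith
  calc _ ≤ 16 / (η ^ 2 * L ^ 2) * (20 * L * (N : ℝ) ^ 2) + 2 / (η * L) * (35 * (N : ℝ) ^ 2) :=
        add_le_add e1 e2
    _ = (320 / η ^ 2 + 70 / η) / L * (N : ℝ) ^ 2 := e3
    _ ≤ η * (N : ℝ) ^ 2 := by gcongr

end Pool.Agent.V11103.Om
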