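import Mathlib

/-! Atomless probability measures have sets of arbitrarily small positive measure. -/

set_option autoImplicit false

open MeasureTheory Filter Topology
open scoped ENNReal

namespace Pool.Agent.V11103.Om

lemma small_of_atomless {X : Type*} [MeasurableSpace X] {μ : Measure X} [IsProbabilityMeasure μ]
    (hna : ∀ D : Set X, MeasurableSet D → 0 < μ D →
      ∃ E : Set X, E ⊆ D ∧ MeasurableSet E ∧ 0 < μ E ∧ μ E < μ D) :
    ∀ δ : ℝ≥0∞, 0 < δ → ∃ D : Set X, MeasurableSet D ∧ 0 < μ D ∧ μ D < δ := by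
  have key : ∀ n : ℕ, ∃ D : Set X, MeasurableSet D ∧ 0 < μ D ∧ μ D ≤ (1 / 2 : ℝ≥0∞) ^ n := by
    intro n
    induction n with
    | zero => exact ⟨Set.univ, MeasurableSet.univ, by simp, by simp⟩
    | succ n ih =>
      obtain ⟨D, hD, hD0, hDn⟩ := ih
      obtain ⟨E, hED, hE, hE0, hElt⟩ := hna D hD hD0
      have hsum : μ E + μ (D \ E) = μ D := by
        have := measure_inter_add_diff (μ := μ) D hE
        rwa [Set.inter_eq_self_of_subset_right hED] at this
      have hdiff : 0 < μ (D \ E) := by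
        rw [pos_iff_ne_zero]
        intro h
        rw [h, add_zero] at hsum
        exact absurd hsum hElt.ne
      have hhalf : (1 / 2 : ℝ≥0∞) ^ (n + 1) + (1 / 2 : ℝ≥0∞) ^ (n + 1) = (1 / 2 : ℝ≥0∞) ^ n := by
        rw [pow_succ, ← mul_add]
        have : (1 / 2 : ℝ≥0∞) + 1 / 2 = 1 := ENNReal.add_halves 1
        rw [this, mul_one]
      by_cases h : μ E ≤ (1 / 2 : ℝ≥0∞) ^ (n + 1)
      · exact ⟨E, hE, hE0, h⟩
      · refine ⟨D \ E, hD.diff hE, hdiff, ?_⟩
        by_contra hcon
        push Not at h hcon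
        have := ENNReal.add_lt_add h hcon
        rw [hsum, hhalf] at this
        exact absurd hDn (not_le.2 this)
  intro δ hδ
  have h1 : Tendsto (fun n : ℕ => (1 / 2 : ℝ≥0∞) ^ n) atTop (𝓝 0) :=
    ENNReal.tendsto_pow_atTop_nhds_zero_of_lt_one (by
      rw [one_div]; exact ENNReal.inv_lt_one.2 (by norm_num))
  obtain ⟨n, hn⟩ := ((tendsto_order.1 h1).2 δ hδ).exists
  obtain ⟨D, hD, hD0, hDn⟩ := key n
  exact ⟨D, hD, hD0, lt_of_le_of_lt hDn hn⟩

lemma small_of_standard {X : Type*} [MeasurableSpace X] [StandardBorelSpace X] {μ : Measure X}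
    [IsProbabilityMeasure μ] (h0 : ∀ x : X, μ {x} = 0) :
    ∀ δ : ℝ≥0∞, 0 < δ → ∃ D : Set X, MeasurableSet D ∧ 0 < μ D ∧ μ D < δ := by
  intro δ hδ
  obtain ⟨φ, hφ⟩ := exists_measurableEmbedding_real X
  have hφm : Measurable φ := hφ.measurable
  set ν := μ.map φ with hν
  haveI : IsProbabilityMeasure ν := Measure.isProbabilityMeasure_map hφm.aemeasurable
  have hν0 : ∀ y : ℝ, ν {y} = 0 := by
    intro y
    rw [hν, Measure.map_apply hφm (measurableSet_singleton y)]
    by_cases h : ∃ x, φ x = y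
    · obtain ⟨x, hx⟩ := h
      have : φ ⁻¹' {y} = {x} := by
        ext z
        simp only [Set.mem_preimage, Set.mem_singleton_iff]
        constructor
        · intro hz; exact hφ.injective (hz.trans hx.symm)
        · rintro rfl; exact hx
      rw [this]; exact h0 x
    · have : φ ⁻¹' {y} = ∅ := by
        ext z
        simp only [Set.mem_preimage, Set.mem_singleton_iff, Set.mem_empty_iff_false, iff_false]
        intro hz; exact h ⟨z, hz⟩
      rw [this]; exact measure_empty
  have hne : ν Set.univ ≠ 0 := by simp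
  obtain ⟨y, -, hy⟩ := exists_mem_forall_mem_nhdsWithin_pos_measure hne
  have hball : ∀ ε : ℝ, 0 < ε → 0 < ν (Metric.closedBall y ε) := by
    intro ε hε
    apply hy
    rw [nhdsWithin_univ]
    exact Metric.closedBall_mem_nhds y hε
  have hinter : (⋂ n : ℕ, Metric.closedBall y (1 / ((n : ℝ) + 1))) = {y} := by
    ext z
    simp only [Set.mem_iInter, Metric.mem_closedBall, Set.mem_singleton_iff]
    constructor
    · intro h
      have h1 : Tendsto (fun n : ℕ => 1 / ((n : ℝ) + 1)) atTop (𝓝 0) :=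
        tendsto_one_div_add_atTop_nhds_zero_nat
      have h2 : dist z y ≤ 0 := ge_of_tendsto' h1 h
      exact dist_le_zero.1 h2
    · rintro rfl n
      rw [dist_self]; positivity
  have hlim : Tendsto (fun n : ℕ => ν (Metric.closedBall y (1 / ((n : ℝ) + 1)))) atTop
      (𝓝 (ν (⋂ n : ℕ, Metric.closedBall y (1 / ((n : ℝ) + 1))))) := by
    apply tendsto_measure_iInter_atTop
    · intro n; exact Metric.isClosed_closedBall.measurableSet.nullMeasurableSet
    · intro m n hmn
      apply Metric.closedBall_subset_closedBall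
      apply one_div_le_one_div_of_le (by positivity)
      have : (m : ℝ) ≤ n := by exact_mod_cast hmn
      linarith
    · exact ⟨0, measure_ne_top _ _⟩
  rw [hinter, hν0 y] at hlim
  obtain ⟨n, hn⟩ := ((tendsto_order.1 hlim).2 δ hδ).exists
  refine ⟨φ ⁻¹' Metric.closedBall y (1 / ((n : ℝ) + 1)),
    hφm Metric.isClosed_closedBall.measurableSet, ?_, ?_⟩
  · have := hball (1 / ((n : ℝ) + 1)) (by positivity)
    rwa [hν, Measure.map_apply hφm Metric.isClosed_closedBall.measurableSet] at this
  · rwa [hν, Measure.map_apply hφm Metric.isClosed_closedBall.measurableSet] at hn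

end Pool.Agent.V11103.Om
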