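import Pool.Agent.V11103.PcGraph

/-! The graphs are 3-edge-connected and have a `K_{3,3}` minor. -/

set_option autoImplicit false
set_option maxRecDepth 100000

open Finset

namespace Pool.Agent.V11103.Pc

lemma three {α : Type*} (s : Set α) (hs : s.encard < 3) (P1 P2 P3 : Finset α)
    (h12 : Disjoint P1 P2) (h13 : Disjoint P1 P3) (h23 : Disjoint P2 P3) :
    (∀ x ∈ P1, x ∉ s) ∨ (∀ x ∈ P2, x ∉ s) ∨ (∀ x ∈ P3, x ∉ s) := by
  by_contra hcon
  push Not at hcon
  obtain ⟨⟨x, hx, hxs⟩, ⟨y, hy, hys⟩, ⟨z, hz, hzs⟩⟩ := hcon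
  have hxy : x ≠ y := fun h => Finset.disjoint_left.1 h12 hx (h ▸ hy)
  have hxz : x ≠ z := fun h => Finset.disjoint_left.1 h13 hx (h ▸ hz)
  have hyz : y ≠ z := fun h => Finset.disjoint_left.1 h23 hy (h ▸ hz)
  have h1 : ({x, y, z} : Set α) ⊆ s := by
    rintro w (rfl | rfl | rfl) <;> assumption
  have h2 : ({x, y, z} : Set α).encard = 3 := Set.encard_eq_three.2 ⟨x, y, z, hxy, hxz, hyz, rfl⟩
  have h3 := Set.encard_le_encard h1
  rw [h2] at h3
  exact absurd hs (not_lt.2 h3)

def P1 (p e : B) : Finset (Sym2 B) := {s(p, p + e)}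
def P2 (p e f : B) : Finset (Sym2 B) := {s(p, p + f), s(p + f, p + f + e), s(p + f + e, p + e)}

lemma dis1 : ∀ p : B, Disjoint (P1 p (1, 0)) (P2 p (1, 0) (0, 1)) ∧
    Disjoint (P1 p (1, 0)) (P2 p (1, 0) (0, -1)) ∧
    Disjoint (P2 p (1, 0) (0, 1)) (P2 p (1, 0) (0, -1)) := by decide

lemma dis2 : ∀ p : B, Disjoint (P1 p (0, 1)) (P2 p (0, 1) (1, 0)) ∧
    Disjoint (P1 p (0, 1)) (P2 p (0, 1) (-1, 0)) ∧
    Disjoint (P2 p (0, 1) (1, 0)) (P2 p (0, 1) (-1, 0)) := by decide

lemma adj1 : ∀ p : B, grid.Adj p (p + (1, 0)) ∧ grid.Adj p (p + (0, 1)) ∧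
    grid.Adj p (p + (-1, 0)) ∧ grid.Adj p (p + (0, -1)) := by decide

lemma step {s : Set (Sym2 B)} (hs : s.encard < 3) (p e f g : B)
    (he : ∀ q, grid.Adj q (q + e)) (hf : ∀ q, grid.Adj q (q + f)) (hg : ∀ q, grid.Adj q (q + g))
    (h12 : Disjoint (P1 p e) (P2 p e f)) (h13 : Disjoint (P1 p e) (P2 p e g))
    (h23 : Disjoint (P2 p e f) (P2 p e g)) :
    (grid.deleteEdges s).Reachable p (p + e) := by
  have key : ∀ f : B, (∀ q, grid.Adj q (q + f)) → (∀ x ∈ P2 p e f, x ∉ s) →
      (grid.deleteEdges s).Reachable p (p + e) := by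
    intro f hf h
    have a1 : (grid.deleteEdges s).Adj p (p + f) := by
      rw [SimpleGraph.deleteEdges_adj]
      exact ⟨hf p, h _ (by simp [P2])⟩
    have a2 : (grid.deleteEdges s).Adj (p + f) (p + f + e) := by
      rw [SimpleGraph.deleteEdges_adj]
      exact ⟨he _, h _ (by simp [P2])⟩
    have a3 : (grid.deleteEdges s).Adj (p + f + e) (p + e) := by
      rw [SimpleGraph.deleteEdges_adj]
      refine ⟨?_, h _ (by simp [P2])⟩
      have : p + f + e = p + e + f := by abel
      rw [this]
      exact (hf (p + e)).symm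
    exact a1.reachable.trans (a2.reachable.trans a3.reachable)
  rcases three s hs _ _ _ h12 h13 h23 with h | h | h
  · have a1 : (grid.deleteEdges s).Adj p (p + e) := by
      rw [SimpleGraph.deleteEdges_adj]
      exact ⟨he p, h _ (by simp [P1])⟩
    exact a1.reachable
  · exact key f hf h
  · exact key g hg h

lemma grid_reach {s : Set (Sym2 B)} (hs : s.encard < 3) (u v : B) :
    (grid.deleteEdges s).Reachable u v := by
  have h1 : ∀ p : B, (grid.deleteEdges s).Reachable p (p + (1, 0)) := fun p =>
    step hs p (1, 0) (0, 1) (0, -1) (fun q => (adj1 q).1) (fun q => (adj1 q).2.1)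
      (fun q => (adj1 q).2.2.2) (dis1 p).1 (dis1 p).2.1 (dis1 p).2.2
  have h2 : ∀ p : B, (grid.deleteEdges s).Reachable p (p + (0, 1)) := fun p =>
    step hs p (0, 1) (1, 0) (-1, 0) (fun q => (adj1 q).2.1) (fun q => (adj1 q).1)
      (fun q => (adj1 q).2.2.1) (dis2 p).1 (dis2 p).2.1 (dis2 p).2.2
  have h3 : ∀ (e : B), (∀ p : B, (grid.deleteEdges s).Reachable p (p + e)) → ∀ (n : ℕ) (p : B),
      (grid.deleteEdges s).Reachable p (p + n • e) := by
    intro e he n
    induction n with
    | zero => intro p; rw [zero_nsmul, add_zero]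
    | succ n ih =>
      intro p
      rw [succ_nsmul, ← add_assoc]
      exact (ih p).trans (he _)
  have h4 : v = u + (v.1 - u.1).val • ((1, 0) : B) + (v.2 - u.2).val • ((0, 1) : B) := by
    ext
    · simp
    · simp
  rw [h4]
  exact (h3 _ h1 _ _).trans (h3 _ h2 _ _)

theorem conn (k : ℕ) : (G k).IsEdgeConnected 3 := by
  intro u v s hs
  have hs' : s.encard < 3 := by exact_mod_cast hs
  set H := (G k).deleteEdges s with hH
  -- the grid part
  have hbase : ∀ p q : B, H.Reachable (.inl p) (.inl q) := by
    intro p q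
    let t : Set (Sym2 B) := (Sym2.map (Sum.inl : B → V k)) ⁻¹' s
    have ht : t.encard < 3 := by
      refine lt_of_le_of_lt ?_ hs'
      exact Set.encard_le_encard_of_injOn (f := Sym2.map (Sum.inl : B → V k)) (fun x hx => hx)
        ((Sym2.map.injective Sum.inl_injective).injOn)
    have hr := grid_reach ht p q
    let φ : (grid.deleteEdges t) →g H :=
      { toFun := Sum.inl
        map_rel' := by
          intro a b hab
          rw [SimpleGraph.deleteEdges_adj] at hab
          rw [hH, SimpleGraph.deleteEdges_adj]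
          exact ⟨hab.1, hab.2⟩ }
    exact hr.map φ
  -- the new vertices
  have hnew : ∀ i : Fin k, H.Reachable (.inr i) (.inl (0, 0)) := by
    intro i
    by_cases hA : s((.inr i : V k), .inl (0, 0)) ∈ s
    swap
    · have : H.Adj (.inr i) (.inl (0, 0)) := by
        rw [hH, SimpleGraph.deleteEdges_adj]; exact ⟨Or.inl rfl, hA⟩
      exact this.reachable
    by_cases hB : s((.inr i : V k), .inl (1, 0)) ∈ s
    swap
    · have : H.Adj (.inr i) (.inl (1, 0)) := by
        rw [hH, SimpleGraph.deleteEdges_adj]; exact ⟨Or.inr (Or.inl rfl), hB⟩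
      exact this.reachable.trans (hbase _ _)
    -- every other edge is there
    have hrest : ∀ e, e ≠ s((.inr i : V k), .inl (0, 0)) → e ≠ s((.inr i : V k), .inl (1, 0)) →
        e ∉ s := by
      intro e h1 h2 he
      have h3 : ({s((.inr i : V k), .inl (0, 0)), s((.inr i : V k), .inl (1, 0)), e} :
          Set (Sym2 (V k))) ⊆ s := by
        rintro w (rfl | rfl | rfl) <;> assumption
      have h4 : ({s((.inr i : V k), .inl (0, 0)), s((.inr i : V k), .inl (1, 0)), e} :
          Set (Sym2 (V k))).encard = 3 := by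
        refine Set.encard_eq_three.2 ⟨_, _, _, ?_, h1.symm, h2.symm, rfl⟩
        intro h
        rw [Sym2.eq_iff] at h
        rcases h with h | h
        · have := Sum.inl_injective h.2
          revert this; decide
        · exact absurd h.1 (by simp)
      have h5 := Set.encard_le_encard h3
      rw [h4] at h5
      exact absurd hs' (not_lt.2 h5)
    by_cases hi : i.1 = 0
    · have : H.Adj (.inr i) (.inl (1, 1)) := by
        rw [hH, SimpleGraph.deleteEdges_adj]
        refine ⟨Or.inr (Or.inr ⟨rfl, hi⟩), hrest _ ?_ ?_⟩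
        · intro h
          rw [Sym2.eq_iff] at h
          rcases h with h | h
          · have := Sum.inl_injective h.2
            revert this; decide
          · exact absurd h.1 (by simp)
        · intro h
          rw [Sym2.eq_iff] at h
          rcases h with h | h
          · have := Sum.inl_injective h.2
            revert this; decide
          · exact absurd h.1 (by simp)
      exact this.reachable.trans (hbase _ _)
    · have hj : i.1 - 1 < k := by have := i.2; omega
      set j : Fin k := ⟨i.1 - 1, hj⟩ with hjd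
      have hji : j ≠ i := by
        intro h
        have := congrArg Fin.val h
        rw [hjd] at this
        simp only at this
        omega
      have a1 : H.Adj (.inr i) (.inr j) := by
        rw [hH, SimpleGraph.deleteEdges_adj]
        refine ⟨Or.inr ?_, hrest _ ?_ ?_⟩
        · rw [hjd]; simp only; omega
        · intro h
          rw [Sym2.eq_iff] at h
          rcases h with h | h
          · exact absurd h.2 (by simp)
          · exact absurd h.1 (by simp)
        · intro h
          rw [Sym2.eq_iff] at h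
          rcases h with h | h
          · exact absurd h.2 (by simp)
          · exact absurd h.1 (by simp)
      have a2 : H.Adj (.inr j) (.inl (0, 0)) := by
        rw [hH, SimpleGraph.deleteEdges_adj]
        refine ⟨Or.inl rfl, hrest _ ?_ ?_⟩
        · intro h
          rw [Sym2.eq_iff] at h
          rcases h with h | h
          · exact hji (Sum.inr_injective h.1)
          · exact absurd h.1 (by simp)
        · intro h
          rw [Sym2.eq_iff] at h
          rcases h with h | h
          · exact hji (Sum.inr_injective h.1)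
          · exact absurd h.1 (by simp)
      exact a1.reachable.trans a2.reachable
  have hall : ∀ w : V k, H.Reachable w (.inl (0, 0)) := by
    intro w
    rcases w with p | i
    · exact hbase _ _
    · exact hnew i
  exact (hall u).trans (hall v).symm

/-- `K` has a `K_{3,3}` minor: six disjoint connected sets of vertices, each of the first three joined by an edge
to each of the last three -/
def HasK33Minor {V : Type} (K : SimpleGraph V) : Prop :=
  ∃ X : Fin 6 → Finset V, (∀ i j, i ≠ j → Disjoint (X i) (X j)) ∧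
    (∀ i, (K.induce (X i : Set V)).Connected) ∧
    ∀ i j : Fin 6, i.1 < 3 → 3 ≤ j.1 → ∃ x ∈ X i, ∃ y ∈ X j, K.Adj x y

def X0 : Fin 6 → Finset B
  | 0 => {(0, 1), (0, 2), (1, 1), (1, 2), (1, 3), (4, 1)}
  | 1 => {(2, 0)}
  | 2 => {(0, 4)}
  | 3 => {(3, 0), (4, 0), (4, 4)}
  | 4 => {(0, 0), (1, 0)}
  | 5 => {(1, 4), (2, 4)}

lemma insert_conn {V : Type} (K : SimpleGraph V) (S : Set V) (x y : V)
    (hS : (K.induce S).Connected) (hy : y ∈ S) (h : K.Adj y x) :
    (K.induce (insert x S)).Connected := by
  have h1 := SimpleGraph.induce_union_connected hS.preconnected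
    (SimpleGraph.induce_pair_connected_of_adj h).preconnected ⟨y, hy, Or.inl rfl⟩
  have h2 : insert x S = S ∪ {y, x} := by
    ext z
    simp only [Set.mem_insert_iff, Set.mem_union, Set.mem_singleton_iff]
    constructor
    · rintro (h | h)
      · exact Or.inr (Or.inr h)
      · exact Or.inl h
    · rintro (h | h | h)
      · exact Or.inr h
      · exact Or.inr (h ▸ hy)
      · exact Or.inl h
  rw [h2]
  exact h1

lemma single_conn {V : Type} (K : SimpleGraph V) (x : V) : (K.induce ({x} : Set V)).Connected := by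
  rw [SimpleGraph.connected_iff]
  refine ⟨fun a b => ?_, ⟨⟨x, rfl⟩⟩⟩
  have : a = b := Subtype.ext (a.2.trans b.2.symm)
  rw [this]

lemma X0_conn : ∀ i, (grid.induce (X0 i : Set B)).Connected := by
  intro i
  fin_cases i
  · have h := insert_conn grid _ (0, 1) (1, 1)
      (insert_conn grid _ (0, 2) (1, 2)
      (insert_conn grid _ (1, 1) (1, 2)
      (insert_conn grid _ (1, 2) (1, 3) (single_conn grid (1, 3)) (by simp) (by decide))
        (by simp) (by decide)) (by simp) (by decide)) (by simp) (by decide)
    have h2 := insert_conn grid _ (4, 1) (0, 1) h (by simp) (by decide)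
    have e : ((X0 0 : Finset B) : Set B) =
        insert (4, 1) (insert (0, 1) (insert (0, 2) (insert (1, 1) (insert (1, 2) {(1, 3)})))) := by
      ext z
      simp only [X0, Finset.coe_insert, Finset.coe_singleton, Set.mem_insert_iff,
        Set.mem_singleton_iff]
      tauto
    change (grid.induce ((X0 0 : Finset B) : Set B)).Connected
    rw [e]
    exact h2
  · have h := single_conn grid (2, 0)
    change (grid.induce ((X0 1 : Finset B) : Set B)).Connected
    have e : ((X0 1 : Finset B) : Set B) = {(2, 0)} := by simp [X0]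
    rw [e]; exact h
  · have h := single_conn grid (0, 4)
    change (grid.induce ((X0 2 : Finset B) : Set B)).Connected
    have e : ((X0 2 : Finset B) : Set B) = {(0, 4)} := by simp [X0]
    rw [e]; exact h
  · have h := insert_conn grid _ (3, 0) (4, 0)
      (insert_conn grid _ (4, 0) (4, 4) (single_conn grid (4, 4)) (by simp) (by decide))
      (by simp) (by decide)
    change (grid.induce ((X0 3 : Finset B) : Set B)).Connected
    have e : ((X0 3 : Finset B) : Set B) = insert (3, 0) (insert (4, 0) {(4, 4)}) := by simp [X0]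
    rw [e]; exact h
  · have h := insert_conn grid _ (0, 0) (1, 0) (single_conn grid (1, 0)) (by simp) (by decide)
    change (grid.induce ((X0 4 : Finset B) : Set B)).Connected
    have e : ((X0 4 : Finset B) : Set B) = insert (0, 0) {(1, 0)} := by simp [X0]
    rw [e]; exact h
  · have h := insert_conn grid _ (1, 4) (2, 4) (single_conn grid (2, 4)) (by simp) (by decide)
    change (grid.induce ((X0 5 : Finset B) : Set B)).Connected
    have e : ((X0 5 : Finset B) : Set B) = insert (1, 4) {(2, 4)} := by simp [X0]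
    rw [e]; exact h

lemma X0_disj : ∀ i j, i ≠ j → Disjoint (X0 i) (X0 j) := by decide

lemma X0_adj : ∀ i j : Fin 6, i.1 < 3 → 3 ≤ j.1 → ∃ x ∈ X0 i, ∃ y ∈ X0 j, grid.Adj x y := by
  decide

theorem k33 (k : ℕ) : HasK33Minor (G k) := by
  refine ⟨fun i => (X0 i).image Sum.inl, fun i j hij => ?_, fun i => ?_, fun i j hi hj => ?_⟩
  · rw [Finset.disjoint_image Sum.inl_injective]
    exact X0_disj i j hij
  · have h := X0_conn i
    rw [SimpleGraph.connected_iff] at h ⊢
    obtain ⟨hp, ⟨x, hx⟩⟩ := h
    refine ⟨?_, ⟨⟨.inl x, by rw [Finset.coe_image]; exact ⟨x, hx, rfl⟩⟩⟩⟩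
    let φ : (grid.induce (X0 i : Set B)) →g
        ((G k).induce (((X0 i).image Sum.inl : Finset (V k)) : Set (V k))) :=
      { toFun := fun a => ⟨.inl a.1, by rw [Finset.coe_image]; exact ⟨a.1, a.2, rfl⟩⟩
        map_rel' := fun {a b} hab => hab }
    rintro ⟨a, ha⟩ ⟨b, hb⟩
    rw [Finset.coe_image] at ha hb
    obtain ⟨a', ha', rfl⟩ := ha
    obtain ⟨b', hb', rfl⟩ := hb
    exact (hp ⟨a', ha'⟩ ⟨b', hb'⟩).map φ
  · obtain ⟨x, hx, y, hy, hxy⟩ := X0_adj i j hi hj
    exact ⟨.inl x, Finset.mem_image_of_mem _ hx, .inl y, Finset.mem_image_of_mem _ hy, hxy⟩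

end Pool.Agent.V11103.Pc
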