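import Pool.Agent.V11103.PcTop

/-! Drawings of simple graphs on the torus. -/

set_option autoImplicit false

open Set

namespace Pool.Agent.V11103.Pc

/-- An embedding of the simple graph `G` in the torus: the edges are listed, each exactly once, by a type `E`;
vertices are distinct points, the edge `e` is an injective arc between its end points, and the open arcs are
disjoint from each other and from the vertices. -/
structure Drawing {V : Type} (G : SimpleGraph V) where
  /-- the edges -/
  E : Type
  /-- the end vertices of an edge -/
  ends : E → V × V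
  adj_iff : ∀ u v, G.Adj u v ↔ ∃ e, ends e = (u, v) ∨ ends e = (v, u)
  once : ∀ e f, e ≠ f → ends e ≠ ends f ∧ ends e ≠ (ends f).swap
  /-- the points that represent the vertices -/
  pos : V → Torus
  /-- the arcs (used on the interval `[0, 1]`) -/
  arc : E → ℝ → Torus
  pos_inj : Function.Injective pos
  cont : ∀ e, ContinuousOn (arc e) (Icc 0 1)
  zero : ∀ e, arc e 0 = pos (ends e).1
  one : ∀ e, arc e 1 = pos (ends e).2
  inj : ∀ e, InjOn (arc e) (Icc 0 1)
  disj : ∀ e f, e ≠ f → Disjoint (arc e '' Ioo 0 1) (arc f '' Ioo 0 1)
  avoid : ∀ e v, pos v ∉ arc e '' Ioo 0 1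

/-- the subset of the torus covered by the drawing -/
def Drawing.points {V : Type} {G : SimpleGraph V} (D : Drawing G) : Set Torus :=
  range D.pos ∪ ⋃ e, D.arc e '' Icc 0 1

/-- every simple closed curve on the torus that is not contractible meets the drawing in at least `r` points -/
def Drawing.Representativity {V : Type} {G : SimpleGraph V} (D : Drawing G) (r : ℕ) : Prop :=
  ∀ γ : C(Circle, Torus), Function.Injective γ → ¬ γ.Nullhomotopic →
    (r : ℕ∞) ≤ (range γ ∩ D.points).encard

end Pool.Agent.V11103.Pc
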