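import Pool.Agent.V11103.PcGraph
import Pool.Agent.V11103.PcDefs

/-! The drawing. -/

set_option autoImplicit false
set_option maxRecDepth 100000

open Set

namespace Pool.Agent.V11103.Pc

lemma circ_inj {x y : ℝ} (h : (x : AddCircle (5 : ℝ)) = (y : AddCircle (5 : ℝ)))
    (hxy : |x - y| < 5) : x = y := by
  rw [abs_lt] at hxy
  rcases le_total x y with hle | hle
  · exact (AddCircle.coe_eq_coe_iff_of_mem_Ico (p := (5 : ℝ)) (a := x)
      ⟨le_rfl, by linarith⟩ ⟨hle, by linarith [hxy.1]⟩).1 h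
  · exact (AddCircle.coe_eq_coe_iff_of_mem_Ico (p := (5 : ℝ)) (a := y)
      ⟨hle, by linarith [hxy.2]⟩ ⟨le_rfl, by linarith⟩).1 h

lemma toT_inj' {p q : ℝ × ℝ} (h : toT p = toT q) (h1 : |p.1 - q.1| < 5) (h2 : |p.2 - q.2| < 5) :
    p = q :=
  Prod.ext (circ_inj (congrArg Prod.fst h) h1) (circ_inj (congrArg Prod.snd h) h2)

/-- the heights of the new vertices -/
noncomputable def y (i : ℕ) : ℝ := 1 / ((i : ℝ) + 2)

lemma y_pos (i : ℕ) : 0 < y i := by unfold y; positivity

lemma y_lt {i j : ℕ} (h : i < j) : y j < y i := by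
  unfold y
  apply one_div_lt_one_div_of_lt (by positivity)
  have : (i : ℝ) < j := by exact_mod_cast h
  linarith

lemma y_le {i j : ℕ} (h : i ≤ j) : y j ≤ y i := by
  rcases Nat.lt_or_eq_of_le h with h | h
  · exact (y_lt h).le
  · rw [h]

lemma y_half (i : ℕ) : y i ≤ 1 / 2 := by
  have := y_le (Nat.zero_le i)
  have h0 : y 0 = 1 / 2 := by unfold y; norm_num
  linarith

lemma y_inj {i j : ℕ} (h : y i = y j) : i = j := by
  rcases Nat.lt_trichotomy i j with h1 | h1 | h1
  · have := y_lt h1; linarith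
  · exact h1
  · have := y_lt h1; linarith

/-- the edges -/
inductive Ed (k : ℕ) where
  | H (p : B)
  | W (p : B)
  | A (i : Fin k)
  | D (i : Fin k)
  | C (i : Fin k)

/-- the vertex before `d i` -/
def prev {k : ℕ} (i : Fin k) : V k :=
  if i.1 = 0 then .inl (1, 1) else .inr ⟨i.1 - 1, by have := i.2; omega⟩

/-- the ends -/
def ends {k : ℕ} : Ed k → V k × V k
  | .H p => (.inl p, .inl (p + (1, 0)))
  | .W p => (.inl p, .inl (p + (0, 1)))
  | .A i => (.inl (0, 0), .inr i)
  | .D i => (.inl (1, 0), .inr i)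
  | .C i => (prev i, .inr i)

/-- the position in the plane -/
noncomputable def lv {k : ℕ} : V k → ℝ × ℝ
  | .inl p => ((p.1.val : ℝ), (p.2.val : ℝ))
  | .inr i => (1 / 2, y i.1)

/-- the arcs in the plane -/
noncomputable def pt {k : ℕ} : Ed k → ℝ → ℝ × ℝ
  | .H p, t => ((p.1.val : ℝ) + t, (p.2.val : ℝ))
  | .W p, t => ((p.1.val : ℝ), (p.2.val : ℝ) + t)
  | .A i, t => (t / 2, t * y i.1)
  | .D i, t => (1 - t / 2, t * y i.1)
  | .C i, t => if i.1 = 0 then (1 - t / 2, 1 - t / 2) else (1 / 2, (1 - t) * y (i.1 - 1) + t * y i.1)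

lemma nat_eq {a b : ℕ} {t u : ℝ} (ht : t ∈ Ioo (0 : ℝ) 1) (hu : u ∈ Ioo (0 : ℝ) 1)
    (h : (a : ℝ) + t = b + u) : a = b := by
  have h1 : (a : ℝ) < b + 1 := by linarith [ht.1, hu.2]
  have h2 : (b : ℝ) < a + 1 := by linarith [ht.2, hu.1]
  have h3 : a < b + 1 := by exact_mod_cast h1
  have h4 : b < a + 1 := by exact_mod_cast h2
  omega

lemma nat_ne {a b : ℕ} {t : ℝ} (ht : t ∈ Ioo (0 : ℝ) 1) (h : (a : ℝ) + t = b) : False := by
  have h1 : (a : ℝ) < b := by linarith [ht.1]
  have h2 : (b : ℝ) < a + 1 := by linarith [ht.2]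
  have h3 : a < b := by exact_mod_cast h1
  have h4 : b < a + 1 := by exact_mod_cast h2
  omega

lemma nat_no {a : ℕ} {x : ℝ} (hx : x ∈ Ioo (0 : ℝ) 1) (h : (a : ℝ) = x) : False := by
  have h1 : (0 : ℝ) < a := by linarith [hx.1]
  have h2 : (a : ℝ) < 1 := by linarith [hx.2]
  have h3 : 0 < a := by exact_mod_cast h1
  have h4 : a < 1 := by exact_mod_cast h2
  omega

lemma boxA {k : ℕ} (i : Fin k) {t : ℝ} (ht : t ∈ Ioo (0 : ℝ) 1) :
    (pt (.A i) t).1 ∈ Ioo (0 : ℝ) (1 / 2) ∧ (pt (.A i) t).2 ∈ Ioo (0 : ℝ) 1 := by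
  have h1 := y_pos i.1
  have h2 := y_half i.1
  simp only [pt, mem_Ioo]
  refine ⟨⟨by linarith [ht.1], by linarith [ht.2]⟩, mul_pos ht.1 h1, ?_⟩
  nlinarith [ht.1, ht.2]

lemma boxD {k : ℕ} (i : Fin k) {t : ℝ} (ht : t ∈ Ioo (0 : ℝ) 1) :
    (pt (.D i) t).1 ∈ Ioo (1 / 2 : ℝ) 1 ∧ (pt (.D i) t).2 ∈ Ioo (0 : ℝ) (1 / 2) := by
  have h1 := y_pos i.1
  have h2 := y_half i.1
  simp only [pt, mem_Ioo]
  refine ⟨⟨by linarith [ht.2], by linarith [ht.1]⟩, mul_pos ht.1 h1, ?_⟩
  nlinarith [ht.1, ht.2]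

lemma boxC {k : ℕ} (i : Fin k) {t : ℝ} (ht : t ∈ Ioo (0 : ℝ) 1) :
    (i.1 = 0 ∧ pt (.C i) t = (1 - t / 2, 1 - t / 2)) ∨
      (i.1 ≠ 0 ∧ (pt (.C i) t).1 = 1 / 2 ∧ y i.1 < (pt (.C i) t).2 ∧
        (pt (.C i) t).2 < y (i.1 - 1)) := by
  by_cases h : i.1 = 0
  · left
    exact ⟨h, by simp [pt, h]⟩
  · right
    have h1 : y i.1 < y (i.1 - 1) := y_lt (by omega)
    refine ⟨h, by simp [pt, h], ?_, ?_⟩
    · simp only [pt, h, if_false]
      nlinarith [ht.1, ht.2]
    · simp only [pt, h, if_false]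
      nlinarith [ht.1, ht.2]

lemma boxC' {k : ℕ} (i : Fin k) {t : ℝ} (ht : t ∈ Ioo (0 : ℝ) 1) :
    (pt (.C i) t).1 ∈ Ioo (0 : ℝ) 1 ∧ (pt (.C i) t).2 ∈ Ioo (0 : ℝ) 1 := by
  rcases boxC i ht with ⟨_, h⟩ | ⟨_, h1, h2, h3⟩
  · rw [h]
    simp only [mem_Ioo]
    exact ⟨⟨by linarith [ht.2], by linarith [ht.1]⟩, by linarith [ht.2], by linarith [ht.1]⟩
  · rw [h1]
    refine ⟨by norm_num, ?_, ?_⟩
    · linarith [y_pos i.1]
    · linarith [y_half (i.1 - 1)]

lemma half_mem : (1 / 2 : ℝ) ∈ Ioo (0 : ℝ) 1 := by norm_num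

lemma to01 {x : ℝ} (h : x ∈ Ioo (0 : ℝ) (1 / 2)) : x ∈ Ioo (0 : ℝ) 1 := ⟨h.1, by linarith [h.2]⟩
lemma to01' {x : ℝ} (h : x ∈ Ioo (1 / 2 : ℝ) 1) : x ∈ Ioo (0 : ℝ) 1 := ⟨by linarith [h.1], h.2⟩

lemma b_ext {p q : B} (h1 : p.1.val = q.1.val) (h2 : p.2.val = q.2.val) : p = q :=
  Prod.ext (ZMod.val_injective 5 h1) (ZMod.val_injective 5 h2)

lemma plane_inj {k : ℕ} (e f : Ed k) (t u : ℝ) (ht : t ∈ Ioo (0 : ℝ) 1) (hu : u ∈ Ioo (0 : ℝ) 1)
    (h : pt e t = pt f u) : e = f := by
  have h1 := congrArg Prod.fst h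
  have h2 := congrArg Prod.snd h
  rcases e with p | p | i | i | i <;> rcases f with q | q | j | j | j
  · -- H H
    simp only [pt] at h1 h2
    rw [b_ext (nat_eq ht hu h1) (by exact_mod_cast h2)]
  · simp only [pt] at h1 h2
    exact (nat_ne ht h1).elim
  · rw [show (pt (.H p : Ed k) t).2 = (p.2.val : ℝ) from rfl] at h2
    exact (nat_no (boxA j hu).2 h2).elim
  · rw [show (pt (.H p : Ed k) t).2 = (p.2.val : ℝ) from rfl] at h2
    exact (nat_no (to01 (boxD j hu).2) h2).elim
  · rw [show (pt (.H p : Ed k) t).2 = (p.2.val : ℝ) from rfl] at h2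
    exact (nat_no (boxC' j hu).2 h2).elim
  · simp only [pt] at h1 h2
    exact (nat_ne hu h1.symm).elim
  · simp only [pt] at h1 h2
    rw [b_ext (by exact_mod_cast h1) (nat_eq ht hu h2)]
  · rw [show (pt (.W p : Ed k) t).1 = (p.1.val : ℝ) from rfl] at h1
    exact (nat_no (to01 (boxA j hu).1) h1).elim
  · rw [show (pt (.W p : Ed k) t).1 = (p.1.val : ℝ) from rfl] at h1
    exact (nat_no (to01' (boxD j hu).1) h1).elim
  · rw [show (pt (.W p : Ed k) t).1 = (p.1.val : ℝ) from rfl] at h1
    exact (nat_no (boxC' j hu).1 h1).elim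
  · rw [show (pt (.H q : Ed k) u).2 = (q.2.val : ℝ) from rfl] at h2
    exact (nat_no (boxA i ht).2 h2.symm).elim
  · rw [show (pt (.W q : Ed k) u).1 = (q.1.val : ℝ) from rfl] at h1
    exact (nat_no (to01 (boxA i ht).1) h1.symm).elim
  · simp only [pt] at h1 h2
    have h3 : t = u := by linarith
    rw [h3] at h2
    rw [Fin.ext (y_inj (mul_left_cancel₀ hu.1.ne' h2))]
  · exfalso
    have := (boxA i ht).1.2
    have := (boxD j hu).1.1
    linarith
  · exfalso
    have h3 := (boxA i ht).1.2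
    rcases boxC j hu with ⟨_, h4⟩ | ⟨_, h4, _, _⟩
    · rw [h4] at h1
      simp only at h1
      linarith [hu.2]
    · linarith
  · rw [show (pt (.H q : Ed k) u).2 = (q.2.val : ℝ) from rfl] at h2
    exact (nat_no (to01 (boxD i ht).2) h2.symm).elim
  · rw [show (pt (.W q : Ed k) u).1 = (q.1.val : ℝ) from rfl] at h1
    exact (nat_no (to01' (boxD i ht).1) h1.symm).elim
  · exfalso
    have := (boxD i ht).1.1
    have := (boxA j hu).1.2
    linarith
  · simp only [pt] at h1 h2
    have h3 : t = u := by linarith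
    rw [h3] at h2
    rw [Fin.ext (y_inj (mul_left_cancel₀ hu.1.ne' h2))]
  · exfalso
    have h3 := (boxD i ht).1.1
    have h5 := (boxD i ht).2.2
    rcases boxC j hu with ⟨_, h4⟩ | ⟨_, h4, _, _⟩
    · rw [h4] at h2
      simp only at h2
      linarith [hu.2]
    · linarith
  · rw [show (pt (.H q : Ed k) u).2 = (q.2.val : ℝ) from rfl] at h2
    exact (nat_no (boxC' i ht).2 h2.symm).elim
  · rw [show (pt (.W q : Ed k) u).1 = (q.1.val : ℝ) from rfl] at h1
    exact (nat_no (boxC' i ht).1 h1.symm).elim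
  · exfalso
    have h3 := (boxA j hu).1.2
    rcases boxC i ht with ⟨_, h4⟩ | ⟨_, h4, _, _⟩
    · rw [h4] at h1
      simp only at h1
      linarith [ht.2]
    · linarith
  · exfalso
    have h3 := (boxD j hu).1.1
    have h5 := (boxD j hu).2.2
    rcases boxC i ht with ⟨_, h4⟩ | ⟨_, h4, _, _⟩
    · rw [h4] at h2
      simp only at h2
      linarith [ht.2]
    · linarith
  · rcases boxC i ht with ⟨hi, h3⟩ | ⟨hi, h3, h4, h5⟩ <;>
      rcases boxC j hu with ⟨hj, h6⟩ | ⟨hj, h6, h7, h8⟩
    · rw [Fin.ext (hi.trans hj.symm)]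
    · exfalso
      rw [h3] at h1
      simp only at h1
      linarith [ht.2]
    · exfalso
      rw [h6] at h1
      simp only at h1
      linarith [hu.2]
    · rcases Nat.lt_trichotomy i.1 j.1 with hij | hij | hij
      · exfalso
        have := y_le (show i.1 ≤ j.1 - 1 by omega)
        linarith
      · rw [Fin.ext hij]
      · exfalso
        have := y_le (show j.1 ≤ i.1 - 1 by omega)
        linarith

lemma plane_avoid {k : ℕ} (e : Ed k) (v : V k) (t : ℝ) (ht : t ∈ Ioo (0 : ℝ) 1)
    (h : lv v = pt e t) : False := by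
  have h1 := congrArg Prod.fst h
  have h2 := congrArg Prod.snd h
  rcases v with q | j
  · rcases e with p | p | i | i | i
    · simp only [lv, pt] at h1
      exact nat_ne ht h1.symm
    · simp only [lv, pt] at h2
      exact nat_ne ht h2.symm
    · exact nat_no (boxA i ht).2 h2
    · exact nat_no (to01 (boxD i ht).2) h2
    · exact nat_no (boxC' i ht).2 h2
  · have hy : y j.1 ∈ Ioo (0 : ℝ) 1 := ⟨y_pos _, by linarith [y_half j.1]⟩
    rw [show (lv (.inr j : V k)).1 = 1 / 2 from rfl] at h1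
    rw [show (lv (.inr j : V k)).2 = y j.1 from rfl] at h2
    rcases e with p | p | i | i | i
    · exact nat_no hy h2.symm
    · exact nat_no half_mem h1.symm
    · linarith [(boxA i ht).1.2]
    · linarith [(boxD i ht).1.1]
    · rcases boxC i ht with ⟨_, h4⟩ | ⟨hi, h4, h5, h6⟩
      · rw [h4] at h1
        simp only at h1
        linarith [ht.2]
      · rcases Nat.lt_or_ge j.1 i.1 with hij | hij
        · have := y_le (show j.1 ≤ i.1 - 1 by omega)
          linarith
        · have := y_le hij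
          linarith

lemma lv_inj {k : ℕ} (u v : V k) (h : lv u = lv v) : u = v := by
  have h1 := congrArg Prod.fst h
  have h2 := congrArg Prod.snd h
  rcases u with p | i <;> rcases v with q | j
  · simp only [lv] at h1 h2
    have h3 : p = q := b_ext (by exact_mod_cast h1) (by exact_mod_cast h2)
    rw [h3]
  · simp only [lv] at h1
    exact (nat_no half_mem h1).elim
  · simp only [lv] at h1
    exact (nat_no half_mem h1.symm).elim
  · simp only [lv] at h2
    rw [Fin.ext (y_inj h2)]

lemma lv_box {k : ℕ} (v : V k) : (0 ≤ (lv v).1 ∧ (lv v).1 < 5) ∧ 0 ≤ (lv v).2 ∧ (lv v).2 < 5 := by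
  rcases v with p | i
  · have h1 : p.1.val < 5 := ZMod.val_lt _
    have h2 : p.2.val < 5 := ZMod.val_lt _
    simp only [lv]
    exact ⟨⟨Nat.cast_nonneg _, by exact_mod_cast h1⟩, Nat.cast_nonneg _, by exact_mod_cast h2⟩
  · have h1 := y_pos i.1
    have h2 := y_half i.1
    simp only [lv]
    exact ⟨⟨by norm_num, by norm_num⟩, h1.le, by linarith⟩

lemma pt_box {k : ℕ} (e : Ed k) (t : ℝ) (ht : t ∈ Ioo (0 : ℝ) 1) :
    (0 ≤ (pt e t).1 ∧ (pt e t).1 < 5) ∧ 0 ≤ (pt e t).2 ∧ (pt e t).2 < 5 := by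
  rcases e with p | p | i | i | i
  · have h1 : p.1.val ≤ 4 := by have : p.1.val < 5 := ZMod.val_lt _; omega
    have h2 : p.2.val < 5 := ZMod.val_lt _
    have h3 : (p.1.val : ℝ) ≤ 4 := by exact_mod_cast h1
    have h4 : (0 : ℝ) ≤ p.1.val := Nat.cast_nonneg _
    simp only [pt]
    exact ⟨⟨by linarith [ht.1], by linarith [ht.2]⟩, Nat.cast_nonneg _, by exact_mod_cast h2⟩
  · have h1 : p.2.val ≤ 4 := by have : p.2.val < 5 := ZMod.val_lt _; omega
    have h2 : p.1.val < 5 := ZMod.val_lt _
    have h3 : (p.2.val : ℝ) ≤ 4 := by exact_mod_cast h1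
    have h4 : (0 : ℝ) ≤ p.2.val := Nat.cast_nonneg _
    simp only [pt]
    exact ⟨⟨Nat.cast_nonneg _, by exact_mod_cast h2⟩, by linarith [ht.1], by linarith [ht.2]⟩
  · obtain ⟨h1, h2⟩ := boxA i ht
    exact ⟨⟨h1.1.le, by linarith [h1.2]⟩, h2.1.le, by linarith [h2.2]⟩
  · obtain ⟨h1, h2⟩ := boxD i ht
    exact ⟨⟨by linarith [h1.1], by linarith [h1.2]⟩, h2.1.le, by linarith [h2.2]⟩
  · obtain ⟨h1, h2⟩ := boxC' i ht
    exact ⟨⟨h1.1.le, by linarith [h1.2]⟩, h2.1.le, by linarith [h2.2]⟩

lemma pt_inj {k : ℕ} (e : Ed k) (t u : ℝ) (h : pt e t = pt e u) : t = u := by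
  have h1 := congrArg Prod.fst h
  have h2 := congrArg Prod.snd h
  rcases e with p | p | i | i | i
  · simp only [pt] at h1; linarith
  · simp only [pt] at h2; linarith
  · simp only [pt] at h1; linarith
  · simp only [pt] at h1; linarith
  · by_cases hi : i.1 = 0
    · simp only [pt, hi, if_true] at h1; linarith
    · simp only [pt, hi, if_false] at h2
      have h3 : y i.1 < y (i.1 - 1) := y_lt (by omega)
      have h4 : (t - u) * (y (i.1 - 1) - y i.1) = 0 := by linarith
      rcases mul_eq_zero.1 h4 with h5 | h5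
      · linarith
      · linarith

lemma pt_small {k : ℕ} (e : Ed k) (t u : ℝ) (ht : t ∈ Icc (0 : ℝ) 1) (hu : u ∈ Icc (0 : ℝ) 1) :
    |(pt e t).1 - (pt e u).1| < 5 ∧ |(pt e t).2 - (pt e u).2| < 5 := by
  obtain ⟨ht0, ht1⟩ := ht
  obtain ⟨hu0, hu1⟩ := hu
  rcases e with p | p | i | i | i
  · simp only [pt]
    refine ⟨abs_lt.2 ⟨by linarith, by linarith⟩, by simp⟩
  · simp only [pt]
    refine ⟨by simp, abs_lt.2 ⟨by linarith, by linarith⟩⟩
  · have h1 := y_pos i.1
    have h2 := y_half i.1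
    simp only [pt]
    refine ⟨abs_lt.2 ⟨by linarith, by linarith⟩, abs_lt.2 ⟨by nlinarith, by nlinarith⟩⟩
  · have h1 := y_pos i.1
    have h2 := y_half i.1
    simp only [pt]
    refine ⟨abs_lt.2 ⟨by linarith, by linarith⟩, abs_lt.2 ⟨by nlinarith, by nlinarith⟩⟩
  · by_cases hi : i.1 = 0
    · simp only [pt, hi, if_true]
      refine ⟨abs_lt.2 ⟨by linarith, by linarith⟩, abs_lt.2 ⟨by linarith, by linarith⟩⟩
    · have h1 := y_pos i.1
      have h2 := y_half i.1
      have h3 := y_pos (i.1 - 1)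
      have h4 := y_half (i.1 - 1)
      simp only [pt, hi, if_false]
      refine ⟨by simp, abs_lt.2 ⟨by nlinarith, by nlinarith⟩⟩

lemma coe_val_succ : ∀ a : ZMod 5, (((a.val : ℝ) + 1 : ℝ) : AddCircle (5 : ℝ)) =
    (((a + 1).val : ℝ) : AddCircle (5 : ℝ)) := by
  intro a
  fin_cases a
  · change (((0 : ℕ) : ℝ) + 1 : ℝ) = ((((1 : ℕ) : ℝ)) : AddCircle (5 : ℝ))
    norm_num
  · change (((1 : ℕ) : ℝ) + 1 : ℝ) = ((((2 : ℕ) : ℝ)) : AddCircle (5 : ℝ))
    norm_num
  · change (((2 : ℕ) : ℝ) + 1 : ℝ) = ((((3 : ℕ) : ℝ)) : AddCircle (5 : ℝ))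
    norm_num
  · change (((3 : ℕ) : ℝ) + 1 : ℝ) = ((((4 : ℕ) : ℝ)) : AddCircle (5 : ℝ))
    norm_num
  · change (((4 : ℕ) : ℝ) + 1 : ℝ) = ((((0 : ℕ) : ℝ)) : AddCircle (5 : ℝ))
    have h : (((4 : ℕ) : ℝ) + 1 : ℝ) = 5 := by norm_num
    rw [h, AddCircle.coe_period]
    simp

lemma pt_cont {k : ℕ} (e : Ed k) : Continuous (pt e) := by
  rcases e with p | p | i | i | i
  · exact (continuous_const.add continuous_id).prodMk continuous_const
  · exact continuous_const.prodMk (continuous_const.add continuous_id)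
  · exact (continuous_id.div_const 2).prodMk (continuous_id.mul continuous_const)
  · exact (continuous_const.sub (continuous_id.div_const 2)).prodMk
      (continuous_id.mul continuous_const)
  · by_cases hi : i.1 = 0
    · have h : (pt (.C i : Ed k)) = fun t => (1 - t / 2, 1 - t / 2) := by
        funext t; simp [pt, hi]
      rw [h]
      exact (continuous_const.sub (continuous_id.div_const 2)).prodMk
        (continuous_const.sub (continuous_id.div_const 2))
    · have h : (pt (.C i : Ed k)) = fun t => (1 / 2, (1 - t) * y (i.1 - 1) + t * y i.1) := by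
        funext t; simp [pt, hi]
      rw [h]
      exact continuous_const.prodMk (((continuous_const.sub continuous_id).mul
        continuous_const).add (continuous_id.mul continuous_const))

lemma pt_zero {k : ℕ} (e : Ed k) : toT (pt e 0) = toT (lv (ends e).1) := by
  rcases e with p | p | i | i | i
  · simp [pt, ends, lv]
  · simp [pt, ends, lv]
  · simp [pt, ends, lv]
  · have h1 : ((1 : ZMod 5).val : ℝ) = 1 := by
      have : (1 : ZMod 5).val = 1 := by decide
      rw [this]; norm_num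
    simp only [pt, ends, lv, h1]
    norm_num
  · by_cases hi : i.1 = 0
    · have h1 : ((1 : ZMod 5).val : ℝ) = 1 := by
        have : (1 : ZMod 5).val = 1 := by decide
        rw [this]; norm_num
      simp only [pt, ends, prev, hi, if_true, lv, h1]
      norm_num
    · simp only [pt, ends, prev, hi, if_false, lv]
      norm_num

lemma pt_one {k : ℕ} (e : Ed k) : toT (pt e 1) = toT (lv (ends e).2) := by
  rcases e with p | p | i | i | i
  · simp only [pt, ends, lv, toT, Prod.fst_add, Prod.snd_add, add_zero]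
    rw [coe_val_succ]
  · simp only [pt, ends, lv, toT, Prod.fst_add, Prod.snd_add, add_zero]
    rw [coe_val_succ]
  · simp only [pt, ends, lv]; norm_num
  · simp only [pt, ends, lv]; norm_num
  · by_cases hi : i.1 = 0
    · have h0 : y 0 = 1 / 2 := by unfold y; norm_num
      simp only [pt, ends, hi, if_true, lv, h0]
      norm_num
    · simp only [pt, ends, hi, if_false, lv]
      norm_num

lemma dec1 : ∀ p q : B, ¬ (p = q + (1, 0) ∧ p + (1, 0) = q) := by decide
lemma dec2 : ∀ p q : B, ¬ (p = q + (0, 1) ∧ p + (0, 1) = q) := by decide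
lemma dec3 : ∀ p q : B, ¬ (p = q + (0, 1) ∧ p + (1, 0) = q) := by decide
lemma dec4 : ∀ p q : B, ¬ (p = q + (1, 0) ∧ p + (0, 1) = q) := by decide
lemma dec5 : ∀ p q : B, ¬ (p = q ∧ p + (1, 0) = q + (0, 1)) := by decide

lemma once' {k : ℕ} (e f : Ed k) (hef : e ≠ f) : ends e ≠ ends f ∧ ends e ≠ (ends f).swap := by
  constructor
  · intro h
    have h1 := congrArg Prod.fst h
    have h2 := congrArg Prod.snd h
    rcases e with p | p | i | i | i <;> rcases f with q | q | j | j | j
    · exact hef (by rw [Sum.inl_injective h1])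
    · exact dec5 p q ⟨Sum.inl_injective h1, Sum.inl_injective h2⟩
    · exact absurd h2 (by simp [ends])
    · exact absurd h2 (by simp [ends])
    · exact absurd h2 (by simp [ends])
    · exact dec5 q p ⟨(Sum.inl_injective h1).symm, (Sum.inl_injective h2).symm⟩
    · exact hef (by rw [Sum.inl_injective h1])
    · exact absurd h2 (by simp [ends])
    · exact absurd h2 (by simp [ends])
    · exact absurd h2 (by simp [ends])
    · exact absurd h2 (by simp [ends])
    · exact absurd h2 (by simp [ends])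
    · exact hef (by rw [Sum.inr_injective h2])
    · have := Sum.inl_injective h1
      revert this; decide
    · simp only [ends, prev] at h1
      split_ifs at h1 <;> first
        | (have := Sum.inl_injective h1
           revert this; decide)
        | exact absurd h1 (by simp)
    · exact absurd h2 (by simp [ends])
    · exact absurd h2 (by simp [ends])
    · have := Sum.inl_injective h1
      revert this; decide
    · exact hef (by rw [Sum.inr_injective h2])
    · simp only [ends, prev] at h1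
      split_ifs at h1 <;> first
        | (have := Sum.inl_injective h1
           revert this; decide)
        | exact absurd h1 (by simp)
    · exact absurd h2 (by simp [ends])
    · exact absurd h2 (by simp [ends])
    · simp only [ends, prev] at h1
      split_ifs at h1 <;> first
        | (have := Sum.inl_injective h1
           revert this; decide)
        | exact absurd h1 (by simp)
    · simp only [ends, prev] at h1
      split_ifs at h1 <;> first
        | (have := Sum.inl_injective h1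
           revert this; decide)
        | exact absurd h1 (by simp)
    · exact hef (by rw [Sum.inr_injective h2])
  · intro h
    have h1 := congrArg Prod.fst h
    have h2 := congrArg Prod.snd h
    rcases e with p | p | i | i | i <;> rcases f with q | q | j | j | j
    · exact dec1 p q ⟨Sum.inl_injective h1, Sum.inl_injective h2⟩
    · exact dec3 p q ⟨Sum.inl_injective h1, Sum.inl_injective h2⟩
    · exact absurd h1 (by simp [ends])
    · exact absurd h1 (by simp [ends])
    · exact absurd h1 (by simp [ends])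
    · exact dec4 p q ⟨Sum.inl_injective h1, Sum.inl_injective h2⟩
    · exact dec2 p q ⟨Sum.inl_injective h1, Sum.inl_injective h2⟩
    · exact absurd h1 (by simp [ends])
    · exact absurd h1 (by simp [ends])
    · exact absurd h1 (by simp [ends])
    · exact absurd h2 (by simp [ends])
    · exact absurd h2 (by simp [ends])
    · exact absurd h1 (by simp [ends])
    · exact absurd h1 (by simp [ends])
    · exact absurd h1 (by simp [ends])
    · exact absurd h2 (by simp [ends])
    · exact absurd h2 (by simp [ends])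
    · exact absurd h1 (by simp [ends])
    · exact absurd h1 (by simp [ends])
    · exact absurd h1 (by simp [ends])
    · exact absurd h2 (by simp [ends])
    · exact absurd h2 (by simp [ends])
    · exact absurd h2 (by simp [ends])
    · exact absurd h2 (by simp [ends])
    · have hi : i.1 ≠ 0 := by
        intro hi
        simp [ends, prev, hi] at h1
      have hj : j.1 ≠ 0 := by
        intro hj
        simp [ends, prev, hj] at h2
      have h1' : prev i = Sum.inr j := h1
      have h2' : Sum.inr i = prev j := h2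
      simp only [prev, hi, hj, if_false] at h1' h2'
      have h3 := congrArg Fin.val (Sum.inr_injective h1')
      have h4 := congrArg Fin.val (Sum.inr_injective h2')
      simp only at h3 h4
      omega

lemma adj_iff' {k : ℕ} (u v : V k) :
    (G k).Adj u v ↔ ∃ e : Ed k, ends e = (u, v) ∨ ends e = (v, u) := by
  have key : ∀ e : Ed k, (G k).Adj (ends e).1 (ends e).2 := by
    intro e
    rcases e with p | p | i | i | i
    · change grid.Adj p (p + (1, 0))
      exact Or.inl (by abel)
    · change grid.Adj p (p + (0, 1))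
      exact Or.inr (Or.inr (Or.inl (by abel)))
    · exact Or.inl rfl
    · exact Or.inr (Or.inl rfl)
    · change (G k).Adj (prev i) (.inr i)
      unfold prev
      split_ifs with hi
      · exact Or.inr (Or.inr ⟨rfl, hi⟩)
      · left
        change i.1 - 1 + 1 = i.1
        omega
  have back : ∀ (u v : V k), (G k).Adj u v → ∃ e : Ed k, ends e = (u, v) ∨ ends e = (v, u) := by
    intro u v h
    rcases u with p | i <;> rcases v with q | j
    · rcases h with h | h | h | h
      · have h' : q = p + (1, 0) := by rw [← h]; abel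
        subst h'; exact ⟨.H p, Or.inl rfl⟩
      · have h' : p = q + (1, 0) := by rw [← h]; abel
        subst h'; exact ⟨.H q, Or.inr rfl⟩
      · have h' : q = p + (0, 1) := by rw [← h]; abel
        subst h'; exact ⟨.W p, Or.inl rfl⟩
      · have h' : p = q + (0, 1) := by rw [← h]; abel
        subst h'; exact ⟨.W q, Or.inr rfl⟩
    · rcases h with h | h | ⟨h, hj⟩
      · exact ⟨.A j, Or.inl (by rw [h]; rfl)⟩
      · exact ⟨.D j, Or.inl (by rw [h]; rfl)⟩
      · exact ⟨.C j, Or.inl (by rw [h]; simp [ends, prev, hj])⟩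
    · rcases h with h | h | ⟨h, hj⟩
      · exact ⟨.A i, Or.inr (by rw [h]; rfl)⟩
      · exact ⟨.D i, Or.inr (by rw [h]; rfl)⟩
      · exact ⟨.C i, Or.inr (by rw [h]; simp [ends, prev, hj])⟩
    · rcases h with h | h
      · refine ⟨.C j, Or.inl ?_⟩
        have hj : j.1 ≠ 0 := by omega
        simp only [ends, prev, hj, if_false]
        congr 2
        apply Fin.ext
        change j.1 - 1 = i.1
        omega
      · refine ⟨.C i, Or.inr ?_⟩
        have hj : i.1 ≠ 0 := by omega
        simp only [ends, prev, hj, if_false]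
        congr 2
        apply Fin.ext
        change i.1 - 1 = j.1
        omega
  constructor
  · exact back u v
  · rintro ⟨e, he | he⟩
    · have := key e; rw [he] at this; exact this
    · have := key e; rw [he] at this; exact this.symm

/-- the drawing of `G k` on the torus -/
noncomputable def drawing (k : ℕ) : Drawing (G k) where
  E := Ed k
  ends := ends
  adj_iff := adj_iff'
  once := once'
  pos v := toT (lv v)
  arc e t := toT (pt e t)
  pos_inj := by
    intro u v h
    exact lv_inj u v (toT_inj (lv_box u).1 (lv_box u).2 (lv_box v).1 (lv_box v).2 h)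
  cont e := (continuous_toT.comp (pt_cont e)).continuousOn
  zero e := pt_zero e
  one e := pt_one e
  inj e := by
    intro t ht u hu h
    exact pt_inj e t u (toT_inj' h (pt_small e t u ht hu).1 (pt_small e t u ht hu).2)
  disj e f hef := by
    rw [Set.disjoint_left]
    rintro _ ⟨t, ht, rfl⟩ ⟨u, hu, h⟩
    exact hef (plane_inj e f t u ht hu (toT_inj (pt_box f u hu).1 (pt_box f u hu).2
      (pt_box e t ht).1 (pt_box e t ht).2 h).symm)
  avoid e v := by
    rintro ⟨t, ht, h⟩
    exact plane_avoid e v t ht (toT_inj (pt_box e t ht).1 (pt_box e t ht).2 (lv_box v).1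
      (lv_box v).2 h).symm

/-- the points with an integral coordinate are covered -/
lemma int_cover {k : ℕ} (a : Torus) (n : ZMod 5)
    (h : a.1 = ((n.val : ℝ) : AddCircle (5 : ℝ)) ∨ a.2 = ((n.val : ℝ) : AddCircle (5 : ℝ))) :
    a ∈ (drawing k).points := by
  have cover : ∀ b : AddCircle (5 : ℝ), ∃ (m : ZMod 5) (t : ℝ), t ∈ Icc (0 : ℝ) 1 ∧
      b = (((m.val : ℝ) + t : ℝ) : AddCircle (5 : ℝ)) := by
    intro b
    obtain ⟨x, hx, rfl⟩ : ∃ x : ℝ, x ∈ Ico (0 : ℝ) 5 ∧ (x : AddCircle (5 : ℝ)) = b := by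
      have h1 := (AddCircle.equivIco (5 : ℝ) 0 b).2
      refine ⟨_, ⟨h1.1, by linarith [h1.2]⟩, (AddCircle.equivIco (5 : ℝ) 0).symm_apply_apply b⟩
    have h0 : 0 ≤ ⌊x⌋ := Int.floor_nonneg.2 hx.1
    have h5 : ⌊x⌋ < 5 := Int.floor_lt.2 (by exact_mod_cast hx.2)
    refine ⟨((⌊x⌋.toNat : ℕ) : ZMod 5), Int.fract x, ⟨Int.fract_nonneg x, (Int.fract_lt_one x).le⟩, ?_⟩
    have h6 : (((⌊x⌋.toNat : ℕ) : ZMod 5)).val = ⌊x⌋.toNat := by
      rw [ZMod.val_natCast]
      exact Nat.mod_eq_of_lt (by omega)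
    rw [h6]
    congr 1
    have h7 : ((⌊x⌋.toNat : ℕ) : ℝ) = (⌊x⌋ : ℝ) := by
      have : ((⌊x⌋.toNat : ℕ) : ℤ) = ⌊x⌋ := Int.toNat_of_nonneg h0
      exact_mod_cast this
    rw [h7, Int.floor_add_fract]
  unfold Drawing.points
  right
  rw [mem_iUnion]
  rcases h with h | h
  · obtain ⟨m, t, ht, hb⟩ := cover a.2
    refine ⟨Ed.W (n, m), t, ht, ?_⟩
    exact Prod.ext h.symm hb.symm
  · obtain ⟨m, t, ht, hb⟩ := cover a.1
    refine ⟨Ed.H (m, n), t, ht, ?_⟩
    exact Prod.ext hb.symm h.symm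

lemma val_circ_inj : Function.Injective (fun n : ZMod 5 => ((n.val : ℝ) : AddCircle (5 : ℝ))) := by
  intro a b h
  have ha : a.val < 5 := ZMod.val_lt a
  have hb : b.val < 5 := ZMod.val_lt b
  have ha' : (a.val : ℝ) < 5 := by exact_mod_cast ha
  have hb' : (b.val : ℝ) < 5 := by exact_mod_cast hb
  have ha0 : (0 : ℝ) ≤ a.val := Nat.cast_nonneg _
  have hb0 : (0 : ℝ) ≤ b.val := Nat.cast_nonneg _
  have h1 : (a.val : ℝ) = b.val := circ_inj h (abs_lt.2 ⟨by linarith, by linarith⟩)
  exact ZMod.val_injective 5 (by exact_mod_cast h1)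

theorem rep (k : ℕ) : (drawing k).Representativity 5 := by
  intro γ _ hγ
  have main : ∀ (π : Torus → AddCircle (5 : ℝ)),
      (∀ (a : Torus) (n : ZMod 5), π a = ((n.val : ℝ) : AddCircle (5 : ℝ)) →
        a ∈ (drawing k).points) → (∀ a, ∃ x, π (γ x) = a) →
      ((5 : ℕ) : ℕ∞) ≤ (range γ ∩ (drawing k).points).encard := by
    intro π hπ hsurj
    choose x hx using fun n : ZMod 5 => hsurj ((n.val : ℝ) : AddCircle (5 : ℝ))
    have h1 : (range fun n : ZMod 5 => γ (x n)) ⊆ range γ ∩ (drawing k).points := by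
      rintro _ ⟨n, rfl⟩
      exact ⟨⟨x n, rfl⟩, hπ _ n (hx n)⟩
    have hinj : Function.Injective fun n : ZMod 5 => γ (x n) := by
      intro a b h
      apply val_circ_inj
      change ((a.val : ℝ) : AddCircle (5 : ℝ)) = ((b.val : ℝ) : AddCircle (5 : ℝ))
      rw [← hx a, ← hx b]
      exact congrArg π h
    refine le_trans ?_ (Set.encard_le_encard h1)
    rw [← Set.image_univ, hinj.encard_image, Set.encard_univ]
    simp
  rcases onto_of_not_null γ hγ with h | h
  · exact main Prod.fst (fun a n ha => int_cover a n (Or.inl ha)) h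
  · exact main Prod.snd (fun a n ha => int_cover a n (Or.inr ha)) h

end Pool.Agent.V11103.Pc
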