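import Mathlib

/-!
Under-recurrent sets and functions.
-/

set_option autoImplicit false

open MeasureTheory

namespace Pool.Agent.V11103

/-- `A` is an under-recurrent set: `0 < μ(A) < 1` and `μ(A ∩ T^{-n}A) ≤ μ(A)²` for all `n ≥ 1`. -/
def UnderRecurrentSet {X : Type*} [MeasurableSpace X] (μ : Measure X) (T : X → X) (A : Set X) :
    Prop :=
  MeasurableSet A ∧ 0 < μ.real A ∧ μ.real A < 1 ∧
    ∀ n : ℕ, 1 ≤ n → μ.real (A ∩ T^[n] ⁻¹' A) ≤ μ.real A ^ 2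

/-- `f ∈ L²(μ)` is an under-recurrent function: it is not a.e. constant and
`∫ f · T^n f dμ ≤ (∫ f dμ)²` for all `n ≥ 1`. -/
def UnderRecurrentFunction {X : Type*} [MeasurableSpace X] (μ : Measure X) (T : X → X)
    (f : X → ℝ) : Prop :=
  MemLp f 2 μ ∧ (¬ ∃ c : ℝ, ∀ᵐ x ∂μ, f x = c) ∧
    ∀ n : ℕ, 1 ≤ n → ∫ x, f x * f (T^[n] x) ∂μ ≤ (∫ x, f x ∂μ) ^ 2

end Pool.Agent.V11103
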