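import Mathlib
import Pool.Agent.V11103.UnderDefs

set_option autoImplicit false

open MeasureTheory Set Filter Topology AddCircle
open scoped ENNReal

namespace Pool.Agent.V11103

/-- If `T` is the identity on a set of positive measure there is no under-recurrent set. -/
theorem no_underRecurrentSet {X : Type*} [MeasurableSpace X] {μ : Measure X}
    [IsProbabilityMeasure μ] {T : X → X} (hT : MeasurePreserving T μ μ) {S : Set X}
    (hS : MeasurableSet S) (hpos : 0 < μ.real S) (hid : ∀ x ∈ S, ∀ n : ℕ, T^[n] x = x)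
    (A : Set X) : ¬ UnderRecurrentSet μ T A := by
  rintro ⟨hA, h0, h1, hrec⟩
  set a : ℝ := μ.real A with ha
  set g : X → ℝ := fun x => A.indicator (fun _ => (1 : ℝ)) x - a with hg
  have hgm : Measurable g := (measurable_const.indicator hA).sub measurable_const
  have hgb : ∀ x, |g x| ≤ 1 := by
    intro x
    simp only [hg]
    by_cases hx : x ∈ A
    · rw [indicator_of_mem hx, abs_le]; constructor <;> linarith
    · rw [indicator_of_notMem hx, abs_le]; constructor <;> linarith
  have hgi : ∀ m n : ℕ, Integrable (fun x => g (T^[m] x) * g (T^[n] x)) μ := by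
    intro m n
    refine Integrable.of_bound (((hgm.comp (hT.measurable.iterate m)).mul
      (hgm.comp (hT.measurable.iterate n))).aestronglyMeasurable) 1 (Eventually.of_forall fun x => ?_)
    rw [Real.norm_eq_abs, abs_mul]
    calc |g (T^[m] x)| * |g (T^[n] x)| ≤ 1 * 1 :=
          mul_le_mul (hgb _) (hgb _) (abs_nonneg _) zero_le_one
      _ = 1 := one_mul 1
  -- correlations
  have hcorr0 : ∀ n : ℕ, 1 ≤ n → ∫ x, g x * g (T^[n] x) ∂μ ≤ 0 := by
    intro n hn
    have hi1 : Integrable (A.indicator fun _ => (1 : ℝ)) μ := (integrable_const _).indicator hA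
    have hi2 : Integrable (fun x => A.indicator (fun _ => (1 : ℝ)) (T^[n] x)) μ :=
      (hT.iterate n).integrable_comp_of_integrable hi1
    have e : ∀ x, g x * g (T^[n] x) = (A ∩ T^[n] ⁻¹' A).indicator (fun _ => (1 : ℝ)) x
        - a * A.indicator (fun _ => (1 : ℝ)) x - a * A.indicator (fun _ => (1 : ℝ)) (T^[n] x)
        + a ^ 2 := by
      intro x
      simp only [hg]
      by_cases hx : x ∈ A <;> by_cases hy : T^[n] x ∈ A
      · rw [indicator_of_mem hx, indicator_of_mem hy,
          indicator_of_mem (show x ∈ A ∩ T^[n] ⁻¹' A from ⟨hx, hy⟩)]; ring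
      · rw [indicator_of_mem hx, indicator_of_notMem hy,
          indicator_of_notMem (show x ∉ A ∩ T^[n] ⁻¹' A from fun h => hy h.2)]; ring
      · rw [indicator_of_notMem hx, indicator_of_mem hy,
          indicator_of_notMem (show x ∉ A ∩ T^[n] ⁻¹' A from fun h => hx h.1)]; ring
      · rw [indicator_of_notMem hx, indicator_of_notMem hy,
          indicator_of_notMem (show x ∉ A ∩ T^[n] ⁻¹' A from fun h => hx h.1)]; ring
    have hAn : MeasurableSet (A ∩ T^[n] ⁻¹' A) := hA.inter ((hT.measurable.iterate n) hA)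
    have hi3 : Integrable ((A ∩ T^[n] ⁻¹' A).indicator fun _ => (1 : ℝ)) μ :=
      (integrable_const _).indicator hAn
    have s1 : ∫ x, A.indicator (fun _ => (1 : ℝ)) x ∂μ = a := by
      rw [integral_indicator_const _ hA]; simp [ha]
    have s2 : ∫ x, A.indicator (fun _ => (1 : ℝ)) (T^[n] x) ∂μ = a := by
      rw [← s1]
      have h3 := integral_map (μ := μ) (hT.measurable.iterate n).aemeasurable
        (f := A.indicator fun _ => (1 : ℝ)) (measurable_const.indicator hA).aestronglyMeasurable
      rw [(hT.iterate n).map_eq] at h3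
      exact h3.symm
    have s3 : ∫ x, (A ∩ T^[n] ⁻¹' A).indicator (fun _ => (1 : ℝ)) x ∂μ
        = μ.real (A ∩ T^[n] ⁻¹' A) := by
      rw [integral_indicator_const _ hAn]; simp
    simp only [e]
    have j1 : Integrable (fun x => a * A.indicator (fun _ => (1 : ℝ)) x) μ := hi1.const_mul a
    have j2 : Integrable (fun x => a * A.indicator (fun _ => (1 : ℝ)) (T^[n] x)) μ :=
      hi2.const_mul a
    have j3 : Integrable (fun x => (A ∩ T^[n] ⁻¹' A).indicator (fun _ => (1 : ℝ)) x
        - a * A.indicator (fun _ => (1 : ℝ)) x) μ := hi3.sub j1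
    have j4 : Integrable (fun x => (A ∩ T^[n] ⁻¹' A).indicator (fun _ => (1 : ℝ)) x
        - a * A.indicator (fun _ => (1 : ℝ)) x
        - a * A.indicator (fun _ => (1 : ℝ)) (T^[n] x)) μ := j3.sub j2
    rw [integral_add j4 (integrable_const _), integral_sub j3 j2,
      integral_sub hi3 j1, integral_const_mul, integral_const_mul, s1, s2, s3]
    simp only [integral_const, probReal_univ, smul_eq_mul, one_mul]
    have := hrec n hn
    nlinarith
  have hcorr : ∀ m n : ℕ, m ≠ n → ∫ x, g (T^[m] x) * g (T^[n] x) ∂μ ≤ 0 := by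
    have key : ∀ m n : ℕ, m < n → ∫ x, g (T^[m] x) * g (T^[n] x) ∂μ ≤ 0 := by
      intro m n hmn
      obtain ⟨d, rfl⟩ := Nat.exists_eq_add_of_le hmn.le
      have h3 := integral_map (μ := μ) (hT.measurable.iterate m).aemeasurable
        (f := fun x => g x * g (T^[d] x))
        (hgm.mul (hgm.comp (hT.measurable.iterate d))).aestronglyMeasurable
      rw [(hT.iterate m).map_eq] at h3
      have e : ∀ x, g (T^[m] x) * g (T^[m + d] x) = g (T^[m] x) * g (T^[d] (T^[m] x)) := by
        intro x
        rw [add_comm m d, Function.iterate_add_apply]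
      simp only [e]
      rw [← h3]
      exact hcorr0 d (by omega)
    intro m n hmn
    rcases lt_or_gt_of_ne hmn with h | h
    · exact key m n h
    · have := key n m h
      simpa only [mul_comm] using this
  -- second moment
  have hsecond : ∀ N : ℕ, ∫ x, (∑ n ∈ Finset.range N, g (T^[n] x)) ^ 2 ∂μ ≤ N := by
    intro N
    have e : ∀ x, (∑ n ∈ Finset.range N, g (T^[n] x)) ^ 2
        = ∑ m ∈ Finset.range N, ∑ n ∈ Finset.range N, g (T^[m] x) * g (T^[n] x) := by
      intro x
      rw [sq, Finset.sum_mul_sum]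
    simp only [e]
    rw [integral_finsetSum _ fun m _ => integrable_finsetSum _ fun n _ => hgi m n]
    have h4 : ∀ m ∈ Finset.range N, ∫ x, ∑ n ∈ Finset.range N, g (T^[m] x) * g (T^[n] x) ∂μ ≤ 1 := by
      intro m hm
      rw [integral_finsetSum _ fun n _ => hgi m n]
      rw [← Finset.add_sum_erase _ _ hm]
      have h5 : ∑ n ∈ (Finset.range N).erase m, ∫ x, g (T^[m] x) * g (T^[n] x) ∂μ ≤ 0 := by
        refine Finset.sum_nonpos fun n hn => hcorr m n ?_
        exact (Finset.ne_of_mem_erase hn).symm
      have h6 : ∫ x, g (T^[m] x) * g (T^[m] x) ∂μ ≤ 1 := by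
        calc ∫ x, g (T^[m] x) * g (T^[m] x) ∂μ ≤ ∫ _, (1 : ℝ) ∂μ := by
              refine integral_mono (hgi m m) (integrable_const _) fun x => ?_
              have := hgb (T^[m] x)
              rw [abs_le] at this
              show g (T^[m] x) * g (T^[m] x) ≤ 1
              nlinarith
          _ = 1 := by simp
      linarith
    calc ∑ m ∈ Finset.range N, ∫ x, ∑ n ∈ Finset.range N, g (T^[m] x) * g (T^[n] x) ∂μ
        ≤ ∑ m ∈ Finset.range N, (1 : ℝ) := Finset.sum_le_sum h4
      _ = N := by simp
  -- lower bound on `S`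
  set δ : ℝ := min a (1 - a) with hδ
  have hδpos : 0 < δ := lt_min h0 (by linarith)
  have hgS : ∀ x, δ ^ 2 ≤ g x ^ 2 := by
    intro x
    simp only [hg]
    by_cases hx : x ∈ A
    · rw [indicator_of_mem hx]
      have : δ ≤ 1 - a := min_le_right _ _
      nlinarith
    · rw [indicator_of_notMem hx]
      have : δ ≤ a := min_le_left _ _
      nlinarith
  have hlow : ∀ N : ℕ, (N : ℝ) ^ 2 * δ ^ 2 * μ.real S ≤ N := by
    intro N
    have hint : Integrable (fun x => (∑ n ∈ Finset.range N, g (T^[n] x)) ^ 2) μ := by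
      have e : ∀ x, (∑ n ∈ Finset.range N, g (T^[n] x)) ^ 2
          = ∑ m ∈ Finset.range N, ∑ n ∈ Finset.range N, g (T^[m] x) * g (T^[n] x) := by
        intro x
        rw [sq, Finset.sum_mul_sum]
      simp only [e]
      exact integrable_finsetSum _ fun m _ => integrable_finsetSum _ fun n _ => hgi m n
    refine le_trans ?_ (hsecond N)
    calc (N : ℝ) ^ 2 * δ ^ 2 * μ.real S = ∫ x in S, ((N : ℝ) ^ 2 * δ ^ 2) ∂μ := by
          rw [setIntegral_const, smul_eq_mul, mul_comm]
      _ ≤ ∫ x in S, (∑ n ∈ Finset.range N, g (T^[n] x)) ^ 2 ∂μ := by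
          refine setIntegral_mono_on (integrable_const _).integrableOn hint.integrableOn hS ?_
          intro x hx
          have : ∑ n ∈ Finset.range N, g (T^[n] x) = N * g x := by
            rw [Finset.sum_congr rfl fun n _ => by rw [hid x hx n]]
            simp
          rw [this, mul_pow]
          exact mul_le_mul_of_nonneg_left (hgS x) (by positivity)
      _ ≤ ∫ x, (∑ n ∈ Finset.range N, g (T^[n] x)) ^ 2 ∂μ :=
          setIntegral_le_integral hint (Eventually.of_forall fun x => sq_nonneg _)
  obtain ⟨N, hN⟩ := exists_nat_gt (1 / (δ ^ 2 * μ.real S))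
  have hc : 0 < δ ^ 2 * μ.real S := by positivity
  have hNpos : (0 : ℝ) < N := lt_trans (by positivity) hN
  have h7 := hlow N
  rw [div_lt_iff₀ hc] at hN
  nlinarith

/-! ### the example -/

instance factOne : Fact ((0 : ℝ) < 1) := ⟨one_pos⟩

/-- Haar measure of the circle -/
noncomputable abbrev hm : Measure (AddCircle (1 : ℝ)) := haarAddCircle

/-- identity on one copy of the circle, doubling on the other -/
def T1 (p : Bool × AddCircle (1 : ℝ)) : Bool × AddCircle (1 : ℝ) :=
  if p.1 then (true, (2 : ℤ) • p.2) else p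

lemma T1_true (x : AddCircle (1 : ℝ)) : T1 (true, x) = (true, (2 : ℤ) • x) := rfl
lemma T1_false (x : AddCircle (1 : ℝ)) : T1 (false, x) = (false, x) := rfl

lemma T1_iter_true (n : ℕ) (x : AddCircle (1 : ℝ)) :
    T1^[n] (true, x) = (true, ((2 : ℤ) ^ n) • x) := by
  induction n generalizing x with
  | zero => simp
  | succ n ih =>
    rw [Function.iterate_succ_apply, T1_true, ih, smul_smul, pow_succ]

lemma T1_iter_false (n : ℕ) (x : AddCircle (1 : ℝ)) : T1^[n] (false, x) = (false, x) := by
  induction n with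
  | zero => simp
  | succ n ih => rw [Function.iterate_succ_apply, T1_false, ih]

/-- the measure -/
noncomputable def m1 : Measure (Bool × AddCircle (1 : ℝ)) :=
  (1 / 2 : ℝ≥0∞) • hm.map (Prod.mk true) + (1 / 2 : ℝ≥0∞) • hm.map (Prod.mk false)

lemma measurable_mk (b : Bool) : Measurable (Prod.mk b : AddCircle (1 : ℝ) → Bool × AddCircle (1 : ℝ)) :=
  measurable_prodMk_left

lemma m1_apply {A : Set (Bool × AddCircle (1 : ℝ))} (hA : MeasurableSet A) :
    m1 A = (1 / 2 : ℝ≥0∞) * hm (Prod.mk true ⁻¹' A) + (1 / 2 : ℝ≥0∞) * hm (Prod.mk false ⁻¹' A) := by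
  unfold m1
  rw [Measure.add_apply, Measure.smul_apply, Measure.smul_apply,
    Measure.map_apply (measurable_mk true) hA, Measure.map_apply (measurable_mk false) hA]
  rfl

noncomputable instance : IsProbabilityMeasure m1 := by
  constructor
  rw [m1_apply MeasurableSet.univ]
  simp only [preimage_univ, measure_univ, mul_one]
  exact ENNReal.add_halves 1

lemma T1_meas : Measurable T1 := by
  unfold T1
  refine Measurable.ite ?_ ?_ measurable_id
  · exact measurable_fst (measurableSet_singleton true)
  · exact measurable_const.prodMk ((continuous_zsmul (2 : ℤ)).measurable.comp measurable_snd)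

lemma T1_preserving : MeasurePreserving T1 m1 m1 := by
  refine ⟨T1_meas, ?_⟩
  ext A hA
  rw [Measure.map_apply T1_meas hA, m1_apply (T1_meas hA), m1_apply hA]
  congr 1
  congr 1
  have h := (Measure.measurePreserving_zsmul hm (n := 2) (by norm_num)).measure_preimage
    ((measurable_mk true) hA).nullMeasurableSet
  exact h

lemma integral_m1 {F : Bool × AddCircle (1 : ℝ) → ℝ} (hF : Measurable F) (C : ℝ)
    (hb : ∀ p, |F p| ≤ C) :
    ∫ p, F p ∂m1 = 1 / 2 * ∫ x, F (true, x) ∂hm + 1 / 2 * ∫ x, F (false, x) ∂hm := by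
  have hi : ∀ b, Integrable F (hm.map (Prod.mk b)) := by
    intro b
    have : IsProbabilityMeasure (hm.map (Prod.mk b)) :=
      Measure.isProbabilityMeasure_map (measurable_mk b).aemeasurable
    exact Integrable.of_bound hF.aestronglyMeasurable C (Eventually.of_forall hb)
  unfold m1
  rw [integral_add_measure ((hi true).smul_measure (by simp)) ((hi false).smul_measure (by simp)),
    integral_smul_measure, integral_smul_measure,
    integral_map (measurable_mk true).aemeasurable hF.aestronglyMeasurable,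
    integral_map (measurable_mk false).aemeasurable hF.aestronglyMeasurable]
  simp

/-- the function -/
noncomputable def f1 (p : Bool × AddCircle (1 : ℝ)) : ℝ :=
  if p.1 then (1 + (fourier 1 p.2).re) / 2 else 1 / 2

lemma f1_meas : Measurable f1 := by
  unfold f1
  refine Measurable.ite ?_ ?_ measurable_const
  · exact measurable_fst (measurableSet_singleton true)
  · have h : Measurable (fun x : AddCircle (1 : ℝ) => (fourier 1 x).re) :=
      Complex.measurable_re.comp (fourier 1).continuous.measurable
    exact (measurable_const.add (h.comp measurable_snd)).div_const _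

lemma re_bound (n : ℤ) (x : AddCircle (1 : ℝ)) : |(fourier n x).re| ≤ 1 := by
  refine (Complex.abs_re_le_norm _).trans ?_
  rw [fourier_apply]
  exact (Circle.norm_coe _).le

lemma f1_mem (p : Bool × AddCircle (1 : ℝ)) : 0 ≤ f1 p ∧ f1 p ≤ 1 := by
  unfold f1
  have h := abs_le.mp (re_bound 1 p.2)
  split_ifs <;> constructor <;> linarith

lemma integral_fourier_zero {n : ℤ} (hn : n ≠ 0) : ∫ x : AddCircle (1 : ℝ), fourier n x ∂hm = 0 :=
  integral_eq_zero_of_add_right_eq_neg (μ := hm) (fourier_add_half_inv_index hn one_pos)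

lemma fourier_int (n : ℤ) : Integrable (fun x : AddCircle (1 : ℝ) => fourier n x) hm :=
  (fourier n).continuous.integrable_of_hasCompactSupport
    (HasCompactSupport.of_compactSpace _)

lemma re_int (n : ℤ) : Integrable (fun x : AddCircle (1 : ℝ) => (fourier n x).re) hm :=
  (fourier_int n).re

lemma int_cos {n : ℤ} (hn : n ≠ 0) : ∫ x : AddCircle (1 : ℝ), (fourier n x).re ∂hm = 0 := by
  have h := _root_.integral_re (𝕜 := ℂ) (fourier_int n)
  rw [integral_fourier_zero hn] at h
  simpa using h

lemma int_cos_mul {m n : ℤ} (h1 : m + n ≠ 0) (h2 : m - n ≠ 0) :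
    ∫ x : AddCircle (1 : ℝ), (fourier m x).re * (fourier n x).re ∂hm = 0 := by
  have e : ∀ x : AddCircle (1 : ℝ), (fourier m x).re * (fourier n x).re
      = ((fourier (m + n) x).re + (fourier (m - n) x).re) / 2 := by
    intro x
    rw [sub_eq_add_neg, fourier_add, fourier_add, fourier_neg]
    simp only [Complex.mul_re, Complex.conj_re, Complex.conj_im]
    ring
  simp only [e]
  rw [integral_div, integral_add (re_int _) (re_int _), int_cos h1, int_cos h2]
  simp

lemma fourier_pow (n : ℕ) (x : AddCircle (1 : ℝ)) :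
    fourier 1 (((2 : ℤ) ^ n) • x) = fourier ((2 : ℤ) ^ n) x := by
  rw [fourier_apply, fourier_apply, one_smul]

lemma integral_f1 : ∫ p, f1 p ∂m1 = 1 / 2 := by
  rw [integral_m1 f1_meas 1 (fun p => by
    have := f1_mem p; rw [abs_le]; constructor <;> linarith)]
  have e1 : ∀ x, f1 (true, x) = (1 + (fourier 1 x).re) / 2 := fun x => rfl
  have e2 : ∀ x, f1 (false, x) = 1 / 2 := fun x => rfl
  simp only [e1, e2]
  rw [integral_div, integral_add (integrable_const _) (re_int _),
    int_cos (by norm_num)]
  simp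
  norm_num

lemma corr_f1 {n : ℕ} (hn : 1 ≤ n) : ∫ p, f1 p * f1 (T1^[n] p) ∂m1 = 1 / 4 := by
  rw [integral_m1 (F := fun p => f1 p * f1 (T1^[n] p))
    (f1_meas.mul (f1_meas.comp (T1_meas.iterate n))) 1 (fun p => by
    have h1 := f1_mem p
    have h2 := f1_mem (T1^[n] p)
    rw [abs_mul, abs_of_nonneg h1.1, abs_of_nonneg h2.1]
    nlinarith)]
  have e1 : ∀ x, f1 (true, x) * f1 (T1^[n] (true, x))
      = (1 + (fourier 1 x).re + (fourier ((2 : ℤ) ^ n) x).re
        + (fourier 1 x).re * (fourier ((2 : ℤ) ^ n) x).re) / 4 := by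
    intro x
    rw [T1_iter_true]
    show (1 + (fourier 1 x).re) / 2 * ((1 + (fourier 1 (((2 : ℤ) ^ n) • x)).re) / 2) = _
    rw [fourier_pow]
    ring
  have e2 : ∀ x, f1 (false, x) * f1 (T1^[n] (false, x)) = 1 / 4 := by
    intro x
    rw [T1_iter_false]
    show (1 / 2 : ℝ) * (1 / 2) = 1 / 4
    norm_num
  simp only [e1, e2]
  have h2 : (2 : ℤ) ≤ 2 ^ n := by
    calc (2 : ℤ) = 2 ^ 1 := by norm_num
      _ ≤ 2 ^ n := pow_le_pow_right₀ (by norm_num) hn
  have i1 := re_int 1
  have i2 := re_int ((2 : ℤ) ^ n)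
  have i0 : Integrable (fun x : AddCircle (1 : ℝ) => 1 + (fourier 1 x).re) hm :=
    (integrable_const _).add i1
  have i4 : Integrable (fun x : AddCircle (1 : ℝ) => 1 + (fourier 1 x).re
    + (fourier ((2 : ℤ) ^ n) x).re) hm := i0.add i2
  have i3 : Integrable (fun x : AddCircle (1 : ℝ) => (fourier 1 x).re * (fourier ((2 : ℤ) ^ n) x).re) hm := by
    refine Integrable.of_bound (((Complex.measurable_re.comp (fourier 1).continuous.measurable).mul
      (Complex.measurable_re.comp (fourier ((2 : ℤ) ^ n)).continuous.measurable)).aestronglyMeasurable)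
      1 (Eventually.of_forall fun x => ?_)
    rw [Real.norm_eq_abs, abs_mul]
    calc _ ≤ (1 : ℝ) * 1 := mul_le_mul (re_bound _ _) (re_bound _ _) (abs_nonneg _) zero_le_one
      _ = 1 := one_mul 1
  rw [integral_div, integral_add i4 i3,
    integral_add i0 i2, integral_add (integrable_const _) i1,
    int_cos (by norm_num), int_cos (by omega), int_cos_mul (by omega) (by omega)]
  simp
  norm_num

lemma f1_not_const : ¬ ∃ c : ℝ, ∀ᵐ p ∂m1, f1 p = c := by
  rintro ⟨c, hc⟩
  -- then the square integral equals the squared integral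
  have h1 : ∫ p, f1 p * f1 p ∂m1 = c ^ 2 := by
    rw [integral_congr_ae (g := fun _ => c ^ 2)]
    · simp
    · filter_upwards [hc] with p hp
      rw [hp]; ring
  have h2 : ∫ p, f1 p ∂m1 = c := by
    rw [integral_congr_ae (g := fun _ => c)]
    · simp
    · filter_upwards [hc] with p hp
      rw [hp]
  rw [integral_f1] at h2
  have h3 : ∫ p, f1 p * f1 p ∂m1 = 5 / 16 := by
    rw [integral_m1 (F := fun p => f1 p * f1 p) (f1_meas.mul f1_meas) 1 (fun p => by
      have h1 := f1_mem p
      rw [abs_mul, abs_of_nonneg h1.1]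
      nlinarith)]
    have e1 : ∀ x, f1 (true, x) * f1 (true, x)
        = (3 / 2 + 2 * (fourier 1 x).re + (fourier 2 x).re / 2) / 4 := by
      intro x
      show (1 + (fourier 1 x).re) / 2 * ((1 + (fourier 1 x).re) / 2) = _
      have e3 : (fourier 2 x : ℂ) = fourier 1 x * fourier 1 x := by
        rw [← fourier_add]; norm_num
      have e4 : (fourier 1 x).re ^ 2 + (fourier 1 x).im ^ 2 = 1 := by
        have h5 : ‖(fourier 1 x : ℂ)‖ = 1 := by
          rw [fourier_apply]; exact Circle.norm_coe _
        have h6 := Complex.sq_norm (fourier 1 x : ℂ)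
        rw [h5, Complex.normSq_apply] at h6
        nlinarith
      rw [e3, Complex.mul_re]
      nlinarith
    have e2 : ∀ x, f1 (false, x) * f1 (false, x) = 1 / 4 := by
      intro x
      show (1 / 2 : ℝ) * (1 / 2) = 1 / 4
      norm_num
    simp only [e1, e2]
    have k1 : Integrable (fun x : AddCircle (1 : ℝ) => 2 * (fourier 1 x).re) hm :=
      (re_int 1).const_mul 2
    have k2 : Integrable (fun x : AddCircle (1 : ℝ) => (fourier 2 x).re / 2) hm :=
      (re_int 2).div_const 2
    have k3 : Integrable (fun x : AddCircle (1 : ℝ) => 3 / 2 + 2 * (fourier 1 x).re) hm :=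
      (integrable_const _).add k1
    have k4 : ∫ x : AddCircle (1 : ℝ), (fourier 2 x).re / 2 ∂hm = 0 := by
      rw [integral_div, int_cos (by norm_num)]; simp
    rw [integral_div, integral_add k3 k2, integral_add (integrable_const _) k1,
      integral_const_mul, k4, int_cos (by norm_num)]
    simp
    norm_num
  rw [h3] at h1
  rw [← h2] at h1
  norm_num at h1

theorem f1_under : UnderRecurrentFunction m1 T1 f1 := by
  refine ⟨?_, f1_not_const, ?_⟩
  · refine MemLp.of_bound f1_meas.aestronglyMeasurable 1 (Eventually.of_forall fun p => ?_)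
    have h := f1_mem p
    rw [Real.norm_eq_abs, abs_le]
    constructor <;> linarith
  · intro n hn
    rw [corr_f1 hn, integral_f1]
    norm_num

theorem m1_no_set (A : Set (Bool × AddCircle (1 : ℝ))) : ¬ UnderRecurrentSet m1 T1 A := by
  have hS : MeasurableSet ({p | p.1 = false} : Set (Bool × AddCircle (1 : ℝ))) :=
    measurable_fst (measurableSet_singleton false)
  refine no_underRecurrentSet T1_preserving hS ?_ ?_ A
  · rw [Measure.real, m1_apply hS]
    have e1 : (Prod.mk true ⁻¹' {p : Bool × AddCircle (1 : ℝ) | p.1 = false}) = ∅ := by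
      ext x; simp
    have e2 : (Prod.mk false ⁻¹' {p : Bool × AddCircle (1 : ℝ) | p.1 = false}) = univ := by
      ext x; simp
    rw [e1, e2]
    simp
  · rintro ⟨b, x⟩ hx n
    have hb : b = false := hx
    subst hb
    exact T1_iter_false n x

end Pool.Agent.V11103
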