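import Pool.Agent.V11103.EFMain

/-! Certificate for 2 agents. -/

namespace Pool.Agent.V11103.EF

def toks2_0 : List ℕ := [677, 346, 0, 1, 2, 3, 4, 1, 629, 394, 0, 1, 1, 3, 0, 4, 256, 257, 513, 514, 0, 1, 1, 4, 0, 3, 256, 256, 515, 0, 1, 1, 2, 1, 1, 1022, 0, 1, 1, 5, 1, 545, 478, 0, 1, 1, 7, 1, 673, 350, 0, 1, 1, 2, 0, 2, 256, 258, 0, 1, 1, 7, 0, 2, 256, 256, 0, 1, 1, 9, 1, 33, 990, 0, 1, 1, 9, 0, 2, 256, 256, 0, 1, 1, 5, 0, 2, 256, 257, 0, 1]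

def toks2 : List ℕ := toks2_0

theorem check2 : check 2 30 (root 6 8) toks2 = true := by decide +kernel

theorem good2 (w : Fin 10 → ℝ) (hw : ∀ v, 0 ≤ w v) : Good 2 w :=
  good_of_check 6 8 (by decide) (by decide) check2 w hw

end Pool.Agent.V11103.EF
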