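import Pool.Agent.V11103.EFMain

/-! Certificate for 9 agents. -/

namespace Pool.Agent.V11103.EF

def toks9_0 : List ℕ := [1, 66, 4, 8, 16, 32, 128, 256, 512, 3, 4, 7, 8, 1, 2, 1, 6, 1, 33, 2, 4, 8, 16, 64, 128, 256, 512, 0, 1, 0, 1, 1, 5, 0, 2, 256, 256, 0, 1, 1, 5, 0, 3, 256, 256, 264, 0, 1, 1, 5, 0, 3, 256, 256, 260, 0, 1, 1, 5, 0, 2, 256, 260, 0, 1, 1, 5, 0, 2, 256, 257, 0, 1, 1, 5, 0, 3, 256, 257, 261, 0, 1, 1, 5, 0, 2, 256, 259, 0, 1, 1, 5, 0, 2, 256, 258, 0, 1, 0, 1, 1, 6, 0, 2, 256, 260, 0, 1, 1, 6, 0, 2, 256, 256, 0, 1, 1, 6, 0, 3, 256, 256, 258, 3, 4, 7, 8, 1, 2, 1, 6, 1, 33, 2, 4, 8, 16, 64, 128, 256, 512, 0, 1, 0, 1, 1, 0, 0, 2, 256, 256, 0, 1, 1, 0, 0, 3, 256, 256, 264, 0, 1, 1, 0, 0, 3, 256, 256, 260, 0, 1, 1, 0, 0, 2, 256, 260, 0, 1, 1, 0, 0, 2,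 256, 257, 0, 1, 1, 0, 0, 3, 256, 257, 261, 0, 1, 1, 0, 0, 2, 256, 259, 0, 1, 1, 0, 0, 2, 256, 258, 0, 1, 1, 1, 0, 2, 256, 258, 2, 0, 5, 1, 2, 1, 6, 1, 1, 2, 4, 264, 16, 32, 64, 128, 512, 0, 1, 1, 3, 0, 2, 256, 259, 0, 1, 1, 3, 0, 2, 256, 256, 0, 1, 1, 3, 0, 3, 256, 256, 263, 0, 1, 0, 1, 1, 8, 0, 2, 256, 263, 0, 1, 1, 3, 0, 2, 256, 258, 0, 1, 1, 3, 0, 2, 256, 257, 0, 1, 1, 3, 0, 3, 256, 257, 260, 0, 1, 1, 3, 0, 2, 256, 261, 2, 0, 7, 1, 2, 1, 6, 1, 1, 2, 4, 8, 16, 544, 64, 128, 256, 0, 1, 1, 5, 0, 2, 256, 259, 1, 8, 0, 3, 256, 256, 260, 1, 8, 0, 4, 256, 256, 260, 258, 1, 8, 0, 4, 256, 256, 259, 256, 1, 8, 0, 5, 256, 256, 259, 256, 257, 0, 1, 1, 8, 0, 3, 256, 257, 259, 1, 8, 0, 4, 256, 257, 259, 256, 0, 1, 1, 5, 0, 2, 256, 258]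

def toks9 : List ℕ := toks9_0

theorem check9 : check 9 30 (root 1 3) toks9 = true := by decide +kernel

theorem good9 (w : Fin 10 → ℝ) (hw : ∀ v, 0 ≤ w v) : Good 9 w :=
  good_of_check 1 3 (by decide) (by decide) check9 w hw

end Pool.Agent.V11103.EF
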