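import Mathlib
import Pool.Agent.H165R3.BPE

/-!
The maximal ergodic theorem, its integrable form for `L^p` functions, `p > 1`, and the pointwise
ergodic theorem for integrable functions.
-/

set_option autoImplicit false

open Set Filter Topology MeasureTheory
open Pool.Agent.H165R3.BPE
open scoped ENNReal

namespace Pool.Agent.V11103

/-- the ergodic average `A_k f = (1/k) ∑_{j<k} f ∘ T^j` -/
noncomputable def ergAv {B : Type*} (T : B → B) (f : B → ℝ) (k : ℕ) (x : B) : ℝ :=
  (1 / (k : ℝ)) * ∑ j ∈ Finset.range k, f (T^[j] x)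

variable {B : Type*} [MeasurableSpace B] {m : Measure B}

lemma Mx_int [IsProbabilityMeasure m] {T : B → B} (hT : MeasurePreserving T m m) {φ : B → ℝ}
    (hφ : Integrable φ m) (n : ℕ) : Integrable (Mx T φ n) m := by
  induction n with
  | zero =>
    have : Mx T φ 0 = fun _ => 0 := rfl
    rw [this]; exact integrable_const 0
  | succ n ih =>
    have : Mx T φ (n + 1) = fun x => max 0 (φ x + Mx T φ n (T x)) := rfl
    rw [this]
    exact (integrable_const (0 : ℝ)).sup (hφ.add (hT.integrable_comp_of_integrable ih))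

lemma Mx_set [IsProbabilityMeasure m] {T : B → B} (hT : MeasurePreserving T m m) {φ : B → ℝ}
    (hm : Measurable φ) (hφ : Integrable φ m) (n : ℕ) :
    0 ≤ ∫ x in {x | 0 < Mx T φ n x}, φ x ∂m := by
  cases n with
  | zero =>
    have : {x : B | 0 < Mx T φ 0 x} = ∅ := by
      ext x; simp [Mx]
    rw [this]; simp
  | succ n =>
    set E : Set B := {x | 0 < Mx T φ (n + 1) x} with hE
    have hEm : MeasurableSet E :=
      measurableSet_lt measurable_const (Mx_meas hT.measurable hm (n + 1))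
    have hi := Mx_int hT hφ (n + 1)
    have hiT : Integrable (fun x => Mx T φ (n + 1) (T x)) m := hT.integrable_comp_of_integrable hi
    have h0 : ∫ x, (Mx T φ (n + 1) x - Mx T φ (n + 1) (T x)) ∂m = 0 := by
      rw [integral_sub hi hiT]
      have h3 := integral_map (μ := m) hT.measurable.aemeasurable
        (f := Mx T φ (n + 1)) (Mx_meas hT.measurable hm (n + 1)).aestronglyMeasurable
      rw [hT.map_eq] at h3
      rw [← h3]; ring
    have h1 : ∫ x, (Mx T φ (n + 1) x - Mx T φ (n + 1) (T x)) ∂m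
        ≤ ∫ x in E, (Mx T φ (n + 1) x - Mx T φ (n + 1) (T x)) ∂m := by
      rw [← integral_indicator hEm]
      refine integral_mono (hi.sub hiT) ((hi.sub hiT).indicator hEm) ?_
      intro x
      by_cases hx : x ∈ E
      · simp only [indicator_of_mem hx]; exact le_rfl
      · simp only [indicator_of_notMem hx]
        have h2 : Mx T φ (n + 1) x = 0 :=
          le_antisymm (not_lt.mp hx) (Mx_nonneg T φ (n + 1) x)
        have h3 := Mx_nonneg T φ (n + 1) (T x)
        show Mx T φ (n + 1) x - Mx T φ (n + 1) (T x) ≤ 0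
        rw [h2]; linarith
    have h2 : ∫ x in E, (Mx T φ (n + 1) x - Mx T φ (n + 1) (T x)) ∂m ≤ ∫ x in E, φ x ∂m := by
      refine setIntegral_mono_on (hi.sub hiT).integrableOn hφ.integrableOn hEm ?_
      intro x hx
      have h3 : 0 < max 0 (φ x + Mx T φ n (T x)) := hx
      have h4 : Mx T φ (n + 1) x = φ x + Mx T φ n (T x) := by
        show max 0 (φ x + Mx T φ n (T x)) = _
        rcases lt_max_iff.mp h3 with h | h
        · exact absurd h (lt_irrefl _)
        · exact max_eq_right h.le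
      have h5 := Mx_mono T φ n (T x)
      show Mx T φ (n + 1) x - Mx T φ (n + 1) (T x) ≤ φ x
      rw [h4]; linarith
    linarith

/-- maximal ergodic theorem -/
lemma maximal [IsProbabilityMeasure m] {T : B → B} (hT : MeasurePreserving T m m) {f : B → ℝ}
    (hm : Measurable f) (hf : Integrable f m) {c : ℝ} (hc : 0 < c) :
    m {x | ∃ k, c < ergAv T f k x} ≤ ENNReal.ofReal ((∫ x, |f x| ∂m) / c) := by
  set φ : B → ℝ := fun x => f x - c with hφ
  have hφm : Measurable φ := hm.sub measurable_const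
  have hφi : Integrable φ m := hf.sub (integrable_const c)
  have hsub : {x | ∃ k, c < ergAv T f k x} ⊆ ⋃ n, {x | 0 < Mx T φ n x} := by
    rintro x ⟨k, hk⟩
    refine mem_iUnion.mpr ⟨k, ?_⟩
    have hk0 : 0 < k := by
      rcases Nat.eq_zero_or_pos k with h | h
      · subst h
        simp [ergAv] at hk
        linarith
      · exact h
    have hkr : (0 : ℝ) < k := by exact_mod_cast hk0
    have h1 := Mx_sum T φ k x
    simp only [hφ, Finset.sum_sub_distrib, Finset.sum_const, Finset.card_range, nsmul_eq_mul] at h1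
    unfold ergAv at hk
    rw [one_div, ← div_eq_inv_mul, lt_div_iff₀ hkr] at hk
    show 0 < Mx T φ k x
    simp only [hφ]
    linarith
  have hmono : Monotone fun n => {x : B | 0 < Mx T φ n x} := by
    refine monotone_nat_of_le_succ fun n => ?_
    intro x hx
    exact lt_of_lt_of_le hx (Mx_mono T φ n x)
  refine (measure_mono hsub).trans ?_
  rw [hmono.measure_iUnion]
  refine iSup_le fun n => ?_
  set E : Set B := {x | 0 < Mx T φ n x} with hE
  have hEm : MeasurableSet E :=
    measurableSet_lt measurable_const (Mx_meas hT.measurable hφm n)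
  have h1 : 0 ≤ ∫ x in E, φ x ∂m := Mx_set hT hφm hφi n
  have h2 : ∫ x in E, φ x ∂m = ∫ x in E, f x ∂m - c * m.real E := by
    simp only [hφ]
    rw [integral_sub hf.integrableOn (integrable_const c).integrableOn]
    simp
    ring
  have h3 : ∫ x in E, f x ∂m ≤ ∫ x, |f x| ∂m := by
    calc ∫ x in E, f x ∂m ≤ ∫ x in E, |f x| ∂m :=
          setIntegral_mono_on hf.integrableOn hf.abs.integrableOn hEm (fun x _ => le_abs_self _)
      _ ≤ ∫ x, |f x| ∂m := setIntegral_le_integral hf.abs (Eventually.of_forall fun x => abs_nonneg _)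
  rw [← ENNReal.ofReal_toReal (measure_ne_top m E)]
  apply ENNReal.ofReal_le_ofReal
  rw [le_div_iff₀ hc]
  have : (m E).toReal = m.real E := rfl
  rw [this]
  linarith

lemma ergAv_meas {T : B → B} (hT : Measurable T) {f : B → ℝ} (hf : Measurable f) (k : ℕ) :
    Measurable (ergAv T f k) := by
  unfold ergAv
  refine Measurable.const_mul ?_ _
  exact Finset.measurable_fun_sum _ fun j _ => hf.comp (hT.iterate j)

lemma ergAv_int {T : B → B} (hT : MeasurePreserving T m m) {f : B → ℝ}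
    (hf : Integrable f m) (k : ℕ) : Integrable (ergAv T f k) m := by
  unfold ergAv
  refine Integrable.const_mul ?_ _
  exact integrable_finsetSum _ fun j _ => (hT.iterate j).integrable_comp_of_integrable hf

omit [MeasurableSpace B] in
lemma ergAv_mono {T : B → B} {f g : B → ℝ} (h : ∀ x, f x ≤ g x) (k : ℕ) (x : B) :
    ergAv T f k x ≤ ergAv T g k x := by
  unfold ergAv
  exact mul_le_mul_of_nonneg_left (Finset.sum_le_sum fun j _ => h _) (by positivity)

omit [MeasurableSpace B] in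
lemma ergAv_add {T : B → B} {f g : B → ℝ} (k : ℕ) (x : B) :
    ergAv T (fun y => f y + g y) k x = ergAv T f k x + ergAv T g k x := by
  unfold ergAv
  rw [Finset.sum_add_distrib]; ring

omit [MeasurableSpace B] in
lemma ergAv_sub {T : B → B} {f g : B → ℝ} (k : ℕ) (x : B) :
    ergAv T (fun y => f y - g y) k x = ergAv T f k x - ergAv T g k x := by
  unfold ergAv
  rw [Finset.sum_sub_distrib]; ring

omit [MeasurableSpace B] in
lemma ergAv_abs_le {T : B → B} {f : B → ℝ} (k : ℕ) (x : B) :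
    |ergAv T f k x| ≤ ergAv T (fun y => |f y|) k x := by
  unfold ergAv
  rw [abs_mul, abs_of_nonneg (by positivity : (0 : ℝ) ≤ 1 / (k : ℝ))]
  exact mul_le_mul_of_nonneg_left (Finset.abs_sum_le_sum_abs _ _) (by positivity)

omit [MeasurableSpace B] in
lemma ergAv_const_le {T : B → B} {c : ℝ} (hc : 0 ≤ c) (k : ℕ) (x : B) :
    ergAv T (fun _ => c) k x ≤ c := by
  unfold ergAv
  rcases Nat.eq_zero_or_pos k with h | h
  · subst h; simpa using hc
  · simp only [Finset.sum_const, Finset.card_range, nsmul_eq_mul]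
    have : (k : ℝ) ≠ 0 := by positivity
    field_simp
    exact le_rfl

/-- localised maximal inequality -/
lemma maximal_loc [IsProbabilityMeasure m] {T : B → B} (hT : MeasurePreserving T m m) {f : B → ℝ}
    (hm : Measurable f) (h0 : ∀ x, 0 ≤ f x) (hf : Integrable f m) {c : ℝ} (hc : 0 < c) :
    m {x | ∃ k, 2 * c < ergAv T f k x}
      ≤ ENNReal.ofReal ((∫ x, ({x | c < f x}.indicator f) x ∂m) / c) := by
  set g : B → ℝ := {x | c < f x}.indicator f with hg
  have hS : MeasurableSet {x | c < f x} := measurableSet_lt measurable_const hm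
  have hgm : Measurable g := hm.indicator hS
  have hgi : Integrable g m := hf.indicator hS
  have h1 := maximal hT hgm hgi hc
  have h2 : ∀ x, |g x| = g x := fun x => abs_of_nonneg (indicator_nonneg (fun y _ => h0 y) x)
  simp only [h2] at h1
  refine le_trans (measure_mono ?_) h1
  rintro x ⟨k, hk⟩
  refine ⟨k, ?_⟩
  have h3 : ∀ y, f y ≤ g y + c := by
    intro y
    by_cases hy : c < f y
    · have : g y = f y := indicator_of_mem (s := {x | c < f x}) hy f
      rw [this]; linarith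
    · have : g y = 0 := indicator_of_notMem (s := {x | c < f x}) hy f
      rw [this]; linarith
  have h4 := ergAv_mono (T := T) h3 k x
  rw [ergAv_add] at h4
  have h5 := ergAv_const_le (T := T) hc.le k x
  linarith

/-- the maximal function (with values in `[0,∞]`) -/
noncomputable def maxFun (T : B → B) (f : B → ℝ) (x : B) : ℝ≥0∞ :=
  ⨆ k : ℕ, ENNReal.ofReal (ergAv T f k x)

lemma maxFun_meas {T : B → B} (hT : Measurable T) {f : B → ℝ} (hf : Measurable f) :
    Measurable (maxFun T f) :=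
  Measurable.iSup fun k => (ergAv_meas hT hf k).ennreal_ofReal

/-- dyadic bound for extended nonnegative numbers -/
lemma dyadic_bound (a : ℝ≥0∞) :
    a ≤ 2 + ∑' j : ℕ, (if (2 : ℝ≥0∞) ^ (j + 1) < a then (2 : ℝ≥0∞) ^ (j + 1) else 0) := by
  -- partial sums
  have key : ∀ J : ℕ, (∀ j < J, (2 : ℝ≥0∞) ^ (j + 1) < a) →
      (2 : ℝ≥0∞) ^ (J + 1) ≤ 2 + ∑' j : ℕ, (if (2 : ℝ≥0∞) ^ (j + 1) < a then (2 : ℝ≥0∞) ^ (j + 1) else 0) := by
    intro J hJ
    have h1 : ∑ j ∈ Finset.range J, (if (2 : ℝ≥0∞) ^ (j + 1) < a then (2 : ℝ≥0∞) ^ (j + 1) else 0)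
        ≤ ∑' j : ℕ, (if (2 : ℝ≥0∞) ^ (j + 1) < a then (2 : ℝ≥0∞) ^ (j + 1) else 0) :=
      ENNReal.sum_le_tsum _
    have h2 : ∑ j ∈ Finset.range J, (if (2 : ℝ≥0∞) ^ (j + 1) < a then (2 : ℝ≥0∞) ^ (j + 1) else 0)
        = ∑ j ∈ Finset.range J, (2 : ℝ≥0∞) ^ (j + 1) :=
      Finset.sum_congr rfl fun j hj => if_pos (hJ j (Finset.mem_range.mp hj))
    have h3 : ∀ J : ℕ, 2 + ∑ j ∈ Finset.range J, (2 : ℝ≥0∞) ^ (j + 1) = 2 ^ (J + 1) := by
      intro J
      induction J with
      | zero => simp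
      | succ J ih =>
        rw [Finset.sum_range_succ, ← add_assoc, ih, pow_succ (2 : ℝ≥0∞) (J + 1)]
        ring
    rw [← h3 J, ← h2]
    gcongr
  by_cases hall : ∀ j : ℕ, (2 : ℝ≥0∞) ^ (j + 1) < a
  · -- infinite case
    have h1 : ∀ J : ℕ, (J : ℝ≥0∞) ≤ 2 + ∑' j : ℕ, (if (2 : ℝ≥0∞) ^ (j + 1) < a then (2 : ℝ≥0∞) ^ (j + 1) else 0) := by
      intro J
      refine le_trans ?_ (key J fun j _ => hall j)
      have : J ≤ 2 ^ (J + 1) := (Nat.lt_two_pow_self.le).trans (Nat.pow_le_pow_right (by norm_num) (by omega))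
      calc (J : ℝ≥0∞) ≤ ((2 ^ (J + 1) : ℕ) : ℝ≥0∞) := by exact_mod_cast this
        _ = _ := by push_cast; rfl
    have h2 : (2 + ∑' j : ℕ, (if (2 : ℝ≥0∞) ^ (j + 1) < a then (2 : ℝ≥0∞) ^ (j + 1) else 0) : ℝ≥0∞) = ⊤ := by
      by_contra hne
      obtain ⟨n, hn⟩ := ENNReal.exists_nat_gt hne
      exact absurd (h1 n) (not_le.mpr hn)
    rw [h2]; exact le_top
  · push Not at hall
    classical
    set J := Nat.find hall with hJ
    have h1 : a ≤ (2 : ℝ≥0∞) ^ (J + 1) := Nat.find_spec hall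
    refine h1.trans (key J fun j hj => ?_)
    exact not_le.mp (Nat.find_min hall hj)

/-- the maximal function of an `L^p` function, `1 < p < ∞`, has finite integral -/
lemma maxFun_lintegral [IsProbabilityMeasure m] {T : B → B} (hT : MeasurePreserving T m m)
    {f : B → ℝ} (hm : Measurable f) (h0 : ∀ x, 0 ≤ f x) {p : ℝ} (hp : 1 < p)
    (hf : Integrable (fun x => f x ^ p) m) (hfi : Integrable f m) :
    ∫⁻ x, maxFun T f x ∂m < ⊤ := by
  have hMm := maxFun_meas hT.measurable hm
  set I : ℝ := ∫ x, f x ^ p ∂m with hI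
  have hI0 : 0 ≤ I := integral_nonneg fun x => Real.rpow_nonneg (h0 x) p
  -- tail bounds
  have htail : ∀ j : ℕ, m {x | (2 : ℝ≥0∞) ^ (j + 1) < maxFun T f x}
      ≤ ENNReal.ofReal (I * (2 ^ (-(p : ℝ))) ^ j) := by
    intro j
    have hc : (0 : ℝ) < 2 ^ j := by positivity
    have h1 := maximal_loc hT hm h0 hfi hc
    have hset : {x | (2 : ℝ≥0∞) ^ (j + 1) < maxFun T f x} ⊆ {x | ∃ k, 2 * (2 : ℝ) ^ j < ergAv T f k x} := by
      intro x hx
      have hx' : (2 : ℝ≥0∞) ^ (j + 1) < ⨆ k : ℕ, ENNReal.ofReal (ergAv T f k x) := hx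
      rw [lt_iSup_iff] at hx'
      obtain ⟨k, hk⟩ := hx'
      refine ⟨k, ?_⟩
      have e : (2 : ℝ≥0∞) ^ (j + 1) = ENNReal.ofReal (2 * 2 ^ j) := by
        rw [ENNReal.ofReal_mul (by norm_num), ENNReal.ofReal_pow (by norm_num), pow_succ]
        simp
        ring
      rw [e] at hk
      exact (ENNReal.ofReal_lt_ofReal_iff_of_nonneg (by positivity)).mp hk
    refine (measure_mono hset).trans (h1.trans (ENNReal.ofReal_le_ofReal ?_))
    rw [div_le_iff₀ hc]
    have h2 : ∀ x, ({x | (2 : ℝ) ^ j < f x}.indicator f) x ≤ f x ^ p * (2 ^ j) ^ (1 - p) := by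
      intro x
      by_cases hx : (2 : ℝ) ^ j < f x
      · rw [indicator_of_mem (s := {x | (2 : ℝ) ^ j < f x}) hx f]
        have hfx : 0 < f x := hc.trans hx
        have h3 : f x ^ (1 - p) ≤ ((2 : ℝ) ^ j) ^ (1 - p) :=
          Real.rpow_le_rpow_of_nonpos hc hx.le (by linarith)
        calc f x = f x ^ p * f x ^ (1 - p) := by
              rw [← Real.rpow_add hfx]; simp
          _ ≤ _ := mul_le_mul_of_nonneg_left h3 (Real.rpow_nonneg hfx.le p)
      · rw [indicator_of_notMem (s := {x | (2 : ℝ) ^ j < f x}) hx f]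
        exact mul_nonneg (Real.rpow_nonneg (h0 x) p) (Real.rpow_nonneg hc.le _)
    have h3 : ∫ x, ({x | (2 : ℝ) ^ j < f x}.indicator f) x ∂m ≤ I * (2 ^ j) ^ (1 - p) := by
      rw [hI, ← integral_mul_const]
      refine integral_mono (hfi.indicator (measurableSet_lt measurable_const hm)) (hf.mul_const _) h2
    refine h3.trans (le_of_eq ?_)
    have e1 : ((2 : ℝ) ^ (-(p : ℝ))) ^ j = ((2 : ℝ) ^ j) ^ (-p) := by
      rw [← Real.rpow_natCast, ← Real.rpow_natCast, ← Real.rpow_mul (by norm_num),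
        ← Real.rpow_mul (by norm_num)]
      ring_nf
    rw [e1, mul_assoc, Real.rpow_sub hc, Real.rpow_one, Real.rpow_neg hc.le]
    congr 1
    ring
  have h1 : ∫⁻ x, maxFun T f x ∂m ≤ ∫⁻ x, (2 + ∑' j : ℕ,
      (if (2 : ℝ≥0∞) ^ (j + 1) < maxFun T f x then (2 : ℝ≥0∞) ^ (j + 1) else 0)) ∂m :=
    lintegral_mono fun x => dyadic_bound _
  refine lt_of_le_of_lt h1 ?_
  rw [lintegral_add_left measurable_const, lintegral_tsum]
  swap
  · intro j
    refine (Measurable.ite (measurableSet_lt measurable_const hMm) measurable_const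
      measurable_const).aemeasurable
  have h2 : ∀ j : ℕ, ∫⁻ x, (if (2 : ℝ≥0∞) ^ (j + 1) < maxFun T f x then (2 : ℝ≥0∞) ^ (j + 1) else 0) ∂m
      ≤ ENNReal.ofReal (2 * I * (2 ^ (1 - p)) ^ j) := by
    intro j
    have e : ∀ x, (if (2 : ℝ≥0∞) ^ (j + 1) < maxFun T f x then (2 : ℝ≥0∞) ^ (j + 1) else 0)
        = {x | (2 : ℝ≥0∞) ^ (j + 1) < maxFun T f x}.indicator (fun _ => (2 : ℝ≥0∞) ^ (j + 1)) x := by
      intro x
      by_cases hx : (2 : ℝ≥0∞) ^ (j + 1) < maxFun T f x
      · rw [if_pos hx, indicator_of_mem (s := {x | (2 : ℝ≥0∞) ^ (j + 1) < maxFun T f x}) hx]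
      · rw [if_neg hx, indicator_of_notMem (s := {x | (2 : ℝ≥0∞) ^ (j + 1) < maxFun T f x}) hx]
    simp only [e]
    rw [lintegral_indicator_const (measurableSet_lt measurable_const hMm)]
    calc (2 : ℝ≥0∞) ^ (j + 1) * m {x | (2 : ℝ≥0∞) ^ (j + 1) < maxFun T f x}
        ≤ ENNReal.ofReal (2 ^ (j + 1)) * ENNReal.ofReal (I * (2 ^ (-(p : ℝ))) ^ j) := by
          gcongr
          · rw [ENNReal.ofReal_pow (by norm_num)]; simp
          · exact htail j
      _ = ENNReal.ofReal (2 * I * (2 ^ (1 - p)) ^ j) := by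
          rw [← ENNReal.ofReal_mul (by positivity)]
          congr 1
          rw [sub_eq_add_neg, Real.rpow_add (by norm_num), Real.rpow_one, mul_pow]
          ring
  have h3 : ∑' j : ℕ, ∫⁻ x, (if (2 : ℝ≥0∞) ^ (j + 1) < maxFun T f x then (2 : ℝ≥0∞) ^ (j + 1) else 0) ∂m
      ≤ ∑' j : ℕ, ENNReal.ofReal (2 * I * (2 ^ (1 - p)) ^ j) := ENNReal.tsum_le_tsum h2
  have h4 : Summable fun j : ℕ => 2 * I * ((2 : ℝ) ^ (1 - p)) ^ j := by
    refine (summable_geometric_of_lt_one (by positivity) ?_).mul_left _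
    exact Real.rpow_lt_one_of_one_lt_of_neg (by norm_num) (by linarith)
  have h5 : ∑' j : ℕ, ENNReal.ofReal (2 * I * (2 ^ (1 - p)) ^ j) < ⊤ := by
    rw [← ENNReal.ofReal_tsum_of_nonneg (fun j => by positivity) h4]
    exact ENNReal.ofReal_lt_top
  refine ENNReal.add_lt_top.mpr ⟨?_, lt_of_le_of_lt h3 h5⟩
  simp

end Pool.Agent.V11103
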