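import Mathlib
import Pool.Agent.V11103.MaxErg

/-!
The pointwise ergodic theorem for integrable functions.
-/

set_option autoImplicit false

open Set Filter Topology MeasureTheory
open scoped ENNReal

namespace Pool.Agent.V11103

/-- truncation -/
noncomputable def trc (R : ℕ) (r : ℝ) : ℝ := max (-(R : ℝ)) (min r R)

lemma abs_trc_le (R : ℕ) (r : ℝ) : |trc R r| ≤ R := by
  have hR : (0 : ℝ) ≤ R := Nat.cast_nonneg R
  unfold trc
  rw [abs_le]
  exact ⟨le_max_left _ _, max_le (by linarith) (min_le_right _ _)⟩

lemma trc_sub_le (R : ℕ) (r : ℝ) : |r - trc R r| ≤ |r| := by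
  have hR : (0 : ℝ) ≤ R := Nat.cast_nonneg R
  unfold trc
  rcases le_total r R with h | h
  · rcases le_total (-(R : ℝ)) r with h' | h'
    · rw [min_eq_left h, max_eq_right h', sub_self, abs_zero]
      exact abs_nonneg _
    · rw [min_eq_left h, max_eq_left h', abs_of_nonpos (by linarith), abs_of_nonpos (by linarith)]
      linarith
  · rw [min_eq_right h, max_eq_right (by linarith), abs_of_nonneg (by linarith),
      abs_of_nonneg (by linarith)]
    linarith

lemma tendsto_trc (r : ℝ) : Tendsto (fun R : ℕ => trc R r) atTop (𝓝 r) := by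
  refine tendsto_const_nhds.congr' ?_
  obtain ⟨R0, hR0⟩ := exists_nat_ge |r|
  filter_upwards [eventually_ge_atTop R0] with R hR
  have h1 : |r| ≤ R := hR0.trans (by exact_mod_cast hR)
  rw [abs_le] at h1
  unfold trc
  rw [min_eq_left h1.2, max_eq_right h1.1]

lemma measurable_trc (R : ℕ) : Measurable (trc R) := by
  unfold trc
  exact measurable_const.max (measurable_id.min measurable_const)

variable {B : Type*} [MeasurableSpace B] {m : Measure B}

/-- Birkhoff's theorem for integrable functions -/
theorem birkhoffL1 [IsProbabilityMeasure m] {T : B → B} (hT : MeasurePreserving T m m)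
    {f : B → ℝ} (hm : Measurable f) (hf : Integrable f m) :
    ∀ᵐ x ∂m, Tendsto (fun k : ℕ => ergAv T f k x) atTop
      (𝓝 ((m[f | MeasurableSpace.invariants T]) x)) := by
  set g : B → ℝ := m[f | MeasurableSpace.invariants T] with hg
  have hle := MeasurableSpace.invariants_le T
  -- L1 truncation
  have hlim : Tendsto (fun R : ℕ => ∫ x, |f x - trc R (f x)| ∂m) atTop (𝓝 0) := by
    have : (0 : ℝ) = ∫ _, (0 : ℝ) ∂m := by simp
    rw [this]
    refine tendsto_integral_of_dominated_convergence (fun x => |f x|)
      (fun R => (hm.sub ((measurable_trc R).comp hm)).abs.aestronglyMeasurable) hf.abs ?_ ?_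
    · intro R
      refine Eventually.of_forall fun x => ?_
      rw [Real.norm_eq_abs, abs_abs]
      exact trc_sub_le R _
    · refine Eventually.of_forall fun x => ?_
      have h := ((tendsto_trc (f x)).const_sub (f x)).abs
      simpa using h
  have key : ∀ δ : ℝ, 0 < δ → ∀ᵐ x ∂m, ∀ᶠ k : ℕ in atTop, |ergAv T f k x - g x| ≤ 3 * δ := by
    intro δ hδ
    rw [ae_iff]
    set bad : Set B := {x | ¬ ∀ᶠ k : ℕ in atTop, |ergAv T f k x - g x| ≤ 3 * δ} with hbad
    have hb : ∀ R : ℕ, m bad ≤ ENNReal.ofReal ((∫ x, |f x - trc R (f x)| ∂m) / δ)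
        + ENNReal.ofReal ((∫ x, |f x - trc R (f x)| ∂m) / δ) := by
      intro R
      set h : B → ℝ := fun x => f x - trc R (f x) with hh
      have htm : Measurable (fun x => trc R (f x)) := (measurable_trc R).comp hm
      have hti : Integrable (fun x => trc R (f x)) m := Integrable.of_bound
        htm.aestronglyMeasurable R
        (Eventually.of_forall fun x => by rw [Real.norm_eq_abs]; exact abs_trc_le R _)
      have hhm : Measurable h := hm.sub htm
      have hhi : Integrable h m := hf.sub hti
      set e : B → ℝ := m[h | MeasurableSpace.invariants T] with he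
      have hei : Integrable e m := integrable_condExp
      have heq : ∀ᵐ x ∂m, g x = (m[fun x => trc R (f x) | MeasurableSpace.invariants T]) x + e x := by
        have h1 := condExp_add hti hhi (MeasurableSpace.invariants T)
        have h2 : (fun x => trc R (f x)) + h = f := by
          ext x; simp [hh]
        rw [h2] at h1
        filter_upwards [h1] with x hx
        rw [hg, hx]; rfl
      have hb1 := H165R3.BPE.birkhoff hT (fun x => trc R (f x)) htm R (fun x => abs_trc_le R _)
      -- inclusion up to null sets
      have hincl : bad ≤ᵐ[m] ({x | ∃ k, δ < ergAv T (fun y => |h y|) k x} ∪ {x | δ ≤ |e x|} : Set B) := by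
        filter_upwards [heq, hb1] with x hx1 hx2
        intro hxb
        by_contra hcon
        have hcon' : ¬ ((∃ k, δ < ergAv T (fun y => |h y|) k x) ∨ δ ≤ |e x|) := hcon
        push Not at hcon'
        apply hxb
        have hx3 : Tendsto (fun k : ℕ => ergAv T (fun x => trc R (f x)) k x) atTop
            (𝓝 ((m[fun x => trc R (f x) | MeasurableSpace.invariants T]) x)) := by
          refine hx2.congr fun k => ?_
          unfold ergAv; rw [one_div]
        filter_upwards [(Metric.tendsto_nhds.mp hx3) δ hδ] with k hk
        rw [Real.dist_eq] at hk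
        have h4 : ergAv T f k x = ergAv T (fun x => trc R (f x)) k x + ergAv T h k x := by
          rw [← ergAv_add]
          congr 1
          ext y; simp [hh]
        have h5 := (ergAv_abs_le (T := T) (f := h) k x).trans (hcon'.1 k)
        rw [h4, hx1]
        have e1 : ergAv T (fun x => trc R (f x)) k x + ergAv T h k x
            - ((m[fun x => trc R (f x) | MeasurableSpace.invariants T]) x + e x)
            = (ergAv T (fun x => trc R (f x)) k x
              - (m[fun x => trc R (f x) | MeasurableSpace.invariants T]) x)
              + (ergAv T h k x - e x) := by ring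
        rw [e1]
        refine (abs_add_le _ _).trans ?_
        have h6 := (abs_sub (ergAv T h k x) (e x))
        linarith [hcon'.2]
      refine (measure_mono_ae hincl).trans ((measure_union_le _ _).trans ?_)
      gcongr
      · have h7 := maximal hT hhm.abs hhi.abs hδ
        simpa only [abs_abs] using h7
      · have h8 := mul_meas_ge_le_integral_of_nonneg (μ := m) (f := fun x => |e x|)
          (Eventually.of_forall fun x => abs_nonneg _) hei.abs δ
        have h9 : ∫ x, |e x| ∂m ≤ ∫ x, |h x| ∂m := integral_abs_condExp_le h
        rw [← ENNReal.ofReal_toReal (measure_ne_top m {x | δ ≤ |e x|})]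
        apply ENNReal.ofReal_le_ofReal
        rw [le_div_iff₀ hδ]
        have : (m {x | δ ≤ |e x|}).toReal = m.real {x | δ ≤ |e x|} := rfl
        rw [this]
        linarith
    have hto : Tendsto (fun R : ℕ => ENNReal.ofReal ((∫ x, |f x - trc R (f x)| ∂m) / δ)
        + ENNReal.ofReal ((∫ x, |f x - trc R (f x)| ∂m) / δ)) atTop (𝓝 0) := by
      have h1 := ENNReal.tendsto_ofReal (hlim.div_const δ)
      have h2 := h1.add h1
      simpa using h2
    exact le_antisymm (ge_of_tendsto' hto hb) bot_le
  have key2 : ∀ᵐ x ∂m, ∀ n : ℕ, ∀ᶠ k : ℕ in atTop,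
      |ergAv T f k x - g x| ≤ 3 * (1 / ((n : ℝ) + 1)) := by
    rw [ae_all_iff]
    intro n
    exact key _ (by positivity)
  filter_upwards [key2] with x hx
  rw [Metric.tendsto_nhds]
  intro ε hε
  obtain ⟨n, hn⟩ := exists_nat_one_div_lt (show (0 : ℝ) < ε / 3 by positivity)
  filter_upwards [hx n] with k hk
  rw [Real.dist_eq]
  linarith

end Pool.Agent.V11103
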