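import Mathlib
import Pool.Agent.V11103.BirkL1
import Pool.Agent.V11103.ErgLebDefs

set_option autoImplicit false

open Set Filter Topology MeasureTheory
open scoped ENNReal

namespace Pool.Agent.V11103

variable {X : Type*} [PseudoMetricSpace X] [MeasurableSpace X] [BorelSpace X] {μ : Measure X}

omit [BorelSpace X] in
lemma ballMean_sub [BorelSpace X] {f g : X → ℝ} (hf : Integrable f μ) (hg : Integrable g μ) (x : X) (r : ℝ) :
    ballMean μ (fun y => f y - g y) x r = ballMean μ f x r - ballMean μ g x r := by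
  unfold ballMean
  rw [integral_sub hf.integrableOn hg.integrableOn]; ring

lemma ballMean_abs_le {f g : X → ℝ} (hg : Integrable g μ)
    (h : ∀ᵐ y ∂μ, |f y| ≤ g y) (x : X) (r : ℝ) :
    |ballMean μ f x r| ≤ ballMean μ g x r := by
  unfold ballMean
  rw [abs_mul, abs_of_nonneg (by positivity : (0 : ℝ) ≤ (μ.real (Metric.ball x r))⁻¹)]
  refine mul_le_mul_of_nonneg_left ?_ (by positivity)
  have h1 : |∫ y in Metric.ball x r, f y ∂μ| ≤ ∫ y in Metric.ball x r, |f y| ∂μ :=
    abs_integral_le_integral_abs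
  refine h1.trans ?_
  refine integral_mono_of_nonneg (Eventually.of_forall fun y => abs_nonneg _) hg.integrableOn ?_
  exact ae_restrict_of_ae h

/-- the core, for measurable functions -/
theorem ergLeb_aux [IsProbabilityMeasure μ] (hL : LebesgueDifferentiation μ) {T : X → X}
    (hT : MeasurePreserving T μ μ) {p : ℝ} (hp : 1 < p) {f : X → ℝ} (hm : Measurable f)
    (hfi : Integrable f μ) (hfp : Integrable (fun x => |f x| ^ p) μ) :
    ∀ᵐ x ∂μ, Tendsto (fun q : ℝ × ℕ => ballMean μ (ergAv T f q.2) x q.1) (𝓝[>] 0 ×ˢ atTop)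
      (𝓝 ((μ[f | MeasurableSpace.invariants T]) x)) := by
  set g : X → ℝ := μ[f | MeasurableSpace.invariants T] with hg
  have hle := MeasurableSpace.invariants_le T
  have hgm : Measurable g := (stronglyMeasurable_condExp.measurable).mono hle le_rfl
  have hgi : Integrable g μ := integrable_condExp
  have hmax : ∫⁻ x, maxFun T (fun y => |f y|) x ∂μ < ⊤ :=
    maxFun_lintegral hT hm.abs (fun x => abs_nonneg _) hp hfp hfi.abs
  set G : ℕ → X → ℝ≥0∞ := fun K x => ⨆ k : ℕ, ENNReal.ofReal |ergAv T f (K + k) x - g x| with hG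
  have hGm : ∀ K, Measurable (G K) := fun K => Measurable.iSup fun k =>
    ((ergAv_meas hT.measurable hm (K + k)).sub hgm).abs.ennreal_ofReal
  have hGle : ∀ K x, G K x ≤ maxFun T (fun y => |f y|) x + ENNReal.ofReal |g x| := by
    intro K x
    refine iSup_le fun k => ?_
    have h1 : |ergAv T f (K + k) x - g x| ≤ ergAv T (fun y => |f y|) (K + k) x + |g x| :=
      (abs_sub _ _).trans (add_le_add (ergAv_abs_le _ _) le_rfl)
    refine (ENNReal.ofReal_le_ofReal h1).trans (ENNReal.ofReal_add_le.trans ?_)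
    gcongr
    exact le_iSup (fun k => ENNReal.ofReal (ergAv T (fun y => |f y|) k x)) (K + k)
  have hGint : ∀ K, ∫⁻ x, G K x ∂μ ≠ ⊤ := by
    intro K
    refine (lt_of_le_of_lt (lintegral_mono (hGle K)) ?_).ne
    rw [lintegral_add_left (maxFun_meas hT.measurable hm.abs)]
    refine ENNReal.add_lt_top.mpr ⟨hmax, ?_⟩
    have h2 := hgi.2
    unfold HasFiniteIntegral at h2
    refine lt_of_le_of_lt (le_of_eq ?_) h2
    refine lintegral_congr fun x => ?_
    rw [← ofReal_norm, Real.norm_eq_abs]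
  have hGtop : ∀ᵐ x ∂μ, ∀ K, G K x < ⊤ := by
    rw [ae_all_iff]
    intro K
    exact ae_lt_top (hGm K) (hGint K)
  set gK : ℕ → X → ℝ := fun K x => (G K x).toReal with hgK
  have hgKi : ∀ K, Integrable (gK K) μ := fun K =>
    integrable_toReal_of_lintegral_ne_top (hGm K).aemeasurable (hGint K)
  have hdom : ∀ᵐ x ∂μ, ∀ K k, |ergAv T f (K + k) x - g x| ≤ gK K x := by
    filter_upwards [hGtop] with x hx K k
    have h1 : ENNReal.ofReal |ergAv T f (K + k) x - g x| ≤ G K x :=
      le_iSup (fun k => ENNReal.ofReal |ergAv T f (K + k) x - g x|) k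
    have h2 := ENNReal.toReal_mono (hx K).ne h1
    rwa [ENNReal.toReal_ofReal (abs_nonneg _)] at h2
  have hbirk := birkhoffL1 hT hm hfi
  have hlebK : ∀ᵐ x ∂μ, ∀ K, Tendsto (fun r : ℝ => ballMean μ (gK K) x r) (𝓝[>] 0) (𝓝 (gK K x)) := by
    rw [ae_all_iff]
    intro K
    exact hL _ (hgKi K)
  have hlebg := hL g hgi
  filter_upwards [hGtop, hbirk, hlebK, hlebg] with x hx1 hx2 hx3 hx4
  rw [Metric.tendsto_nhds]
  intro ε hε
  -- choose K
  have hε3 : 0 < ε / 4 := by positivity
  obtain ⟨K, hK⟩ := eventually_atTop.mp ((Metric.tendsto_nhds.mp hx2) (ε / 4) hε3)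
  have hgKx : gK K x ≤ ε / 4 := by
    have h1 : G K x ≤ ENNReal.ofReal (ε / 4) := by
      refine iSup_le fun k => ENNReal.ofReal_le_ofReal ?_
      have := hK (K + k) (by omega)
      rw [Real.dist_eq] at this
      exact this.le
    have h2 := ENNReal.toReal_mono ENNReal.ofReal_ne_top h1
    rwa [ENNReal.toReal_ofReal hε3.le] at h2
  have hr1 := (Metric.tendsto_nhds.mp (hx3 K)) (ε / 4) hε3
  have hr2 := (Metric.tendsto_nhds.mp hx4) (ε / 4) hε3
  have hev := (hr1.and hr2).prod_mk (eventually_ge_atTop K)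
  filter_upwards [hev] with q hq
  obtain ⟨⟨hq1, hq2⟩, hq3⟩ := hq
  rw [Real.dist_eq] at hq1 hq2 ⊢
  obtain ⟨k, hk⟩ := Nat.exists_eq_add_of_le hq3
  have hsub : ballMean μ (ergAv T f q.2) x q.1 - g x
      = ballMean μ (fun y => ergAv T f q.2 y - g y) x q.1 + (ballMean μ g x q.1 - g x) := by
    rw [ballMean_sub (ergAv_int hT hfi _) hgi]; ring
  have hb : |ballMean μ (fun y => ergAv T f q.2 y - g y) x q.1| ≤ ballMean μ (gK K) x q.1 := by
    refine ballMean_abs_le (hgKi K) ?_ x q.1
    filter_upwards [hdom] with y hy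
    rw [hk]
    exact hy K k
  rw [hsub]
  refine lt_of_le_of_lt (abs_add_le _ _) ?_
  have h5 := (abs_lt.mp hq1).2
  linarith

/-- The ergodic Lebesgue differentiation theorem for `L^p`, `p > 1`, under the Lebesgue
differentiation property only. -/
theorem ergLeb [IsProbabilityMeasure μ] (hL : LebesgueDifferentiation μ) {T : X → X}
    (hT : MeasurePreserving T μ μ) {p : ℝ≥0∞} (hp : 1 < p) {f : X → ℝ} (hf : MemLp f p μ) :
    ∀ᵐ x ∂μ, Tendsto (fun q : ℝ × ℕ => ballMean μ (timeMean T f q.2) x q.1) (𝓝[>] 0 ×ˢ atTop)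
      (𝓝 ((μ[f | MeasurableSpace.invariants T]) x)) := by
  set f' : X → ℝ := hf.1.mk f with hf'
  have hff' : f =ᵐ[μ] f' := hf.1.ae_eq_mk
  have hm : Measurable f' := hf.1.stronglyMeasurable_mk.measurable
  have hf2 : MemLp f' p μ := (memLp_congr_ae hff').mp hf
  have hq1 : 1 < min p 2 := lt_min hp (by norm_num)
  have hf3 : MemLp f' (min p 2) μ := hf2.mono_exponent (min_le_left _ _)
  have hqtop : min p 2 ≠ ⊤ := (lt_of_le_of_lt (min_le_right _ _) (by norm_num)).ne
  have hfi : Integrable f' μ := memLp_one_iff_integrable.mp (hf3.mono_exponent hq1.le)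
  have hqr : 1 < (min p 2).toReal := by
    have := (ENNReal.toReal_lt_toReal ENNReal.one_ne_top hqtop).mpr hq1
    simpa using this
  have hfp := hf3.integrable_norm_rpow (lt_trans one_pos hq1).ne' hqtop
  simp only [Real.norm_eq_abs] at hfp
  have hmain := ergLeb_aux hL hT hqr hm hfi hfp
  have hcond : μ[f | MeasurableSpace.invariants T] =ᵐ[μ] μ[f' | MeasurableSpace.invariants T] :=
    condExp_congr_ae hff'
  have hav : ∀ k, timeMean T f k =ᵐ[μ] ergAv T f' k := by
    intro k
    have h1 : ∀ᵐ x ∂μ, ∀ j : ℕ, f (T^[j] x) = f' (T^[j] x) := by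
      rw [ae_all_iff]
      intro j
      exact (hT.iterate j).quasiMeasurePreserving.ae hff'
    filter_upwards [h1] with x hx
    unfold timeMean ergAv
    simp only [hx]
  have hball : ∀ k x r, ballMean μ (timeMean T f k) x r = ballMean μ (ergAv T f' k) x r := by
    intro k x r
    unfold ballMean
    congr 1
    exact integral_congr_ae (ae_restrict_of_ae (hav k))
  filter_upwards [hmain, hcond] with x hx1 hx2
  rw [hx2]
  simp only [hball]
  exact hx1

end Pool.Agent.V11103
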