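import Mathlib

set_option autoImplicit false

open Set

namespace Pool.Agent.V11103

/-- `T` restricts to a broken-linear transformation of `[0,1]`: it is continuous on `[0,1]`, maps
`[0,1]` into itself, and there are `0 = a 0 < a 1 < … < a m = 1` such that `T` is affine on each
`[a j, a (j+1)]`. -/
def IsBrokenLinear (T : ℝ → ℝ) : Prop :=
  ContinuousOn T (Icc 0 1) ∧ MapsTo T (Icc 0 1) (Icc 0 1) ∧
    ∃ (m : ℕ) (a : ℕ → ℝ), 1 ≤ m ∧ a 0 = 0 ∧ a m = 1 ∧ (∀ j < m, a j < a (j + 1)) ∧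
      ∀ j < m, ∃ c d : ℝ, ∀ x ∈ Icc (a j) (a (j + 1)), T x = c * x + d

/-- `A_N(R,p) = (1/N) ∑_{i=1}^N χ_R(T^{(i)} p)`. -/
noncomputable def orbitAverage (T : ℝ → ℝ) (R : Set ℝ) (p : ℝ) (N : ℕ) : ℝ :=
  (1 / (N : ℝ)) * ∑ i ∈ Finset.Icc 1 N, R.indicator (fun _ => (1 : ℝ)) (T^[i] p)

end Pool.Agent.V11103
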