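import Mathlib
import Pool.Agent.V11103.BrokenDefs

set_option autoImplicit false

open Filter Topology Set

namespace Pool.Agent.V11103

/-- the broken-linear homeomorphism of `[0,1]` with attracting fixed point `0` -/
noncomputable def T0 (x : ℝ) : ℝ := max (x / 2) ((3 * x - 1) / 2)

lemma T0_low {x : ℝ} (h : x ≤ 1 / 2) : T0 x = x / 2 := by
  unfold T0; rw [max_eq_left]; linarith

lemma T0_high {x : ℝ} (h : 1 / 2 ≤ x) : T0 x = (3 * x - 1) / 2 := by
  unfold T0; rw [max_eq_right]; linarith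

lemma T0_broken : IsBrokenLinear T0 := by
  refine ⟨?_, ?_, 2, fun j => (j : ℝ) / 2, by norm_num, by simp, by norm_num, ?_, ?_⟩
  · apply Continuous.continuousOn
    unfold T0
    fun_prop
  · rintro x ⟨h0, h1⟩
    rcases le_total x (1 / 2) with h | h
    · rw [T0_low h]; constructor <;> linarith
    · rw [T0_high h]; constructor <;> linarith
  · intro j _
    push_cast
    linarith
  · intro j hj
    interval_cases j
    · refine ⟨1 / 2, 0, fun x hx => ?_⟩
      rw [T0_low]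
      · ring
      · have := hx.2
        norm_num at this
        linarith
    · refine ⟨3 / 2, -1 / 2, fun x hx => ?_⟩
      rw [T0_high]
      · ring
      · have := hx.1
        norm_num at this
        linarith

lemma T0_strictMono : StrictMonoOn T0 (Icc 0 1) := by
  intro x _ y _ hxy
  unfold T0
  apply max_lt
  · exact lt_max_of_lt_left (by linarith)
  · exact lt_max_of_lt_right (by linarith)

lemma T0_zero : T0 0 = 0 := by rw [T0_low (by norm_num)]; norm_num
lemma T0_one : T0 1 = 1 := by rw [T0_high (by norm_num)]; norm_num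

lemma T0_image : T0 '' Icc 0 1 = Icc 0 1 := by
  apply Subset.antisymm
  · exact image_subset_iff.mpr T0_broken.2.1
  · have h := intermediate_value_Icc (zero_le_one : (0 : ℝ) ≤ 1) T0_broken.1
    rw [T0_zero, T0_one] at h
    exact h

lemma iter_low {x : ℝ} (h0 : 0 < x) (h1 : x ≤ 1 / 2) (n : ℕ) :
    T0^[n] x = x / 2 ^ n ∧ 0 < T0^[n] x ∧ T0^[n] x ≤ 1 / 2 := by
  induction n with
  | zero => simp; exact ⟨h0, by linarith⟩
  | succ n ih =>
    obtain ⟨e, e1, e2⟩ := ih
    rw [Function.iterate_succ_apply', T0_low e2]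
    refine ⟨?_, by linarith, by linarith⟩
    rw [e, pow_succ]; field_simp

lemma exists_low {p : ℝ} (h0 : 0 < p) (h1 : p < 1) :
    ∃ n : ℕ, 0 < T0^[n] p ∧ T0^[n] p ≤ 1 / 2 := by
  by_contra hcon
  push Not at hcon
  have key : ∀ n : ℕ, 0 < T0^[n] p ∧ 1 - T0^[n] p = (3 / 2) ^ n * (1 - p) := by
    intro n
    induction n with
    | zero => simp [h0]
    | succ n ih =>
      have h2 := hcon n ih.1
      rw [Function.iterate_succ_apply', T0_high h2.le]
      refine ⟨by linarith, ?_⟩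
      rw [pow_succ]
      linarith [ih.2]
  obtain ⟨n, hn⟩ := pow_unbounded_of_one_lt (1 / (1 - p)) (by norm_num : (1 : ℝ) < 3 / 2)
  have h3 := (key n).2
  have h4 : 1 < (3 / 2 : ℝ) ^ n * (1 - p) := by
    rwa [div_lt_iff₀ (by linarith)] at hn
  linarith [(key n).1]

/-- integer part of `-log₂ x` -/
noncomputable def kk (x : ℝ) : ℤ := ⌊-Real.logb 2 x⌋
/-- fractional part of `-log₂ x` -/
noncomputable def vv (x : ℝ) : ℝ := Int.fract (-Real.logb 2 x)

lemma logb_div_pow {x : ℝ} (h0 : 0 < x) (n : ℕ) :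
    -Real.logb 2 (x / 2 ^ n) = -Real.logb 2 x + n := by
  rw [Real.logb_div h0.ne' (by positivity), Real.logb_pow]
  simp [Real.logb_self_eq_one]
  ring

lemma kk_iter {x : ℝ} (h0 : 0 < x) (h1 : x ≤ 1 / 2) (n : ℕ) : kk (T0^[n] x) = kk x + n := by
  unfold kk
  rw [(iter_low h0 h1 n).1, logb_div_pow h0]
  exact Int.floor_add_natCast _ _

lemma vv_iter {x : ℝ} (h0 : 0 < x) (h1 : x ≤ 1 / 2) (n : ℕ) : vv (T0^[n] x) = vv x := by
  unfold vv
  rw [(iter_low h0 h1 n).1, logb_div_pow h0]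
  exact Int.fract_add_natCast _ _

/-- the target sets -/
def RR (φ : ℤ → ℝ → Prop) : Set ℝ := {x | 0 < x ∧ x ≤ 1 / 2 ∧ φ (kk x) (vv x)}

/-- along every orbit starting in `(0,1)` the visits to `RR φ` are eventually governed by `φ` -/
lemma orbit_eventually {p : ℝ} (h0 : 0 < p) (h1 : p < 1) :
    ∃ (K : ℤ) (n0 : ℕ) (v : ℝ), (p ≤ 1 / 2 → v = vv p) ∧
      ∀ φ : ℤ → ℝ → Prop, ∀ i : ℕ, n0 ≤ i → (T0^[i] p ∈ RR φ ↔ φ (K + i) v) := by
  by_cases hp : p ≤ 1 / 2
  · refine ⟨kk p, 0, vv p, fun _ => rfl, ?_⟩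
    intro φ i _
    obtain ⟨-, e1, e2⟩ := iter_low h0 hp i
    unfold RR
    rw [mem_ofPred_eq, kk_iter h0 hp, vv_iter h0 hp]
    exact ⟨fun h => h.2.2, fun h => ⟨e1, e2, h⟩⟩
  · obtain ⟨n0, h2, h3⟩ := exists_low h0 h1
    refine ⟨kk (T0^[n0] p) - n0, n0, vv (T0^[n0] p), fun h => absurd h hp, ?_⟩
    intro φ i hi
    obtain ⟨j, rfl⟩ := Nat.exists_eq_add_of_le hi
    have e : T0^[n0 + j] p = T0^[j] (T0^[n0] p) := by
      rw [add_comm, Function.iterate_add_apply]
    rw [e]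
    obtain ⟨-, e1, e2⟩ := iter_low h2 h3 j
    unfold RR
    rw [mem_ofPred_eq, kk_iter h2 h3, vv_iter h2 h3]
    have e3 : kk (T0^[n0] p) - n0 + ((n0 + j : ℕ) : ℤ) = kk (T0^[n0] p) + j := by
      push_cast; ring
    rw [e3]
    exact ⟨fun h => h.2.2, fun h => ⟨e1, e2, h⟩⟩

lemma measurable_kk : Measurable kk := by
  unfold kk
  have h : Measurable (fun x : ℝ => -Real.logb 2 x) := by
    unfold Real.logb
    exact (Real.measurable_log.div_const _).neg
  exact Int.measurable_floor.comp h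

lemma measurable_vv : Measurable vv := by
  unfold vv
  have h : Measurable (fun x : ℝ => -Real.logb 2 x) := by
    unfold Real.logb
    exact (Real.measurable_log.div_const _).neg
  exact measurable_fract.comp h

lemma measurableSet_RR (φ : ℤ → ℝ → Prop) (hφ : ∀ k, MeasurableSet {v | φ k v}) :
    MeasurableSet (RR φ) := by
  have e : RR φ = Ioc 0 (1 / 2) ∩ ⋃ k : ℤ, (kk ⁻¹' {k} ∩ vv ⁻¹' {v | φ k v}) := by
    ext x
    simp only [RR, mem_ofPred_eq, mem_inter_iff, mem_Ioc, mem_iUnion, mem_preimage,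
      mem_singleton_iff]
    constructor
    · rintro ⟨a, b, c⟩
      exact ⟨⟨a, b⟩, kk x, rfl, c⟩
    · rintro ⟨⟨a, b⟩, k, hk, c⟩
      rw [← hk] at c
      exact ⟨a, b, c⟩
  rw [e]
  refine measurableSet_Ioc.inter (MeasurableSet.iUnion fun k => ?_)
  exact (measurable_kk (measurableSet_singleton k)).inter (measurable_vv (hφ k))

/-! ### First question: no convergence -/

/-- the dyadic block set -/
def InS (n : ℤ) : Prop := ∃ j : ℕ, (4 : ℤ) ^ j ≤ n ∧ n < 2 * 4 ^ j

lemma no_limit (a : ℕ → ℝ) (K : ℤ) (n0 : ℕ) (h01 : ∀ i, 0 ≤ a i ∧ a i ≤ 1)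
    (h1 : ∀ i, n0 ≤ i → InS (K + i) → a i = 1) (h0 : ∀ i, n0 ≤ i → ¬ InS (K + i) → a i = 0) :
    ¬ ∃ L : ℝ, Tendsto (fun N : ℕ => (1 / (N : ℝ)) * ∑ i ∈ Finset.Icc 1 N, a i) atTop (𝓝 L) := by
  rintro ⟨L, hL⟩
  -- the block averages
  have hD : Tendsto (fun N : ℕ => (1 / (N : ℝ)) * ∑ i ∈ Finset.Ioc N (2 * N), a i) atTop (𝓝 L) := by
    have h2 : Tendsto (fun N : ℕ => 2 * N) atTop atTop :=
      tendsto_id.const_mul_atTop' (by norm_num)
    have h3 := ((hL.comp h2).const_mul 2).sub hL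
    have e : 2 * L - L = L := by ring
    rw [e] at h3
    refine h3.congr' ?_
    filter_upwards [eventually_gt_atTop 0] with N hN
    have hN' : (N : ℝ) ≠ 0 := by positivity
    simp only [Function.comp]
    have hs : ∑ i ∈ Finset.Icc 1 (2 * N), a i
        = ∑ i ∈ Finset.Icc 1 N, a i + ∑ i ∈ Finset.Ioc N (2 * N), a i := by
      have := Finset.sum_Ioc_consecutive a (Nat.zero_le N) (by omega : N ≤ 2 * N)
      have e1 : ∀ n, Finset.Icc 1 n = Finset.Ioc 0 n := by
        intro n; ext i; simp [Nat.lt_iff_add_one_le]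
      rw [e1, e1]
      exact this.symm
    rw [hs]
    push_cast
    field_simp
    ring
  set B : ℕ := K.natAbs + n0 + 1 with hB
  have hKB : |K| + 1 ≤ (B : ℤ) := by
    rw [hB]; push_cast; omega
  have hKB1 := neg_abs_le K
  have hKB2 := le_abs_self K
  have h4 : Tendsto (fun j : ℕ => 4 ^ j) atTop atTop :=
    tendsto_pow_atTop_atTop_of_one_lt (by norm_num)
  have h5 : Tendsto (fun j : ℕ => 2 * 4 ^ j) atTop atTop := h4.const_mul_atTop' (by norm_num)
  have hBz : Tendsto (fun N : ℕ => (1 / (N : ℝ)) * (2 * (B : ℝ))) atTop (𝓝 0) := by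
    have := tendsto_one_div_atTop_nhds_zero_nat (𝕜 := ℝ)
    simpa using this.mul_const (2 * (B : ℝ))
  -- lower bound along 4^j
  have hL1 : 1 ≤ L := by
    have h6 : Tendsto (fun j : ℕ => 1 - (1 / ((4 ^ j : ℕ) : ℝ)) * (2 * (B : ℝ))) atTop (𝓝 (1 - 0)) :=
      tendsto_const_nhds.sub (hBz.comp h4)
    rw [sub_zero] at h6
    refine le_of_tendsto_of_tendsto h6 (hD.comp h4) ?_
    filter_upwards [h4.eventually_ge_atTop (4 * B)] with j hj
    set N : ℕ := 4 ^ j with hN
    have hNpos : (0 : ℝ) < N := by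
      have : 0 < N := by positivity
      exact_mod_cast this
    simp only [Function.comp]
    have hsub : Finset.Ioc (N + B) (2 * N - B) ⊆ Finset.Ioc N (2 * N) := by
      intro i hi
      rw [Finset.mem_Ioc] at hi ⊢
      omega
    have h7 : ∑ i ∈ Finset.Ioc (N + B) (2 * N - B), a i ≤ ∑ i ∈ Finset.Ioc N (2 * N), a i :=
      Finset.sum_le_sum_of_subset_of_nonneg hsub fun i _ _ => (h01 i).1
    have h8 : ∑ i ∈ Finset.Ioc (N + B) (2 * N - B), a i = (N : ℝ) - 2 * B := by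
      rw [Finset.sum_congr rfl (g := fun _ => (1 : ℝ))]
      · rw [Finset.sum_const, Nat.card_Ioc, nsmul_eq_mul, mul_one]
        have : 2 * N - B - (N + B) = N - 2 * B := by omega
        rw [this, Nat.cast_sub (by omega)]
        push_cast; ring
      · intro i hi
        rw [Finset.mem_Ioc] at hi
        apply h1 i (by omega)
        refine ⟨j, ?_, ?_⟩
        · have e : (4 : ℤ) ^ j = (N : ℤ) := by rw [hN]; push_cast; rfl
          rw [e]; omega
        · have e : (4 : ℤ) ^ j = (N : ℤ) := by rw [hN]; push_cast; rfl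
          rw [e]; omega
    rw [h8] at h7
    have h9 : 1 - (1 / (N : ℝ)) * (2 * (B : ℝ)) = (1 / (N : ℝ)) * ((N : ℝ) - 2 * B) := by
      field_simp
    rw [h9]
    exact mul_le_mul_of_nonneg_left h7 (by positivity)
  -- upper bound along 2 * 4^j
  have hL0 : L ≤ 0 := by
    refine le_of_tendsto_of_tendsto (hD.comp h5) (hBz.comp h5) ?_
    filter_upwards [h4.eventually_ge_atTop (4 * B)] with j hj
    set N : ℕ := 2 * 4 ^ j with hN
    have hNpos : (0 : ℝ) < N := by
      have : 0 < N := by positivity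
      exact_mod_cast this
    simp only [Function.comp]
    have hNB : 8 * B ≤ N := by omega
    have hsplit : ∑ i ∈ Finset.Ioc N (2 * N), a i ≤ 2 * (B : ℝ) := by
      have e1 := Finset.sum_Ioc_consecutive a (by omega : N ≤ N + B) (by omega : N + B ≤ 2 * N)
      have e2 := Finset.sum_Ioc_consecutive a (by omega : N + B ≤ 2 * N - B)
        (by omega : 2 * N - B ≤ 2 * N)
      rw [← e1, ← e2]
      have z : ∑ i ∈ Finset.Ioc (N + B) (2 * N - B), a i = 0 := by
        apply Finset.sum_eq_zero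
        intro i hi
        rw [Finset.mem_Ioc] at hi
        apply h0 i (by omega)
        rintro ⟨l, hl1, hl2⟩
        have e : (4 : ℤ) ^ j * 2 = (N : ℤ) := by rw [hN]; push_cast; ring
        have hup : (4 : ℤ) ^ l < 4 ^ (j + 1) := by
          rw [pow_succ]; omega
        have hlj : l < j + 1 := (pow_lt_pow_iff_right₀ (by norm_num)).mp hup
        have hle : (4 : ℤ) ^ l ≤ 4 ^ j := pow_le_pow_right₀ (by norm_num) (by omega)
        omega
      have b1 : ∑ i ∈ Finset.Ioc N (N + B), a i ≤ B := by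
        calc ∑ i ∈ Finset.Ioc N (N + B), a i ≤ ∑ i ∈ Finset.Ioc N (N + B), (1 : ℝ) :=
              Finset.sum_le_sum fun i _ => (h01 i).2
          _ = B := by simp
      have b2 : ∑ i ∈ Finset.Ioc (2 * N - B) (2 * N), a i ≤ B := by
        calc ∑ i ∈ Finset.Ioc (2 * N - B) (2 * N), a i
            ≤ ∑ i ∈ Finset.Ioc (2 * N - B) (2 * N), (1 : ℝ) :=
              Finset.sum_le_sum fun i _ => (h01 i).2
          _ = B := by
            rw [Finset.sum_const, Nat.card_Ioc, nsmul_eq_mul, mul_one]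
            have : 2 * N - (2 * N - B) = B := by omega
            rw [this]
      rw [z]
      linarith
    exact mul_le_mul_of_nonneg_left hsplit (by positivity)
  linarith

/-! ### Second question: infinitely many values -/

lemma dvd_step (m n : ℤ) (hm : 0 < m) :
    (if m ∣ n then (1 : ℝ) else 0) = ((n / m : ℤ) : ℝ) - (((n - 1) / m : ℤ) : ℝ) := by
  have h : n / m - (n - 1) / m = if m ∣ n then 1 else 0 := by
    split_ifs with hd
    · obtain ⟨q, rfl⟩ := hd
      rw [Int.mul_ediv_cancel_left _ hm.ne']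
      have : (m * q - 1) / m = q - 1 := by
        rw [show m * q - 1 = (m - 1) + m * (q - 1) by ring, Int.add_mul_ediv_left _ _ hm.ne',
          Int.ediv_eq_zero_of_lt (by omega) (by omega)]
        ring
      rw [this]; ring
    · have h1 := Int.emod_add_mul_ediv n m
      have h2 := Int.emod_nonneg n hm.ne'
      have h3 := Int.emod_lt_of_pos n hm
      have h4 : n % m ≠ 0 := fun h => hd (Int.dvd_of_emod_eq_zero h)
      have h5 : (n - 1) / m = n / m := by
        rw [show n - 1 = (n % m - 1) + m * (n / m) by linarith, Int.add_mul_ediv_left _ _ hm.ne',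
          Int.ediv_eq_zero_of_lt (by omega) (by omega)]
        simp
      rw [h5]; ring
  have h2 : ((n / m - (n - 1) / m : ℤ) : ℝ) = ((if m ∣ n then 1 else 0 : ℤ) : ℝ) := by rw [h]
  push_cast at h2
  rw [h2]

lemma limit_dvd (a : ℕ → ℝ) (K m : ℤ) (n0 : ℕ) (hm : 0 < m)
    (h : ∀ i, n0 ≤ i → a i = if m ∣ K + i then 1 else 0) :
    Tendsto (fun N : ℕ => (1 / (N : ℝ)) * ∑ i ∈ Finset.Icc 1 N, a i) atTop (𝓝 (1 / (m : ℝ))) := by
  have hmr : (0 : ℝ) < m := by exact_mod_cast hm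
  set c : ℝ := ∑ i ∈ Finset.Icc 1 n0, a i - (((K + n0) / m : ℤ) : ℝ) with hc
  have hsum : ∀ N : ℕ, n0 ≤ N → ∑ i ∈ Finset.Icc 1 N, a i = c + (((K + N) / m : ℤ) : ℝ) := by
    intro N hN
    induction N, hN using Nat.le_induction with
    | base => rw [hc]; ring
    | succ N hN ih =>
      rw [Finset.sum_Icc_succ_top (by omega), ih, h (N + 1) (by omega), dvd_step m _ hm]
      have e : K + ((N + 1 : ℕ) : ℤ) - 1 = K + N := by push_cast; ring
      rw [e]
      ring
  -- squeeze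
  have hup : ∀ᶠ N : ℕ in atTop, (1 / (N : ℝ)) * ∑ i ∈ Finset.Icc 1 N, a i
      ≤ 1 / (m : ℝ) + (1 / (N : ℝ)) * (c + K / m) := by
    filter_upwards [eventually_ge_atTop n0, eventually_gt_atTop 0] with N hN hN0
    have hNr : (0 : ℝ) < N := by exact_mod_cast hN0
    rw [hsum N hN]
    have h1 : (((K + N) / m : ℤ) : ℝ) ≤ ((K : ℝ) + N) / m := by
      rw [le_div_iff₀ hmr]
      have := Int.ediv_mul_le (K + N) hm.ne'
      exact_mod_cast this
    have h2 : 1 / (m : ℝ) + (1 / (N : ℝ)) * (c + K / m) = (1 / (N : ℝ)) * (c + ((K : ℝ) + N) / m) := by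
      field_simp
      ring
    rw [h2]
    exact mul_le_mul_of_nonneg_left (by linarith) (by positivity)
  have hlo : ∀ᶠ N : ℕ in atTop, 1 / (m : ℝ) + (1 / (N : ℝ)) * (c + K / m - 1) ≤
      (1 / (N : ℝ)) * ∑ i ∈ Finset.Icc 1 N, a i := by
    filter_upwards [eventually_ge_atTop n0, eventually_gt_atTop 0] with N hN hN0
    have hNr : (0 : ℝ) < N := by exact_mod_cast hN0
    rw [hsum N hN]
    have h1 : ((K : ℝ) + N) / m - 1 ≤ (((K + N) / m : ℤ) : ℝ) := by
      have := Int.lt_ediv_add_one_mul_self (K + N) hm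
      have h3 : ((K : ℝ) + N) < ((((K + N) / m : ℤ) : ℝ) + 1) * m := by exact_mod_cast this
      rw [sub_le_iff_le_add, div_le_iff₀ hmr]
      exact h3.le
    have h2 : 1 / (m : ℝ) + (1 / (N : ℝ)) * (c + K / m - 1)
        = (1 / (N : ℝ)) * (c + (((K : ℝ) + N) / m - 1)) := by
      field_simp
      ring
    rw [h2]
    exact mul_le_mul_of_nonneg_left (by linarith) (by positivity)
  have hz : ∀ b : ℝ, Tendsto (fun N : ℕ => 1 / (m : ℝ) + (1 / (N : ℝ)) * b) atTop
      (𝓝 (1 / (m : ℝ))) := by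
    intro b
    have := (tendsto_one_div_atTop_nhds_zero_nat (𝕜 := ℝ)).mul_const b
    rw [zero_mul] at this
    simpa using tendsto_const_nhds.add this
  exact tendsto_of_tendsto_of_tendsto_of_le_of_le' (hz _) (hz _) hlo hup

/-- the divisibility pattern -/
def patt (k : ℤ) (v : ℝ) : Prop := ((⌊1 / v⌋₊ + 1 : ℕ) : ℤ) ∣ k

lemma zero_not_mem_RR (φ : ℤ → ℝ → Prop) : (0 : ℝ) ∉ RR φ := fun h => lt_irrefl _ h.1

lemma one_not_mem_RR (φ : ℤ → ℝ → Prop) : (1 : ℝ) ∉ RR φ := fun h => by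
  have := h.2.1
  norm_num at this

lemma iter_zero (n : ℕ) : T0^[n] 0 = 0 := by
  induction n with
  | zero => rfl
  | succ n ih => rw [Function.iterate_succ_apply', ih, T0_zero]

lemma iter_one (n : ℕ) : T0^[n] 1 = 1 := by
  induction n with
  | zero => rfl
  | succ n ih => rw [Function.iterate_succ_apply', ih, T0_one]

lemma RR_subset (φ : ℤ → ℝ → Prop) : RR φ ⊆ Icc 0 1 := by
  rintro x ⟨h0, h1, -⟩
  exact ⟨h0.le, by linarith⟩

open Classical in
lemma exists_value (p : ℝ) (hp : p ∈ Icc (0 : ℝ) 1) : ∃ L : ℝ,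
    Tendsto (orbitAverage T0 (RR patt) p) atTop (𝓝 L) ∧
    (0 < p → p ≤ 1 / 2 → L = 1 / ((⌊1 / vv p⌋₊ + 1 : ℕ) : ℝ)) := by
  rcases hp.1.eq_or_lt with h0 | h0
  · subst h0
    refine ⟨0, ?_, fun h => absurd h (lt_irrefl _)⟩
    have e : orbitAverage T0 (RR patt) 0 = fun _ => 0 := by
      ext N
      unfold orbitAverage
      rw [Finset.sum_eq_zero, mul_zero]
      intro i _
      rw [iter_zero, indicator_of_notMem (zero_not_mem_RR _)]
    rw [e]
    exact tendsto_const_nhds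
  rcases hp.2.eq_or_lt with h1 | h1
  · subst h1
    refine ⟨0, ?_, fun _ h => by norm_num at h⟩
    have e : orbitAverage T0 (RR patt) 1 = fun _ => 0 := by
      ext N
      unfold orbitAverage
      rw [Finset.sum_eq_zero, mul_zero]
      intro i _
      rw [iter_one, indicator_of_notMem (one_not_mem_RR _)]
    rw [e]
    exact tendsto_const_nhds
  obtain ⟨K, n0, v, hv, hφ⟩ := orbit_eventually h0 h1
  refine ⟨1 / ((⌊1 / v⌋₊ + 1 : ℕ) : ℝ), ?_, ?_⟩
  · have h := limit_dvd (fun i => (RR patt).indicator (fun _ => (1 : ℝ)) (T0^[i] p)) K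
      ((⌊1 / v⌋₊ + 1 : ℕ) : ℤ) n0 (by positivity) (fun i hi => by
        show (RR patt).indicator (fun _ => (1 : ℝ)) (T0^[i] p) = _
        have h2 : T0^[i] p ∈ RR patt ↔ ((⌊1 / v⌋₊ + 1 : ℕ) : ℤ) ∣ K + i := hφ patt i hi
        by_cases h3 : T0^[i] p ∈ RR patt
        · rw [indicator_of_mem h3, if_pos (h2.mp h3)]
        · rw [indicator_of_notMem h3, if_neg (fun h4 => h3 (h2.mpr h4))])
    have e : (((⌊1 / v⌋₊ + 1 : ℕ) : ℤ) : ℝ) = ((⌊1 / v⌋₊ + 1 : ℕ) : ℝ) := by push_cast; rfl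
    rw [e] at h
    exact h
  · intro _ h2
    rw [hv h2]

lemma vv_between {j : ℕ} (hj : 1 ≤ j) {x : ℝ} (h1 : (2 : ℝ) ^ (-1 - 1 / (j : ℝ)) < x)
    (h2 : x < (2 : ℝ) ^ (-1 - 1 / ((j : ℝ) + 1))) :
    0 < x ∧ x ≤ 1 / 2 ∧ ⌊1 / vv x⌋₊ = j := by
  have hjr : (0 : ℝ) < j := by exact_mod_cast hj
  have hx0 : 0 < x := lt_trans (by positivity) h1
  have h3 : -1 - 1 / (j : ℝ) < Real.logb 2 x := by
    rw [Real.lt_logb_iff_rpow_lt (by norm_num) hx0]; exact h1
  have h4 : Real.logb 2 x < -1 - 1 / ((j : ℝ) + 1) := by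
    rw [Real.logb_lt_iff_lt_rpow (by norm_num) hx0]; exact h2
  have hj1 : 1 / (j : ℝ) ≤ 1 := by
    rw [div_le_one hjr]; exact_mod_cast hj
  have hp1 : 0 < 1 / ((j : ℝ) + 1) := by positivity
  have hfl : ⌊-Real.logb 2 x⌋ = 1 := by
    rw [Int.floor_eq_iff]
    push_cast
    constructor <;> linarith
  have hv : vv x = -Real.logb 2 x - 1 := by
    unfold vv Int.fract
    rw [hfl]; push_cast; ring
  refine ⟨hx0, ?_, ?_⟩
  · have : (2 : ℝ) ^ (-1 - 1 / ((j : ℝ) + 1)) ≤ (2 : ℝ) ^ (-1 : ℝ) :=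
      Real.rpow_le_rpow_of_exponent_le (by norm_num) (by linarith)
    rw [Real.rpow_neg_one] at this
    linarith
  · have hv1 : 1 / ((j : ℝ) + 1) < vv x := by rw [hv]; linarith
    have hv2 : vv x < 1 / (j : ℝ) := by rw [hv]; linarith
    have hv0 : 0 < vv x := lt_trans hp1 hv1
    rw [Nat.floor_eq_iff (by positivity)]
    constructor
    · rw [le_div_iff₀ hv0]
      rw [lt_div_iff₀ hjr] at hv2
      linarith
    · rw [div_lt_iff₀ hv0]
      rw [div_lt_iff₀ (by positivity)] at hv1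
      linarith

end Pool.Agent.V11103
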