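import Pool.Agent.V11103.EFMain

/-! Certificate for 1 agents. -/

namespace Pool.Agent.V11103.EF

def toks1_0 : List ℕ := [1023, 0, 1]

def toks1 : List ℕ := toks1_0

theorem check1 : check 1 30 (root 6 8) toks1 = true := by decide +kernel

theorem good1 (w : Fin 10 → ℝ) (hw : ∀ v, 0 ≤ w v) : Good 1 w :=
  good_of_check 6 8 (by decide) (by decide) check1 w hw

end Pool.Agent.V11103.EF
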