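import Pool.Agent.V11103.EFDefs

/-!
A kernel-checkable certificate checker for the statement: for every nonnegative weight vector on
the ten vertices of `exGraph` there is a connected EF1 (outer) allocation for `n` agents.
-/

namespace Pool.Agent.V11103.EF

open Finset

/-- Value of a mask. -/
noncomputable def val (w : Fin 10 → ℝ) (m : ℕ) : ℝ :=
  ∑ v : Fin 10, if m.testBit v then w v else 0

/-- The set of a mask. -/
def toSet (m : ℕ) : Finset (Fin 10) := univ.filter fun v => m.testBit v = true

theorem mem_toSet {m : ℕ} {v : Fin 10} : v ∈ toSet m ↔ m.testBit v = true := by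
  simp [toSet]

theorem val_eq (w : Fin 10 → ℝ) (m : ℕ) : val w m = ∑ v ∈ toSet m, w v := by
  rw [val, toSet, Finset.sum_filter]

/-- There is a connected EF1 (outer) allocation for `n` agents and weights `w`. -/
def Good (n : ℕ) (w : Fin 10 → ℝ) : Prop :=
  ∃ A : Fin n → Finset (Fin 10), IsAllocation A ∧ IsConnectedAllocation exGraph A ∧
    IsEF1Outer exGraph (fun _ S => ∑ x ∈ S, w x) A

/-- Neighbour masks. -/
def nbrs : List ℕ := [32, 192, 192, 768, 768, 961, 934, 870, 760, 504]

theorem nbrs_spec : ∀ a b : Fin 10, (nbrs.getD a 0).testBit b = true → exGraph.Adj a b := by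
  decide +kernel

/-- One closure step inside the mask `m`. -/
def step (m f : ℕ) : ℕ :=
  (List.range 10).foldl (fun acc v => if f.testBit v then acc ||| (nbrs.getD v 0 &&& m) else acc) f

def iter (m : ℕ) : ℕ → ℕ → ℕ
  | 0, f => f
  | k + 1, f => iter m k (step m f)

/-- The mask `m` is connected: the closure of some vertex `v` of `m` is `m`. -/
def connFrom (m v : ℕ) : Bool := m.testBit v && (iter m 9 (2 ^ v) == m)

def conn (m : ℕ) : Bool := (List.range 10).any fun v => connFrom m v

/-- table of connected masks -/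
def CT : ℕ := 0xffffffff55555555ffffffff55555555ffffffff555555550303030301010101ffffffff55555555ffffffff55555555ffffffff555555550303030301010101ffffffff55555555ffffffff55555555ffffffff555555550303030301010101000000ff00000055000000ff00000055000000ff000000550000000300010116

theorem CT_spec : ∀ m < 1024, CT.testBit m = true → conn m = true := by
  have h : (List.range 1024).all (fun m => !CT.testBit m || conn m) = true := by
    decide +kernel
  intro m hm ht
  rw [List.all_eq_true] at h
  have := h m (List.mem_range.2 hm)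
  simpa [ht] using this

/-- invariants of the closure -/
def Inv (m : ℕ) (v₀ : Fin 10) (f : ℕ) : Prop :=
  ∀ u : Fin 10, f.testBit u = true → ∃ (h0 : v₀ ∈ toSet m) (hu : u ∈ toSet m),
    (exGraph.induce (toSet m : Set (Fin 10))).Reachable ⟨v₀, h0⟩ ⟨u, hu⟩

theorem inv_step {m : ℕ} {v₀ : Fin 10} {f : ℕ} (h : Inv m v₀ f) : Inv m v₀ (step m f) := by
  unfold step
  have key : ∀ (l : List ℕ), (∀ x ∈ l, x < 10) → ∀ acc, Inv m v₀ acc →
      Inv m v₀ (l.foldl (fun acc v => if f.testBit v then acc ||| (nbrs.getD v 0 &&& m) else acc)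
        acc) := by
    intro l
    induction l with
    | nil => intro _ acc ha; exact ha
    | cons x xs ih =>
      intro hx acc ha
      rw [List.foldl_cons]
      apply ih (fun y hy => hx y (List.mem_cons_of_mem _ hy))
      split_ifs with hf
      · intro u hu
        rw [Nat.testBit_or, Bool.or_eq_true] at hu
        rcases hu with hu | hu
        · exact ha u hu
        · rw [Nat.testBit_and, Bool.and_eq_true] at hu
          have hx10 : x < 10 := hx x (List.mem_cons_self ..)
          obtain ⟨h0, h1, h2⟩ := h ⟨x, hx10⟩ hf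
          have hadj : exGraph.Adj ⟨x, hx10⟩ u := nbrs_spec ⟨x, hx10⟩ u hu.1
          have hum : u ∈ toSet m := mem_toSet.2 hu.2
          refine ⟨h0, hum, h2.trans ?_⟩
          apply SimpleGraph.Adj.reachable
          exact hadj
      · exact ha
  exact key _ (fun x hx => List.mem_range.1 hx) f h

theorem inv_iter {m : ℕ} {v₀ : Fin 10} : ∀ (k : ℕ) {f : ℕ}, Inv m v₀ f → Inv m v₀ (iter m k f)
  | 0, _, h => h
  | k + 1, _, h => inv_iter k (inv_step h)

theorem conn_spec {m : ℕ} (h : conn m = true) :
    (exGraph.induce (toSet m : Set (Fin 10))).Connected := by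
  unfold conn at h
  rw [List.any_eq_true] at h
  obtain ⟨v, hv, hc⟩ := h
  have hv10 : v < 10 := List.mem_range.1 hv
  unfold connFrom at hc
  rw [Bool.and_eq_true, beq_iff_eq] at hc
  obtain ⟨h1, h2⟩ := hc
  have h0 : (⟨v, hv10⟩ : Fin 10) ∈ toSet m := mem_toSet.2 h1
  have hinit : Inv m ⟨v, hv10⟩ (2 ^ v) := by
    intro u hu
    have huv : u = ⟨v, hv10⟩ := by
      rw [Nat.testBit_two_pow] at hu
      ext
      simpa using (of_decide_eq_true hu).symm
    subst huv
    exact ⟨h0, h0, SimpleGraph.Reachable.refl _⟩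
  have hfin := inv_iter 9 hinit
  rw [h2] at hfin
  rw [SimpleGraph.connected_iff_exists_forall_reachable]
  refine ⟨⟨⟨v, hv10⟩, h0⟩, ?_⟩
  rintro ⟨u, hu⟩
  obtain ⟨_, _, h3⟩ := hfin u (mem_toSet.1 hu)
  exact h3

theorem CT_conn {m : ℕ} (hm : m < 1024) (h : CT.testBit m = true) :
    (exGraph.induce (toSet m : Set (Fin 10))).Connected :=
  conn_spec (CT_spec m hm h)

/-! ### The checker -/

/-- A constraint `val L ≤ val R`, strict if `s`. -/
structure Con where
  L : ℕ
  R : ℕ
  s : Bool

def Con.Holds (w : Fin 10 → ℝ) (c : Con) : Prop :=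
  val w c.L ≤ val w c.R ∧ (c.s = true → val w c.L < val w c.R)

/-- `k x`, evaluating `x` first. -/
def force {β : Type} (x : ℕ) (k : ℕ → β) : β :=
  match x with
  | 0 => k 0
  | n + 1 => k (n + 1)

/-- `k (toks.take n) (toks.drop n)`, evaluating the arguments first. -/
def takeK {β : Type} : ℕ → List ℕ → (List ℕ → List ℕ → β) → β
  | 0, toks, k => k [] toks
  | _ + 1, [], k => k [] []
  | n + 1, t :: ts, k => takeK n ts (fun P r => k (t :: P) r)

/-- Select constraints with multipliers. Code `c` means: skip `c % 256` constraints, then take one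
with multiplier `c / 256`. -/
def comb : List Con → List ℕ → List (Con × ℕ)
  | _, [] => []
  | ctx, c :: cs => match ctx.drop (c % 256) with
    | [] => []
    | h :: t => (h, c / 256) :: comb t cs

/-- Weighted sums of the bits `v` of the two sides. -/
def sumBits (v : ℕ) : List (Con × ℕ) → ℕ × ℕ
  | [] => (0, 0)
  | p :: ps =>
    let r := sumBits v ps
    (Nat.add (Nat.mul p.2 (Nat.land (Nat.shiftRight p.1.L v) 1)) r.1,
      Nat.add (Nat.mul p.2 (Nat.land (Nat.shiftRight p.1.R v) 1)) r.2)

def leafOK (l : List (Con × ℕ)) : Bool :=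
  (l.any fun p => p.1.s && Nat.blt 0 p.2) &&
    (List.range 10).all fun v => Nat.ble (sumBits v l).2 (sumBits v l).1

def leaf (ctx : List Con) : List ℕ → Option (List ℕ)
  | [] => none
  | c :: rest => takeK c rest fun cs r => if leafOK (comb ctx cs) then some r else none

/-- Check that the masks are connected, pairwise disjoint, with union everything. -/
def okPart : ℕ → List ℕ → Bool
  | acc, [] => acc == 1023
  | acc, m :: ms => Nat.blt m 1024 && CT.testBit m && (acc &&& m == 0) && okPart (acc ||| m) ms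

/-- Add the constraints `val Li ≤ val (f c)`, `c ∈ cs`. -/
def addRows {β : Type} (Li : ℕ) (f : ℕ → ℕ) (s : Bool) :
    List ℕ → List Con → (List Con → β) → β
  | [], ctx, k => k ctx
  | c :: cs, ctx, k => force (f c) fun R => addRows Li f s cs (⟨Li, R, s⟩ :: ctx) k

def stepJ (rec : List Con → List ℕ → Option (List ℕ)) (ctx : List Con) (Li Pj : ℕ) :
    List ℕ → Option (List ℕ)
  | [] => none
  | c :: rest => takeK c rest fun cs r =>
    if cs.all (fun v => Pj.testBit v && CT.testBit (Pj ^^^ (2 ^ v))) then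
      match r with
      | 0 :: r2 => addRows Li (fun v => Pj ^^^ (2 ^ v)) true cs ctx fun ctx' => leaf ctx' r2
      | 1 :: r2 => addRows Li (fun v => Pj ^^^ (2 ^ v)) true cs ctx fun ctx' => rec ctx' r2
      | _ => none
    else none

def goJ (rec : List Con → List ℕ → Option (List ℕ)) (ctx : List Con) (P : List ℕ) (i Li : ℕ) :
    List ℕ → List ℕ → Option (List ℕ)
  | [], toks => some toks
  | j :: js, toks => force (P.getD j 0) fun Pj =>
    if (i == j) || (Pj &&& (Pj - 1) == 0) then goJ rec ctx P i Li js toks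
    else match stepJ rec ctx Li Pj toks with
      | none => none
      | some r => goJ rec ctx P i Li js r

def stepI (n : ℕ) (rec : List Con → List ℕ → Option (List ℕ)) (ctx : List Con) (P : List ℕ)
    (i : ℕ) : List ℕ → Option (List ℕ)
  | [] => none
  | c :: rest => takeK c rest fun cs r =>
    if cs.all (fun k => Nat.blt k n) then
      force (P.getD i 0) fun Li =>
      match r with
      | 0 :: r2 => addRows Li (fun k => P.getD k 0) false cs ctx fun ctx' => leaf ctx' r2
      | 1 :: r2 => addRows Li (fun k => P.getD k 0) false cs ctx fun ctx' =>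
          goJ rec ctx' P i Li (List.range n) r2
      | _ => none
    else none

def goI (n : ℕ) (rec : List Con → List ℕ → Option (List ℕ)) (ctx : List Con) (P : List ℕ) :
    List ℕ → List ℕ → Option (List ℕ)
  | [], toks => some toks
  | i :: is, toks => match stepI n rec ctx P i toks with
    | none => none
    | some r => goI n rec ctx P is r

def solve (n : ℕ) : ℕ → List Con → List ℕ → Option (List ℕ)
  | 0, _, _ => none
  | f + 1, ctx, toks => takeK n toks fun P r =>
    if okPart 0 P && (P.length == n) then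
      goI n (solve n f) ctx P (List.range n) r
    else none

def check (n fuel : ℕ) (ctx : List Con) (toks : List ℕ) : Bool :=
  (solve n fuel ctx toks).isSome

/-! ### Soundness -/

theorem force_eq {β : Type} (x : ℕ) (k : ℕ → β) : force x k = k x := by
  cases x <;> rfl

theorem takeK_eq {β : Type} : ∀ (n : ℕ) (toks : List ℕ) (k : List ℕ → List ℕ → β),
    takeK n toks k = k (toks.take n) (toks.drop n)
  | 0, toks, k => by simp [takeK]
  | n + 1, [], k => by simp [takeK]
  | n + 1, t :: ts, k => by
    rw [takeK, takeK_eq n ts]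
    simp

theorem val_nonneg {w : Fin 10 → ℝ} (hw : ∀ v, 0 ≤ w v) (m : ℕ) : 0 ≤ val w m := by
  unfold val
  refine Finset.sum_nonneg fun v _ => ?_
  split_ifs
  · exact hw v
  · exact le_rfl

theorem comb_mem : ∀ (cs : List ℕ) (ctx : List Con) (p : Con × ℕ), p ∈ comb ctx cs → p.1 ∈ ctx
  | [], ctx, p, h => by simp [comb] at h
  | c :: cs, ctx, p, h => by
    unfold comb at h
    split at h
    · simp at h
    · rename_i h' t' heq
      have hsub : ∀ x ∈ (h' :: t'), x ∈ ctx := by
        intro x hx
        rw [← heq] at hx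
        exact List.mem_of_mem_drop hx
      rcases List.mem_cons.1 h with h1 | h1
      · rw [h1]
        exact hsub _ (List.mem_cons_self ..)
      · exact hsub _ (List.mem_cons_of_mem _ (comb_mem cs t' p h1))

theorem bit_eq (m v : ℕ) : Nat.land (Nat.shiftRight m v) 1 = if m.testBit v then 1 else 0 := by
  have h : Nat.land (Nat.shiftRight m v) 1 = (m >>> v) &&& 1 := rfl
  rw [h, Nat.testBit, Nat.land_comm]
  rcases Nat.mod_two_eq_zero_or_one (m >>> v) with h1 | h1
  · simp [h1]
  · simp [h1]

theorem sumBits_val (w : Fin 10 → ℝ) : ∀ l : List (Con × ℕ),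
    (l.map fun p => (p.2 : ℝ) * val w p.1.L).sum
        = ∑ v : Fin 10, ((sumBits v l).1 : ℝ) * w v ∧
      (l.map fun p => (p.2 : ℝ) * val w p.1.R).sum
        = ∑ v : Fin 10, ((sumBits v l).2 : ℝ) * w v
  | [] => by simp [sumBits]
  | p :: ps => by
    obtain ⟨h1, h2⟩ := sumBits_val w ps
    have e1 : ∀ v : Fin 10, (sumBits v (p :: ps)).1
        = p.2 * (if p.1.L.testBit v then 1 else 0) + (sumBits v ps).1 := by
      intro v
      rw [← bit_eq]
      rfl
    have e2 : ∀ v : Fin 10, (sumBits v (p :: ps)).2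
        = p.2 * (if p.1.R.testBit v then 1 else 0) + (sumBits v ps).2 := by
      intro v
      rw [← bit_eq]
      rfl
    constructor
    · rw [List.map_cons, List.sum_cons, h1, val, Finset.mul_sum, ← Finset.sum_add_distrib]
      refine Finset.sum_congr rfl fun v _ => ?_
      rw [e1]
      split_ifs <;> push_cast <;> ring
    · rw [List.map_cons, List.sum_cons, h2, val, Finset.mul_sum, ← Finset.sum_add_distrib]
      refine Finset.sum_congr rfl fun v _ => ?_
      rw [e2]
      split_ifs <;> push_cast <;> ring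

theorem leafOK_sound {w : Fin 10 → ℝ} (hw : ∀ v, 0 ≤ w v) {l : List (Con × ℕ)}
    (hl : ∀ p ∈ l, p.1.Holds w) (h : leafOK l = true) : False := by
  unfold leafOK at h
  rw [Bool.and_eq_true, List.any_eq_true, List.all_eq_true] at h
  obtain ⟨⟨p, hp, hps⟩, hall⟩ := h
  rw [Bool.and_eq_true] at hps
  have hp0 : 0 < p.2 := by
    have := hps.2
    simpa [Nat.blt_eq] using this
  obtain ⟨e1, e2⟩ := sumBits_val w l
  have hle : (l.map fun p => (p.2 : ℝ) * val w p.1.R).sum
      ≤ (l.map fun p => (p.2 : ℝ) * val w p.1.L).sum := by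
    rw [e1, e2]
    refine Finset.sum_le_sum fun v _ => ?_
    have := hall v (List.mem_range.2 v.2)
    rw [Nat.ble_eq] at this
    have h3 : ((sumBits v l).2 : ℝ) ≤ ((sumBits v l).1 : ℝ) := by exact_mod_cast this
    exact mul_le_mul_of_nonneg_right h3 (hw v)
  have hlt : (l.map fun p => (p.2 : ℝ) * val w p.1.L).sum
      < (l.map fun p => (p.2 : ℝ) * val w p.1.R).sum := by
    apply List.sum_lt_sum
    · intro q hq
      exact mul_le_mul_of_nonneg_left (hl q hq).1 (Nat.cast_nonneg _)
    · exact ⟨p, hp, mul_lt_mul_of_pos_left ((hl p hp).2 hps.1) (by exact_mod_cast hp0)⟩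
  exact absurd hle (not_le.2 hlt)

theorem leaf_sound {w : Fin 10 → ℝ} (hw : ∀ v, 0 ≤ w v) {ctx : List Con} {toks r : List ℕ}
    (h : leaf ctx toks = some r) (hc : ∀ c ∈ ctx, c.Holds w) : False := by
  unfold leaf at h
  split at h
  · simp at h
  · rw [takeK_eq] at h
    split_ifs at h with h1
    exact leafOK_sound hw (fun p hp => hc _ (comb_mem _ _ _ hp)) h1

/-- The context passed on by `addRows` holds. -/
theorem addRows_sound {β : Type} {w : Fin 10 → ℝ} {Li : ℕ} {f : ℕ → ℕ} {s : Bool}
    {k : List Con → β} : ∀ (cs : List ℕ) (ctx : List Con),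
    (∀ c ∈ ctx, c.Holds w) → (∀ c ∈ cs, Con.Holds w ⟨Li, f c, s⟩) →
      ∃ ctx' : List Con, (∀ c ∈ ctx', c.Holds w) ∧ addRows Li f s cs ctx k = k ctx'
  | [], ctx, h, _ => ⟨ctx, h, rfl⟩
  | c :: cs, ctx, h, h' => by
    rw [addRows, force_eq]
    apply addRows_sound cs
    · intro x hx
      rcases List.mem_cons.1 hx with hx | hx
      · rw [hx]; exact h' c (List.mem_cons_self ..)
      · exact h x hx
    · exact fun x hx => h' x (List.mem_cons_of_mem _ hx)

/-- `rec` is sound for `n` and `w`. -/
def Sound (n : ℕ) (w : Fin 10 → ℝ) (rec : List Con → List ℕ → Option (List ℕ)) : Prop :=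
  ∀ ctx toks r, rec ctx toks = some r → (∀ c ∈ ctx, c.Holds w) → Good n w

/-- The strict rows for the share `Pj` hold. -/
def Rows (w : Fin 10 → ℝ) (Li Pj : ℕ) : Prop :=
  ∀ v, Pj.testBit v = true → CT.testBit (Pj ^^^ (2 ^ v)) = true →
    Con.Holds w ⟨Li, Pj ^^^ (2 ^ v), true⟩

theorem stepJ_sound {n : ℕ} {w : Fin 10 → ℝ} (hw : ∀ v, 0 ≤ w v)
    {rec : List Con → List ℕ → Option (List ℕ)} (hrec : Sound n w rec) {ctx : List Con}
    (hc : ∀ c ∈ ctx, c.Holds w) {Li Pj : ℕ} {toks r : List ℕ}
    (h : stepJ rec ctx Li Pj toks = some r) (hrow : Rows w Li Pj) : Good n w := by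
  unfold stepJ at h
  split at h
  · simp at h
  · rename_i c rest
    rw [takeK_eq] at h
    split_ifs at h with h1
    rw [List.all_eq_true] at h1
    have hr : ∀ v ∈ rest.take c, Con.Holds w ⟨Li, Pj ^^^ (2 ^ v), true⟩ := by
      intro v hv
      have := h1 v hv
      rw [Bool.and_eq_true] at this
      exact hrow v this.1 this.2
    split at h
    · rename_i r2 _
      obtain ⟨ctx', hctx, he⟩ := addRows_sound (k := fun ctx' => leaf ctx' r2) _ _ hc hr
      rw [he] at h
      exact (leaf_sound hw h hctx).elim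
    · rename_i r2 _
      obtain ⟨ctx', hctx, he⟩ := addRows_sound (k := fun ctx' => rec ctx' r2) _ _ hc hr
      rw [he] at h
      exact hrec _ _ _ h hctx
    · simp at h

theorem goJ_sound {n : ℕ} {w : Fin 10 → ℝ} (hw : ∀ v, 0 ≤ w v)
    {rec : List Con → List ℕ → Option (List ℕ)} (hrec : Sound n w rec) {ctx : List Con}
    (hc : ∀ c ∈ ctx, c.Holds w) {P : List ℕ} {i Li : ℕ} :
    ∀ (js toks r : List ℕ), goJ rec ctx P i Li js toks = some r → ∀ j ∈ js, i ≠ j →
      (P.getD j 0 &&& (P.getD j 0 - 1)) ≠ 0 → Rows w Li (P.getD j 0) → Good n w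
  | [], _, _, _, j, hj, _, _, _ => by simp at hj
  | j' :: js, toks, r, h, j, hj, hij, hP, hrow => by
    unfold goJ at h
    rw [force_eq] at h
    split_ifs at h with h1
    · rw [Bool.or_eq_true, beq_iff_eq, beq_iff_eq] at h1
      rcases List.mem_cons.1 hj with hj | hj
      · subst hj
        rcases h1 with h1 | h1
        · exact absurd h1 hij
        · exact absurd h1 hP
      · exact goJ_sound hw hrec hc js toks r h j hj hij hP hrow
    · split at h
      · simp at h
      · rename_i r' heq
        rcases List.mem_cons.1 hj with hj | hj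
        · subst hj
          exact stepJ_sound hw hrec hc heq hrow
        · exact goJ_sound hw hrec hc js r' r h j hj hij hP hrow

theorem stepI_sound {n : ℕ} {w : Fin 10 → ℝ} (hw : ∀ v, 0 ≤ w v)
    {rec : List Con → List ℕ → Option (List ℕ)} (hrec : Sound n w rec) {ctx : List Con}
    (hc : ∀ c ∈ ctx, c.Holds w) {P : List ℕ} {i : ℕ} {toks r : List ℕ}
    (h : stepI n rec ctx P i toks = some r)
    (hmin : ∀ k < n, Con.Holds w ⟨P.getD i 0, P.getD k 0, false⟩) {j : ℕ} (hj : j < n)
    (hij : i ≠ j) (hP : (P.getD j 0 &&& (P.getD j 0 - 1)) ≠ 0)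
    (hrow : Rows w (P.getD i 0) (P.getD j 0)) : Good n w := by
  unfold stepI at h
  split at h
  · simp at h
  · rename_i c rest
    rw [takeK_eq] at h
    split_ifs at h with h1
    rw [List.all_eq_true] at h1
    rw [force_eq] at h
    have hr : ∀ k ∈ rest.take c, Con.Holds w ⟨P.getD i 0, P.getD k 0, false⟩ := by
      intro v hv
      have := h1 v hv
      rw [Nat.blt_eq] at this
      exact hmin v this
    split at h
    · rename_i r2 _
      obtain ⟨ctx', hctx, he⟩ := addRows_sound (f := fun k => P.getD k 0)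
        (k := fun ctx' => leaf ctx' r2) _ _ hc hr
      rw [he] at h
      exact (leaf_sound hw h hctx).elim
    · rename_i r2 _
      obtain ⟨ctx', hctx, he⟩ := addRows_sound (f := fun k => P.getD k 0)
        (k := fun ctx' => goJ rec ctx' P i (P.getD i 0) (List.range n) r2) _ _ hc hr
      rw [he] at h
      exact goJ_sound hw hrec hctx _ _ _ h j (List.mem_range.2 hj) hij hP hrow
    · simp at h

theorem goI_sound {n : ℕ} {w : Fin 10 → ℝ} (hw : ∀ v, 0 ≤ w v)
    {rec : List Con → List ℕ → Option (List ℕ)} (hrec : Sound n w rec) {ctx : List Con}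
    (hc : ∀ c ∈ ctx, c.Holds w) {P : List ℕ} :
    ∀ (is toks r : List ℕ), goI n rec ctx P is toks = some r → ∀ i ∈ is,
      (∀ k < n, Con.Holds w ⟨P.getD i 0, P.getD k 0, false⟩) → ∀ j < n, i ≠ j →
      (P.getD j 0 &&& (P.getD j 0 - 1)) ≠ 0 → Rows w (P.getD i 0) (P.getD j 0) → Good n w
  | [], _, _, _, i, hi, _, _, _, _, _, _ => by simp at hi
  | i' :: is, toks, r, h, i, hi, hmin, j, hj, hij, hP, hrow => by
    unfold goI at h
    split at h
    · simp at h
    · rename_i r' heq
      rcases List.mem_cons.1 hi with hi | hi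
      · subst hi
        exact stepI_sound hw hrec hc heq hmin hj hij hP hrow
      · exact goI_sound hw hrec hc is r' r h i hi hmin j hj hij hP hrow

theorem okPart_spec : ∀ (P : List ℕ) (acc : ℕ), okPart acc P = true →
    (∀ m ∈ P, m < 1024 ∧ CT.testBit m = true ∧ acc &&& m = 0) ∧
      P.Pairwise (fun a b => a &&& b = 0) ∧
      ∀ v < 10, acc.testBit v = true ∨ ∃ m ∈ P, m.testBit v = true
  | [], acc, h => by
    unfold okPart at h
    rw [beq_iff_eq] at h
    subst h
    refine ⟨by simp, List.Pairwise.nil, fun v hv => Or.inl ?_⟩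
    interval_cases v <;> rfl
  | m :: ms, acc, h => by
    unfold okPart at h
    rw [Bool.and_eq_true, Bool.and_eq_true, Bool.and_eq_true, beq_iff_eq, Nat.blt_eq] at h
    obtain ⟨⟨⟨h1, h2⟩, h3⟩, h4⟩ := h
    obtain ⟨a1, a2, a3⟩ := okPart_spec ms _ h4
    have hor : ∀ x, (acc ||| m) &&& x = 0 → acc &&& x = 0 ∧ m &&& x = 0 := by
      intro x hx
      constructor
      · apply Nat.eq_of_testBit_eq
        intro k
        have := congrArg (fun y => y.testBit k) hx
        simp only [Nat.testBit_and, Nat.testBit_or, Nat.zero_testBit] at this ⊢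
        cases h5 : acc.testBit k <;> cases h6 : x.testBit k <;> simp_all
      · apply Nat.eq_of_testBit_eq
        intro k
        have := congrArg (fun y => y.testBit k) hx
        simp only [Nat.testBit_and, Nat.testBit_or, Nat.zero_testBit] at this ⊢
        cases h5 : m.testBit k <;> cases h6 : x.testBit k <;> simp_all
    refine ⟨?_, ?_, ?_⟩
    · intro x hx
      rcases List.mem_cons.1 hx with hx | hx
      · subst hx; exact ⟨h1, h2, h3⟩
      · obtain ⟨b1, b2, b3⟩ := a1 x hx
        exact ⟨b1, b2, (hor x b3).1⟩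
    · rw [List.pairwise_cons]
      exact ⟨fun x hx => (hor x (a1 x hx).2.2).2, a2⟩
    · intro v hv
      rcases a3 v hv with h5 | ⟨x, hx, hxv⟩
      · rw [Nat.testBit_or, Bool.or_eq_true] at h5
        rcases h5 with h5 | h5
        · exact Or.inl h5
        · exact Or.inr ⟨m, List.mem_cons_self .., h5⟩
      · exact Or.inr ⟨x, List.mem_cons_of_mem _ hx, hxv⟩

end Pool.Agent.V11103.EF
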