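import Mathlib

/-!
Connected fair division on graphs: allocations, outer vertices, EF1 up to an outer good.
-/

namespace Pool.Agent.V11103.EF

open Finset

/-- A graph is traceable if it has a Hamiltonian path. -/
def Traceable {V : Type} [DecidableEq V] (G : SimpleGraph V) : Prop :=
  ∃ (a b : V) (p : G.Walk a b), p.IsHamiltonian

variable {V : Type} [DecidableEq V]

/-- An allocation: pairwise disjoint shares (possibly empty) with union `V`. -/
def IsAllocation {n : ℕ} (A : Fin n → Finset V) : Prop :=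
  (∀ i j, i ≠ j → Disjoint (A i) (A j)) ∧ ∀ x, ∃ i, x ∈ A i

/-- Every nonempty share induces a connected subgraph. -/
def IsConnectedAllocation (G : SimpleGraph V) {n : ℕ} (A : Fin n → Finset V) : Prop :=
  ∀ i, (A i).Nonempty → (G.induce (A i : Set V)).Connected

/-- A vertex `o ∈ S` is outer if `S \ {o}` is empty or induces a connected subgraph. -/
def IsOuter (G : SimpleGraph V) (S : Finset V) (o : V) : Prop :=
  o ∈ S ∧ (S.erase o = ∅ ∨ (G.induce ((S.erase o : Finset V) : Set V)).Connected)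

/-- The allocation `A` is EF1 (outer) for the profile `v`. -/
def IsEF1Outer (G : SimpleGraph V) {n : ℕ} (v : Fin n → Finset V → ℝ) (A : Fin n → Finset V) :
    Prop :=
  ∀ i j, v i (A j) ≤ v i (A i) ∨ ∃ o, IsOuter G (A j) o ∧ v i ((A j).erase o) ≤ v i (A i)

/-- A CA (common and additive) profile: all agents have the same valuation `u`, with nonnegative
values, and `u` is additive. -/
def IsCA {n : ℕ} (v : Fin n → Finset V → ℝ) : Prop :=
  ∃ u : Finset V → ℝ, (∀ S, 0 ≤ u S) ∧ (∀ S, u S = ∑ x ∈ S, u {x}) ∧ ∀ i, v i = u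

/-- `G` universally guarantees connected EF1 (outer) allocations for all CA profiles. -/
def UniversallyGuaranteesCA (G : SimpleGraph V) : Prop :=
  ∀ n : ℕ, 1 ≤ n → ∀ v : Fin n → Finset V → ℝ, IsCA v →
    ∃ A : Fin n → Finset V, IsAllocation A ∧ IsConnectedAllocation G A ∧ IsEF1Outer G v A

/-- The nine edges of `exGraph` outside the clique `{5, 6, 7, 8, 9}`. -/
def exEdges : List (Fin 10 × Fin 10) :=
  [(0, 5), (1, 6), (1, 7), (2, 6), (2, 7), (3, 8), (3, 9), (4, 8), (4, 9)]

/-- The graph on ten vertices consisting of a clique on `{5, 6, 7, 8, 9}`, a vertex `0` adjacent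
to `5`, two vertices `1, 2` adjacent to `6` and `7`, two vertices `3, 4` adjacent to `8` and
`9`. -/
def exGraph : SimpleGraph (Fin 10) where
  Adj a b := a ≠ b ∧ ((5 ≤ a ∧ 5 ≤ b) ∨ (a, b) ∈ exEdges ∨ (b, a) ∈ exEdges)
  symm := ⟨by intro a b; revert a b; decide⟩
  loopless := ⟨by intro a; revert a; decide⟩

instance : DecidableRel exGraph.Adj := fun a b =>
  inferInstanceAs (Decidable (a ≠ b ∧ ((5 ≤ a ∧ 5 ≤ b) ∨ (a, b) ∈ exEdges ∨ (b, a) ∈ exEdges)))

end Pool.Agent.V11103.EF
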