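import Pool.Agent.V11103.EFCheck

/-!
Soundness of the checker, symmetries of `exGraph`, and the easy cases.
-/

namespace Pool.Agent.V11103.EF

open Finset

theorem toSet_disjoint {a b : ℕ} (h : a &&& b = 0) : Disjoint (toSet a) (toSet b) := by
  rw [Finset.disjoint_left]
  intro x hx hy
  rw [mem_toSet] at hx hy
  have := congrArg (fun y => y.testBit x) h
  simp only [Nat.testBit_and, Nat.zero_testBit, hx, hy] at this
  exact absurd this (by decide)

theorem toSet_xor {m v : ℕ} (hv : v < 10) (h : m.testBit v = true) :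
    toSet (m ^^^ 2 ^ v) = (toSet m).erase ⟨v, hv⟩ := by
  ext x
  rw [mem_toSet, Finset.mem_erase, mem_toSet, Nat.testBit_xor, Nat.testBit_two_pow]
  by_cases hx : v = x.val
  · have : x = ⟨v, hv⟩ := by ext; exact hx.symm
    subst this
    simp [h]
  · have : x ≠ ⟨v, hv⟩ := by
      intro h'; exact hx (by rw [h'])
    simp [hx, this]

theorem lt_ten_of_testBit {m v : ℕ} (hm : m < 1024) (h : m.testBit v = true) : v < 10 := by
  by_contra hv
  have : m < 2 ^ v := lt_of_lt_of_le hm (by
    calc 1024 = 2 ^ 10 := by norm_num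
      _ ≤ 2 ^ v := Nat.pow_le_pow_right (by norm_num) (by omega))
  rw [Nat.testBit_eq_false_of_lt this] at h
  exact absurd h (by decide)

theorem single_spec : ∀ m < 1024, m &&& (m - 1) = 0 → m = 0 ∨ ∃ o < 10, m = 2 ^ o := by
  have h : (List.range 1024).all (fun m => (m &&& (m - 1) != 0) || m == 0 ||
      (List.range 10).any fun o => m == 2 ^ o) = true := by decide +kernel
  intro m hm h0
  rw [List.all_eq_true] at h
  have := h m (List.mem_range.2 hm)
  rw [Bool.or_eq_true, Bool.or_eq_true, List.any_eq_true] at this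
  rcases this with (h1 | h1) | ⟨o, ho, h1⟩
  · simp [h0] at h1
  · left; simpa using h1
  · right; exact ⟨o, List.mem_range.1 ho, by simpa using h1⟩

theorem CT_zero : CT.testBit 0 = false := by decide +kernel

theorem exists_pair {n : ℕ} {w : Fin 10 → ℝ} (hw : ∀ v, 0 ≤ w v) {P : List ℕ}
    (hP : okPart 0 P = true) (hlen : P.length = n) (hng : ¬ Good n w) :
    ∃ i < n, (∀ k < n, Con.Holds w ⟨P.getD i 0, P.getD k 0, false⟩) ∧ ∃ j < n, i ≠ j ∧
      (P.getD j 0 &&& (P.getD j 0 - 1)) ≠ 0 ∧ Rows w (P.getD i 0) (P.getD j 0) := by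
  obtain ⟨a1, a2, a3⟩ := okPart_spec P 0 hP
  have hmem : ∀ i : Fin n, P.getD i 0 ∈ P := by
    intro i
    have hi : (i : ℕ) < P.length := by rw [hlen]; exact i.2
    rw [List.getD_eq_getElem _ _ hi]
    exact List.getElem_mem hi
  have hdisj : ∀ i j : Fin n, i ≠ j → P.getD i 0 &&& P.getD j 0 = 0 := by
    have key : ∀ i j : Fin n, i < j → P.getD i 0 &&& P.getD j 0 = 0 := by
      intro i j hij
      have hi : (i : ℕ) < P.length := by rw [hlen]; exact i.2
      have hj : (j : ℕ) < P.length := by rw [hlen]; exact j.2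
      rw [List.getD_eq_getElem _ _ hi, List.getD_eq_getElem _ _ hj]
      exact (List.pairwise_iff_getElem.1 a2) i j hi hj hij
    intro i j hij
    rcases lt_or_gt_of_ne hij with h | h
    · exact key i j h
    · rw [Nat.land_comm]; exact key j i h
  set A : Fin n → Finset (Fin 10) := fun i => toSet (P.getD i 0) with hA
  have hconn : ∀ i : Fin n, (exGraph.induce (A i : Set (Fin 10))).Connected := by
    intro i
    exact CT_conn (a1 _ (hmem i)).1 (a1 _ (hmem i)).2.1
  have halloc : IsAllocation A := by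
    refine ⟨fun i j hij => toSet_disjoint (hdisj i j hij), fun x => ?_⟩
    rcases a3 x x.2 with h | ⟨m, hm, hx⟩
    · simp at h
    · obtain ⟨k, hk, hkm⟩ := List.getElem_of_mem hm
      refine ⟨⟨k, by rw [← hlen]; exact hk⟩, ?_⟩
      rw [hA]
      simp only
      rw [List.getD_eq_getElem _ _ hk, hkm, mem_toSet]
      exact hx
  have hnef : ¬ IsEF1Outer exGraph (fun (_ : Fin n) S => ∑ x ∈ S, w x) A := by
    intro h
    exact hng ⟨A, halloc, fun i _ => hconn i, h⟩
  unfold IsEF1Outer at hnef
  push Not at hnef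
  obtain ⟨i0, j, hlt, hout⟩ := hnef
  obtain ⟨i, -, hi⟩ := Finset.exists_min_image univ (fun k : Fin n => val w (P.getD k 0))
    ⟨i0, mem_univ _⟩
  have hAv : ∀ k : Fin n, ∑ x ∈ A k, w x = val w (P.getD k 0) := fun k => (val_eq w _).symm
  have hij : i ≠ j := by
    intro h
    subst h
    have := hi i0 (mem_univ _)
    rw [hAv, hAv] at hlt
    linarith
  refine ⟨i, i.2, fun k hk => ⟨hi ⟨k, hk⟩ (mem_univ _), fun h => by simp at h⟩, j, j.2,
    fun h => hij (Fin.ext h), ?_, ?_⟩
  · intro h0
    rcases single_spec _ (a1 _ (hmem j)).1 h0 with h1 | ⟨o, ho, h1⟩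
    · have := (a1 _ (hmem j)).2.1
      rw [h1, CT_zero] at this
      exact absurd this (by decide)
    · have hb : (P.getD j 0).testBit o = true := by rw [h1]; simp
      have he : (A j).erase ⟨o, ho⟩ = ∅ := by
        rw [hA]
        simp only
        rw [← toSet_xor ho hb, h1, Nat.xor_self]
        ext x; simp [mem_toSet]
      have := hout ⟨o, ho⟩ ⟨by rw [hA]; exact mem_toSet.2 hb, Or.inl he⟩
      rw [he, hAv, Finset.sum_empty] at this
      have h2 := val_nonneg hw (P.getD i0 0)
      linarith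
  · intro v hv hct
    have hm := (a1 _ (hmem j)).1
    have hv10 := lt_ten_of_testBit hm hv
    have hx : P.getD j 0 ^^^ 2 ^ v < 1024 := by
      have : (1024 : ℕ) = 2 ^ 10 := by norm_num
      rw [this] at hm ⊢
      exact Nat.xor_lt_two_pow hm (Nat.pow_lt_pow_right (by norm_num) hv10)
    have hc := CT_conn hx hct
    have h3 := hout ⟨v, hv10⟩ ⟨by rw [hA]; exact mem_toSet.2 hv, Or.inr (by
      rw [hA]
      simp only
      rw [← toSet_xor hv10 hv]
      exact hc)⟩
    have h4 : ∑ x ∈ (A j).erase ⟨v, hv10⟩, w x = val w (P.getD j 0 ^^^ 2 ^ v) := by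
      rw [val_eq, hA]
      simp only
      rw [toSet_xor hv10 hv]
    rw [hAv, h4] at h3
    have h5 := hi i0 (mem_univ _)
    have h6 : val w (P.getD i 0) < val w (P.getD j 0 ^^^ 2 ^ v) := lt_of_le_of_lt h5 h3
    exact ⟨h6.le, fun _ => h6⟩

theorem solve_sound {n : ℕ} {w : Fin 10 → ℝ} (hw : ∀ v, 0 ≤ w v) :
    ∀ f : ℕ, Sound n w (solve n f)
  | 0 => by intro ctx toks r h; simp [solve] at h
  | f + 1 => by
    intro ctx toks r h hc
    unfold solve at h
    rw [takeK_eq] at h
    split_ifs at h with h1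
    rw [Bool.and_eq_true, beq_iff_eq] at h1
    by_contra hng
    obtain ⟨i, hi, hmin, j, hj, hij, hP, hrow⟩ := exists_pair hw h1.1 h1.2 hng
    exact hng (goI_sound hw (solve_sound hw f) hc _ _ _ h i (List.mem_range.2 hi) hmin j hj hij
      hP hrow)

theorem check_sound {n fuel : ℕ} {ctx : List Con} {toks : List ℕ}
    (h : check n fuel ctx toks = true) {w : Fin 10 → ℝ} (hw : ∀ v, 0 ≤ w v)
    (hc : ∀ c ∈ ctx, c.Holds w) : Good n w := by
  unfold check at h
  rw [Option.isSome_iff_exists] at h
  obtain ⟨r, hr⟩ := h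
  exact solve_sound hw fuel ctx toks r hr hc

/-! ### Symmetries -/

theorem induce_map_connected {σ : Equiv.Perm (Fin 10)}
    (hσ : ∀ a b, exGraph.Adj a b → exGraph.Adj (σ a) (σ b)) {S T : Finset (Fin 10)}
    (hST : T = S.map σ.toEmbedding) (h : (exGraph.induce (S : Set (Fin 10))).Connected) :
    (exGraph.induce (T : Set (Fin 10))).Connected := by
  subst hST
  let f : (exGraph.induce (S : Set (Fin 10))) →g
      (exGraph.induce ((S.map σ.toEmbedding : Finset (Fin 10)) : Set (Fin 10))) :=
    { toFun := fun x => ⟨σ x.1, by simpa using x.2⟩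
      map_rel' := fun {a b} hab => hσ _ _ hab }
  refine SimpleGraph.Connected.map f ?_ h
  rintro ⟨y, hy⟩
  rw [Finset.mem_coe, Finset.mem_map] at hy
  obtain ⟨x, hx, rfl⟩ := hy
  exact ⟨⟨x, hx⟩, rfl⟩

theorem good_symm {n : ℕ} {w : Fin 10 → ℝ} {σ : Equiv.Perm (Fin 10)}
    (hσ : ∀ a b, exGraph.Adj a b → exGraph.Adj (σ a) (σ b)) (h : Good n (w ∘ σ)) : Good n w := by
  obtain ⟨A, ⟨hd, hcov⟩, hc, hef⟩ := h
  have hsum : ∀ S : Finset (Fin 10), ∑ x ∈ S.map σ.toEmbedding, w x = ∑ x ∈ S, (w ∘ σ) x := by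
    intro S
    rw [Finset.sum_map]
    rfl
  refine ⟨fun i => (A i).map σ.toEmbedding, ⟨fun i j hij => ?_, fun x => ?_⟩, fun i hi => ?_,
    fun i j => ?_⟩
  · rw [Finset.disjoint_map]
    exact hd i j hij
  · obtain ⟨i, hi⟩ := hcov (σ.symm x)
    refine ⟨i, ?_⟩
    rw [Finset.mem_map]
    exact ⟨_, hi, σ.apply_symm_apply x⟩
  · exact induce_map_connected hσ rfl (hc i (by simpa using hi))
  · simp only
    rw [hsum, hsum]
    rcases hef i j with h1 | ⟨o, ⟨ho, ho2⟩, h1⟩
    · exact Or.inl h1
    · right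
      refine ⟨σ o, ⟨by simpa using ho, ?_⟩, ?_⟩
      · have he : ((A j).map σ.toEmbedding).erase (σ o) = ((A j).erase o).map σ.toEmbedding := by
          rw [Finset.map_erase]; rfl
        rw [he]
        rcases ho2 with h2 | h2
        · left; rw [h2]; rfl
        · right
          exact induce_map_connected hσ rfl h2
      · have he : ((A j).map σ.toEmbedding).erase (σ o) = ((A j).erase o).map σ.toEmbedding := by
          rw [Finset.map_erase]; rfl
        rw [he, hsum]
        exact h1

theorem swap_adj12 : ∀ a b, exGraph.Adj a b →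
    exGraph.Adj (Equiv.swap (1 : Fin 10) 2 a) (Equiv.swap (1 : Fin 10) 2 b) := by decide +kernel
theorem swap_adj34 : ∀ a b, exGraph.Adj a b →
    exGraph.Adj (Equiv.swap (3 : Fin 10) 4 a) (Equiv.swap (3 : Fin 10) 4 b) := by decide +kernel
theorem swap_adj67 : ∀ a b, exGraph.Adj a b →
    exGraph.Adj (Equiv.swap (6 : Fin 10) 7 a) (Equiv.swap (6 : Fin 10) 7 b) := by decide +kernel
theorem swap_adj89 : ∀ a b, exGraph.Adj a b →
    exGraph.Adj (Equiv.swap (8 : Fin 10) 9 a) (Equiv.swap (8 : Fin 10) 9 b) := by decide +kernel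

/-- The block swap. -/
def tau : Equiv.Perm (Fin 10) where
  toFun := ![0, 3, 4, 1, 2, 5, 8, 9, 6, 7]
  invFun := ![0, 3, 4, 1, 2, 5, 8, 9, 6, 7]
  left_inv := by decide
  right_inv := by decide

theorem tau_adj : ∀ a b, exGraph.Adj a b → exGraph.Adj (tau a) (tau b) := by decide +kernel

/-- The four basic ordering constraints. -/
def Ord4 (w : Fin 10 → ℝ) : Prop := w 1 ≤ w 2 ∧ w 3 ≤ w 4 ∧ w 6 ≤ w 7 ∧ w 8 ≤ w 9

theorem good_of_ord {n : ℕ} (a b : Fin 10) (hab : tau a = b) (hba : tau b = a)
    (H : ∀ w : Fin 10 → ℝ, (∀ v, 0 ≤ w v) → Ord4 w → w a ≤ w b → Good n w)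
    (w : Fin 10 → ℝ) (hw : ∀ v, 0 ≤ w v) : Good n w := by
  -- remove the block constraint
  have H4 : ∀ w : Fin 10 → ℝ, (∀ v, 0 ≤ w v) → Ord4 w → Good n w := by
    intro w hw ho
    rcases le_total (w a) (w b) with h | h
    · exact H w hw ho h
    · apply good_symm tau_adj
      apply H _ (fun v => hw _)
      · exact ⟨ho.2.1, ho.1, ho.2.2.2, ho.2.2.1⟩
      · change w (tau a) ≤ w (tau b)
        rw [hab, hba]
        exact h
  have H3 : ∀ w : Fin 10 → ℝ, (∀ v, 0 ≤ w v) → w 3 ≤ w 4 → w 6 ≤ w 7 → w 8 ≤ w 9 →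
      Good n w := by
    intro w hw h2 h3 h4
    rcases le_total (w 1) (w 2) with h | h
    · exact H4 w hw ⟨h, h2, h3, h4⟩
    · apply good_symm swap_adj12
      apply H4 _ (fun v => hw _)
      exact ⟨h, h2, h3, h4⟩
  have H2 : ∀ w : Fin 10 → ℝ, (∀ v, 0 ≤ w v) → w 6 ≤ w 7 → w 8 ≤ w 9 → Good n w := by
    intro w hw h3 h4
    rcases le_total (w 3) (w 4) with h | h
    · exact H3 w hw h h3 h4
    · apply good_symm swap_adj34
      apply H3 _ (fun v => hw _)
      · exact h
      · exact h3
      · exact h4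
  have H1 : ∀ w : Fin 10 → ℝ, (∀ v, 0 ≤ w v) → w 8 ≤ w 9 → Good n w := by
    intro w hw h4
    rcases le_total (w 6) (w 7) with h | h
    · exact H2 w hw h h4
    · apply good_symm swap_adj67
      apply H2 _ (fun v => hw _)
      · exact h
      · exact h4
  rcases le_total (w 8) (w 9) with h | h
  · exact H1 w hw h
  · apply good_symm swap_adj89
    apply H1 _ (fun v => hw _)
    exact h

theorem val_two_pow (w : Fin 10 → ℝ) (a : Fin 10) : val w (2 ^ (a : ℕ)) = w a := by
  rw [val_eq]
  have : toSet (2 ^ (a : ℕ)) = {a} := by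
    ext x
    rw [mem_toSet, Nat.testBit_two_pow, Finset.mem_singleton]
    simp [Fin.ext_iff, eq_comm]
  rw [this, Finset.sum_singleton]

/-- The root constraints; newest first. -/
def root (a b : Fin 10) : List Con :=
  [⟨2 ^ (a : ℕ), 2 ^ (b : ℕ), false⟩, ⟨2 ^ 8, 2 ^ 9, false⟩, ⟨2 ^ 6, 2 ^ 7, false⟩,
    ⟨2 ^ 3, 2 ^ 4, false⟩, ⟨2 ^ 1, 2 ^ 2, false⟩]

theorem good_of_check {n fuel : ℕ} (a b : Fin 10) (hab : tau a = b) (hba : tau b = a)
    {toks : List ℕ} (h : check n fuel (root a b) toks = true)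
    (w : Fin 10 → ℝ) (hw : ∀ v, 0 ≤ w v) : Good n w := by
  refine good_of_ord a b hab hba (fun w hw ho hle => ?_) w hw
  apply check_sound h hw
  intro c hc
  have e1 := val_two_pow w 1
  have e2 := val_two_pow w 2
  have e3 := val_two_pow w 3
  have e4 := val_two_pow w 4
  have e6 := val_two_pow w 6
  have e7 := val_two_pow w 7
  have e8 := val_two_pow w 8
  have e9 := val_two_pow w 9
  simp only [root, List.mem_cons, List.not_mem_nil, or_false] at hc
  rcases hc with hc | hc | hc | hc | hc <;> subst hc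
  · refine ⟨?_, fun h => by simp at h⟩
    simp only [val_two_pow]
    exact hle
  · exact ⟨le_of_eq_of_le e8 (le_of_le_of_eq ho.2.2.2 e9.symm), fun h => by simp at h⟩
  · exact ⟨le_of_eq_of_le e6 (le_of_le_of_eq ho.2.2.1 e7.symm), fun h => by simp at h⟩
  · exact ⟨le_of_eq_of_le e3 (le_of_le_of_eq ho.2.1 e4.symm), fun h => by simp at h⟩
  · exact ⟨le_of_eq_of_le e1 (le_of_le_of_eq ho.1 e2.symm), fun h => by simp at h⟩

/-! ### More than nine agents -/

theorem good_large {n : ℕ} (hn : 10 ≤ n) (w : Fin 10 → ℝ) (hw : ∀ v, 0 ≤ w v) : Good n w := by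
  refine ⟨fun i => univ.filter fun x : Fin 10 => (x : ℕ) = i, ⟨fun i j hij => ?_, fun x => ?_⟩,
    fun i hi => ?_, fun i j => ?_⟩
  · rw [Finset.disjoint_left]
    intro x hx hy
    rw [Finset.mem_filter] at hx hy
    exact hij (Fin.ext (hx.2.symm.trans hy.2))
  · exact ⟨⟨x, by omega⟩, by simp⟩
  · obtain ⟨x, hx⟩ := hi
    have hx' : (x : ℕ) = i := by simpa using hx
    have he : (univ.filter fun y : Fin 10 => (y : ℕ) = i) = {x} := by
      ext y
      simp only [Finset.mem_filter, Finset.mem_univ, true_and, Finset.mem_singleton]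
      rw [← hx']
      exact Fin.ext_iff.symm
    have hc : (exGraph.induce (({x} : Finset (Fin 10)) : Set (Fin 10))).Connected := by
      rw [Finset.coe_singleton, SimpleGraph.induce_singleton_eq_top]
      exact SimpleGraph.connected_top
    rw [← he] at hc
    exact hc
  · by_cases hj : (j : ℕ) < 10
    · right
      refine ⟨⟨j, hj⟩, ⟨by simp, Or.inl ?_⟩, ?_⟩
      · ext y
        simp only [Finset.mem_erase, Finset.mem_filter, Finset.mem_univ, true_and,
          Finset.notMem_empty, iff_false, not_and]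
        intro h1 h2
        exact h1 (Fin.ext h2)
      · have : (univ.filter fun y : Fin 10 => (y : ℕ) = j).erase ⟨j, hj⟩ = ∅ := by
          ext y
          simp only [Finset.mem_erase, Finset.mem_filter, Finset.mem_univ, true_and,
            Finset.notMem_empty, iff_false, not_and]
          intro h1 h2
          exact h1 (Fin.ext h2)
        simp only [this, Finset.sum_empty]
        exact Finset.sum_nonneg fun x _ => hw x
    · left
      have : (univ.filter fun y : Fin 10 => (y : ℕ) = j) = ∅ := by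
        ext y
        simp only [Finset.mem_filter, Finset.mem_univ, true_and, Finset.notMem_empty, iff_false]
        omega
      simp only [this, Finset.sum_empty]
      exact Finset.sum_nonneg fun x _ => hw x

/-! ### Non-traceability and connectedness -/

/-- Is there a path extending the reversed path `l` (head = current end) by `k` more vertices? -/
def ext : ℕ → List (Fin 10) → Bool
  | 0, _ => true
  | _ + 1, [] => true
  | k + 1, a :: l => (List.finRange 10).any fun b =>
      decide (exGraph.Adj b a) && !((a :: l).contains b) && ext k (b :: a :: l)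

theorem ext_spec : ∀ (k : ℕ) (l m : List (Fin 10)), l ≠ [] → m.length = k →
    (m ++ l).IsChain exGraph.Adj → (m ++ l).Nodup → ext k l = true
  | 0, _, _, _, _, _, _ => rfl
  | k + 1, [], _, h, _, _, _ => absurd rfl h
  | k + 1, a :: l, m, _, hlen, hch, hnd => by
    obtain ⟨m', b, rfl⟩ : ∃ m' b, m = m' ++ [b] := by
      have hne : m ≠ [] := by intro h; rw [h] at hlen; simp at hlen
      exact ⟨m.dropLast, m.getLast hne, (List.dropLast_append_getLast hne).symm⟩
    have hm' : m'.length = k := by simpa using hlen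
    rw [List.append_assoc, List.singleton_append] at hch hnd
    unfold ext
    rw [List.any_eq_true]
    refine ⟨b, List.mem_finRange b, ?_⟩
    rw [Bool.and_eq_true, Bool.and_eq_true]
    refine ⟨⟨?_, ?_⟩, ext_spec k (b :: a :: l) m' (by simp) hm' hch hnd⟩
    · have h1 : (b :: a :: l).IsChain exGraph.Adj := hch.right_of_append
      rw [List.isChain_cons_cons] at h1
      exact decide_eq_true h1.1
    · have h1 : (b :: a :: l).Nodup := hnd.of_append_right
      rw [List.nodup_cons] at h1
      simpa using h1.1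

theorem ext_false : ∀ a : Fin 10, ext 9 [a] = false := by decide +kernel

theorem not_traceable : ¬ Traceable exGraph := by
  rintro ⟨a, b, p, hp⟩
  have hnd : p.support.Nodup := by
    rw [List.nodup_iff_count_le_one]
    intro x
    exact (hp x).le
  have hlen : p.support.length = 10 := by
    have : p.support.toFinset = univ := by
      ext x
      simp only [List.mem_toFinset, Finset.mem_univ, iff_true]
      have := hp x
      exact List.count_pos_iff.1 (by omega)
    rw [← List.toFinset_card_of_nodup hnd, this]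
    simp
  have hch : p.support.IsChain exGraph.Adj := p.isChain_adj_support
  -- write the support as `m ++ [c]`
  have hne : p.support ≠ [] := p.support_ne_nil
  have hs : p.support.dropLast ++ [p.support.getLast hne] = p.support :=
    List.dropLast_append_getLast hne
  have := ext_spec 9 [p.support.getLast hne] p.support.dropLast (by simp)
    (by rw [List.length_dropLast, hlen]) (by rw [hs]; exact hch) (by rw [hs]; exact hnd)
  rw [ext_false] at this
  exact absurd this (by decide)

theorem connected_exGraph : exGraph.Connected := by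
  have h : ∀ u : Fin 10, u = 5 ∨ exGraph.Adj 5 u ∨ ∃ x, exGraph.Adj 5 x ∧ exGraph.Adj x u := by
    decide +kernel
  rw [SimpleGraph.connected_iff_exists_forall_reachable]
  refine ⟨5, fun u => ?_⟩
  rcases h u with h1 | h1 | ⟨x, h1, h2⟩
  · rw [h1]
  · exact h1.reachable
  · exact h1.reachable.trans h2.reachable

theorem universal_of_good (h : ∀ n, 1 ≤ n → n ≤ 9 → ∀ w : Fin 10 → ℝ, (∀ v, 0 ≤ w v) → Good n w) :
    UniversallyGuaranteesCA exGraph := by
  rintro n hn v ⟨u, hu0, hu, hv⟩
  have hgood : Good n (fun x => u {x}) := by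
    rcases le_or_gt n 9 with h9 | h9
    · exact h n hn h9 _ (fun x => hu0 _)
    · exact good_large h9 _ (fun x => hu0 _)
  obtain ⟨A, h1, h2, h3⟩ := hgood
  refine ⟨A, h1, h2, fun i j => ?_⟩
  have hv' : ∀ i S, v i S = ∑ x ∈ S, u {x} := by
    intro i S
    rw [hv i]
    exact hu S
  rcases h3 i j with h4 | ⟨o, ho, h4⟩
  · left
    rw [hv', hv']
    exact h4
  · right
    refine ⟨o, ho, ?_⟩
    rw [hv', hv']
    exact h4

end Pool.Agent.V11103.EF
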