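import Mathlib

/-!
Pair correlations of arcs of the circle under multiplication by coprime integers.
-/

namespace Pool.Agent.V11103
namespace Khin

open MeasureTheory Filter
open scoped Topology ENNReal

lemma mp_nsmul (n : ℕ) (hn : 0 < n) :
    MeasurePreserving (fun y : UnitAddCircle => n • y) volume volume := by
  rcases Nat.lt_or_ge 1 n with h | h
  · exact (AddCircle.ergodic_nsmul h).toMeasurePreserving
  · have : n = 1 := by omega
    subst this
    simp only [one_smul]
    exact MeasurePreserving.id (volume : Measure UnitAddCircle)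

/-- the arc of radius `r` around `0` -/
def arc (r : ℝ) : Set UnitAddCircle := {y | ‖y‖ ≤ r}

lemma measurableSet_arc (r : ℝ) : MeasurableSet (arc r) :=
  (isClosed_le continuous_norm continuous_const).measurableSet

lemma volume_arc {r : ℝ} (hr2 : 2 * r ≤ 1) :
    (volume : Measure UnitAddCircle) (arc r) = ENNReal.ofReal (2 * r) := by
  have : arc r = Metric.closedBall (0 : UnitAddCircle) r := by
    ext y; simp [arc]
  have h := AddCircle.volume_closedBall (T := (1 : ℝ)) (x := (0 : AddCircle (1 : ℝ))) r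
  rw [min_eq_right hr2] at h
  rw [this]
  exact h

lemma count_le (a b : ℕ) (ha : 0 < a) (hab : Nat.Coprime a b) {r : ℝ}
    (z : UnitAddCircle) :
    (((Finset.range a).filter
      (fun k : ℕ => ‖z + (b * k) • (((1 / (a : ℝ)) : ℝ) : UnitAddCircle)‖ ≤ r)).card : ℝ) ≤
        2 * a * r + 1 ∨ r < 0 := by
  classical
  by_cases hr : r < 0
  · exact Or.inr hr
  left
  push Not at hr
  obtain ⟨z0, rfl⟩ := QuotientAddGroup.mk_surjective z
  have ha' : (0 : ℝ) < a := by exact_mod_cast ha
  set w : ℕ → ℝ := fun k => z0 + (b * k) / a with hw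
  have hcoe : ∀ k : ℕ, ((z0 : UnitAddCircle) + (b * k) • (((1 / (a : ℝ)) : ℝ) : UnitAddCircle)) =
      ((w k : ℝ) : UnitAddCircle) := by
    intro k
    rw [← AddCircle.coe_nsmul, ← AddCircle.coe_add]
    congr 1
    simp only [hw, nsmul_eq_mul]
    push_cast
    ring
  set S := (Finset.range a).filter
      (fun k : ℕ => ‖(z0 : UnitAddCircle) + (b * k) • (((1 / (a : ℝ)) : ℝ) : UnitAddCircle)‖ ≤ r)
    with hS
  set f : ℕ → ℤ := fun k => (b * k : ℕ) - a * round (w k) with hf
  set α : ℝ := -(a * z0) - a * r with hα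
  set β : ℝ := -(a * z0) + a * r with hβ
  have hmap : ∀ k ∈ S, f k ∈ Finset.Icc ⌈α⌉ ⌊β⌋ := by
    intro k hk
    rw [hS, Finset.mem_filter, hcoe k, UnitAddCircle.norm_eq] at hk
    obtain ⟨-, hk⟩ := hk
    rw [abs_le] at hk
    have e : (f k : ℝ) + a * z0 = a * (w k - round (w k)) := by
      simp only [hf, hw]
      push_cast
      field_simp
      ring
    rw [Finset.mem_Icc, Int.ceil_le, Int.le_floor]
    constructor
    · have : -(a * r) ≤ a * (w k - round (w k)) := by nlinarith [hk.1]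
      rw [hα]; linarith
    · have : a * (w k - round (w k)) ≤ a * r := by nlinarith [hk.2]
      rw [hβ]; linarith
  have hinj : Set.InjOn f (S : Set ℕ) := by
    intro k hk k' hk' hkk
    have hk1 : k < a := by
      have := (Finset.mem_filter.1 (Finset.mem_coe.1 hk)).1
      exact Finset.mem_range.1 this
    have hk1' : k' < a := by
      have := (Finset.mem_filter.1 (Finset.mem_coe.1 hk')).1
      exact Finset.mem_range.1 this
    have h1 : ((b * k : ℕ) : ℤ) - ((b * k' : ℕ) : ℤ) = a * (round (w k) - round (w k')) := by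
      simp only [hf] at hkk
      linarith
    have h2 : (a : ℤ) ∣ (b : ℤ) * ((k : ℤ) - k') := by
      refine ⟨round (w k) - round (w k'), ?_⟩
      rw [← h1]; push_cast; ring
    have h3 : IsCoprime (a : ℤ) (b : ℤ) := Nat.isCoprime_iff_coprime.2 hab
    have h4 : (a : ℤ) ∣ (k : ℤ) - k' := h3.dvd_of_dvd_mul_left h2
    have h5 : |(k : ℤ) - k'| < a := by
      rw [abs_lt]; constructor <;> omega
    have := Int.eq_zero_of_abs_lt_dvd h4 h5
    omega
  have hcard : S.card ≤ (Finset.Icc ⌈α⌉ ⌊β⌋).card := Finset.card_le_card_of_injOn f hmap hinj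
  have h6 : ((Finset.Icc ⌈α⌉ ⌊β⌋).card : ℝ) ≤ 2 * a * r + 1 := by
    rw [Int.card_Icc]
    have h7 : (((⌊β⌋ + 1 - ⌈α⌉).toNat : ℤ) : ℝ) = ((max (⌊β⌋ + 1 - ⌈α⌉) 0 : ℤ) : ℝ) := by
      rw [Int.toNat_eq_max]
    have h8 : (((⌊β⌋ + 1 - ⌈α⌉).toNat : ℕ) : ℝ) = (((⌊β⌋ + 1 - ⌈α⌉).toNat : ℤ) : ℝ) := by
      push_cast; rfl
    rw [h8, h7]
    push_cast
    refine max_le ?_ (by positivity)
    have h9 := Int.floor_le β
    have h10 := Int.le_ceil α
    have : β - α = 2 * a * r := by rw [hα, hβ]; ring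
    linarith
  calc (S.card : ℝ) ≤ ((Finset.Icc ⌈α⌉ ⌊β⌋).card : ℝ) := by exact_mod_cast hcard
    _ ≤ _ := h6

lemma meas_pair (a b : ℕ) (r : ℝ) :
    MeasurableSet {x : UnitAddCircle | a • x ∈ arc r ∧ b • x ∈ arc r} := by
  have hma : Measurable fun y : UnitAddCircle => a • y := (continuous_nsmul a).measurable
  have hmb : Measurable fun y : UnitAddCircle => b • y := (continuous_nsmul b).measurable
  exact (hma (measurableSet_arc r)).inter (hmb (measurableSet_arc r))

lemma meas_one (a : ℕ) (r : ℝ) :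
    MeasurableSet {x : UnitAddCircle | a • x ∈ arc r} := by
  have hma : Measurable fun y : UnitAddCircle => a • y := (continuous_nsmul a).measurable
  exact hma (measurableSet_arc r)

lemma joint_le (a b : ℕ) (ha : 0 < a) (hab : Nat.Coprime a b) {r : ℝ} (hr : 0 ≤ r)
    (hr2 : 2 * r ≤ 1) :
    (volume : Measure UnitAddCircle) {x | a • x ∈ arc r ∧ b • x ∈ arc r} ≤
      ENNReal.ofReal ((2 * r + 1 / a) * (2 * r)) := by
  classical
  have ha' : (0 : ℝ) < a := by exact_mod_cast ha
  set E : Set UnitAddCircle := {x | a • x ∈ arc r ∧ b • x ∈ arc r} with hE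
  have hma : Measurable fun y : UnitAddCircle => a • y := (continuous_nsmul a).measurable
  have hmb : Measurable fun y : UnitAddCircle => b • y := (continuous_nsmul b).measurable
  have hEm : MeasurableSet E := (hma (measurableSet_arc r)).inter (hmb (measurableSet_arc r))
  set A : Set UnitAddCircle := {x | a • x ∈ arc r} with hA
  have hAm : MeasurableSet A := hma (measurableSet_arc r)
  have hAv : (volume : Measure UnitAddCircle) A = ENNReal.ofReal (2 * r) := by
    rw [← volume_arc hr2]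
    exact (mp_nsmul a ha).measure_preimage (measurableSet_arc r).nullMeasurableSet
  set τ : UnitAddCircle := (((1 / (a : ℝ)) : ℝ) : UnitAddCircle) with hτ
  have hτa : a • τ = 0 := by
    rw [hτ, ← AddCircle.coe_nsmul]
    have : a • (1 / (a : ℝ)) = 1 := by rw [nsmul_eq_mul]; field_simp
    rw [this]
    exact AddCircle.coe_period 1
  have hshift : ∀ k : ℕ, ∫⁻ x : UnitAddCircle, E.indicator 1 (x + k • τ) =
      (volume : Measure UnitAddCircle) E := by
    intro k
    rw [lintegral_add_right_eq_self (μ := (volume : Measure UnitAddCircle))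
      (fun x : UnitAddCircle => E.indicator (1 : UnitAddCircle → ℝ≥0∞) x) (k • τ),
      lintegral_indicator_one hEm]
  have hpt : ∀ x : UnitAddCircle, ∑ k ∈ Finset.range a, E.indicator (1 : UnitAddCircle → ℝ≥0∞)
      (x + k • τ) ≤ A.indicator (fun _ => ENNReal.ofReal (2 * a * r + 1)) x := by
    intro x
    have hmem : ∀ k : ℕ, x + k • τ ∈ E ↔ x ∈ A ∧ ‖b • x + (b * k) • τ‖ ≤ r := by
      intro k
      have e1 : a • (x + k • τ) = a • x := by
        rw [smul_add, smul_smul, mul_comm a k, ← smul_smul, hτa, smul_zero, add_zero]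
      have e2 : b • (x + k • τ) = b • x + (b * k) • τ := by
        rw [smul_add, smul_smul]
      simp only [hE, hA, arc, Set.mem_ofPred_eq, e1, e2]
    by_cases hx : x ∈ A
    · rw [Set.indicator_of_mem hx]
      have e3 : ∑ k ∈ Finset.range a, E.indicator (1 : UnitAddCircle → ℝ≥0∞) (x + k • τ) =
          (((Finset.range a).filter (fun k : ℕ => ‖b • x + (b * k) • τ‖ ≤ r)).card : ℝ≥0∞) := by
        rw [Finset.card_filter]
        push_cast
        refine Finset.sum_congr rfl fun k _ => ?_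
        by_cases h : ‖b • x + (b * k) • τ‖ ≤ r
        · rw [Set.indicator_of_mem ((hmem k).2 ⟨hx, h⟩)]; simp [h]
        · rw [Set.indicator_of_notMem (fun hc => h ((hmem k).1 hc).2)]; simp [h]
      rw [e3]
      rcases count_le a b ha hab (r := r) (b • x) with h | h
      · rw [← ENNReal.ofReal_natCast]
        exact ENNReal.ofReal_le_ofReal h
      · exact absurd h (not_lt.2 hr)
    · rw [Set.indicator_of_notMem hx]
      refine le_of_eq (Finset.sum_eq_zero fun k _ => ?_)
      rw [Set.indicator_of_notMem (fun hc => hx ((hmem k).1 hc).1)]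
  have hsum : (a : ℝ≥0∞) * (volume : Measure UnitAddCircle) E ≤
      ENNReal.ofReal (2 * a * r + 1) * ENNReal.ofReal (2 * r) := by
    calc (a : ℝ≥0∞) * (volume : Measure UnitAddCircle) E
        = ∑ k ∈ Finset.range a, ∫⁻ x : UnitAddCircle, E.indicator 1 (x + k • τ) := by
          simp [hshift]
      _ = ∫⁻ x : UnitAddCircle, ∑ k ∈ Finset.range a,
            E.indicator (1 : UnitAddCircle → ℝ≥0∞) (x + k • τ) := by
          rw [lintegral_finsetSum]
          intro k _
          exact (measurable_one.indicator hEm).comp (measurable_add_const _)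
      _ ≤ ∫⁻ x : UnitAddCircle, A.indicator (fun _ => ENNReal.ofReal (2 * a * r + 1)) x :=
          lintegral_mono hpt
      _ = ENNReal.ofReal (2 * a * r + 1) * ENNReal.ofReal (2 * r) := by
          rw [lintegral_indicator_const hAm, hAv]
  have hfin : (volume : Measure UnitAddCircle) E ≠ ⊤ := measure_ne_top _ _
  rw [← ENNReal.ofReal_toReal hfin]
  refine ENNReal.ofReal_le_ofReal ?_
  rw [← ENNReal.ofReal_natCast, ← ENNReal.ofReal_toReal hfin, ← ENNReal.ofReal_mul ha'.le,
    ← ENNReal.ofReal_mul (by positivity)] at hsum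
  have h2 := (ENNReal.ofReal_le_ofReal_iff (by positivity)).1 hsum
  rw [show (2 * r + 1 / (a : ℝ)) * (2 * r) = ((2 * a * r + 1) * (2 * r)) / a by field_simp]
  rw [le_div_iff₀ ha']
  linarith


lemma joint_lt (p p' d : ℕ) (hp : 0 < p) (hp' : 0 < p') (hlt : p' < p) {r : ℝ}
    (hr : 0 ≤ r) (hr2 : 2 * r ≤ 1) (hr3 : 1 / (2 : ℝ) ^ d ≤ 2 * r) :
    (volume : Measure UnitAddCircle) {x | (p ^ d) • x ∈ arc r ∧ (p' ^ d) • x ∈ arc r} ≤
      ENNReal.ofReal (2 * (2 * r) ^ 2) := by
  obtain ⟨g, hgpos, a, b, hab, ha, hb⟩ : ∃ g : ℕ, 0 < g ∧ ∃ a b : ℕ, Nat.Coprime a b ∧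
      p = g * a ∧ p' = g * b := by
    obtain ⟨a, ha⟩ : Nat.gcd p p' ∣ p := Nat.gcd_dvd_left _ _
    obtain ⟨b, hb⟩ : Nat.gcd p p' ∣ p' := Nat.gcd_dvd_right _ _
    have hgpos : 0 < Nat.gcd p p' := Nat.gcd_pos_of_pos_left _ hp
    refine ⟨Nat.gcd p p', hgpos, a, b, ?_, ha, hb⟩
    have := Nat.coprime_div_gcd_div_gcd (m := p) (n := p') hgpos
    have e1 : p / Nat.gcd p p' = a := Nat.div_eq_of_eq_mul_right hgpos ha
    have e2 : p' / Nat.gcd p p' = b := Nat.div_eq_of_eq_mul_right hgpos hb
    rwa [e1, e2] at this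
  have hapos : 0 < a := by
    rcases Nat.eq_zero_or_pos a with h | h
    · rw [h] at ha; omega
    · exact h
  have hbpos : 0 < b := by
    rcases Nat.eq_zero_or_pos b with h | h
    · rw [h] at hb; omega
    · exact h
  have ha2 : 2 ≤ a := by
    rcases Nat.lt_or_ge a 2 with h | h
    · exfalso
      have : a = 1 := by omega
      rw [this] at ha
      rw [ha, hb] at hlt
      have : g * 1 ≤ g * b := Nat.mul_le_mul_left _ hbpos
      omega
    · exact h
  have hm := meas_pair (a ^ d) (b ^ d) r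
  have hap : 0 < a ^ d := pow_pos hapos d
  have hcop : Nat.Coprime (a ^ d) (b ^ d) := Nat.Coprime.pow d d hab
  have hkey := joint_le (a ^ d) (b ^ d) hap hcop hr hr2
  have hset : {x : UnitAddCircle | (p ^ d) • x ∈ arc r ∧ (p' ^ d) • x ∈ arc r} =
      (fun x : UnitAddCircle => (g ^ d) • x) ⁻¹'
        {x : UnitAddCircle | (a ^ d) • x ∈ arc r ∧ (b ^ d) • x ∈ arc r} := by
    ext x
    simp only [Set.mem_ofPred_eq, Set.mem_preimage, smul_smul, ← mul_pow]
    rw [mul_comm a g, mul_comm b g, ← ha, ← hb]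
  have hpre := (mp_nsmul (g ^ d) (pow_pos hgpos d)).measure_preimage hm.nullMeasurableSet
  rw [hset, hpre]
  refine le_trans hkey ?_
  refine ENNReal.ofReal_le_ofReal ?_
  have h1 : (1 : ℝ) / ((a ^ d : ℕ) : ℝ) ≤ 2 * r := by
    refine le_trans ?_ hr3
    push_cast
    apply one_div_le_one_div_of_le (by positivity)
    exact pow_le_pow_left₀ (by norm_num) (by exact_mod_cast ha2) d
  nlinarith

/-- pair correlation of two multiples -/
lemma joint_ne (p p' d : ℕ) (hp : 0 < p) (hp' : 0 < p') (hne : p ≠ p') {r : ℝ}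
    (hr : 0 ≤ r) (hr2 : 2 * r ≤ 1) (hr3 : 1 / (2 : ℝ) ^ d ≤ 2 * r) :
    (volume : Measure UnitAddCircle) {x | (p ^ d) • x ∈ arc r ∧ (p' ^ d) • x ∈ arc r} ≤
      ENNReal.ofReal (2 * (2 * r) ^ 2) := by
  rcases lt_or_gt_of_ne hne with h | h
  · have := joint_lt p' p d hp' hp h hr hr2 hr3
    refine le_trans (le_of_eq ?_) this
    congr 1
    ext x
    simp only [Set.mem_ofPred_eq, and_comm]
  · exact joint_lt p p' d hp hp' h hr hr2 hr3

lemma volume_mul_arc (a : ℕ) (ha : 0 < a) {r : ℝ} (hr : 0 ≤ r) (hr2 : 2 * r ≤ 1) :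
    (volume : Measure UnitAddCircle) {x | a • x ∈ arc r} = ENNReal.ofReal (2 * r) := by
  rw [← volume_arc hr2]
  exact (mp_nsmul a ha).measure_preimage (measurableSet_arc r).nullMeasurableSet

end Khin
end Pool.Agent.V11103
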