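import Mathlib

/-!
Khintchin sequences of integers, and partial products.
-/

namespace Pool.Agent.V11103
namespace Khin

open MeasureTheory Filter
open scoped Topology

/-- The sequence of integers `(lam n)_{n ≥ 1}` is a Khintchin sequence: for every `f ∈ L¹(𝕋)` the
averages `(1/N) ∑_{n=1}^N f(lam n x)` converge to the integral of `f` for almost every `x` in
`𝕋 = ℝ/ℤ`, with respect to Lebesgue measure. -/
def IsKhintchin (lam : ℕ → ℕ) : Prop :=
  ∀ f : UnitAddCircle → ℝ, Integrable f (volume : Measure UnitAddCircle) →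
    ∀ᵐ x ∂(volume : Measure UnitAddCircle),
      Tendsto (fun N : ℕ => (1 / (N : ℝ)) * ∑ n ∈ Finset.Icc 1 N, f (lam n • x)) atTop
        (𝓝 (∫ y, f y ∂(volume : Measure UnitAddCircle)))

/-- The partial product of the first `n` terms of the sequence `ω`, whose terms are integers
with a given property. -/
def partialProduct {p : ℕ → Prop} (ω : ℕ → {m : ℕ // p m}) (n : ℕ) : ℕ :=
  ∏ i ∈ Finset.range n, (ω i : ℕ)

end Khin
end Pool.Agent.V11103
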