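import Pool.Agent.V11103.KhinMarker
import Pool.Agent.V11103.KhinDefs

/-!
Generic sequences of integers have partial products which are not Khintchin sequences.
-/

namespace Pool.Agent.V11103
namespace Khin

open MeasureTheory Filter
open scoped Topology ENNReal

/-- A criterion for a sequence not to be a Khintchin sequence. -/
theorem not_khintchin (lam : ℕ → ℕ) {p0 : ℝ} (hp0 : 0 < p0)
    (H : ∀ ε : ℝ, 0 < ε → ∀ N0 : ℕ, ∃ A G : Set UnitAddCircle, MeasurableSet A ∧
      MeasurableSet G ∧ vol.real A ≤ ε ∧ p0 ≤ vol.real G ∧ ∀ x ∈ G, ∃ N ≥ N0, 0 < N ∧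
        ∃ T : Finset ℕ, T ⊆ Finset.Icc 1 N ∧ (∀ n ∈ T, lam n • x ∈ A) ∧
          (1 - ε) * N ≤ T.card) :
    ¬ IsKhintchin lam := by
  intro hK
  have hp := vol_prob
  have hε : ∀ i : ℕ, (0 : ℝ) < (1 / 2) ^ i * (1 / 8) := fun i => by positivity
  choose A G hAm hGm hA hG hx using fun i : ℕ => H ((1 / 2) ^ i * (1 / 8)) (hε i) i
  set U : Set UnitAddCircle := ⋃ i, A i with hU
  have hUm : MeasurableSet U := MeasurableSet.iUnion hAm
  have hUv : vol.real U ≤ 1 / 4 := by
    have h1 : vol U ≤ ENNReal.ofReal (1 / 4) := by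
      calc vol U ≤ ∑' i, vol (A i) := measure_iUnion_le _
        _ ≤ ∑' i : ℕ, ENNReal.ofReal ((1 / 2) ^ i * (1 / 8)) := by
            refine ENNReal.tsum_le_tsum fun i => ?_
            rw [← ENNReal.ofReal_toReal (measure_ne_top vol (A i))]
            exact ENNReal.ofReal_le_ofReal (hA i)
        _ = ENNReal.ofReal (∑' i : ℕ, (1 / 2) ^ i * (1 / 8)) := by
            rw [ENNReal.ofReal_tsum_of_nonneg (fun i => (hε i).le)]
            exact (summable_geometric_two).mul_right _
        _ = ENNReal.ofReal (1 / 4) := by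
            rw [tsum_mul_right, tsum_geometric_two]; norm_num
    rw [Measure.real]
    exact ENNReal.toReal_le_of_le_ofReal (by norm_num) h1
  -- the limsup set
  set B : ℕ → Set UnitAddCircle := fun m => ⋃ i, ⋃ (_ : m ≤ i), G i with hB
  have hBm : ∀ m, MeasurableSet (B m) := fun m =>
    MeasurableSet.iUnion fun i => MeasurableSet.iUnion fun _ => hGm i
  have hBanti : Antitone B := by
    intro m m' hmm x hx
    simp only [hB, Set.mem_iUnion, exists_prop] at hx ⊢
    obtain ⟨i, hi, hxi⟩ := hx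
    exact ⟨i, hmm.trans hi, hxi⟩
  have hlimB := tendsto_measure_iInter_atTop (μ := vol) (fun m => (hBm m).nullMeasurableSet)
    hBanti ⟨0, measure_ne_top _ _⟩
  have hge : ENNReal.ofReal p0 ≤ vol (⋂ m, B m) := by
    refine ge_of_tendsto' hlimB fun m => ?_
    have h1 : vol (G m) ≤ vol (B m) := by
      refine measure_mono fun x hx => ?_
      simp only [hB, Set.mem_iUnion, exists_prop]
      exact ⟨m, le_rfl, hx⟩
    refine le_trans ?_ h1
    rw [← ENNReal.ofReal_toReal (measure_ne_top vol (G m))]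
    exact ENNReal.ofReal_le_ofReal (hG m)
  have hpos : 0 < vol (⋂ m, B m) := lt_of_lt_of_le (ENNReal.ofReal_pos.2 hp0) hge
  have hint : Integrable (U.indicator (fun _ => (1 : ℝ))) vol :=
    (integrable_const _).indicator hUm
  have hae := hK _ hint
  have hI : ∫ y, U.indicator (fun _ => (1 : ℝ)) y ∂vol = vol.real U := by
    rw [integral_indicator_const _ hUm]; simp
  obtain ⟨x, hxB, hxlim⟩ : ∃ x ∈ ⋂ m, B m, Tendsto (fun N : ℕ => (1 / (N : ℝ)) *
      ∑ n ∈ Finset.Icc 1 N, U.indicator (fun _ => (1 : ℝ)) (lam n • x)) atTop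
        (𝓝 (∫ y, U.indicator (fun _ => (1 : ℝ)) y ∂vol)) := by
    by_contra hcon
    push Not at hcon
    have : vol (⋂ m, B m) = 0 := by
      refine measure_mono_null ?_ (ae_iff.1 hae)
      intro x hx
      exact hcon x hx
    exact hpos.ne' this
  rw [hI] at hxlim
  have hlt : vol.real U < 1 / 2 := by linarith
  obtain ⟨N1, hN1⟩ := eventually_atTop.1 (hxlim.eventually (gt_mem_nhds hlt))
  have hxN := Set.mem_iInter.1 hxB N1
  simp only [hB, Set.mem_iUnion, exists_prop] at hxN
  obtain ⟨i, hi, hxi⟩ := hxN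
  obtain ⟨N, hN, hNpos, T, hTsub, hT, hcard⟩ := hx i x hxi
  have h1 := hN1 N (hi.trans hN)
  have h2 : (T.card : ℝ) ≤ ∑ n ∈ Finset.Icc 1 N, U.indicator (fun _ => (1 : ℝ)) (lam n • x) := by
    calc (T.card : ℝ) = ∑ n ∈ T, U.indicator (fun _ => (1 : ℝ)) (lam n • x) := by
          rw [Finset.sum_congr rfl (g := fun _ => (1 : ℝ))]
          · simp
          · intro n hn
            rw [Set.indicator_of_mem]
            exact Set.mem_iUnion.2 ⟨i, hT n hn⟩
      _ ≤ _ := Finset.sum_le_sum_of_subset_of_nonneg hTsub fun n _ _ =>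
          Set.indicator_nonneg (fun _ _ => zero_le_one) _
  have hNR : (0 : ℝ) < N := by exact_mod_cast hNpos
  have h3 : (1 / 2 : ℝ) ^ i * (1 / 8) ≤ 1 / 8 := by
    have : (1 / 2 : ℝ) ^ i ≤ 1 := pow_le_one₀ (by norm_num) (by norm_num)
    linarith
  have h4 : (1 - 1 / 8) * (N : ℝ) ≤ T.card := by
    refine le_trans ?_ hcard
    apply mul_le_mul_of_nonneg_right _ hNR.le
    linarith
  have h5 : (1 / (N : ℝ)) * T.card ≤ (1 / (N : ℝ)) *
      ∑ n ∈ Finset.Icc 1 N, U.indicator (fun _ => (1 : ℝ)) (lam n • x) :=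
    mul_le_mul_of_nonneg_left h2 (by positivity)
  have h6 : (1 - 1 / 8 : ℝ) ≤ (1 / (N : ℝ)) * T.card := by
    have e : (1 / (N : ℝ)) * T.card = T.card / N := by ring
    rw [e, le_div_iff₀ hNR]; exact h4
  linarith

/-- the number of letters `2` among the first `j` letters of the pattern -/
def cnt (R n j : ℕ) : ℕ := Nat.log R (j / (n + 1))

lemma cnt_zero (R n : ℕ) : cnt R n 0 = 0 := by simp [cnt]

lemma cnt_mono (R n j : ℕ) : cnt R n j ≤ cnt R n (j + 1) :=
  Nat.log_mono_right (Nat.div_le_div_right (Nat.le_succ j))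

lemma cnt_succ_le {R : ℕ} (hR : 1 < R) (n j : ℕ) : cnt R n (j + 1) ≤ cnt R n j + 1 := by
  unfold cnt
  have h1 : (j + 1) / (n + 1) ≤ j / (n + 1) + 1 := by
    rw [Nat.div_le_iff_le_mul_add_pred (Nat.succ_pos n)]
    have := Nat.div_add_mod j (n + 1)
    have h2 := Nat.mod_lt j (Nat.succ_pos n)
    nlinarith
  have h2 : j / (n + 1) < R ^ (Nat.log R (j / (n + 1)) + 1) := Nat.lt_pow_succ_log_self hR _
  have h3 : (j + 1) / (n + 1) ≤ R ^ (Nat.log R (j / (n + 1)) + 1) := by omega
  calc Nat.log R ((j + 1) / (n + 1)) ≤ Nat.log R (R ^ (Nat.log R (j / (n + 1)) + 1)) :=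
        Nat.log_mono_right h3
    _ = _ := Nat.log_pow hR _

lemma cnt_le {R : ℕ} (hR : 1 < R) (n j : ℕ) : cnt R n j ≤ j := by
  induction j with
  | zero => simp [cnt_zero]
  | succ j ih => exact (cnt_succ_le hR n j).trans (by omega)

lemma cnt_eq {R n q j : ℕ} (h1 : (n + 1) * R ^ q ≤ j) (h2 : j < (n + 1) * R ^ (q + 1)) :
    cnt R n j = q := by
  unfold cnt
  apply Nat.log_eq_of_pow_le_of_lt_pow
  · rw [Nat.le_div_iff_mul_le (Nat.succ_pos n)]; rwa [mul_comm]
  · rw [Nat.div_lt_iff_lt_mul (Nat.succ_pos n)]; rwa [mul_comm]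

section Baire

variable {p : ℕ → Prop} (h2 : p 2) (h3 : p 3)

/-- the pattern -/
def pat (R n j : ℕ) : {m : ℕ // p m} := if cnt R n (j + 1) = cnt R n j then ⟨3, h3⟩ else ⟨2, h2⟩

lemma partialProduct_pat {R n L : ℕ} (hR : 1 < R) {ω : ℕ → {m : ℕ // p m}}
    (hω : ∀ j < L, ω (n + j) = pat h2 h3 R n j) :
    ∀ j ≤ L, partialProduct ω (n + j) =
      (2 ^ cnt R n j * 3 ^ (j - cnt R n j)) * partialProduct ω n := by
  intro j
  induction j with
  | zero => intro _; simp [cnt_zero]
  | succ j ih =>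
      intro hj
      have h0 := ih (by omega)
      have e : partialProduct ω (n + (j + 1)) = partialProduct ω (n + j) * (ω (n + j) : ℕ) := by
        unfold partialProduct
        rw [← add_assoc, Finset.prod_range_succ]
      rw [e, h0, hω j (by omega)]
      have hle := cnt_le hR n j
      have hm := cnt_mono R n j
      have hs := cnt_succ_le hR n j
      by_cases hc : cnt R n (j + 1) = cnt R n j
      · rw [hc, show j + 1 - cnt R n j = (j - cnt R n j) + 1 by omega]
        simp only [pat, hc, if_true]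
        ring
      · have hc' : cnt R n (j + 1) = cnt R n j + 1 := by omega
        simp only [pat, hc, if_false]
        rw [hc', show j + 1 - (cnt R n j + 1) = j - cnt R n j by omega]
        ring

/-- the dense open sets -/
def UU (i : ℕ) : Set (ℕ → {m : ℕ // p m}) :=
  {ω | ∃ n, i ≤ n ∧ ∀ j < (n + 1) * (i + 2) ^ (i + 2), ω (n + j) = pat h2 h3 (i + 2) n j}

lemma isOpen_UU (i : ℕ) : IsOpen (UU h2 h3 i) := by
  have : UU h2 h3 i = ⋃ n : ℕ, ⋃ (_ : i ≤ n),
      ⋂ j ∈ Finset.range ((n + 1) * (i + 2) ^ (i + 2)),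
        (fun ω : ℕ → {m : ℕ // p m} => ω (n + j)) ⁻¹' {pat h2 h3 (i + 2) n j} := by
    ext ω
    simp only [UU, Set.mem_ofPred_eq, Set.mem_iUnion, exists_prop, Set.mem_iInter,
      Finset.mem_range, Set.mem_preimage, Set.mem_singleton_iff]
  rw [this]
  refine isOpen_iUnion fun n => isOpen_iUnion fun _ => isOpen_biInter_finset fun j _ => ?_
  exact (isOpen_discrete _).preimage (continuous_apply _)

lemma dense_UU (i : ℕ) : Dense (UU h2 h3 i) := by
  intro ω
  refine mem_closure_of_tendsto (b := atTop)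
    (f := fun m : ℕ => fun t : ℕ => if t < m + i then ω t else pat h2 h3 (i + 2) (m + i) (t - (m + i)))
    ?_ ?_
  · rw [tendsto_pi_nhds]
    intro t
    refine tendsto_const_nhds.congr' ?_
    filter_upwards [eventually_gt_atTop t] with m hm
    rw [if_pos (by omega)]
  · refine Eventually.of_forall fun m => ⟨m + i, by omega, fun j _ => ?_⟩
    simp only
    rw [if_neg (by omega), Nat.add_sub_cancel_left]

lemma not_khintchin_of_mem (hpos : ∀ m, p m → 0 < m) {ω : ℕ → {m : ℕ // p m}}
    (hω : ∀ i, ω ∈ UU h2 h3 i) : ¬ IsKhintchin (partialProduct ω) := by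
  have hp := vol_prob
  refine not_khintchin _ (p0 := 1 / 4) (by norm_num) ?_
  intro ε hε N0
  obtain ⟨i0, hi0⟩ := exists_nat_gt (2 / ε)
  set i := max i0 N0 with hi
  have hiN : N0 ≤ i := le_max_right _ _
  have hR0 : (0 : ℝ) < ((i + 2 : ℕ) : ℝ) := by positivity
  have hRε : 2 / ((i + 2 : ℕ) : ℝ) ≤ ε := by
    rw [div_le_iff₀ hR0]
    have h1 : (i0 : ℝ) ≤ i := by exact_mod_cast le_max_left _ _
    have h4 : 2 / ε * ε = 2 := by field_simp
    push_cast
    nlinarith
  obtain ⟨n, hin, hpat⟩ := hω i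
  set R := i + 2 with hRdef
  have hR : 1 < R := by omega
  set S := (n + 1) * R ^ R with hS
  obtain ⟨A, G, hAm, hGm, hA, hG, hgood⟩ := marker R S (by omega) (ε := 1 / (R : ℝ)) (by positivity)
  have hPpos : 0 < partialProduct ω n := Finset.prod_pos fun j _ => hpos _ (ω j).2
  have hmp := mp_nsmul (partialProduct ω n) hPpos
  refine ⟨A, (fun x : UnitAddCircle => partialProduct ω n • x) ⁻¹' G, hAm, hmp.measurable hGm, ?_,
    ?_, ?_⟩
  · refine hA.trans ?_
    refine le_trans (le_of_eq ?_) hRε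
    ring
  · rw [Measure.real, hmp.measure_preimage hGm.nullMeasurableSet]
    exact hG
  · intro x hx
    obtain ⟨q, hq, hqA⟩ := hgood _ hx
    have hpow : R ^ (q + 1) ≤ R ^ R := Nat.pow_le_pow_right (by omega) (by omega)
    have hle : (n + 1) * R ^ (q + 1) ≤ S := Nat.mul_le_mul_left _ hpow
    have hRq : 0 < R ^ q := pow_pos (by omega) _
    have hRq1 : R ^ (q + 1) = R ^ q * R := pow_succ _ _
    refine ⟨n + (n + 1) * R ^ (q + 1), by omega, by positivity,
      (Finset.Ico ((n + 1) * R ^ q) ((n + 1) * R ^ (q + 1))).image (fun j => n + j), ?_, ?_, ?_⟩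
    · intro m hm
      rw [Finset.mem_image] at hm
      obtain ⟨j, hj, rfl⟩ := hm
      rw [Finset.mem_Ico] at hj
      rw [Finset.mem_Icc]
      have : 0 < (n + 1) * R ^ q := by positivity
      omega
    · intro m hm
      rw [Finset.mem_image] at hm
      obtain ⟨j, hj, rfl⟩ := hm
      rw [Finset.mem_Ico] at hj
      have hc := cnt_eq hj.1 hj.2
      rw [partialProduct_pat h2 h3 hR hpat j (by omega), hc, mul_smul]
      refine hqA q (j - q) ?_ (by omega) (Nat.mod_eq_of_lt hq)
      have := cnt_le hR n j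
      rw [hc] at this
      omega
    · rw [Finset.card_image_of_injective _ (fun a b h => by simpa using h), Nat.card_Ico]
      have hsub : (n + 1) * R ^ q ≤ (n + 1) * R ^ (q + 1) := by
        apply Nat.mul_le_mul_left
        exact Nat.pow_le_pow_right (by omega) (by omega)
      rw [Nat.cast_sub hsub]
      push_cast
      have hRr : (2 : ℝ) ≤ (R : ℝ) := by exact_mod_cast hR
      have hx1 : (1 : ℝ) ≤ (R : ℝ) ^ q := one_le_pow₀ (by linarith)
      have hn0 : (0 : ℝ) ≤ n := Nat.cast_nonneg _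
      set X : ℝ := (R : ℝ) ^ q with hX
      have hX1 : (R : ℝ) ^ (q + 1) = X * R := by rw [pow_succ]
      rw [hX1]
      have hR1 : (0 : ℝ) < R := by linarith
      have hε2 : 2 ≤ ε * R := by
        rw [div_le_iff₀ hR1] at hRε; exact hRε
      have hXR : 0 < X * R := by positivity
      -- (1-ε)(n + (n+1) X R) ≤ (n+1) X R - (n+1) X
      have h5 : (n + 1) * X ≤ ε * (n + (n + 1) * (X * R)) - n := by
        have h6 : (n + 1) * X * 2 ≤ (n + 1) * X * (ε * R) :=
          mul_le_mul_of_nonneg_left hε2 (by positivity)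
        have h7 : (n : ℝ) ≤ (n + 1) * X := by nlinarith
        have h8 : 0 ≤ ε * n := by positivity
        nlinarith
      nlinarith

include h2 h3 in
/-- The set of sequences whose partial products form a Khintchin sequence is meagre. -/
theorem meagre (hpos : ∀ m, p m → 0 < m) :
    IsMeagre {ω : ℕ → {m : ℕ // p m} | IsKhintchin (partialProduct ω)} := by
  have h1 : (⋂ i, UU h2 h3 i) ∈ residual (ℕ → {m : ℕ // p m}) :=
    countable_iInter_mem.2 fun i => residual_of_dense_open (isOpen_UU h2 h3 i) (dense_UU h2 h3 i)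
  refine mem_of_superset h1 fun ω hω hK => ?_
  exact not_khintchin_of_mem h2 h3 hpos (fun i => Set.mem_iInter.1 hω i) hK

end Baire

end Khin
end Pool.Agent.V11103
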