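import Pool.Agent.V11103.KhinArc

/-!
A marker lemma for the action of multiplication by `2` and `3` on the circle.
-/

namespace Pool.Agent.V11103
namespace Khin

open MeasureTheory Filter
open scoped Topology ENNReal

/-- `m` is Lebesgue measure on the circle -/
noncomputable abbrev vol : Measure UnitAddCircle := volume

lemma vol_prob : IsProbabilityMeasure vol := ⟨UnitAddCircle.measure_univ⟩

/-- visits of the orbit to the arc -/
def Vis (r : ℝ) (u v : ℕ) : Set UnitAddCircle := {x | (2 ^ u * 3 ^ v) • x ∈ arc r}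

lemma meas_Vis (r : ℝ) (u v : ℕ) : MeasurableSet (Vis r u v) := meas_one _ _

/-- first visit at `(u,v)` -/
def Fst (r : ℝ) (u v : ℕ) : Set UnitAddCircle :=
  {x | x ∈ Vis r u v ∧ ∀ u' v', (u' + v' < u + v ∨ (u' + v' = u + v ∧ u' < u)) → x ∉ Vis r u' v'}

lemma meas_Fst (r : ℝ) (u v : ℕ) : MeasurableSet (Fst r u v) := by
  have : Fst r u v = Vis r u v ∩ ⋂ u' : ℕ, ⋂ v' : ℕ,
      ⋂ (_ : u' + v' < u + v ∨ (u' + v' = u + v ∧ u' < u)), (Vis r u' v')ᶜ := by
    ext x
    simp only [Fst, Set.mem_ofPred_eq, Set.mem_inter_iff, Set.mem_iInter, Set.mem_compl_iff]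
  rw [this]
  refine (meas_Vis r u v).inter ?_
  refine MeasurableSet.iInter fun u' => MeasurableSet.iInter fun v' => MeasurableSet.iInter
    fun _ => (meas_Vis r u' v').compl

lemma Fst_unique {r : ℝ} {x : UnitAddCircle} {u v u' v' : ℕ} (h : x ∈ Fst r u v)
    (h' : x ∈ Fst r u' v') : u = u' ∧ v = v' := by
  by_contra hne
  rcases lt_trichotomy (u + v) (u' + v') with h1 | h1 | h1
  · exact h'.2 u v (Or.inl h1) h.1
  · rcases lt_trichotomy u u' with h2 | h2 | h2
    · exact h'.2 u v (Or.inr ⟨h1, h2⟩) h.1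
    · exact hne ⟨h2, by omega⟩
    · exact h.2 u' v' (Or.inr ⟨h1.symm, h2⟩) h'.1
  · exact h.2 u' v' (Or.inl h1) h'.1

lemma vis_shift {r : ℝ} {x : UnitAddCircle} {s t a b : ℕ} :
    (2 ^ s * 3 ^ t) • x ∈ Vis r a b ↔ x ∈ Vis r (a + s) (b + t) := by
  simp only [Vis, Set.mem_ofPred_eq, smul_smul]
  rw [show 2 ^ a * 3 ^ b * (2 ^ s * 3 ^ t) = 2 ^ (a + s) * 3 ^ (b + t) by ring]

lemma Fst_shift {r : ℝ} {x : UnitAddCircle} {u v s t : ℕ} (h : x ∈ Fst r u v) (hs : s ≤ u)
    (ht : t ≤ v) : (2 ^ s * 3 ^ t) • x ∈ Fst r (u - s) (v - t) := by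
  refine ⟨?_, ?_⟩
  · rw [vis_shift, Nat.sub_add_cancel hs, Nat.sub_add_cancel ht]; exact h.1
  · intro u' v' hc
    rw [vis_shift]
    apply h.2
    omega

/-- the marker set -/
def Mark (r : ℝ) (l Q ρ : ℕ) : Set UnitAddCircle :=
  {x | ∃ u v, u + v ≤ l ∧ u % Q = ρ % Q ∧ x ∈ Fst r u v}

lemma meas_Mark (r : ℝ) (l Q ρ : ℕ) : MeasurableSet (Mark r l Q ρ) := by
  have : Mark r l Q ρ = ⋃ u : ℕ, ⋃ v : ℕ, ⋃ (_ : u + v ≤ l ∧ u % Q = ρ % Q), Fst r u v := by
    ext x
    simp only [Mark, Set.mem_ofPred_eq, Set.mem_iUnion, exists_prop, and_assoc]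
  rw [this]
  exact MeasurableSet.iUnion fun u => MeasurableSet.iUnion fun v => MeasurableSet.iUnion
    fun _ => meas_Fst r u v

/-- early visits with small first or second coordinate -/
def Strip (r : ℝ) (l S : ℕ) : Set UnitAddCircle :=
  {x | ∃ u v, u + v ≤ l ∧ (u < S ∨ v < S) ∧ x ∈ Vis r u v}

lemma vol_Vis {r : ℝ} (hr : 0 ≤ r) (hr2 : 2 * r ≤ 1) (u v : ℕ) :
    vol.real (Vis r u v) = 2 * r := by
  have h : vol (Vis r u v) = ENNReal.ofReal (2 * r) :=
    volume_mul_arc (2 ^ u * 3 ^ v) (by positivity) hr hr2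
  rw [Measure.real, h, ENNReal.toReal_ofReal (by linarith)]

lemma vol_Strip_le {r : ℝ} (hr : 0 ≤ r) (hr2 : 2 * r ≤ 1) (l S : ℕ) :
    vol.real (Strip r l S) ≤ 2 * S * (l + 1) * (2 * r) := by
  have hp := vol_prob
  have hsub : Strip r l S ⊆ (⋃ i ∈ Finset.range S ×ˢ Finset.range (l + 1), Vis r i.1 i.2) ∪
      ⋃ i ∈ Finset.range (l + 1) ×ˢ Finset.range S, Vis r i.1 i.2 := by
    rintro x ⟨u, v, h1, h2 | h2, hx⟩
    · left
      simp only [Set.mem_iUnion, exists_prop]
      exact ⟨(u, v), by simp; omega, hx⟩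
    · right
      simp only [Set.mem_iUnion, exists_prop]
      exact ⟨(u, v), by simp; omega, hx⟩
  calc vol.real (Strip r l S) ≤ vol.real (⋃ i ∈ Finset.range S ×ˢ Finset.range (l + 1),
        Vis r i.1 i.2) + vol.real (⋃ i ∈ Finset.range (l + 1) ×ˢ Finset.range S, Vis r i.1 i.2) :=
        (measureReal_mono hsub).trans (measureReal_union_le _ _)
    _ ≤ ∑ i ∈ Finset.range S ×ˢ Finset.range (l + 1), vol.real (Vis r i.1 i.2) +
        ∑ i ∈ Finset.range (l + 1) ×ˢ Finset.range S, vol.real (Vis r i.1 i.2) :=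
        add_le_add (measureReal_biUnion_finset_le _ _) (measureReal_biUnion_finset_le _ _)
    _ = 2 * S * (l + 1) * (2 * r) := by
        simp only [vol_Vis hr hr2, Finset.sum_const, Finset.card_product, Finset.card_range,
          nsmul_eq_mul]
        push_cast
        ring

lemma Mark_succ_subset (r : ℝ) (l Q ρ : ℕ) :
    Mark r l Q (ρ + 1) ⊆ (fun x : UnitAddCircle => 2 • x) ⁻¹' (Mark r l Q ρ) ∪ Strip r l 1 := by
  rintro x ⟨u, v, h1, h2, hx⟩
  rcases Nat.eq_zero_or_pos u with h0 | h0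
  · right
    exact ⟨u, v, h1, Or.inl (by omega), hx.1⟩
  · left
    have := Fst_shift (s := 1) (t := 0) hx h0 (Nat.zero_le _)
    simp only [pow_one, pow_zero, mul_one, Nat.sub_zero] at this
    refine ⟨u - 1, v, by omega, ?_, this⟩
    have h3 : (u - 1 + 1) % Q = (ρ + 1) % Q := by rw [Nat.sub_add_cancel h0]; exact h2
    exact Nat.ModEq.add_right_cancel' 1 h3

lemma vol_Mark_le {r : ℝ} (hr : 0 ≤ r) (hr2 : 2 * r ≤ 1) (l Q : ℕ) (hQ : 0 < Q) :
    vol.real (Mark r l Q 0) ≤ 1 / Q + Q * (2 * (l + 1) * (2 * r)) := by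
  have hp := vol_prob
  set z : ℝ := 2 * (l + 1) * (2 * r) with hz
  have hz0 : 0 ≤ z := by positivity
  have hstep : ∀ ρ, vol.real (Mark r l Q (ρ + 1)) ≤ vol.real (Mark r l Q ρ) + z := by
    intro ρ
    have h1 := (measureReal_mono (μ := vol) (Mark_succ_subset r l Q ρ)).trans
      (measureReal_union_le _ _)
    have h2 : vol.real ((fun x : UnitAddCircle => 2 • x) ⁻¹' (Mark r l Q ρ)) =
        vol.real (Mark r l Q ρ) := by
      rw [Measure.real, Measure.real,
        (mp_nsmul 2 (by norm_num)).measure_preimage (meas_Mark r l Q ρ).nullMeasurableSet]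
    have h3 := vol_Strip_le hr hr2 l 1
    rw [h2] at h1
    have h4 : 2 * ((1 : ℕ) : ℝ) * (l + 1) * (2 * r) = z := by rw [hz]; push_cast; ring
    rw [h4] at h3
    linarith
  have hstep' : ∀ ρ j : ℕ, vol.real (Mark r l Q (ρ + j)) ≤ vol.real (Mark r l Q ρ) + j * z := by
    intro ρ j
    induction j with
    | zero => simp
    | succ j ih =>
        have := hstep (ρ + j)
        push_cast
        rw [show ρ + (j + 1) = ρ + j + 1 by ring]
        linarith
  have hQ0 : Mark r l Q Q = Mark r l Q 0 := by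
    unfold Mark; simp
  have hall : ∀ ρ ∈ Finset.range Q, vol.real (Mark r l Q 0) ≤ vol.real (Mark r l Q ρ) + Q * z := by
    intro ρ hρ
    have hρ' : ρ < Q := Finset.mem_range.1 hρ
    have h1 := hstep' ρ (Q - ρ)
    rw [show ρ + (Q - ρ) = Q by omega, hQ0] at h1
    have h2 : ((Q - ρ : ℕ) : ℝ) * z ≤ Q * z := by
      apply mul_le_mul_of_nonneg_right _ hz0
      exact_mod_cast Nat.sub_le _ _
    linarith
  have hdisj : (↑(Finset.range Q) : Set ℕ).PairwiseDisjoint (fun ρ => Mark r l Q ρ) := by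
    intro ρ hρ ρ' hρ' hne
    have h1 : ρ < Q := by simpa using hρ
    have h2 : ρ' < Q := by simpa using hρ'
    rw [Function.onFun, Set.disjoint_left]
    rintro x ⟨u, v, _, hu, hx⟩ ⟨u', v', _, hu', hx'⟩
    obtain ⟨rfl, rfl⟩ := Fst_unique hx hx'
    rw [Nat.mod_eq_of_lt h1] at hu
    rw [Nat.mod_eq_of_lt h2] at hu'
    exact hne (hu.symm.trans hu')
  have hsum : ∑ ρ ∈ Finset.range Q, vol.real (Mark r l Q ρ) ≤ 1 := by
    rw [← measureReal_biUnion_finset hdisj (fun ρ _ => meas_Mark r l Q ρ)]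
    exact (measureReal_mono (Set.subset_univ _)).trans (by simp)
  have hfin := Finset.sum_le_sum hall
  rw [Finset.sum_const, Finset.card_range, nsmul_eq_mul, Finset.sum_add_distrib, Finset.sum_const,
    Finset.card_range, nsmul_eq_mul] at hfin
  have hQ' : (0 : ℝ) < Q := by exact_mod_cast hQ
  have h5 : (Q : ℝ) * vol.real (Mark r l Q 0) ≤ 1 + Q * (Q * z) := by linarith
  have h6 : vol.real (Mark r l Q 0) ≤ (1 + Q * (Q * z)) / Q := by
    rw [le_div_iff₀ hQ']; linarith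
  calc vol.real (Mark r l Q 0) ≤ (1 + Q * (Q * z)) / Q := h6
    _ = 1 / Q + Q * z := by field_simp

/-- the good set -/
def Good (r : ℝ) (l S : ℕ) : Set UnitAddCircle :=
  {x | ∃ u v, u + v ≤ l ∧ S ≤ u ∧ S ≤ v ∧ x ∈ Fst r u v}

lemma meas_Good (r : ℝ) (l S : ℕ) : MeasurableSet (Good r l S) := by
  have : Good r l S = ⋃ u : ℕ, ⋃ v : ℕ, ⋃ (_ : u + v ≤ l ∧ S ≤ u ∧ S ≤ v), Fst r u v := by
    ext x
    simp only [Good, Set.mem_ofPred_eq, Set.mem_iUnion, exists_prop, and_assoc]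
  rw [this]
  exact MeasurableSet.iUnion fun u => MeasurableSet.iUnion fun v => MeasurableSet.iUnion
    fun _ => meas_Fst r u v

lemma Good_spec {r : ℝ} {l S Q : ℕ} (hQ : 0 < Q) {y : UnitAddCircle} (hy : y ∈ Good r l S) :
    ∃ q < Q, ∀ s t, s ≤ S → t ≤ S → s % Q = q → (2 ^ s * 3 ^ t) • y ∈ Mark r l Q 0 := by
  obtain ⟨u, v, h1, h2, h3, hx⟩ := hy
  refine ⟨u % Q, Nat.mod_lt _ hQ, fun s t hs ht hsq => ?_⟩
  refine ⟨u - s, v - t, by omega, ?_, Fst_shift hx (by omega) (by omega)⟩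
  have h4 : s ≡ u [MOD Q] := hsq
  have h5 := (Nat.modEq_iff_dvd' (show s ≤ u by omega)).1 h4
  rw [Nat.zero_mod]
  exact Nat.mod_eq_zero_of_dvd h5

lemma Good_or_Strip {r : ℝ} {l S a b : ℕ} (hab : a + b ≤ l) {x : UnitAddCircle}
    (hx : x ∈ Vis r a b) : x ∈ Good r l S ∪ Strip r l S := by
  classical
  -- minimal level
  have hex : ∃ n, ∃ u v, u + v = n ∧ x ∈ Vis r u v := ⟨a + b, a, b, rfl, hx⟩
  set n := Nat.find hex with hn
  obtain ⟨u0, v0, huv0, hx0⟩ := Nat.find_spec hex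
  have hnle : n ≤ a + b := Nat.find_min' hex ⟨a, b, rfl, hx⟩
  have hex2 : ∃ u, ∃ v, u + v = n ∧ x ∈ Vis r u v := ⟨u0, v0, huv0, hx0⟩
  set u := Nat.find hex2 with hu
  obtain ⟨v, huv, hxu⟩ := Nat.find_spec hex2
  have hF : x ∈ Fst r u v := by
    refine ⟨hxu, ?_⟩
    intro u' v' h hcon
    rcases h with h | ⟨h, h'⟩
    · have : u' + v' < n := by rw [← huv]; exact h
      exact Nat.find_min hex this ⟨u', v', rfl, hcon⟩
    · exact Nat.find_min hex2 h' ⟨v', by rw [h]; exact huv, hcon⟩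
  by_cases hc : S ≤ u ∧ S ≤ v
  · left
    exact ⟨u, v, by rw [show u + v = n from huv]; omega, hc.1, hc.2, hF⟩
  · right
    refine ⟨u, v, by rw [show u + v = n from huv]; omega, ?_, hxu⟩
    omega

/-- second moment method: a lower bound for the measure of a union. -/
lemma union_lower {ι : Type} [DecidableEq ι] (s : Finset ι) (E : ι → Set UnitAddCircle)
    (hE : ∀ i, MeasurableSet (E i)) {c : ℝ} (h1 : ∀ i ∈ s, vol.real (E i) = c)
    (h2 : ∀ i ∈ s, ∀ j ∈ s, i ≠ j → vol.real (E i ∩ E j) ≤ 2 * c ^ 2) (hc : (s.card : ℝ) * c = 1) :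
    1 / 3 ≤ vol.real (⋃ i ∈ s, E i) := by
  have hp := vol_prob
  set W : UnitAddCircle → ℝ := fun x => ∑ i ∈ s, (E i).indicator (fun _ => (1 : ℝ)) x with hW
  have hWint : Integrable W vol := by
    apply integrable_finsetSum
    intro i _
    exact (integrable_const _).indicator (hE i)
  have hW2 : ∀ x, W x * W x = ∑ i ∈ s, ∑ j ∈ s, (E i ∩ E j).indicator (fun _ => (1 : ℝ)) x := by
    intro x
    simp only [hW]
    rw [Finset.sum_mul_sum]
    refine Finset.sum_congr rfl fun i _ => Finset.sum_congr rfl fun j _ => ?_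
    by_cases hi : x ∈ E i <;> by_cases hj : x ∈ E j <;> simp [hi, hj]
  have hW2int : Integrable (fun x => W x * W x) vol := by
    simp only [hW2]
    apply integrable_finsetSum
    intro i _
    apply integrable_finsetSum
    intro j _
    exact (integrable_const _).indicator ((hE i).inter (hE j))
  have hEW : ∫ x, W x ∂vol = 1 := by
    simp only [hW]
    rw [integral_finsetSum _ (fun i _ => (integrable_const _).indicator (hE i))]
    have : ∀ i ∈ s, ∫ x, (E i).indicator (fun _ => (1 : ℝ)) x ∂vol = c := by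
      intro i hi
      rw [integral_indicator_const _ (hE i), h1 i hi]; simp
    rw [Finset.sum_congr rfl this, Finset.sum_const, nsmul_eq_mul, hc]
  have hcard : 0 < (s.card : ℝ) := by
    rcases Nat.eq_zero_or_pos s.card with h | h
    · rw [h] at hc; simp at hc
    · exact_mod_cast h
  have hcpos : 0 < c := by
    by_contra hcon
    push Not at hcon
    have : (s.card : ℝ) * c ≤ 0 := mul_nonpos_of_nonneg_of_nonpos hcard.le hcon
    linarith
  have hEW2 : ∫ x, W x * W x ∂vol ≤ 3 := by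
    simp only [hW2]
    rw [integral_finsetSum _ (fun i _ => by
      apply integrable_finsetSum
      intro j _
      exact (integrable_const _).indicator ((hE i).inter (hE j)))]
    have : ∀ i ∈ s, ∫ x, ∑ j ∈ s, (E i ∩ E j).indicator (fun _ => (1 : ℝ)) x ∂vol ≤
        c + s.card * (2 * c ^ 2) := by
      intro i hi
      rw [integral_finsetSum _ (fun j _ => (integrable_const _).indicator ((hE i).inter (hE j)))]
      have e1 : ∀ j ∈ s, ∫ x, (E i ∩ E j).indicator (fun _ => (1 : ℝ)) x ∂vol ≤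
          (if j = i then c else 0) + 2 * c ^ 2 := by
        intro j hj
        rw [integral_indicator_const _ ((hE i).inter (hE j)), smul_eq_mul, mul_one]
        by_cases hij : j = i
        · subst hij
          rw [Set.inter_self, h1 j hj]
          simp; positivity
        · have := h2 i hi j hj (fun h => hij h.symm)
          simpa [hij] using this
      refine (Finset.sum_le_sum e1).trans ?_
      rw [Finset.sum_add_distrib, Finset.sum_const, nsmul_eq_mul, Finset.sum_ite_eq' s i]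
      simp [hi]
    refine (Finset.sum_le_sum this).trans ?_
    rw [Finset.sum_const, nsmul_eq_mul]
    have : (s.card : ℝ) * (c + s.card * (2 * c ^ 2)) = (s.card * c) + 2 * (s.card * c) ^ 2 := by
      ring
    rw [this, hc]
    norm_num
  set U : Set UnitAddCircle := ⋃ i ∈ s, E i with hU
  have hUm : MeasurableSet U := Finset.measurableSet_biUnion s fun i _ => hE i
  have hpt : ∀ x, 2 / 3 * W x - 1 / 9 * (W x * W x) ≤ U.indicator (fun _ => (1 : ℝ)) x := by
    intro x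
    by_cases hx : x ∈ U
    · rw [Set.indicator_of_mem hx]
      nlinarith [sq_nonneg (W x - 3)]
    · rw [Set.indicator_of_notMem hx]
      have : W x = 0 := by
        simp only [hW]
        refine Finset.sum_eq_zero fun i hi => ?_
        rw [Set.indicator_of_notMem]
        intro hc
        exact hx (Set.mem_biUnion hi hc)
      rw [this]; norm_num
  have hle := integral_mono ((hWint.const_mul (2 / 3)).sub (hW2int.const_mul (1 / 9)))
    ((integrable_const _).indicator hUm) hpt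
  rw [integral_indicator_const _ hUm, smul_eq_mul, mul_one] at hle
  have e : ∫ x, (2 / 3 * W x - 1 / 9 * (W x * W x)) ∂vol =
      2 / 3 * ∫ x, W x ∂vol - 1 / 9 * ∫ x, W x * W x ∂vol := by
    rw [integral_sub (hWint.const_mul (2 / 3)) (hW2int.const_mul (1 / 9)), integral_const_mul,
      integral_const_mul]
  have hle' : ∫ x, (2 / 3 * W x - 1 / 9 * (W x * W x)) ∂vol ≤ vol.real U := hle
  rw [e, hEW] at hle'
  linarith

lemma two_three_inj {a b a' b' : ℕ} (h : 2 ^ a * 3 ^ b = 2 ^ a' * 3 ^ b') : a = a' ∧ b = b' := by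
  have h2 : (2 ^ a * 3 ^ b).factorization 2 = (2 ^ a' * 3 ^ b').factorization 2 := by rw [h]
  have h3 : (2 ^ a * 3 ^ b).factorization 3 = (2 ^ a' * 3 ^ b').factorization 3 := by rw [h]
  have e : ∀ a b : ℕ, (2 ^ a * 3 ^ b).factorization 2 = a := by
    intro a b
    rw [Nat.factorization_mul (by positivity) (by positivity), Nat.Prime.factorization_pow
      Nat.prime_two, Nat.Prime.factorization_pow Nat.prime_three]
    simp
  have e' : ∀ a b : ℕ, (2 ^ a * 3 ^ b).factorization 3 = b := by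
    intro a b
    rw [Nat.factorization_mul (by positivity) (by positivity), Nat.Prime.factorization_pow
      Nat.prime_two, Nat.Prime.factorization_pow Nat.prime_three]
    simp
  rw [e, e] at h2
  rw [e', e'] at h3
  exact ⟨h2, h3⟩

/-- many points have a visit -/
lemma visit_lower (k : ℕ) : 1 / 3 ≤ vol.real (⋃ i ∈ Finset.range (2 ^ k) ×ˢ Finset.range (2 ^ k),
    Vis (1 / (2 * 4 ^ k)) (2 * k * i.1) (2 * k * i.2)) := by
  have h4 : (0 : ℝ) < 4 ^ k := by positivity
  have h41 : (1 : ℝ) ≤ 4 ^ k := one_le_pow₀ (by norm_num)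
  have hr : (0 : ℝ) ≤ 1 / (2 * 4 ^ k) := by positivity
  have hr1 : 2 * (1 / (2 * 4 ^ k) : ℝ) = 1 / 4 ^ k := by field_simp
  have hr2 : 2 * (1 / (2 * 4 ^ k) : ℝ) ≤ 1 := by
    rw [hr1, div_le_one h4]; exact h41
  refine union_lower (c := 1 / 4 ^ k) _ (fun i : ℕ × ℕ => Vis (1 / (2 * 4 ^ k)) (2 * k * i.1)
    (2 * k * i.2)) (fun i => meas_Vis _ _ _) ?_ ?_ ?_
  · intro i _
    rw [vol_Vis hr hr2, hr1]
  · intro i _ j _ hij
    have hpne : 2 ^ i.1 * 3 ^ i.2 ≠ 2 ^ j.1 * 3 ^ j.2 := by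
      intro h
      obtain ⟨h1, h2⟩ := two_three_inj h
      exact hij (Prod.ext h1 h2)
    have h := joint_ne (2 ^ i.1 * 3 ^ i.2) (2 ^ j.1 * 3 ^ j.2) (2 * k) (by positivity)
      (by positivity) hpne hr hr2 (by rw [hr1, pow_mul]; norm_num)
    have hset : Vis (1 / (2 * 4 ^ k)) (2 * k * i.1) (2 * k * i.2) ∩
        Vis (1 / (2 * 4 ^ k)) (2 * k * j.1) (2 * k * j.2) =
        {x : UnitAddCircle | ((2 ^ i.1 * 3 ^ i.2) ^ (2 * k)) • x ∈ arc (1 / (2 * 4 ^ k)) ∧
          ((2 ^ j.1 * 3 ^ j.2) ^ (2 * k)) • x ∈ arc (1 / (2 * 4 ^ k))} := by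
      have e : ∀ i : ℕ × ℕ, 2 ^ (2 * k * i.1) * 3 ^ (2 * k * i.2) =
          (2 ^ i.1 * 3 ^ i.2) ^ (2 * k) := by
        intro i
        rw [mul_pow, ← pow_mul, ← pow_mul, mul_comm (2 * k), mul_comm (2 * k)]
      ext x
      simp only [Vis, Set.mem_inter_iff, Set.mem_ofPred_eq, e]
    rw [hset, Measure.real]
    refine (ENNReal.toReal_mono ENNReal.ofReal_ne_top h).trans (le_of_eq ?_)
    rw [hr1, ENNReal.toReal_ofReal (by positivity)]
  · rw [Finset.card_product, Finset.card_range]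
    push_cast
    rw [← mul_pow]
    norm_num

/-- **Marker lemma** -/
theorem marker (Q S : ℕ) (hQ : 0 < Q) {ε : ℝ} (hε : 0 < ε) :
    ∃ A G : Set UnitAddCircle, MeasurableSet A ∧ MeasurableSet G ∧ vol.real A ≤ 1 / Q + ε ∧
      1 / 4 ≤ vol.real G ∧
      ∀ y ∈ G, ∃ q < Q, ∀ s t, s ≤ S → t ≤ S → s % Q = q → (2 ^ s * 3 ^ t) • y ∈ A := by
  have hp := vol_prob
  have hlim : Tendsto (fun k : ℕ => (2 * (S + Q : ℝ)) * (4 * (k * (1 / 2 : ℝ) ^ k) +
      (1 / 4 : ℝ) ^ k)) atTop (𝓝 0) := by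
    have h1 := tendsto_self_mul_const_pow_of_lt_one (r := (1 / 2 : ℝ)) (by norm_num) (by norm_num)
    have h2 := tendsto_pow_atTop_nhds_zero_of_lt_one (r := (1 / 4 : ℝ)) (by norm_num) (by norm_num)
    have := ((h1.const_mul 4).add h2).const_mul (2 * (S + Q : ℝ))
    simpa using this
  have hδ : (0 : ℝ) < min ε (1 / 12) := lt_min hε (by norm_num)
  obtain ⟨k, hk⟩ := ((hlim.eventually (gt_mem_nhds hδ))).exists
  set r : ℝ := 1 / (2 * 4 ^ k) with hrdef
  set l : ℕ := 4 * k * 2 ^ k with hl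
  have h4 : (0 : ℝ) < 4 ^ k := by positivity
  have h41 : (1 : ℝ) ≤ 4 ^ k := one_le_pow₀ (by norm_num)
  have hr : (0 : ℝ) ≤ r := by positivity
  have hr1 : 2 * r = 1 / 4 ^ k := by rw [hrdef]; field_simp
  have hr2 : 2 * r ≤ 1 := by
    rw [hr1, div_le_one h4]; exact h41
  have hlr : ((l : ℝ) + 1) * (2 * r) = 4 * (k * (1 / 2 : ℝ) ^ k) + (1 / 4 : ℝ) ^ k := by
    rw [hr1, hl]
    push_cast
    have : (4 : ℝ) ^ k = 2 ^ k * 2 ^ k := by rw [← mul_pow]; norm_num
    rw [one_div_pow, one_div_pow, this]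
    field_simp
  have hz : 0 ≤ ((l : ℝ) + 1) * (2 * r) := by positivity
  rw [← hlr] at hk
  have hS0 : (0 : ℝ) ≤ S := Nat.cast_nonneg _
  have hQ0 : (0 : ℝ) ≤ Q := Nat.cast_nonneg _
  have hkS : 2 * S * (((l : ℝ) + 1) * (2 * r)) ≤ 1 / 12 := by
    have h5 : 2 * (S : ℝ) * (((l : ℝ) + 1) * (2 * r)) ≤
      2 * (S + Q : ℝ) * (((l : ℝ) + 1) * (2 * r)) := by
      apply mul_le_mul_of_nonneg_right _ hz
      linarith
    have h6 := hk.le.trans (min_le_right _ _)
    linarith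
  have hkQ : Q * (2 * (((l : ℝ) + 1) * (2 * r))) ≤ ε := by
    have h5 : 2 * (Q : ℝ) * (((l : ℝ) + 1) * (2 * r)) ≤
      2 * (S + Q : ℝ) * (((l : ℝ) + 1) * (2 * r)) := by
      apply mul_le_mul_of_nonneg_right _ hz
      linarith
    have h6 := hk.le.trans (min_le_left _ _)
    linarith
  refine ⟨Mark r l Q 0, Good r l S, meas_Mark _ _ _ _, meas_Good _ _ _, ?_, ?_,
    fun y hy => Good_spec hQ hy⟩
  · have := vol_Mark_le hr hr2 l Q hQ
    refine this.trans ?_
    have e : Q * (2 * ((l : ℝ) + 1) * (2 * r)) = Q * (2 * (((l : ℝ) + 1) * (2 * r))) := by ring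
    linarith
  · have h1 := visit_lower k
    have hsub : (⋃ i ∈ Finset.range (2 ^ k) ×ˢ Finset.range (2 ^ k),
        Vis (1 / (2 * 4 ^ k)) (2 * k * i.1) (2 * k * i.2)) ⊆ Good r l S ∪ Strip r l S := by
      intro x hx
      simp only [Set.mem_iUnion, exists_prop] at hx
      obtain ⟨i, hi, hx⟩ := hx
      rw [Finset.mem_product, Finset.mem_range, Finset.mem_range] at hi
      refine Good_or_Strip ?_ hx
      rw [hl]
      have a1 : 2 * k * i.1 ≤ 2 * k * 2 ^ k := Nat.mul_le_mul_left _ hi.1.le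
      have a2 : 2 * k * i.2 ≤ 2 * k * 2 ^ k := Nat.mul_le_mul_left _ hi.2.le
      nlinarith
    have h2 := (measureReal_mono (μ := vol) hsub).trans (measureReal_union_le _ _)
    have h3 := vol_Strip_le hr hr2 l S
    have h4 : 2 * (S : ℝ) * (l + 1) * (2 * r) = 2 * S * (((l : ℝ) + 1) * (2 * r)) := by ring
    linarith

end Khin
end Pool.Agent.V11103
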