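import Mathlib

/-! Markers and windows for an ergodic map of a probability space in which there are sets of
arbitrarily small positive measure. -/

set_option autoImplicit false

open MeasureTheory Set Filter Topology
open scoped ENNReal

namespace Pool.Agent.V11103.Om

universe u

variable {X : Type u} [MeasurableSpace X] {μ : Measure X} [IsProbabilityMeasure μ] {T : X → X}

lemma ae_hits (hT : Ergodic T μ) {D : Set X} (hD : MeasurableSet D) (hpos : 0 < μ D) :
    μ {x | ∀ n : ℕ, T^[n] x ∉ D} = 0 := by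
  set U : Set X := {x | ∃ n : ℕ, T^[n] x ∈ D} with hU
  have hUm : MeasurableSet U := by
    have : U = ⋃ n : ℕ, T^[n] ⁻¹' D := by ext x; simp [hU]
    rw [this]
    exact MeasurableSet.iUnion fun n => (hT.measurable.iterate n) hD
  have hsub : T ⁻¹' U ⊆ U := by
    rintro x ⟨n, hn⟩
    exact ⟨n + 1, by rw [Function.iterate_succ_apply]; exact hn⟩
  have hDU : D ⊆ U := fun x hx => ⟨0, hx⟩
  rcases hT.ae_empty_or_univ_of_preimage_ae_le hUm.nullMeasurableSet hsub.eventuallyLE with h | h
  · exfalso
    have : μ U = 0 := by rw [measure_congr h]; simp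
    exact hpos.ne' (measure_mono_null hDU this)
  · have h2 : {x | ∀ n : ℕ, T^[n] x ∉ D} = Uᶜ := by ext x; simp [hU]
    rw [h2]
    exact (ae_eq_univ.1 h)

/-- the marker lemma -/
lemma marker (hT : Ergodic T μ)
    (hsmall : ∀ δ : ℝ≥0∞, 0 < δ → ∃ D : Set X, MeasurableSet D ∧ 0 < μ D ∧ μ D < δ)
    (H : ℕ) (hH : 1 ≤ H) (ε : ℝ≥0∞) (hε : 0 < ε) :
    ∃ C : Set X, MeasurableSet C ∧ (H : ℝ≥0∞) * μ C ≤ 1 ∧ μ {x | ∀ i < H, T^[i] x ∉ C} ≤ ε := by
  obtain ⟨D, hD, hDpos, hDlt⟩ := hsmall (ε / H) (by
    apply ENNReal.div_pos hε.ne' (ENNReal.natCast_ne_top H))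
  set C : Set X := {x | ∃ k : ℕ, 1 ≤ k ∧ T^[k * H] x ∈ D ∧ ∀ i < k * H, T^[i] x ∉ D} with hC
  have hCm : MeasurableSet C := by
    have : C = ⋃ k : ℕ, ⋃ _ : 1 ≤ k, (T^[k * H] ⁻¹' D ∩ ⋂ i : ℕ, ⋂ _ : i < k * H, (T^[i] ⁻¹' D)ᶜ) := by
      ext x
      simp only [hC, mem_setOf_eq, mem_iUnion, mem_inter_iff, mem_preimage, mem_iInter,
        mem_compl_iff, exists_prop]
    rw [this]
    refine MeasurableSet.iUnion fun k => MeasurableSet.iUnion fun _ => ?_
    refine MeasurableSet.inter ((hT.measurable.iterate _) hD) ?_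
    exact MeasurableSet.iInter fun i => MeasurableSet.iInter fun _ =>
      ((hT.measurable.iterate _) hD).compl
  refine ⟨C, hCm, ?_, ?_⟩
  · -- disjoint preimages
    have hdisj : (Set.univ : Set (Fin H)).PairwiseDisjoint (fun i : Fin H => T^[i.1] ⁻¹' C) := by
      intro i _ j _ hij
      rw [Function.onFun, Set.disjoint_left]
      have key : ∀ a b : ℕ, a < b → b < H → ∀ x, T^[a] x ∈ C → T^[b] x ∉ C := by
        rintro a b hab hb x ⟨k, hk, h1, h2⟩ ⟨l, hl, h3, h4⟩
        rw [← Function.iterate_add_apply] at h1 h3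
        have hkH : H ≤ k * H := Nat.le_mul_of_pos_left H hk
        rcases lt_trichotomy (k * H + a) (l * H + b) with h | h | h
        · have h5 := h4 (k * H + a - b) (by omega)
          rw [← Function.iterate_add_apply] at h5
          apply h5
          have : k * H + a - b + b = k * H + a := by omega
          rw [this]; exact h1
        · have hkl : l < k := by
            by_contra hcon
            push Not at hcon
            have := Nat.mul_le_mul_right H hcon
            omega
          have : (l + 1) * H ≤ k * H := Nat.mul_le_mul_right H hkl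
          rw [Nat.add_mul, one_mul] at this
          omega
        · have h5 := h2 (l * H + b - a) (by omega)
          rw [← Function.iterate_add_apply] at h5
          apply h5
          have : l * H + b - a + a = l * H + b := by omega
          rw [this]; exact h3
      intro x hx hy
      rcases lt_or_gt_of_ne (fun h => hij (Fin.ext h) : i.1 ≠ j.1) with h | h
      · exact key i.1 j.1 h j.2 x hx hy
      · exact key j.1 i.1 h i.2 x hy hx
    have h1 : μ (⋃ i : Fin H, T^[i.1] ⁻¹' C) = ∑ i : Fin H, μ (T^[i.1] ⁻¹' C) := by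
      rw [measure_iUnion]
      · rw [tsum_fintype]
      · intro i j hij
        exact hdisj (Set.mem_univ i) (Set.mem_univ j) hij
      · intro i
        exact (hT.measurable.iterate _) hCm
    have h2 : ∀ i : Fin H, μ (T^[i.1] ⁻¹' C) = μ C := fun i =>
      (hT.toMeasurePreserving.iterate i.1).measure_preimage hCm.nullMeasurableSet
    simp only [h2, Finset.sum_const, Finset.card_univ, Fintype.card_fin, nsmul_eq_mul] at h1
    rw [← h1]
    exact prob_le_one
  · have hsub : {x | ∀ i < H, T^[i] x ∉ C} ⊆ {x | ∀ n : ℕ, T^[n] x ∉ D} ∪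
        ⋃ i ∈ Finset.range H, T^[i] ⁻¹' D := by
      intro x hx
      by_cases hh : ∀ n : ℕ, T^[n] x ∉ D
      · exact Or.inl hh
      · right
        push Not at hh
        classical
        let n := Nat.find hh
        have hn : T^[n] x ∈ D := Nat.find_spec hh
        have hmin : ∀ i < n, T^[i] x ∉ D := fun i hi => Nat.find_min hh hi
        by_cases hnH : n < H
        · simp only [mem_iUnion, Finset.mem_range]
          exact ⟨n, hnH, hn⟩
        · exfalso
          push Not at hnH
          apply hx (n % H) (Nat.mod_lt _ (by omega))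
          have hdm : n / H * H + n % H = n := by
            rw [mul_comm]; exact Nat.div_add_mod n H
          refine ⟨n / H, Nat.div_pos hnH (by omega), ?_, ?_⟩
          · rw [← Function.iterate_add_apply, hdm]; exact hn
          · intro i hi
            rw [← Function.iterate_add_apply]
            apply hmin
            omega
    calc μ {x | ∀ i < H, T^[i] x ∉ C} ≤ μ {x | ∀ n : ℕ, T^[n] x ∉ D} +
          μ (⋃ i ∈ Finset.range H, T^[i] ⁻¹' D) := (measure_mono hsub).trans (measure_union_le _ _)
      _ ≤ 0 + ∑ i ∈ Finset.range H, μ (T^[i] ⁻¹' D) := by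
          gcongr
          · exact (ae_hits hT hD hDpos).le
          · exact measure_biUnion_finset_le _ _
      _ = H * μ D := by
          have h2 : ∀ i : ℕ, μ (T^[i] ⁻¹' D) = μ D := fun i =>
            (hT.toMeasurePreserving.iterate i).measure_preimage hD.nullMeasurableSet
          simp [h2]
      _ ≤ H * (ε / H) := by gcongr
      _ = ε := by
          rw [ENNReal.mul_div_cancel] <;> simp
          omega

/-- windows: for every `η > 0` and `L₀` there is a set `B` of measure at most `7 η` such that for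
most `x` the orbit stays in `B` during the time `[(1 - η) L, (1 + η) L]` for some `L ≥ L₀` -/
lemma window (hT : Ergodic T μ)
    (hsmall : ∀ δ : ℝ≥0∞, 0 < δ → ∃ D : Set X, MeasurableSet D ∧ 0 < μ D ∧ μ D < δ)
    (η : ℝ) (hη : 0 < η) (L₀ : ℕ) :
    ∃ (B : Set X) (K : ℕ), MeasurableSet B ∧ μ B ≤ ENNReal.ofReal (7 * η) ∧
      μ {x | ¬ ∃ L : ℕ, L₀ ≤ L ∧ L ≤ K ∧
        ∀ j : ℕ, (1 - η) * L ≤ j → (j : ℝ) ≤ (1 + η) * L → T^[j] x ∈ B} ≤ ENNReal.ofReal η := by
  obtain ⟨H, hH⟩ := exists_nat_ge (max (L₀ : ℝ) (max 1 (1 / η)))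
  have hHL : L₀ ≤ H := by exact_mod_cast (le_max_left _ _).trans hH
  have hH1 : 1 ≤ H := by
    exact_mod_cast ((le_max_left _ _).trans (le_max_right _ _)).trans hH
  have hHη : 1 ≤ η * H := by
    have := ((le_max_right _ _).trans (le_max_right _ _)).trans hH
    rw [div_le_iff₀ hη] at this
    linarith
  obtain ⟨C, hCm, hC1, hC2⟩ := marker hT hsmall H hH1 (ENNReal.ofReal η) (by simpa using hη)
  set w : ℕ := ⌈2 * η * H⌉₊ with hw
  have hw1 : 2 * η * H ≤ w := Nat.le_ceil _
  have hw2 : (w : ℝ) < 2 * η * H + 1 := Nat.ceil_lt_add_one (by positivity)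
  set B : Set X := ⋃ i ∈ Finset.range (2 * w + 1), T^[i] ⁻¹' C with hB
  refine ⟨B, 2 * H, ?_, ?_, ?_⟩
  · exact Finset.measurableSet_biUnion _ fun i _ => (hT.measurable.iterate _) hCm
  · have h2 : ∀ i : ℕ, μ (T^[i] ⁻¹' C) = μ C := fun i =>
      (hT.toMeasurePreserving.iterate i).measure_preimage hCm.nullMeasurableSet
    have h3 : μ B ≤ (2 * w + 1 : ℕ) * μ C := by
      calc μ B ≤ ∑ i ∈ Finset.range (2 * w + 1), μ (T^[i] ⁻¹' C) := measure_biUnion_finset_le _ _
        _ = (2 * w + 1 : ℕ) * μ C := by simp [h2]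
    have h4 : μ C ≤ ENNReal.ofReal (1 / H) := by
      have hHpos : (0 : ℝ) < H := by exact_mod_cast hH1
      rw [ENNReal.ofReal_div_of_pos hHpos, ENNReal.ofReal_one, ENNReal.ofReal_natCast,
        ENNReal.le_div_iff_mul_le (Or.inl (by exact_mod_cast (by omega : H ≠ 0)))
          (Or.inl (ENNReal.natCast_ne_top H)), mul_comm]
      exact hC1
    calc μ B ≤ (2 * w + 1 : ℕ) * μ C := h3
      _ ≤ (2 * w + 1 : ℕ) * ENNReal.ofReal (1 / H) := by gcongr
      _ = ENNReal.ofReal ((2 * w + 1 : ℕ) * (1 / H)) := by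
          rw [ENNReal.ofReal_mul (by positivity), ENNReal.ofReal_natCast]
      _ ≤ ENNReal.ofReal (7 * η) := by
          apply ENNReal.ofReal_le_ofReal
          have hHpos : (0 : ℝ) < H := by exact_mod_cast hH1
          rw [mul_one_div, div_le_iff₀ hHpos]
          push_cast
          nlinarith
  · -- good points
    have hsub : {x | ¬ ∃ L : ℕ, L₀ ≤ L ∧ L ≤ 2 * H ∧
        ∀ j : ℕ, (1 - η) * L ≤ j → (j : ℝ) ≤ (1 + η) * L → T^[j] x ∈ B} ⊆
        T^[H + w] ⁻¹' {x | ∀ i < H, T^[i] x ∉ C} := by
      intro x hx i hi hmem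
      apply hx
      rw [← Function.iterate_add_apply] at hmem
      refine ⟨H + i, by omega, by omega, ?_⟩
      intro j hj1 hj2
      have hiH : (i : ℝ) < H := by exact_mod_cast hi
      push_cast at hj1 hj2
      have hj1' : H + i ≤ j + w := by
        have : ((H + i : ℕ) : ℝ) ≤ ((j + w : ℕ) : ℝ) := by
          push_cast
          nlinarith
        exact_mod_cast this
      have hj2' : j ≤ H + i + w := by
        have : ((j : ℕ) : ℝ) ≤ ((H + i + w : ℕ) : ℝ) := by
          push_cast
          nlinarith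
        exact_mod_cast this
      simp only [hB, mem_iUnion, Finset.mem_range, mem_preimage]
      refine ⟨H + i + w - j, by omega, ?_⟩
      rw [← Function.iterate_add_apply]
      have : H + i + w - j + j = i + (H + w) := by omega
      rw [this]
      exact hmem
    refine (measure_mono hsub).trans ?_
    have hmeas : MeasurableSet {x | ∀ i < H, T^[i] x ∉ C} := by
      have : {x | ∀ i < H, T^[i] x ∉ C} = ⋂ i : ℕ, ⋂ _ : i < H, (T^[i] ⁻¹' C)ᶜ := by
        ext x; simp
      rw [this]
      exact MeasurableSet.iInter fun i => MeasurableSet.iInter fun _ =>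
        ((hT.measurable.iterate _) hCm).compl
    rw [(hT.toMeasurePreserving.iterate (H + w)).measure_preimage hmeas.nullMeasurableSet]
    exact hC2

end Pool.Agent.V11103.Om
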