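import Mathlib

/-! Counting in residue classes. -/

set_option autoImplicit false

open Finset

namespace Pool.Agent.V11103.Om

/-- the number of `n ∈ [1, N]` with `n ≡ r` modulo `d` -/
lemma card_residue (N d : ℕ) (hd : 0 < d) (r : ℤ) :
    (N : ℝ) / d - 1 ≤ (((Icc 1 N).filter (fun n : ℕ => (d : ℤ) ∣ (n : ℤ) - r)).card : ℝ) ∧
    (((Icc 1 N).filter (fun n : ℕ => (d : ℤ) ∣ (n : ℤ) - r)).card : ℝ) ≤ (N : ℝ) / d + 1 := by
  set v : ℕ := (r % d).toNat with hv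
  have hdz : (0 : ℤ) < d := by exact_mod_cast hd
  have hvr : (v : ℤ) = r % d := Int.toNat_of_nonneg (Int.emod_nonneg _ hdz.ne')
  have hset : (Icc 1 N).filter (fun n : ℕ => (d : ℤ) ∣ (n : ℤ) - r) =
      (Ioc 0 N).filter (fun n => n ≡ v [MOD d]) := by
    ext n
    simp only [mem_filter, mem_Icc, mem_Ioc]
    have h1 : n ≡ v [MOD d] ↔ (d : ℤ) ∣ (n : ℤ) - r := by
      rw [← Int.natCast_modEq_iff, hvr]
      constructor
      · intro h
        have h2 : (n : ℤ) ≡ r [ZMOD d] := h.trans (Int.mod_modEq r d)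
        exact (Int.modEq_iff_dvd.1 h2.symm)
      · intro h
        have h2 : (n : ℤ) ≡ r [ZMOD d] := (Int.modEq_iff_dvd.2 h).symm
        exact h2.trans (Int.mod_modEq r d).symm
    rw [h1]
    constructor
    · rintro ⟨⟨h2, h3⟩, h4⟩; exact ⟨⟨by omega, h3⟩, h4⟩
    · rintro ⟨⟨h2, h3⟩, h4⟩; exact ⟨⟨by omega, h3⟩, h4⟩
  rw [hset]
  have hcard := Nat.Ioc_filter_modEq_card 0 N hd v
  have hdq : (0 : ℚ) < d := by exact_mod_cast hd
  set A : ℤ := ⌊((N : ℚ) - v) / d⌋ with hA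
  set B : ℤ := ⌊(((0 : ℕ) : ℚ) - v) / d⌋ with hB
  have hA1 : (A : ℚ) ≤ ((N : ℚ) - v) / d := Int.floor_le _
  have hA2 : ((N : ℚ) - v) / d < A + 1 := Int.lt_floor_add_one _
  have hB1 : (B : ℚ) ≤ (((0 : ℕ) : ℚ) - v) / d := Int.floor_le _
  have hB2 : (((0 : ℕ) : ℚ) - v) / d < B + 1 := Int.lt_floor_add_one _
  have hBA : B ≤ A := by
    apply Int.floor_le_floor
    apply div_le_div_of_nonneg_right _ hdq.le
    have : (0 : ℚ) ≤ N := Nat.cast_nonneg _
    push_cast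
    linarith
  have hmax : max (A - B) 0 = A - B := max_eq_left (by omega)
  rw [hmax] at hcard
  set c := #{x ∈ Ioc 0 N | x ≡ v [MOD d]} with hc
  have hcq : (c : ℚ) = A - B := by exact_mod_cast hcard
  have e1 : ((N : ℚ) - v) / d = N / d - v / d := by rw [sub_div]
  have e2 : (((0 : ℕ) : ℚ) - v) / d = - (v / d) := by push_cast; rw [zero_sub, neg_div]
  rw [e1] at hA1 hA2
  rw [e2] at hB1 hB2
  have l1 : (N : ℚ) / d - 1 ≤ c := by linarith
  have l2 : (c : ℚ) ≤ (N : ℚ) / d + 1 := by linarith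
  constructor
  · have := (Rat.cast_le (K := ℝ)).2 l1
    push_cast at this
    exact this
  · have := (Rat.cast_le (K := ℝ)).2 l2
    push_cast at this
    exact this

/-- the number of multiples of `d` up to `N` -/
lemma card_multiples (N d : ℕ) (hd : 0 < d) :
    (((Icc 1 N).filter (fun n : ℕ => d ∣ n)).card : ℝ) ≤ (N : ℝ) / d := by
  have h1 : (Icc 1 N).filter (fun n : ℕ => d ∣ n) = (Ioc 0 N).filter (fun n => d ∣ n) := by
    ext n; simp only [mem_filter, mem_Icc, mem_Ioc]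
    constructor
    · rintro ⟨⟨h2, h3⟩, h4⟩; exact ⟨⟨by omega, h3⟩, h4⟩
    · rintro ⟨⟨h2, h3⟩, h4⟩; exact ⟨⟨by omega, h3⟩, h4⟩
  rw [h1, Nat.Ioc_filter_dvd_card_eq_div]
  exact Nat.cast_div_le

lemma sum_inv_sq (z : ℕ) : ∑ k ∈ Icc 2 z, (1 : ℝ) / (k : ℝ) ^ 2 ≤ 1 := by
  have h : ∀ z : ℕ, 1 ≤ z → ∑ k ∈ Icc 2 z, (1 : ℝ) / (k : ℝ) ^ 2 ≤ 1 - 1 / z := by
    intro z hz
    induction z, hz using Nat.le_induction with
    | base => simp
    | succ n hn ih =>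
      rw [Finset.sum_Icc_succ_top (by omega)]
      have hn' : (1 : ℝ) ≤ n := by exact_mod_cast hn
      have : (1 : ℝ) / ((n + 1 : ℕ) : ℝ) ^ 2 ≤ 1 / n - 1 / ((n + 1 : ℕ) : ℝ) := by
        push_cast
        rw [div_sub_div _ _ (by positivity) (by positivity), div_le_div_iff₀ (by positivity) (by positivity)]
        nlinarith
      linarith
  rcases Nat.eq_zero_or_pos z with h0 | h0
  · subst h0; simp
  · have := h z h0
    have h2 : (0 : ℝ) ≤ 1 / (z : ℝ) := by positivity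
    linarith

/-- if `p ^ j` divides `a ^ 2 + b ^ 2`, where `p` is odd and does not divide `a`, and
`p ^ j ∣ i ^ 2 + 1`, then `b = ± i a` modulo `p ^ j` -/
lemma root_or (p j : ℕ) (hp : p.Prime) (hp2 : p ≠ 2) (a b i : ℤ) (ha : ¬ (p : ℤ) ∣ a)
    (h1 : ((p ^ j : ℕ) : ℤ) ∣ a ^ 2 + b ^ 2) (h2 : ((p ^ j : ℕ) : ℤ) ∣ i ^ 2 + 1) :
    ((p ^ j : ℕ) : ℤ) ∣ b - i * a ∨ ((p ^ j : ℕ) : ℤ) ∣ b - (-i) * a := by
  rcases Nat.eq_zero_or_pos j with hj | hj
  · left; subst hj; simp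
  have hpz : Prime (p : ℤ) := Nat.prime_iff_prime_int.1 hp
  have hpp : (p : ℤ) ∣ ((p ^ j : ℕ) : ℤ) := by
    exact_mod_cast dvd_pow_self p hj.ne'
  have hprod : ((p ^ j : ℕ) : ℤ) ∣ (b - i * a) * (b - (-i) * a) := by
    have : (b - i * a) * (b - (-i) * a) = (a ^ 2 + b ^ 2) - (i ^ 2 + 1) * a ^ 2 := by ring
    rw [this]
    exact dvd_sub h1 (h2.mul_right _)
  have hnot : ¬ ((p : ℤ) ∣ b - i * a ∧ (p : ℤ) ∣ b - (-i) * a) := by
    rintro ⟨h3, h4⟩
    have h5 : (p : ℤ) ∣ 2 * (i * a) := by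
      have : 2 * (i * a) = (b - (-i) * a) - (b - i * a) := by ring
      rw [this]; exact dvd_sub h4 h3
    rcases hpz.dvd_or_dvd h5 with h6 | h6
    · have : p ∣ 2 := by exact_mod_cast h6
      exact hp2 ((Nat.prime_dvd_prime_iff_eq hp Nat.prime_two).1 this)
    · rcases hpz.dvd_or_dvd h6 with h7 | h7
      · have h8 : (p : ℤ) ∣ 1 := by
          have : (1 : ℤ) = (i ^ 2 + 1) - i * i := by ring
          rw [this]
          exact dvd_sub (hpp.trans h2) (h7.mul_right _)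
        exact hpz.not_dvd_one h8
      · exact ha h7
  push_cast at hprod ⊢
  by_cases h3 : (p : ℤ) ∣ b - i * a
  · left
    have h4 : ¬ (p : ℤ) ∣ b - (-i) * a := fun h => hnot ⟨h3, h⟩
    have hcop : IsCoprime ((p : ℤ) ^ j) (b - (-i) * a) :=
      ((hpz.coprime_iff_not_dvd).2 h4).pow_left
    exact hcop.dvd_of_dvd_mul_right hprod
  · right
    have hcop : IsCoprime ((p : ℤ) ^ j) (b - i * a) :=
      ((hpz.coprime_iff_not_dvd).2 h3).pow_left
    exact hcop.dvd_of_dvd_mul_left hprod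

end Pool.Agent.V11103.Om
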