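import Pool.Agent.V11103.OmNT1

/-! The variance of the number of prime divisors `1` modulo `4` of `m² + n²`. -/

set_option autoImplicit false

open Finset

namespace Pool.Agent.V11103.Om

lemma exists_root (p : ℕ) (hp : p.Prime) (h4 : p % 4 = 1) : ∃ i : ℤ, (p : ℤ) ∣ i ^ 2 + 1 := by
  haveI := Fact.mk hp
  obtain ⟨y, hy⟩ := (ZMod.exists_sq_eq_neg_one_iff (p := p)).2 (by omega)
  obtain ⟨i, hi⟩ := ZMod.intCast_surjective y
  refine ⟨i, ?_⟩
  rw [← ZMod.intCast_zmod_eq_zero_iff_dvd]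
  push_cast
  rw [hi, pow_two, ← hy]
  ring

/-- indicator of `p ∣ m² + n²` -/
noncomputable def ind (p m n : ℕ) : ℝ := if p ∣ m ^ 2 + n ^ 2 then 1 else 0

lemma ind_nonneg (p m n : ℕ) : 0 ≤ ind p m n := by unfold ind; split_ifs <;> norm_num

lemma sum_ind (p m N : ℕ) : ∑ n ∈ Icc 1 N, ind p m n =
    (((Icc 1 N).filter (fun n : ℕ => p ∣ m ^ 2 + n ^ 2)).card : ℝ) := by
  unfold ind
  rw [Finset.sum_ite, Finset.sum_const_zero, add_zero, Finset.sum_const, nsmul_eq_mul, mul_one]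

lemma or_of_dvd (p m n : ℕ) (hp : p.Prime) (i : ℤ) (hi : (p : ℤ) ∣ i ^ 2 + 1)
    (h : p ∣ m ^ 2 + n ^ 2) : (p : ℤ) ∣ (n : ℤ) - i * m ∨ (p : ℤ) ∣ (n : ℤ) - (-(i * m)) := by
  have hpz : Prime (p : ℤ) := Nat.prime_iff_prime_int.1 hp
  have h1 : (p : ℤ) ∣ (m : ℤ) ^ 2 + (n : ℤ) ^ 2 := by exact_mod_cast h
  have h2 : (p : ℤ) ∣ ((n : ℤ) - i * m) * ((n : ℤ) - (-(i * m))) := by
    have : ((n : ℤ) - i * m) * ((n : ℤ) - (-(i * m))) =
        ((m : ℤ) ^ 2 + (n : ℤ) ^ 2) - (i ^ 2 + 1) * (m : ℤ) ^ 2 := by ring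
    rw [this]
    exact dvd_sub h1 (hi.mul_right _)
  exact hpz.dvd_or_dvd h2

lemma upper_one (p m N : ℕ) (hp : p.Prime) (h4 : p % 4 = 1) :
    ∑ n ∈ Icc 1 N, ind p m n ≤ 2 * ((N : ℝ) / p + 1) := by
  obtain ⟨i, hi⟩ := exists_root p hp h4
  rw [sum_ind]
  have hsub : (Icc 1 N).filter (fun n : ℕ => p ∣ m ^ 2 + n ^ 2) ⊆
      (Icc 1 N).filter (fun n : ℕ => (p : ℤ) ∣ (n : ℤ) - i * m) ∪
      (Icc 1 N).filter (fun n : ℕ => (p : ℤ) ∣ (n : ℤ) - (-(i * m))) := by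
    intro n hn
    rw [mem_filter] at hn
    rw [mem_union, mem_filter, mem_filter]
    rcases or_of_dvd p m n hp i hi hn.2 with h | h
    · exact Or.inl ⟨hn.1, h⟩
    · exact Or.inr ⟨hn.1, h⟩
  have h1 := (Finset.card_le_card hsub).trans (Finset.card_union_le _ _)
  have h1' : (((Icc 1 N).filter (fun n : ℕ => p ∣ m ^ 2 + n ^ 2)).card : ℝ) ≤
      (((Icc 1 N).filter (fun n : ℕ => (p : ℤ) ∣ (n : ℤ) - i * m)).card : ℝ) +
      (((Icc 1 N).filter (fun n : ℕ => (p : ℤ) ∣ (n : ℤ) - (-(i * m)))).card : ℝ) := by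
    exact_mod_cast h1
  have h2 := (card_residue N p hp.pos (i * m)).2
  have h3 := (card_residue N p hp.pos (-(i * m))).2
  linarith

lemma upper_two (p q m N : ℕ) (hp : p.Prime) (h4 : p % 4 = 1) (hq : q.Prime) (hq4 : q % 4 = 1)
    (hpq : p ≠ q) :
    ∑ n ∈ Icc 1 N, ind p m n * ind q m n ≤ 4 * ((N : ℝ) / (p * q) + 1) := by
  obtain ⟨i, hi⟩ := exists_root p hp h4
  obtain ⟨k, hk⟩ := exists_root q hq hq4
  have hcop : IsCoprime (p : ℤ) (q : ℤ) := by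
    rw [Nat.isCoprime_iff_coprime]
    exact (Nat.coprime_primes hp hq).2 hpq
  have hboth : ∀ a b : ℤ, (((Icc 1 N).filter
      (fun n : ℕ => (p : ℤ) ∣ (n : ℤ) - a ∧ (q : ℤ) ∣ (n : ℤ) - b)).card : ℝ) ≤
      (N : ℝ) / (p * q) + 1 := by
    intro a b
    obtain ⟨u, v, huv⟩ := hcop
    set c : ℤ := a * v * q + b * u * p with hc
    have h1 : (p : ℤ) ∣ a - c := ⟨u * (a - b), by rw [hc]; linear_combination (-a) * huv⟩
    have h2 : (q : ℤ) ∣ b - c := ⟨v * (b - a), by rw [hc]; linear_combination (-b) * huv⟩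
    have hcop' : IsCoprime (p : ℤ) (q : ℤ) := ⟨u, v, huv⟩
    have hsub : (Icc 1 N).filter
        (fun n : ℕ => (p : ℤ) ∣ (n : ℤ) - a ∧ (q : ℤ) ∣ (n : ℤ) - b) ⊆
        (Icc 1 N).filter (fun n : ℕ => ((p * q : ℕ) : ℤ) ∣ (n : ℤ) - c) := by
      intro n hn
      rw [mem_filter] at hn ⊢
      refine ⟨hn.1, ?_⟩
      push_cast
      apply hcop'.mul_dvd
      · have := dvd_add hn.2.1 h1
        simpa using this
      · have := dvd_add hn.2.2 h2
        simpa using this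
    have h3 := (card_residue N (p * q) (Nat.mul_pos hp.pos hq.pos) c).2
    have h4 : (((Icc 1 N).filter
        (fun n : ℕ => (p : ℤ) ∣ (n : ℤ) - a ∧ (q : ℤ) ∣ (n : ℤ) - b)).card : ℝ) ≤
        (((Icc 1 N).filter (fun n : ℕ => ((p * q : ℕ) : ℤ) ∣ (n : ℤ) - c)).card : ℝ) := by
      exact_mod_cast Finset.card_le_card hsub
    push_cast at h3 h4
    exact h4.trans h3
  have hle : ∑ n ∈ Icc 1 N, ind p m n * ind q m n ≤
      ∑ n ∈ Icc 1 N,
        ((if (p : ℤ) ∣ (n : ℤ) - i * m ∧ (q : ℤ) ∣ (n : ℤ) - k * m then (1 : ℝ) else 0) +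
        (if (p : ℤ) ∣ (n : ℤ) - i * m ∧ (q : ℤ) ∣ (n : ℤ) - (-(k * m)) then (1 : ℝ) else 0) +
        (if (p : ℤ) ∣ (n : ℤ) - (-(i * m)) ∧ (q : ℤ) ∣ (n : ℤ) - k * m then (1 : ℝ) else 0) +
        (if (p : ℤ) ∣ (n : ℤ) - (-(i * m)) ∧ (q : ℤ) ∣ (n : ℤ) - (-(k * m)) then (1 : ℝ) else 0)) := by
    apply Finset.sum_le_sum
    intro n _
    by_cases h1 : p ∣ m ^ 2 + n ^ 2
    · by_cases h2 : q ∣ m ^ 2 + n ^ 2
      · have e1 := or_of_dvd p m n hp i hi h1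
        have e2 := or_of_dvd q m n hq k hk h2
        have hind : ind p m n * ind q m n = 1 := by simp [ind, h1, h2]
        rw [hind]
        have hn : ∀ c : Prop, [Decidable c] → (0 : ℝ) ≤ (if c then (1 : ℝ) else 0) := by
          intro c _; split_ifs <;> norm_num
        rcases e1 with e1 | e1 <;> rcases e2 with e2 | e2
        · rw [if_pos ⟨e1, e2⟩]
          have a1 := hn ((p : ℤ) ∣ (n : ℤ) - i * m ∧ (q : ℤ) ∣ (n : ℤ) - (-(k * m)))
          have a2 := hn ((p : ℤ) ∣ (n : ℤ) - (-(i * m)) ∧ (q : ℤ) ∣ (n : ℤ) - k * m)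
          have a3 := hn ((p : ℤ) ∣ (n : ℤ) - (-(i * m)) ∧ (q : ℤ) ∣ (n : ℤ) - (-(k * m)))
          linarith
        · rw [if_pos (c := (p : ℤ) ∣ (n : ℤ) - i * m ∧ (q : ℤ) ∣ (n : ℤ) - (-(k * m))) ⟨e1, e2⟩]
          have a1 := hn ((p : ℤ) ∣ (n : ℤ) - i * m ∧ (q : ℤ) ∣ (n : ℤ) - k * m)
          have a2 := hn ((p : ℤ) ∣ (n : ℤ) - (-(i * m)) ∧ (q : ℤ) ∣ (n : ℤ) - k * m)
          have a3 := hn ((p : ℤ) ∣ (n : ℤ) - (-(i * m)) ∧ (q : ℤ) ∣ (n : ℤ) - (-(k * m)))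
          linarith
        · rw [if_pos (c := (p : ℤ) ∣ (n : ℤ) - (-(i * m)) ∧ (q : ℤ) ∣ (n : ℤ) - k * m) ⟨e1, e2⟩]
          have a1 := hn ((p : ℤ) ∣ (n : ℤ) - i * m ∧ (q : ℤ) ∣ (n : ℤ) - k * m)
          have a2 := hn ((p : ℤ) ∣ (n : ℤ) - i * m ∧ (q : ℤ) ∣ (n : ℤ) - (-(k * m)))
          have a3 := hn ((p : ℤ) ∣ (n : ℤ) - (-(i * m)) ∧ (q : ℤ) ∣ (n : ℤ) - (-(k * m)))
          linarith
        · rw [if_pos (c := (p : ℤ) ∣ (n : ℤ) - (-(i * m)) ∧ (q : ℤ) ∣ (n : ℤ) - (-(k * m))) ⟨e1, e2⟩]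
          have a1 := hn ((p : ℤ) ∣ (n : ℤ) - i * m ∧ (q : ℤ) ∣ (n : ℤ) - k * m)
          have a2 := hn ((p : ℤ) ∣ (n : ℤ) - i * m ∧ (q : ℤ) ∣ (n : ℤ) - (-(k * m)))
          have a3 := hn ((p : ℤ) ∣ (n : ℤ) - (-(i * m)) ∧ (q : ℤ) ∣ (n : ℤ) - k * m)
          linarith
      · have hind : ind p m n * ind q m n = 0 := by simp [ind, h2]
        rw [hind]
        positivity
    · have hind : ind p m n * ind q m n = 0 := by simp [ind, h1]
      rw [hind]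
      positivity
  refine hle.trans ?_
  simp only [Finset.sum_add_distrib]
  have hcount : ∀ a b : ℤ, ∑ n ∈ Icc 1 N,
      (if (p : ℤ) ∣ (n : ℤ) - a ∧ (q : ℤ) ∣ (n : ℤ) - b then (1 : ℝ) else 0) ≤
      (N : ℝ) / (p * q) + 1 := by
    intro a b
    rw [Finset.sum_ite, Finset.sum_const_zero, add_zero, Finset.sum_const, nsmul_eq_mul, mul_one]
    exact hboth a b
  have c1 := hcount (i * m) (k * m)
  have c2 := hcount (i * m) (-(k * m))
  have c3 := hcount (-(i * m)) (k * m)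
  have c4 := hcount (-(i * m)) (-(k * m))
  linarith

lemma lower_one (p m N : ℕ) (hp : p.Prime) (h4 : p % 4 = 1) (hm : ¬ p ∣ m) :
    2 * ((N : ℝ) / p - 1) ≤ ∑ n ∈ Icc 1 N, ind p m n := by
  obtain ⟨i, hi⟩ := exists_root p hp h4
  rw [sum_ind]
  have hpz : Prime (p : ℤ) := Nat.prime_iff_prime_int.1 hp
  have hsub : (Icc 1 N).filter (fun n : ℕ => (p : ℤ) ∣ (n : ℤ) - i * m) ∪
      (Icc 1 N).filter (fun n : ℕ => (p : ℤ) ∣ (n : ℤ) - (-(i * m))) ⊆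
      (Icc 1 N).filter (fun n : ℕ => p ∣ m ^ 2 + n ^ 2) := by
    intro n hn
    rw [mem_union, mem_filter, mem_filter] at hn
    rw [mem_filter]
    have h2 : (p : ℤ) ∣ ((n : ℤ) - i * m) * ((n : ℤ) - (-(i * m))) →  p ∣ m ^ 2 + n ^ 2 := by
      intro h
      have : ((m : ℤ) ^ 2 + (n : ℤ) ^ 2) = ((n : ℤ) - i * m) * ((n : ℤ) - (-(i * m))) +
        (i ^ 2 + 1) * (m : ℤ) ^ 2 := by ring
      have h3 : (p : ℤ) ∣ (m : ℤ) ^ 2 + (n : ℤ) ^ 2 := by
        rw [this]; exact dvd_add h (hi.mul_right _)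
      exact_mod_cast h3
    rcases hn with h | h
    · exact ⟨h.1, h2 (h.2.mul_right _)⟩
    · exact ⟨h.1, h2 (h.2.mul_left _)⟩
  have hdisj : Disjoint ((Icc 1 N).filter (fun n : ℕ => (p : ℤ) ∣ (n : ℤ) - i * m))
      ((Icc 1 N).filter (fun n : ℕ => (p : ℤ) ∣ (n : ℤ) - (-(i * m)))) := by
    rw [Finset.disjoint_filter]
    intro n _ h5 h6
    have h7 : (p : ℤ) ∣ 2 * (i * m) := by
      have : 2 * (i * (m : ℤ)) = ((n : ℤ) - (-(i * m))) - ((n : ℤ) - i * m) := by ring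
      rw [this]; exact dvd_sub h6 h5
    rcases hpz.dvd_or_dvd h7 with h8 | h8
    · have h9 : p ∣ 2 := by exact_mod_cast h8
      have h10 := (Nat.prime_dvd_prime_iff_eq hp Nat.prime_two).1 h9
      omega
    · rcases hpz.dvd_or_dvd h8 with h9 | h9
      · have h10 : (p : ℤ) ∣ 1 := by
          have : (1 : ℤ) = (i ^ 2 + 1) - i * i := by ring
          rw [this]
          exact dvd_sub hi (h9.mul_right _)
        exact hpz.not_dvd_one h10
      · exact hm (by exact_mod_cast h9)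
  have h1 := Finset.card_le_card hsub
  rw [Finset.card_union_of_disjoint hdisj] at h1
  have h1' : (((Icc 1 N).filter (fun n : ℕ => (p : ℤ) ∣ (n : ℤ) - i * m)).card : ℝ) +
      (((Icc 1 N).filter (fun n : ℕ => (p : ℤ) ∣ (n : ℤ) - (-(i * m)))).card : ℝ) ≤
      (((Icc 1 N).filter (fun n : ℕ => p ∣ m ^ 2 + n ^ 2)).card : ℝ) := by
    exact_mod_cast h1
  have h2 := (card_residue N p hp.pos (i * m)).1
  have h3 := (card_residue N p hp.pos (-(i * m))).1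
  linarith

/-- the number of the primes in `P` which divide `m² + n²` -/
noncomputable def om (P : Finset ℕ) (m n : ℕ) : ℝ := ∑ p ∈ P, ind p m n

/-- its mean -/
noncomputable def mean (P : Finset ℕ) : ℝ := ∑ p ∈ P, 2 / (p : ℝ)

lemma mean_nonneg (P : Finset ℕ) : 0 ≤ mean P := Finset.sum_nonneg fun p _ => by positivity

variable (P : Finset ℕ) (hP : ∀ p ∈ P, p.Prime ∧ p % 4 = 1)

include hP in
lemma second_moment (m N : ℕ) : ∑ n ∈ Icc 1 N, om P m n ^ 2 ≤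
    N * mean P ^ 2 + 4 * (P.card : ℝ) ^ 2 + N * mean P + 2 * P.card := by
  have h1 : ∑ n ∈ Icc 1 N, om P m n ^ 2 =
      ∑ p ∈ P, ∑ q ∈ P, ∑ n ∈ Icc 1 N, ind p m n * ind q m n := by
    unfold om
    simp only [pow_two, Finset.sum_mul_sum]
    rw [Finset.sum_comm]
    apply Finset.sum_congr rfl
    intro p _
    rw [Finset.sum_comm]
  rw [h1]
  have h2 : ∀ p ∈ P, ∀ q ∈ P, ∑ n ∈ Icc 1 N, ind p m n * ind q m n ≤
      4 * ((N : ℝ) / (p * q) + 1) + if p = q then 2 * ((N : ℝ) / p + 1) else 0 := by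
    intro p hp q hq
    by_cases hpq : p = q
    · subst hpq
      rw [if_pos rfl]
      have h3 : ∀ n, ind p m n * ind p m n = ind p m n := by
        intro n; unfold ind; split_ifs <;> norm_num
      simp only [h3]
      have h4 := upper_one p m N (hP p hp).1 (hP p hp).2
      have h5 : (0 : ℝ) ≤ 4 * ((N : ℝ) / (p * p) + 1) := by positivity
      linarith
    · rw [if_neg hpq, add_zero]
      exact upper_two p q m N (hP p hp).1 (hP p hp).2 (hP q hq).1 (hP q hq).2 hpq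
  refine (Finset.sum_le_sum fun p hp => Finset.sum_le_sum fun q hq => h2 p hp q hq).trans ?_
  apply le_of_eq
  simp only [Finset.sum_add_distrib, Finset.sum_ite_eq, mul_add, mul_one]
  have h3 : ∑ p ∈ P, ∑ q ∈ P, 4 * ((N : ℝ) / (p * q)) = N * mean P ^ 2 := by
    unfold mean
    rw [pow_two, Finset.sum_mul_sum, Finset.mul_sum]
    apply Finset.sum_congr rfl
    intro p _
    rw [Finset.mul_sum]
    apply Finset.sum_congr rfl
    intro q _
    rw [div_mul_div_comm]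
    ring
  have h4 : ∑ p ∈ P, (if p ∈ P then 2 * ((N : ℝ) / p) + 2 else 0) = N * mean P + 2 * P.card := by
    have : ∀ p ∈ P, (if p ∈ P then 2 * ((N : ℝ) / p) + 2 else 0) = N * (2 / p) + 2 := by
      intro p hp; rw [if_pos hp]; ring
    rw [Finset.sum_congr rfl this, Finset.sum_add_distrib, ← Finset.mul_sum]
    simp [mean, mul_comm]
  rw [h3, h4]
  simp only [Finset.sum_const, nsmul_eq_mul]
  ring

include hP in
lemma first_moment (m N : ℕ) : N * mean P - 2 * P.card -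
    ∑ p ∈ P, (if p ∣ m then 2 * (N : ℝ) / p else 0) ≤ ∑ n ∈ Icc 1 N, om P m n := by
  have h1 : ∑ n ∈ Icc 1 N, om P m n = ∑ p ∈ P, ∑ n ∈ Icc 1 N, ind p m n := by
    unfold om; rw [Finset.sum_comm]
  rw [h1]
  have h2 : N * mean P - 2 * P.card - ∑ p ∈ P, (if p ∣ m then 2 * (N : ℝ) / p else 0) =
      ∑ p ∈ P, (N * (2 / (p : ℝ)) - 2 - (if p ∣ m then 2 * (N : ℝ) / p else 0)) := by
    rw [Finset.sum_sub_distrib, Finset.sum_sub_distrib, ← Finset.mul_sum]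
    simp [mean, mul_comm]
  rw [h2]
  apply Finset.sum_le_sum
  intro p hp
  by_cases hpm : p ∣ m
  · rw [if_pos hpm]
    have h3 : 0 ≤ ∑ n ∈ Icc 1 N, ind p m n := Finset.sum_nonneg fun n _ => ind_nonneg p m n
    have h4 : (N : ℝ) * (2 / (p : ℝ)) = 2 * (N : ℝ) / p := by ring
    linarith
  · rw [if_neg hpm]
    have h3 := lower_one p m N (hP p hp).1 (hP p hp).2 hpm
    have h4 : (N : ℝ) * (2 / (p : ℝ)) = 2 * ((N : ℝ) / p) := by ring
    linarith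

include hP in
lemma variance_m (m N : ℕ) : ∑ n ∈ Icc 1 N, (om P m n - mean P) ^ 2 ≤
    N * mean P + 4 * (P.card : ℝ) ^ 2 + 2 * P.card + 4 * mean P * P.card +
      2 * mean P * ∑ p ∈ P, (if p ∣ m then 2 * (N : ℝ) / p else 0) := by
  have h1 : ∑ n ∈ Icc 1 N, (om P m n - mean P) ^ 2 =
      ∑ n ∈ Icc 1 N, om P m n ^ 2 - 2 * mean P * ∑ n ∈ Icc 1 N, om P m n + N * mean P ^ 2 := by
    have : ∀ n, (om P m n - mean P) ^ 2 = om P m n ^ 2 - 2 * mean P * om P m n + mean P ^ 2 := by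
      intro n; ring
    simp only [this, Finset.sum_add_distrib, Finset.sum_sub_distrib, ← Finset.mul_sum]
    simp
  rw [h1]
  have h2 := second_moment P hP m N
  have h3 := first_moment P hP m N
  have h4 := mean_nonneg P
  nlinarith

include hP in
lemma variance (N : ℕ) (z : ℕ) (hz : ∀ p ∈ P, p ≤ z) (hN : (z : ℝ) ^ 2 ≤ N) (hz1 : 1 ≤ z) :
    ∑ m ∈ Icc 1 N, ∑ n ∈ Icc 1 N, (om P m n - mean P) ^ 2 ≤ (5 * mean P + 10) * (N : ℝ) ^ 2 := by
  have hcard : (P.card : ℝ) ≤ z := by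
    have h1 : P ⊆ Icc 1 z := fun p hp => mem_Icc.2 ⟨(hP p hp).1.one_lt.le, hz p hp⟩
    have := Finset.card_le_card h1
    rw [Nat.card_Icc] at this
    exact_mod_cast (this.trans (by omega))
  have hmean : mean P ≤ P.card := by
    unfold mean
    calc ∑ p ∈ P, 2 / (p : ℝ) ≤ ∑ p ∈ P, (1 : ℝ) := by
          apply Finset.sum_le_sum
          intro p hp
          have : (2 : ℝ) ≤ p := by exact_mod_cast (hP p hp).1.two_le
          rw [div_le_one (by linarith)]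
          exact this
      _ = P.card := by simp
  have h1 : ∑ m ∈ Icc 1 N, ∑ n ∈ Icc 1 N, (om P m n - mean P) ^ 2 ≤
      ∑ m ∈ Icc 1 N, (N * mean P + 4 * (P.card : ℝ) ^ 2 + 2 * P.card + 4 * mean P * P.card +
      2 * mean P * ∑ p ∈ P, (if p ∣ m then 2 * (N : ℝ) / p else 0)) :=
    Finset.sum_le_sum fun m _ => variance_m P hP m N
  refine h1.trans ?_
  rw [Finset.sum_add_distrib, ← Finset.mul_sum, Finset.sum_comm]
  have h2 : ∑ p ∈ P, ∑ m ∈ Icc 1 N, (if p ∣ m then 2 * (N : ℝ) / p else 0) ≤ 2 * (N : ℝ) ^ 2 := by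
    calc ∑ p ∈ P, ∑ m ∈ Icc 1 N, (if p ∣ m then 2 * (N : ℝ) / p else 0)
        ≤ ∑ p ∈ P, 2 * (N : ℝ) ^ 2 * (1 / (p : ℝ) ^ 2) := by
          apply Finset.sum_le_sum
          intro p hp
          rw [Finset.sum_ite, Finset.sum_const_zero, add_zero, Finset.sum_const, nsmul_eq_mul]
          have h3 := card_multiples N p (hP p hp).1.pos
          have h4 : (0 : ℝ) ≤ 2 * (N : ℝ) / p := by positivity
          calc _ ≤ (N : ℝ) / p * (2 * (N : ℝ) / p) := by gcongr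
            _ = 2 * (N : ℝ) ^ 2 * (1 / (p : ℝ) ^ 2) := by ring
      _ = 2 * (N : ℝ) ^ 2 * ∑ p ∈ P, (1 / (p : ℝ) ^ 2) := by rw [Finset.mul_sum]
      _ ≤ 2 * (N : ℝ) ^ 2 * 1 := by
          gcongr
          refine le_trans ?_ (sum_inv_sq z)
          apply Finset.sum_le_sum_of_subset_of_nonneg
          · exact fun p hp => mem_Icc.2 ⟨(hP p hp).1.two_le, hz p hp⟩
          · intro p _ _; positivity
      _ = 2 * (N : ℝ) ^ 2 := by ring
  have h5 := mean_nonneg P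
  rw [Finset.sum_const, Nat.card_Icc, nsmul_eq_mul]
  have hN0 : (0 : ℝ) ≤ N := Nat.cast_nonneg _
  have hz1' : (1 : ℝ) ≤ z := by exact_mod_cast hz1
  have e1 : ((N + 1 - 1 : ℕ) : ℝ) = N := by simp
  rw [e1]
  have h6 : 4 * (P.card : ℝ) ^ 2 ≤ 4 * N := by nlinarith
  have h7 : 2 * (P.card : ℝ) ≤ 2 * N := by nlinarith
  have h8 : 4 * mean P * P.card ≤ 4 * N := by nlinarith
  have h9 : 2 * mean P * ∑ p ∈ P, ∑ m ∈ Icc 1 N, (if p ∣ m then 2 * (N : ℝ) / p else 0) ≤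
      2 * mean P * (2 * (N : ℝ) ^ 2) := by gcongr
  nlinarith

end Pool.Agent.V11103.Om
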