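import Pool.Agent.V11103.OmNT2

/-! Comparison of `Ω(m² + n²)` with the number of its small prime divisors `1` modulo `4`. -/

set_option autoImplicit false

open Finset ArithmeticFunction

namespace Pool.Agent.V11103.Om

lemma Om_le_divisors (n : ℕ) (hn : n ≠ 0) : cardFactors n ≤ n.divisors.card := by
  induction n using induction_on_primes with
  | zero => exact absurd rfl hn
  | one => simp
  | prime_mul p a hp ih =>
    have ha : a ≠ 0 := fun h => hn (by rw [h, mul_zero])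
    rw [cardFactors_mul hp.ne_zero ha, cardFactors_apply_prime hp]
    have h1 : insert (p * a) a.divisors ⊆ (p * a).divisors := by
      intro d hd
      rw [mem_insert] at hd
      rcases hd with rfl | hd
      · exact Nat.mem_divisors_self _ hn
      · rw [Nat.mem_divisors] at hd ⊢
        exact ⟨hd.1.mul_left p, hn⟩
    have h2 : p * a ∉ a.divisors := by
      intro h
      have h3 := Nat.divisor_le h
      have h4 : a < p * a := by
        have := hp.one_lt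
        have ha' : 0 < a := Nat.pos_of_ne_zero ha
        nlinarith
      omega
    have h5 := Finset.card_le_card h1
    rw [Finset.card_insert_of_notMem h2] at h5
    have := ih ha
    omega

/-- number of common divisors -/
noncomputable def comdiv (N m n : ℕ) : ℝ := ∑ d ∈ Icc 1 N, if d ∣ m ∧ d ∣ n then (1 : ℝ) else 0

lemma Om_gcd_le (N m n : ℕ) (hm : 1 ≤ m) (hmN : m ≤ N) :
    (cardFactors (Nat.gcd m n) : ℝ) ≤ comdiv N m n := by
  have hg : Nat.gcd m n ≠ 0 := (Nat.gcd_pos_of_pos_left n hm).ne'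
  have h1 := Om_le_divisors _ hg
  have h2 : (Nat.gcd m n).divisors ⊆ (Icc 1 N).filter (fun d => d ∣ m ∧ d ∣ n) := by
    intro d hd
    rw [Nat.mem_divisors] at hd
    rw [mem_filter, mem_Icc]
    have h3 : d ∣ m := hd.1.trans (Nat.gcd_dvd_left m n)
    have h4 : d ∣ n := hd.1.trans (Nat.gcd_dvd_right m n)
    exact ⟨⟨Nat.pos_of_dvd_of_pos h3 hm, (Nat.le_of_dvd hm h3).trans hmN⟩, h3, h4⟩
  have h3 := Finset.card_le_card h2
  unfold comdiv
  rw [Finset.sum_ite, Finset.sum_const_zero, add_zero, Finset.sum_const, nsmul_eq_mul, mul_one]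
  exact_mod_cast h1.trans h3

lemma sum_comdiv (N : ℕ) : ∑ m ∈ Icc 1 N, ∑ n ∈ Icc 1 N, comdiv N m n ≤ 2 * (N : ℝ) ^ 2 := by
  have h1 : ∑ m ∈ Icc 1 N, ∑ n ∈ Icc 1 N, comdiv N m n =
      ∑ d ∈ Icc 1 N, (((Icc 1 N).filter (fun n : ℕ => d ∣ n)).card : ℝ) ^ 2 := by
    unfold comdiv
    have : ∀ m : ℕ, ∑ n ∈ Icc 1 N, ∑ d ∈ Icc 1 N, (if d ∣ m ∧ d ∣ n then (1 : ℝ) else 0) =
        ∑ d ∈ Icc 1 N, ∑ n ∈ Icc 1 N, (if d ∣ m ∧ d ∣ n then (1 : ℝ) else 0) :=
      fun m => Finset.sum_comm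
    simp only [this]
    rw [Finset.sum_comm]
    apply Finset.sum_congr rfl
    intro d _
    have h2 : ∀ m n : ℕ, (if d ∣ m ∧ d ∣ n then (1 : ℝ) else 0) =
        (if d ∣ m then 1 else 0) * (if d ∣ n then 1 else 0) := by
      intro m n
      by_cases h3 : d ∣ m <;> by_cases h4 : d ∣ n <;> simp [h3, h4]
    simp only [h2, ← Finset.mul_sum, ← Finset.sum_mul]
    rw [pow_two]
    congr 1 <;>
    rw [Finset.sum_ite, Finset.sum_const_zero, add_zero, Finset.sum_const, nsmul_eq_mul, mul_one]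
  rw [h1]
  have h3 : ∀ d ∈ Icc 1 N, (((Icc 1 N).filter (fun n : ℕ => d ∣ n)).card : ℝ) ^ 2 ≤
      (N : ℝ) ^ 2 * (1 / (d : ℝ) ^ 2) := by
    intro d hd
    have h4 := card_multiples N d (mem_Icc.1 hd).1
    calc (((Icc 1 N).filter (fun n : ℕ => d ∣ n)).card : ℝ) ^ 2 ≤ ((N : ℝ) / d) ^ 2 := by
          gcongr
      _ = (N : ℝ) ^ 2 * (1 / (d : ℝ) ^ 2) := by ring
  refine (Finset.sum_le_sum h3).trans ?_
  rw [← Finset.mul_sum]
  have h4 : ∑ d ∈ Icc 1 N, 1 / (d : ℝ) ^ 2 ≤ 2 := by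
    rcases Nat.eq_zero_or_pos N with h0 | h0
    · subst h0; simp
    · have h5 : Icc 1 N = insert 1 (Icc 2 N) := by
        ext x; simp only [mem_insert, mem_Icc]; omega
      rw [h5, Finset.sum_insert (by simp)]
      have := sum_inv_sq N
      norm_num
      norm_num at this
      linarith
  nlinarith [sq_nonneg (N : ℝ)]

open Classical in
/-- a square root of `-1` modulo `p ^ j`, if there is one -/
noncomputable def rt (p j : ℕ) : ℤ :=
  if h : ∃ i : ℤ, ((p ^ j : ℕ) : ℤ) ∣ i ^ 2 + 1 then h.choose else 0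

lemma rt_spec (p j : ℕ) (h : ∃ i : ℤ, ((p ^ j : ℕ) : ℤ) ∣ i ^ 2 + 1) :
    ((p ^ j : ℕ) : ℤ) ∣ (rt p j) ^ 2 + 1 := by
  unfold rt
  rw [dif_pos h]
  exact h.choose_spec

/-- indicator of `n = ± i m` modulo `p ^ j` -/
noncomputable def ev (p j m n : ℕ) : ℝ :=
  if (((p ^ j : ℕ) : ℤ) ∣ (n : ℤ) - rt p j * m ∨ ((p ^ j : ℕ) : ℤ) ∣ (n : ℤ) - (-(rt p j * m)))
    then 1 else 0

lemma ev_nonneg (p j m n : ℕ) : 0 ≤ ev p j m n := by unfold ev; split_ifs <;> norm_num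

lemma ev_sum (p j m N : ℕ) (hp : 0 < p) :
    ∑ n ∈ Icc 1 N, ev p j m n ≤ 2 * ((N : ℝ) / (p : ℝ) ^ j + 1) := by
  unfold ev
  rw [Finset.sum_ite, Finset.sum_const_zero, add_zero, Finset.sum_const, nsmul_eq_mul, mul_one]
  rw [Finset.filter_or]
  have h1 := Finset.card_union_le
    ((Icc 1 N).filter (fun n : ℕ => ((p ^ j : ℕ) : ℤ) ∣ (n : ℤ) - rt p j * m))
    ((Icc 1 N).filter (fun n : ℕ => ((p ^ j : ℕ) : ℤ) ∣ (n : ℤ) - (-(rt p j * m))))
  have h1' := (Nat.cast_le (α := ℝ)).2 h1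
  refine h1'.trans ?_
  have h2 := (card_residue N (p ^ j) (pow_pos hp j) (rt p j * m)).2
  have h3 := (card_residue N (p ^ j) (pow_pos hp j) (-(rt p j * m))).2
  have e : ((p ^ j : ℕ) : ℝ) = (p : ℝ) ^ j := by push_cast; ring
  rw [e] at h2 h3
  rw [Nat.cast_add]
  linarith

/-- if `p ^ j` divides the sum of the squares of the coprime numbers `a`, `b`, then
`ev p j (g a) (g b) = 1` -/
lemma ev_of_dvd (p j a b g : ℕ) (hp : p.Prime) (hp2 : p ≠ 2) (hj : 1 ≤ j) (hab : Nat.Coprime a b)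
    (h : p ^ j ∣ a ^ 2 + b ^ 2) : ev p j (g * a) (g * b) = 1 := by
  have hpa : ¬ p ∣ a := by
    intro hpa
    have h1 : p ∣ a ^ 2 + b ^ 2 := (dvd_pow_self p (by omega)).trans h
    have h2 : p ∣ b ^ 2 := (Nat.dvd_add_right (dvd_pow hpa (by norm_num))).1 h1
    have h3 : p ∣ b := hp.dvd_of_dvd_pow h2
    have h4 := Nat.dvd_gcd hpa h3
    rw [hab] at h4
    exact hp.one_lt.ne' (Nat.dvd_one.1 h4)
  have hcop : IsCoprime (a : ℤ) ((p ^ j : ℕ) : ℤ) := by
    rw [Nat.isCoprime_iff_coprime]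
    exact ((Nat.Prime.coprime_iff_not_dvd hp).2 hpa).symm.pow_right j
  have hz : ((p ^ j : ℕ) : ℤ) ∣ (a : ℤ) ^ 2 + (b : ℤ) ^ 2 := by exact_mod_cast h
  have hroot : ∃ i : ℤ, ((p ^ j : ℕ) : ℤ) ∣ i ^ 2 + 1 := by
    obtain ⟨u, v, huv⟩ := hcop
    refine ⟨b * u, ?_⟩
    have : ((b : ℤ) * u) ^ 2 + 1 = u ^ 2 * ((a : ℤ) ^ 2 + (b : ℤ) ^ 2) +
        ((p ^ j : ℕ) : ℤ) * (v * (1 + u * a)) := by
      linear_combination (-(1 + u * (a : ℤ))) * huv
    rw [this]
    exact dvd_add (hz.mul_left _) (dvd_mul_right _ _)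
  have h5 := root_or p j hp hp2 a b (rt p j) (by exact_mod_cast hpa) hz (rt_spec p j hroot)
  unfold ev
  rw [if_pos]
  push_cast
  rcases h5 with h5 | h5
  · left
    have : (g : ℤ) * b - rt p j * (g * a) = g * (b - rt p j * a) := by ring
    rw [this]
    push_cast at h5
    exact h5.mul_left _
  · right
    have : (g : ℤ) * b - -(rt p j * (g * a)) = g * (b - -rt p j * a) := by ring
    rw [this]
    push_cast at h5
    exact h5.mul_left _

/-- the contribution of the higher powers of the primes in `P` -/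
noncomputable def hi (P : Finset ℕ) (J m n : ℕ) : ℝ := ∑ p ∈ P, ∑ j ∈ Icc 2 J, ev p j m n

lemma geo (x : ℝ) (hx0 : 0 ≤ x) (hx : x ≤ 1 / 2) (J : ℕ) : ∑ j ∈ Icc 2 J, x ^ j ≤ 2 * x ^ 2 := by
  have h : ∀ J : ℕ, 1 ≤ J → ∑ j ∈ Icc 2 J, x ^ j + 2 * x ^ (J + 1) ≤ 2 * x ^ 2 := by
    intro J hJ
    induction J, hJ using Nat.le_induction with
    | base => simp
    | succ n hn ih =>
      rw [Finset.sum_Icc_succ_top (by omega)]
      have h1 : 0 ≤ x ^ (n + 1) := by positivity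
      have h2 : x ^ (n + 1 + 1) = x ^ (n + 1) * x := pow_succ _ _
      rw [h2]
      nlinarith
  rcases Nat.eq_zero_or_pos J with h0 | h0
  · subst h0; simp; positivity
  · have h1 := h J h0
    have h2 : 0 ≤ 2 * x ^ (J + 1) := by positivity
    linarith

lemma sum_hi (P : Finset ℕ) (hP : ∀ p ∈ P, p.Prime ∧ p % 4 = 1) (J N z : ℕ)
    (hz : ∀ p ∈ P, p ≤ z) :
    ∑ m ∈ Icc 1 N, ∑ n ∈ Icc 1 N, hi P J m n ≤ 4 * (N : ℝ) ^ 2 + 2 * N * J * z := by
  have hcard : (P.card : ℝ) ≤ z := by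
    have h1 : P ⊆ Icc 1 z := fun p hp => mem_Icc.2 ⟨(hP p hp).1.one_lt.le, hz p hp⟩
    have := Finset.card_le_card h1
    rw [Nat.card_Icc] at this
    exact_mod_cast (this.trans (by omega))
  have h1 : ∀ m, ∑ n ∈ Icc 1 N, hi P J m n ≤
      ∑ p ∈ P, ∑ j ∈ Icc 2 J, 2 * ((N : ℝ) / (p : ℝ) ^ j + 1) := by
    intro m
    unfold hi
    rw [Finset.sum_comm]
    apply Finset.sum_le_sum
    intro p hp
    rw [Finset.sum_comm]
    apply Finset.sum_le_sum
    intro j _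
    exact ev_sum p j m N (hP p hp).1.pos
  refine (Finset.sum_le_sum fun m _ => h1 m).trans ?_
  rw [Finset.sum_const, Nat.card_Icc, nsmul_eq_mul]
  have e1 : ((N + 1 - 1 : ℕ) : ℝ) = N := by simp
  rw [e1]
  have h2 : ∑ p ∈ P, ∑ j ∈ Icc 2 J, 2 * ((N : ℝ) / (p : ℝ) ^ j + 1) ≤ 4 * N + 2 * J * z := by
    have h3 : ∀ p ∈ P, ∑ j ∈ Icc 2 J, 2 * ((N : ℝ) / (p : ℝ) ^ j + 1) ≤
        4 * N * (1 / (p : ℝ) ^ 2) + 2 * J := by
      intro p hp
      have h4 : ∀ j, 2 * ((N : ℝ) / (p : ℝ) ^ j + 1) = 2 * N * (1 / (p : ℝ)) ^ j + 2 := by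
        intro j; rw [one_div, inv_pow]; ring
      simp only [h4, Finset.sum_add_distrib, ← Finset.mul_sum]
      have hp2 : (2 : ℝ) ≤ p := by exact_mod_cast (hP p hp).1.two_le
      have h5 := geo (1 / (p : ℝ)) (by positivity) (by gcongr) J
      have h6 : ∑ j ∈ Icc 2 J, (2 : ℝ) ≤ 2 * J := by
        rw [Finset.sum_const, Nat.card_Icc, nsmul_eq_mul]
        have : ((J + 1 - 2 : ℕ) : ℝ) ≤ J := by exact_mod_cast (by omega : J + 1 - 2 ≤ J)
        linarith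
      have h7 : (0 : ℝ) ≤ 2 * N := by positivity
      calc _ ≤ 2 * N * (2 * (1 / (p : ℝ)) ^ 2) + 2 * J := by gcongr
        _ = _ := by ring
    refine (Finset.sum_le_sum h3).trans ?_
    rw [Finset.sum_add_distrib, ← Finset.mul_sum, Finset.sum_const, nsmul_eq_mul]
    have h8 : ∑ p ∈ P, (1 / (p : ℝ) ^ 2) ≤ 1 := by
      refine le_trans ?_ (sum_inv_sq z)
      apply Finset.sum_le_sum_of_subset_of_nonneg
      · exact fun p hp => mem_Icc.2 ⟨(hP p hp).1.two_le, hz p hp⟩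
      · intro p _ _; positivity
    have h9 : (0 : ℝ) ≤ 4 * N := by positivity
    have h10 : (0 : ℝ) ≤ 2 * J := by positivity
    nlinarith
  have h11 : (0 : ℝ) ≤ N := Nat.cast_nonneg _
  nlinarith

end Pool.Agent.V11103.Om
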