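import Pool.Agent.V11103.PathCoverDefs

/-!
The complete geometric graph on a blow-up of a 7-point set needs at least `18 n / 35`
noncrossing paths.
-/

namespace Pool.Agent.V11103.PathCover

open Set

/-- orientation determinant -/
def orient (a b c : ℝ × ℝ) : ℝ := (b.1 - a.1) * (c.2 - a.2) - (b.2 - a.2) * (c.1 - a.1)

theorem orient_swap (a b c : ℝ × ℝ) : orient a c b = - orient a b c := by
  unfold orient; ring

theorem orient_swap' (a b c : ℝ × ℝ) : orient b a c = - orient a b c := by
  unfold orient; ring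

theorem orient_of_collinear {a b c : ℝ × ℝ} (h : Collinear ℝ {a, b, c}) : orient a b c = 0 := by
  rw [collinear_iff_of_mem (p₀ := a) (by simp)] at h
  obtain ⟨v, hv⟩ := h
  obtain ⟨r, hr⟩ := hv b (by simp)
  obtain ⟨s, hs⟩ := hv c (by simp)
  have hb1 : b.1 = r * v.1 + a.1 := by rw [hr]; simp
  have hb2 : b.2 = r * v.2 + a.2 := by rw [hr]; simp
  have hc1 : c.1 = s * v.1 + a.1 := by rw [hs]; simp
  have hc2 : c.2 = s * v.2 + a.2 := by rw [hs]; simp
  unfold orient
  rw [hb1, hb2, hc1, hc2]; ring

/-- two segments whose endpoints are separated by each other's lines meet -/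
theorem segment_inter {a b c d : ℝ × ℝ} (h1 : orient a b c * orient a b d < 0)
    (h2 : orient c d a * orient c d b < 0) :
    ∃ x, x ∈ segment ℝ a b ∧ x ∈ segment ℝ c d := by
  set A := orient c d a with hA
  set B := orient c d b with hB
  set C := orient a b c with hC
  set D := orient a b d with hD
  have key : B - A = C - D := by
    rw [hA, hB, hC, hD]; unfold orient; ring
  have hBA : B - A ≠ 0 := by
    intro h
    have : A = B := by linarith
    rw [this] at h2
    nlinarith [mul_self_nonneg B]
  refine ⟨(B / (B - A)) • a + (-A / (B - A)) • b, ?_, ?_⟩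
  · refine ⟨B / (B - A), -A / (B - A), ?_, ?_, ?_, rfl⟩
    · have : 0 < B / (B - A) := by
        rcases lt_or_gt_of_ne hBA with h | h
        · have hB0 : B < 0 := by nlinarith
          exact div_pos_of_neg_of_neg hB0 h
        · have hB0 : 0 < B := by nlinarith
          exact div_pos hB0 h
      exact this.le
    · have : 0 < -A / (B - A) := by
        rcases lt_or_gt_of_ne hBA with h | h
        · have hB0 : -A < 0 := by nlinarith
          exact div_pos_of_neg_of_neg hB0 h
        · have hB0 : 0 < -A := by nlinarith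
          exact div_pos hB0 h
      exact this.le
    · field_simp; ring
  · have hCD : C - D ≠ 0 := by rw [← key]; exact hBA
    refine ⟨-D / (C - D), C / (C - D), ?_, ?_, ?_, ?_⟩
    · have : 0 < -D / (C - D) := by
        rcases lt_or_gt_of_ne hCD with h | h
        · have hB0 : -D < 0 := by nlinarith
          exact div_pos_of_neg_of_neg hB0 h
        · have hB0 : 0 < -D := by nlinarith
          exact div_pos hB0 h
      exact this.le
    · have : 0 < C / (C - D) := by
        rcases lt_or_gt_of_ne hCD with h | h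
        · have hB0 : C < 0 := by nlinarith
          exact div_pos_of_neg_of_neg hB0 h
        · have hB0 : 0 < C := by nlinarith
          exact div_pos hB0 h
      exact this.le
    · field_simp; ring
    · rw [← key]
      ext
      · simp only [Prod.fst_add, Prod.smul_fst, smul_eq_mul]
        rw [div_mul_eq_mul_div, div_mul_eq_mul_div, div_mul_eq_mul_div, div_mul_eq_mul_div,
          ← add_div, ← add_div]
        congr 1
        rw [hA, hB, hC, hD]; unfold orient; ring
      · simp only [Prod.snd_add, Prod.smul_snd, smul_eq_mul]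
        rw [div_mul_eq_mul_div, div_mul_eq_mul_div, div_mul_eq_mul_div, div_mul_eq_mul_div,
          ← add_div, ← add_div]
        congr 1
        rw [hA, hB, hC, hD]; unfold orient; ring


/-! ### The base configuration of seven points -/

/-- integer coordinates of the base points -/
def P0 : Fin 7 → ℤ × ℤ
  | 0 => (4, 0)
  | 1 => (2, 4)
  | 2 => (-3, 2)
  | 3 => (-3, -3)
  | 4 => (1, -4)
  | 5 => (-2, -1)
  | 6 => (-2, 3)

/-- integer orientation determinant of base points -/
def orZ (i j k : Fin 7) : ℤ :=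
  ((P0 j).1 - (P0 i).1) * ((P0 k).2 - (P0 i).2) - ((P0 j).2 - (P0 i).2) * ((P0 k).1 - (P0 i).1)

/-- the base points -/
def P (i : Fin 7) : ℝ × ℝ := (((P0 i).1 : ℝ), ((P0 i).2 : ℝ))

theorem orient_P (i j k : Fin 7) : orient (P i) (P j) (P k) = (orZ i j k : ℝ) := by
  unfold orient P orZ; push_cast; ring

/-- properly crossing pairs of base segments -/
def crossb (e f : Fin 7 × Fin 7) : Bool :=
  decide (orZ e.1 e.2 f.1 * orZ e.1 e.2 f.2 < 0 ∧ orZ f.1 f.2 e.1 * orZ f.1 f.2 e.2 < 0)

theorem exists_eps : ∃ ε > 0, ∀ p : Fin 7 → ℝ × ℝ, (∀ i, dist (p i) (P i) < ε) →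
    ∀ i j k, 0 < orZ i j k → 0 < orient (p i) (p j) (p k) := by
  have hopen : IsOpen {p : Fin 7 → ℝ × ℝ | ∀ i j k, 0 < orZ i j k →
      0 < orient (p i) (p j) (p k)} := by
    simp only [Set.ofPred_forall]
    refine isOpen_iInter_of_finite fun i => isOpen_iInter_of_finite fun j =>
      isOpen_iInter_of_finite fun k => isOpen_iInter_of_finite fun _ => ?_
    apply isOpen_lt continuous_const
    unfold orient
    fun_prop
  obtain ⟨ε, hε, hb⟩ := Metric.isOpen_iff.1 hopen P (by
    intro i j k h
    rw [orient_P]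
    exact_mod_cast h)
  refine ⟨ε, hε, fun p hp => ?_⟩
  have : p ∈ Metric.ball P ε := by
    rw [Metric.mem_ball, dist_pi_lt_iff hε]
    exact hp
  exact hb this

/-- points within `ε` of base points have the same orientations -/
theorem orient_sign {ε : ℝ} (hε : ∀ p : Fin 7 → ℝ × ℝ, (∀ i, dist (p i) (P i) < ε) →
    ∀ i j k, 0 < orZ i j k → 0 < orient (p i) (p j) (p k)) (h0 : 0 < ε)
    {i j k : Fin 7} {a b c : ℝ × ℝ} (ha : dist a (P i) < ε) (hb : dist b (P j) < ε)
    (hc : dist c (P k) < ε) : (0 < orZ i j k → 0 < orient a b c) ∧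
      (orZ i j k < 0 → orient a b c < 0) := by
  have hz : orZ i i k = 0 ∧ orZ i j i = 0 ∧ orZ i j j = 0 := by
    unfold orZ; refine ⟨by ring, by ring, by ring⟩
  have main : ∀ {i j k : Fin 7} {a b c : ℝ × ℝ}, dist a (P i) < ε → dist b (P j) < ε →
      dist c (P k) < ε → 0 < orZ i j k → 0 < orient a b c := by
    intro i j k a b c ha hb hc h
    have hij : j ≠ i := by
      rintro rfl; unfold orZ at h; ring_nf at h; exact lt_irrefl _ h
    have hik : k ≠ i := by
      rintro rfl; unfold orZ at h; ring_nf at h; exact lt_irrefl _ h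
    have hjk : k ≠ j := by
      rintro rfl; unfold orZ at h; ring_nf at h; exact lt_irrefl _ h
    have := hε (fun t => if t = i then a else if t = j then b else if t = k then c else P t)
      (by
        intro t
        by_cases h1 : t = i
        · simp only [h1, if_true]; exact ha
        by_cases h2 : t = j
        · simp only [h2, hij, if_true, if_false]; exact hb
        by_cases h3 : t = k
        · simp only [h3, hik, hjk, if_true, if_false]; exact hc
        simp only [h1, h2, h3, if_false, dist_self]; exact h0) i j k h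
    simpa [hij, hik, hjk] using this
  refine ⟨main ha hb hc, fun h => ?_⟩
  have h' : 0 < orZ i k j := by
    have : orZ i k j = - orZ i j k := by unfold orZ; ring
    omega
  have := main ha hc hb h'
  rw [orient_swap] at this
  linarith

theorem cross_of_crossb {ε : ℝ} (hε : ∀ p : Fin 7 → ℝ × ℝ, (∀ i, dist (p i) (P i) < ε) →
    ∀ i j k, 0 < orZ i j k → 0 < orient (p i) (p j) (p k)) (h0 : 0 < ε)
    {i j k l : Fin 7} {a b c d : ℝ × ℝ} (ha : dist a (P i) < ε) (hb : dist b (P j) < ε)
    (hc : dist c (P k) < ε) (hd : dist d (P l) < ε) (h : crossb (i, j) (k, l) = true) :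
    ∃ x, x ∈ segment ℝ a b ∧ x ∈ segment ℝ c d := by
  have hs : ∀ {i j k l m n : Fin 7} {a b c d e f : ℝ × ℝ}, 
      (0 < orZ i j k → 0 < orient a b c) ∧ (orZ i j k < 0 → orient a b c < 0) →
      (0 < orZ l m n → 0 < orient d e f) ∧ (orZ l m n < 0 → orient d e f < 0) →
      orZ i j k * orZ l m n < 0 → orient a b c * orient d e f < 0 := by
    intro i j k l m n a b c d e f h1 h2 h
    rcases mul_neg_iff.1 h with ⟨p, q⟩ | ⟨p, q⟩
    · exact mul_neg_of_pos_of_neg (h1.1 p) (h2.2 q)
    · exact mul_neg_of_neg_of_pos (h1.2 p) (h2.1 q)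
  unfold crossb at h
  simp only [decide_eq_true_eq] at h
  exact segment_inter (hs (orient_sign hε h0 ha hb hc) (orient_sign hε h0 ha hb hd) h.1)
    (hs (orient_sign hε h0 hc hd ha) (orient_sign hε h0 hc hd hb) h.2)

/-! ### weights and certificates -/

/-- the weights -/
def W (i j : Fin 7) : ℕ :=
  (![![0,0,4,3,0,3,0],
     ![0,0,1,4,3,2,0],
     ![4,1,0,1,5,1,0],
     ![3,4,1,0,1,0,2],
     ![0,3,5,1,0,1,4],
     ![3,2,1,0,1,0,1],
     ![0,0,0,2,4,1,0]] : Fin 7 → Fin 7 → ℕ) i j

theorem W_symm : ∀ i j, W i j = W j i := by decide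

theorem W_diag : ∀ i, W i i = 0 := by decide

theorem W_sum : ∑ i, ∑ j, W i j = 72 := by decide

/-- the vertex covers -/
def certs : List (Fin 7 → ℕ) :=
  [![0,0,4,0,1,0,0], ![0,0,1,0,4,0,0], ![0,0,1,0,3,0,1], ![0,3,0,1,0,1,0],
   ![3,0,1,0,1,0,0], ![2,1,0,1,0,1,0], ![0,1,0,3,0,1,0], ![0,0,0,1,3,0,1],
   ![1,0,0,2,0,2,0], ![0,2,0,1,1,0,1], ![0,3,0,1,0,0,1]]

theorem certs_sum : ∀ u ∈ certs, ∑ i, u i = 5 := by decide

/-- all types `i < j` -/
def allE : List (Fin 7 × Fin 7) :=
  ((List.finRange 7).product (List.finRange 7)).filter fun e => decide (e.1 < e.2)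

/-- types not covered by `u` -/
def bad (u : Fin 7 → ℕ) : List (Fin 7 × Fin 7) :=
  allE.filter fun e => decide (u e.1 + u e.2 < W e.1 e.2)

/-- search for noncrossing transversals -/
def search : List (List (Fin 7 × Fin 7)) → List (Fin 7 × Fin 7) → Bool
  | [], _ => true
  | B :: Bs, ch => B.any fun e => (ch.all fun f => !crossb e f) && search Bs (e :: ch)

theorem search_sound (T : Fin 7 × Fin 7 → Prop)
    (hT : ∀ e f, T e → T f → crossb e f = false) :
    ∀ (Bs : List (List (Fin 7 × Fin 7))) (ch : List (Fin 7 × Fin 7)),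
      (∀ B ∈ Bs, ∃ e ∈ B, T e) → (∀ f ∈ ch, T f) → search Bs ch = true
  | [], _, _, _ => rfl
  | B :: Bs, ch, h, hch => by
    obtain ⟨e, he, hTe⟩ := h B (by simp)
    unfold search
    rw [List.any_eq_true]
    refine ⟨e, he, ?_⟩
    rw [Bool.and_eq_true, List.all_eq_true]
    refine ⟨fun f hf => by simp [hT e f hTe (hch f hf)], ?_⟩
    apply search_sound T hT Bs (e :: ch) (fun B hB => h B (by simp [hB]))
    intro f hf
    rcases List.mem_cons.1 hf with rfl | hf
    · exact hTe
    · exact hch f hf

theorem search_false : search (certs.map bad) [] = false := by decide +kernel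

theorem exists_cert (T : Fin 7 × Fin 7 → Prop)
    (hT : ∀ e f, T e → T f → crossb e f = false) :
    ∃ u ∈ certs, ∀ e, e.1 < e.2 → T e → W e.1 e.2 ≤ u e.1 + u e.2 := by
  by_contra hcon
  push Not at hcon
  have := search_sound T hT (certs.map bad) [] (by
    intro B hB
    rw [List.mem_map] at hB
    obtain ⟨u, hu, rfl⟩ := hB
    obtain ⟨e, he, hTe, hlt⟩ := hcon u hu
    refine ⟨e, ?_, hTe⟩
    unfold bad
    rw [List.mem_filter]
    refine ⟨?_, by simpa using hlt⟩
    unfold allE
    rw [List.mem_filter]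
    refine ⟨?_, by simpa using he⟩
    rw [List.product, List.mem_flatMap]
    exact ⟨e.1, List.mem_finRange _, List.mem_map.2 ⟨e.2, List.mem_finRange _, rfl⟩⟩) (by simp)
  rw [search_false] at this
  exact absurd this (by decide)

end Pool.Agent.V11103.PathCover
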