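import Pool.Agent.V11103.PathCover

/-!
Clusters in general position and the counting argument.
-/

namespace Pool.Agent.V11103.PathCover

open Set

/-! ### General position near given centres -/

theorem dense_off_line {p q : ℝ × ℝ} (h : p ≠ q) : Dense {x : ℝ × ℝ | orient p q x ≠ 0} := by
  rw [Metric.dense_iff]
  intro x r hr
  by_cases hx : orient p q x = 0
  · set N : ℝ := (q.1 - p.1) ^ 2 + (q.2 - p.2) ^ 2 with hN
    have hNpos : 0 < N := by
      by_contra hcon
      have h1 : (q.1 - p.1) ^ 2 = 0 := by nlinarith [sq_nonneg (q.1 - p.1), sq_nonneg (q.2 - p.2)]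
      have h2 : (q.2 - p.2) ^ 2 = 0 := by nlinarith [sq_nonneg (q.1 - p.1), sq_nonneg (q.2 - p.2)]
      apply h
      ext
      · have := pow_eq_zero_iff (two_ne_zero) |>.1 h1; linarith
      · have := pow_eq_zero_iff (two_ne_zero) |>.1 h2; linarith
    set M : ℝ := |q.1 - p.1| + |q.2 - p.2| + 1 with hM
    have hMpos : 0 < M := by positivity
    set s : ℝ := r / (2 * M) with hs
    have hspos : 0 < s := by positivity
    refine ⟨(x.1 - s * (q.2 - p.2), x.2 + s * (q.1 - p.1)), ?_, ?_⟩
    · rw [Metric.mem_ball, Prod.dist_eq]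
      have e1 : |s * (q.2 - p.2)| < r := by
        rw [abs_mul, abs_of_pos hspos, hs, div_mul_eq_mul_div, div_lt_iff₀ (by positivity)]
        nlinarith [abs_nonneg (q.1 - p.1), abs_nonneg (q.2 - p.2)]
      have e2 : |s * (q.1 - p.1)| < r := by
        rw [abs_mul, abs_of_pos hspos, hs, div_mul_eq_mul_div, div_lt_iff₀ (by positivity)]
        nlinarith [abs_nonneg (q.1 - p.1), abs_nonneg (q.2 - p.2)]
      refine max_lt ?_ ?_
      · rw [Real.dist_eq]
        have : x.1 - s * (q.2 - p.2) - x.1 = -(s * (q.2 - p.2)) := by ring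
        simp only [this, abs_neg]; exact e1
      · rw [Real.dist_eq]
        have : x.2 + s * (q.1 - p.1) - x.2 = s * (q.1 - p.1) := by ring
        simp only [this]; exact e2
    · rw [Set.mem_ofPred_eq]
      have : orient p q (x.1 - s * (q.2 - p.2), x.2 + s * (q.1 - p.1)) =
          orient p q x + s * N := by
        rw [hN]; unfold orient; ring
      rw [this, hx, zero_add]
      positivity
  · exact ⟨x, Metric.mem_ball_self hr, hx⟩

theorem isOpen_off_line (p q : ℝ × ℝ) : IsOpen {x : ℝ × ℝ | orient p q x ≠ 0} := by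
  apply isOpen_ne_fun
  · unfold orient; fun_prop
  · exact continuous_const

theorem exists_general (ε : ℝ) (hε : 0 < ε) : ∀ (n : ℕ) (c : Fin n → ℝ × ℝ),
    ∃ a : Fin n → ℝ × ℝ, (∀ i, dist (a i) (c i) < ε) ∧ Function.Injective a ∧
      ∀ i j k, i < j → j < k → orient (a i) (a j) (a k) ≠ 0
  | 0, c => ⟨c, fun i => i.elim0, fun i => i.elim0, fun i => i.elim0⟩
  | n + 1, c => by
    obtain ⟨a, ha, hinj, hor⟩ := exists_general ε hε n (fun i => c i.castSucc)
    -- choose the new point
    have hd : Dense (⋂ e : Fin n × Fin n, {x : ℝ × ℝ | e.1 < e.2 → orient (a e.1) (a e.2) x ≠ 0}) := by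
      apply dense_iInter_of_isOpen
      · intro e
        by_cases h : e.1 < e.2
        · simpa [h] using isOpen_off_line (a e.1) (a e.2)
        · simp [h]
      · intro e
        by_cases h : e.1 < e.2
        · have := dense_off_line (p := a e.1) (q := a e.2) (fun h' => h.ne (hinj h'))
          simpa [h] using this
        · simp [h]
    have hd2 : Dense (⋂ i : Fin n, {x : ℝ × ℝ | x ≠ a i}) := by
      apply dense_iInter_of_isOpen
      · intro i; exact isOpen_ne
      · intro i; exact dense_compl_singleton (a i)
    have hd3 := hd.inter_of_isOpen_right hd2 (isOpen_iInter_of_finite fun i => isOpen_ne)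
    obtain ⟨x, hx1, hx2⟩ := (Metric.dense_iff.1 hd3) (c (Fin.last n)) ε hε
    rw [Set.mem_inter_iff, Set.mem_iInter, Set.mem_iInter] at hx2
    refine ⟨Fin.snoc a x, ?_, ?_, ?_⟩
    · intro i
      refine Fin.lastCases ?_ (fun i => ?_) i
      · simpa using hx1
      · simpa using ha i
    · intro i j
      refine Fin.lastCases ?_ (fun i => ?_) i
      · refine Fin.lastCases ?_ (fun j => ?_) j
        · simp
        · intro h
          simp only [Fin.snoc_last, Fin.snoc_castSucc] at h
          exact absurd h (hx2.2 j)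
      · refine Fin.lastCases ?_ (fun j => ?_) j
        · intro h
          simp only [Fin.snoc_last, Fin.snoc_castSucc] at h
          exact absurd h.symm (hx2.2 i)
        · intro h
          simp only [Fin.snoc_castSucc] at h
          rw [hinj h]
    · intro i j k hij hjk
      obtain ⟨i, rfl⟩ : ∃ i', i = Fin.castSucc i' :=
        ⟨i.castPred (fun h => by
          rw [h] at hij; exact absurd hij (not_lt.2 (Fin.le_last _))), by simp⟩
      obtain ⟨j, rfl⟩ : ∃ j', j = Fin.castSucc j' :=
        ⟨j.castPred (fun h => by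
          rw [h] at hjk; exact absurd hjk (not_lt.2 (Fin.le_last _))), by simp⟩
      revert hjk
      refine Fin.lastCases (fun _ => ?_) (fun k hjk => ?_) k
      · simp only [Fin.snoc_last, Fin.snoc_castSucc]
        exact hx2.1 (i, j) (by simpa using hij)
      · simp only [Fin.snoc_castSucc]
        exact hor i j k (by simpa using hij) (by simpa using hjk)

end Pool.Agent.V11103.PathCover
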