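import Pool.Agent.V11103.PathCover2

/-!
The counting argument.
-/

namespace Pool.Agent.V11103.PathCover

open Set

theorem sum_le_of_surj {J K : Type*} [Fintype J] [Fintype K] (g : J → K)
    (f : K → ℕ) (h : ∀ k, f k ≠ 0 → ∃ j, g j = k) : ∑ k, f k ≤ ∑ j, f (g j) := by
  classical
  have h1 : ∑ k, f k = ∑ k ∈ Finset.univ.image g, f k := by
    symm
    apply Finset.sum_subset (Finset.subset_univ _)
    intro k _ hk
    by_contra hne
    obtain ⟨j, hj⟩ := h k hne
    exact hk (Finset.mem_image.2 ⟨j, Finset.mem_univ _, hj⟩)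
  rw [h1]
  exact Finset.sum_image_le_of_nonneg (fun _ _ => Nat.zero_le _)

theorem orZ_ne {i j k : Fin 7} (h : orZ i j k ≠ 0) : i ≠ j ∧ j ≠ k ∧ i ≠ k := by
  refine ⟨?_, ?_, ?_⟩ <;> rintro rfl <;> apply h <;> unfold orZ <;> ring

theorem crossb_ne {i j k l : Fin 7} (h : crossb (i, j) (k, l) = true) :
    i ≠ k ∧ i ≠ l ∧ j ≠ k ∧ j ≠ l := by
  unfold crossb at h
  simp only [decide_eq_true_eq] at h
  have h1 : orZ i j k ≠ 0 := fun h0 => by rw [h0] at h; simp at h
  have h2 : orZ i j l ≠ 0 := fun h0 => by rw [h0] at h; simp at h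
  exact ⟨(orZ_ne h1).2.2, (orZ_ne h2).2.2, (orZ_ne h1).2.1, (orZ_ne h2).2.1⟩

/-- weight of a single plane path -/
theorem path_weight {ε : ℝ} (hε : ∀ p : Fin 7 → ℝ × ℝ, (∀ i, dist (p i) (P i) < ε) →
    ∀ i j k, 0 < orZ i j k → 0 < orient (p i) (p j) (p k)) (h0 : 0 < ε)
    {ι : Type*} [Fintype ι] (cl : ι → Fin 7) (a : ι → ℝ × ℝ)
    (ha : ∀ x, dist (a x) (P (cl x)) < ε)
    {A : Finset (ℝ × ℝ)} (Q : PlanePath A) (idx : Fin (Q.t + 1) → ι)
    (hidx : ∀ i, a (idx i) = Q.v i) (m : ℕ) (hm : ∀ u : Fin 7 → ℕ, ∑ x, u (cl x) = m * ∑ i, u i) :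
    ∑ i : Fin Q.t, W (cl (idx i.castSucc)) (cl (idx i.succ)) ≤ 10 * m := by
  have hidxinj : Function.Injective idx := by
    intro i j h
    apply Q.inj
    rw [← hidx, ← hidx, h]
  set T : Fin 7 × Fin 7 → Prop := fun e => ∃ i : Fin Q.t,
    (cl (idx i.castSucc) = e.1 ∧ cl (idx i.succ) = e.2) ∨
    (cl (idx i.castSucc) = e.2 ∧ cl (idx i.succ) = e.1) with hTdef
  have hT : ∀ e f, T e → T f → crossb e f = false := by
    rintro ⟨e1, e2⟩ ⟨f1, f2⟩ ⟨i, hi⟩ ⟨j, hj⟩
    by_contra hcr
    rw [Bool.not_eq_false] at hcr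
    obtain ⟨n1, n2, n3, n4⟩ := crossb_ne hcr
    -- intersecting point
    obtain ⟨x, hx1, hx2⟩ : ∃ x, x ∈ segment ℝ (Q.v i.castSucc) (Q.v i.succ) ∧
        x ∈ segment ℝ (Q.v j.castSucc) (Q.v j.succ) := by
      have d1 := ha (idx i.castSucc)
      have d2 := ha (idx i.succ)
      have d3 := ha (idx j.castSucc)
      have d4 := ha (idx j.succ)
      rw [hidx] at d1 d2 d3 d4
      simp only at hi hj
      rcases hi with ⟨hi1, hi2⟩ | ⟨hi1, hi2⟩ <;> rcases hj with ⟨hj1, hj2⟩ | ⟨hj1, hj2⟩ <;>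
        rw [hi1] at d1 <;> rw [hi2] at d2 <;> rw [hj1] at d3 <;> rw [hj2] at d4
      · exact cross_of_crossb hε h0 d1 d2 d3 d4 hcr
      · obtain ⟨x, h1, h2⟩ := cross_of_crossb hε h0 d1 d2 d4 d3 hcr
        exact ⟨x, h1, by rw [segment_symm]; exact h2⟩
      · obtain ⟨x, h1, h2⟩ := cross_of_crossb hε h0 d2 d1 d3 d4 hcr
        exact ⟨x, by rw [segment_symm]; exact h1, h2⟩
      · obtain ⟨x, h1, h2⟩ := cross_of_crossb hε h0 d2 d1 d4 d3 hcr
        exact ⟨x, by rw [segment_symm]; exact h1, by rw [segment_symm]; exact h2⟩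
    have hij : i ≠ j := by
      rintro rfl
      simp only at hi hj
      rcases hi with ⟨hi1, hi2⟩ | ⟨hi1, hi2⟩ <;> rcases hj with ⟨hj1, hj2⟩ | ⟨hj1, hj2⟩
      · exact n1 (hi1.symm.trans hj1)
      · exact n2 (hi1.symm.trans hj1)
      · exact n3 (hi1.symm.trans hj1)
      · exact n4 (hi1.symm.trans hj1)
    obtain ⟨hxi, hxj⟩ := Q.noncrossing i j hij x hx1 hx2
    have key : ∀ p q : Fin (Q.t + 1), x = Q.v p → x = Q.v q → cl (idx p) = cl (idx q) := by
      intro p q hp hq
      have : p = q := Q.inj (hp.symm.trans hq)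
      rw [this]
    simp only at hi hj
    rcases hxi with hxi | hxi <;> rcases hxj with hxj | hxj <;>
      have hk := key _ _ hxi hxj <;>
      rcases hi with ⟨hi1, hi2⟩ | ⟨hi1, hi2⟩ <;> rcases hj with ⟨hj1, hj2⟩ | ⟨hj1, hj2⟩ <;>
      first
        | rw [hi1, hj1] at hk
        | rw [hi1, hj2] at hk
        | rw [hi2, hj1] at hk
        | rw [hi2, hj2] at hk
    all_goals first
      | exact n1 hk
      | exact n2 hk
      | exact n3 hk
      | exact n4 hk
  obtain ⟨u, hu, hW⟩ := exists_cert T hT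
  have hedge : ∀ i : Fin Q.t, W (cl (idx i.castSucc)) (cl (idx i.succ)) ≤
      u (cl (idx i.castSucc)) + u (cl (idx i.succ)) := by
    intro i
    rcases lt_trichotomy (cl (idx i.castSucc)) (cl (idx i.succ)) with h | h | h
    · exact hW (cl (idx i.castSucc), cl (idx i.succ)) h ⟨i, Or.inl ⟨rfl, rfl⟩⟩
    · rw [h, W_diag]; exact Nat.zero_le _
    · rw [W_symm, add_comm]
      exact hW (cl (idx i.succ), cl (idx i.castSucc)) h ⟨i, Or.inr ⟨rfl, rfl⟩⟩
  have hall : ∑ j : Fin (Q.t + 1), u (cl (idx j)) ≤ 5 * m := by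
    have h1 : ∑ j : Fin (Q.t + 1), u (cl (idx j)) ≤ ∑ x : ι, u (cl x) := by
      classical
      rw [← Finset.sum_image (s := Finset.univ) (g := idx) (f := fun x => u (cl x))
        (fun x _ y _ h => hidxinj h)]
      exact Finset.sum_le_sum_of_subset (Finset.subset_univ _)
    rw [hm, certs_sum u hu] at h1
    linarith
  have h1 : ∑ i : Fin Q.t, u (cl (idx i.castSucc)) ≤ ∑ j : Fin (Q.t + 1), u (cl (idx j)) := by
    rw [Fin.sum_univ_castSucc]; exact Nat.le_add_right _ _
  have h2 : ∑ i : Fin Q.t, u (cl (idx i.succ)) ≤ ∑ j : Fin (Q.t + 1), u (cl (idx j)) := by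
    rw [Fin.sum_univ_succ]; exact Nat.le_add_left _ _
  calc ∑ i : Fin Q.t, W (cl (idx i.castSucc)) (cl (idx i.succ))
      ≤ ∑ i : Fin Q.t, (u (cl (idx i.castSucc)) + u (cl (idx i.succ))) :=
        Finset.sum_le_sum fun i _ => hedge i
    _ = ∑ i : Fin Q.t, u (cl (idx i.castSucc)) + ∑ i : Fin Q.t, u (cl (idx i.succ)) :=
        Finset.sum_add_distrib
    _ ≤ 5 * m + 5 * m := add_le_add (h1.trans hall) (h2.trans hall)
    _ = 10 * m := by ring

/-- the lower bound -/
theorem cover_bound {ε : ℝ} (hε : ∀ p : Fin 7 → ℝ × ℝ, (∀ i, dist (p i) (P i) < ε) →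
    ∀ i j k, 0 < orZ i j k → 0 < orient (p i) (p j) (p k)) (h0 : 0 < ε)
    {ι : Type*} [Fintype ι] [DecidableEq ι] (cl : ι → Fin 7) (a : ι → ℝ × ℝ)
    (hinj : Function.Injective a)
    (ha : ∀ x, dist (a x) (P (cl x)) < ε) (m : ℕ)
    (hm : ∀ u : Fin 7 → ℕ, ∑ x, u (cl x) = m * ∑ i, u i)
    {k : ℕ} (F : Fin k → PlanePath (Finset.univ.image a)) (hF : Covers F) :
    72 * m * m ≤ 20 * m * k := by
  classical
  have hex : ∀ s : Fin k, ∀ i : Fin ((F s).t + 1), ∃ x : ι, a x = (F s).v i := by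
    intro s i
    have := (F s).mem i
    simpa using this
  choose idx hidx using hex
  have htot : ∑ e : ι × ι, W (cl e.1) (cl e.2) = 72 * m * m := by
    rw [Fintype.sum_prod_type]
    have h1 : ∀ x : ι, ∑ y : ι, W (cl x) (cl y) = m * ∑ j, W (cl x) j := fun x => hm (W (cl x))
    simp only [h1]
    rw [← Finset.mul_sum, hm (fun i => ∑ j, W i j), W_sum]
    ring
  let g : (Σ s : Fin k, Fin (F s).t × Bool) → ι × ι := fun e =>
    if e.2.2 then (idx e.1 e.2.1.castSucc, idx e.1 e.2.1.succ)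
    else (idx e.1 e.2.1.succ, idx e.1 e.2.1.castSucc)
  have hle := sum_le_of_surj g (fun e => W (cl e.1) (cl e.2)) (by
    rintro ⟨x, y⟩ hxy
    have hne : x ≠ y := by
      rintro rfl
      exact hxy (W_diag _)
    obtain ⟨s, i, hi⟩ := hF (a x) (by simp) (a y) (by simp) (fun h => hne (hinj h))
    rw [Sym2.eq_iff] at hi
    rcases hi with ⟨h1, h2⟩ | ⟨h1, h2⟩
    · refine ⟨⟨s, i, true⟩, ?_⟩
      simp only [g, if_true]
      rw [← hidx] at h1 h2
      rw [hinj h1, hinj h2]
    · refine ⟨⟨s, i, false⟩, ?_⟩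
      simp only [g]
      rw [← hidx] at h1 h2
      simp [hinj h1, hinj h2])
  rw [htot] at hle
  refine hle.trans ?_
  rw [Fintype.sum_sigma]
  calc ∑ s : Fin k, ∑ e : Fin (F s).t × Bool, W (cl (g ⟨s, e⟩).1) (cl (g ⟨s, e⟩).2)
      ≤ ∑ s : Fin k, 20 * m := by
        apply Finset.sum_le_sum
        intro s _
        rw [Fintype.sum_prod_type]
        have h2 : ∀ i : Fin (F s).t, ∑ b : Bool, W (cl (g ⟨s, (i, b)⟩).1) (cl (g ⟨s, (i, b)⟩).2) =
            2 * W (cl (idx s i.castSucc)) (cl (idx s i.succ)) := by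
          intro i
          rw [Fintype.sum_bool]
          simp only [g, if_true, Bool.false_eq_true, if_false]
          rw [W_symm (cl (idx s i.succ))]; ring
        simp only [h2]
        rw [← Finset.mul_sum]
        have := path_weight hε h0 cl a ha (F s) (idx s) (hidx s) m hm
        omega
    _ = 20 * m * k := by
        rw [Finset.sum_const, Finset.card_univ, Fintype.card_fin, smul_eq_mul]; ring

/-- a covering exists -/
theorem covering_exists (A : Finset (ℝ × ℝ)) : ∃ k, ∃ F : Fin k → PlanePath A, Covers F := by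
  classical
  let S := {p : A × A // p.1 ≠ p.2}
  let e := Fintype.equivFin S
  refine ⟨Fintype.card S, fun s =>
    { t := 1
      one_le := le_rfl
      v := ![((e.symm s).1.1 : ℝ × ℝ), ((e.symm s).1.2 : ℝ × ℝ)]
      inj := ?_
      mem := ?_
      noncrossing := ?_ }, ?_⟩
  · intro i j hij
    have hne : ((e.symm s).1.1 : ℝ × ℝ) ≠ ((e.symm s).1.2 : ℝ × ℝ) :=
      fun h => (e.symm s).2 (Subtype.ext h)
    fin_cases i <;> fin_cases j
    · rfl
    · exact absurd hij hne
    · exact absurd hij.symm hne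
    · rfl
  · intro i
    fin_cases i
    · exact (e.symm s).1.1.2
    · exact (e.symm s).1.2.2
  · intro i j hij
    exact absurd (Subsingleton.elim i j) hij
  · intro a ha b hb hab
    refine ⟨e ⟨(⟨a, ha⟩, ⟨b, hb⟩), fun h => hab (congrArg Subtype.val h)⟩, 0, ?_⟩
    simp


/-- general position of the image -/
theorem generalPosition_image {n : ℕ} (a : Fin n → ℝ × ℝ)
    (hor : ∀ i j k, i < j → j < k → orient (a i) (a j) (a k) ≠ 0) :
    GeneralPosition (Finset.univ.image a) := by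
  have hall : ∀ i j k, i ≠ j → j ≠ k → i ≠ k → orient (a i) (a j) (a k) ≠ 0 := by
    intro i j k hij hjk hik
    rcases lt_or_gt_of_ne hij with h1 | h1 <;> rcases lt_or_gt_of_ne hjk with h2 | h2 <;>
      rcases lt_or_gt_of_ne hik with h3 | h3
    · exact hor i j k h1 h2
    · exact absurd (h1.trans h2) (not_lt.2 h3.le)
    · -- i < k < j
      have := hor i k j h3 h2
      rw [orient_swap] at this
      exact fun h => this (by rw [h, neg_zero])
    · -- k < i < j
      have := hor k i j h3 h1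
      rw [orient_swap', orient_swap, neg_neg] at this
      exact this
    · -- j < i < k
      have := hor j i k h1 h3
      rw [orient_swap'] at this
      exact fun h => this (by rw [h, neg_zero])
    · -- j < k < i
      have := hor j k i h2 h3
      rw [orient_swap, orient_swap', neg_neg] at this
      exact this
    · exact absurd (h2.trans h1) (not_lt.2 h3.le)
    · -- k < j < i
      have := hor k j i h2 h1
      rw [orient_swap', orient_swap, orient_swap', neg_neg] at this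
      exact fun h => this (by rw [h, neg_zero])
  intro x hx y hy z hz hxy hyz hxz hcol
  rw [Finset.mem_image] at hx hy hz
  obtain ⟨i, _, rfl⟩ := hx
  obtain ⟨j, _, rfl⟩ := hy
  obtain ⟨k, _, rfl⟩ := hz
  exact hall i j k (fun h => hxy (by rw [h])) (fun h => hyz (by rw [h]))
    (fun h => hxz (by rw [h])) (orient_of_collinear hcol)

/-- for every `m ≥ 1` there is a set of `7 m` points in general position all of whose path
coverings have at least `18 m / 5` members -/
theorem exists_set (m : ℕ) (hm : 1 ≤ m) : ∃ A : Finset (ℝ × ℝ), A.card = 7 * m ∧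
    GeneralPosition A ∧ (18 / 35 : ℝ) * ((7 * m : ℕ) : ℝ) ≤ (pathCoverNumber A : ℝ) := by
  classical
  obtain ⟨ε, h0, hε⟩ := exists_eps
  let e : Fin 7 × Fin m ≃ Fin (7 * m) := finProdFinEquiv
  let cl : Fin (7 * m) → Fin 7 := fun x => (e.symm x).1
  obtain ⟨a, ha, hinj, hor⟩ := exists_general ε h0 (7 * m) (fun x => P (cl x))
  have hsum : ∀ u : Fin 7 → ℕ, ∑ x, u (cl x) = m * ∑ i, u i := by
    intro u
    rw [← Equiv.sum_comp e (fun x => u (cl x))]
    simp only [cl, Equiv.symm_apply_apply]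
    rw [Fintype.sum_prod_type]
    simp only [Finset.sum_const, Finset.card_univ, Fintype.card_fin, smul_eq_mul]
    rw [Finset.mul_sum]
  refine ⟨Finset.univ.image a, ?_, generalPosition_image a hor, ?_⟩
  · rw [Finset.card_image_of_injective _ hinj, Finset.card_univ, Fintype.card_fin]
  · have hne : {k | ∃ F : Fin k → PlanePath (Finset.univ.image a), Covers F}.Nonempty :=
      covering_exists _
    obtain ⟨F, hF⟩ := Nat.sInf_mem hne
    have hb := cover_bound hε h0 cl a hinj ha m hsum F hF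
    have hb2 : 18 * m ≤ 5 * pathCoverNumber (Finset.univ.image a) := by
      have h3 : (4 * m) * (18 * m) ≤ (4 * m) * (5 * pathCoverNumber (Finset.univ.image a)) := by
        calc (4 * m) * (18 * m) = 72 * m * m := by ring
          _ ≤ 20 * m * pathCoverNumber (Finset.univ.image a) := hb
          _ = (4 * m) * (5 * pathCoverNumber (Finset.univ.image a)) := by ring
      exact Nat.le_of_mul_le_mul_left h3 (by omega)
    have hb3 : (18 : ℝ) * m ≤ 5 * (pathCoverNumber (Finset.univ.image a) : ℝ) := by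
      exact_mod_cast hb2
    push_cast
    linarith

end Pool.Agent.V11103.PathCover
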