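import Mathlib

/-!
Definitions: coverings of complete geometric graphs by noncrossing paths.
-/

namespace Pool.Agent.V11103.PathCover

/-- A finite planar point set is in general position if no three of its points are collinear. -/
def GeneralPosition (A : Finset (ℝ × ℝ)) : Prop :=
  ∀ x ∈ A, ∀ y ∈ A, ∀ z ∈ A, x ≠ y → y ≠ z → x ≠ z → ¬ Collinear ℝ {x, y, z}

/-- A noncrossing path in the complete geometric graph on `A`: a sequence `v 0, …, v t` of `t + 1`
distinct points of `A` (with `1 ≤ t`, so at least two points), whose edges are the segments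
`[v i, v (i+1)]` for `i < t`, such that two distinct edges share no point other than a common
endpoint. -/
structure PlanePath (A : Finset (ℝ × ℝ)) where
  /-- number of edges -/
  t : ℕ
  /-- there is at least one edge -/
  one_le : 1 ≤ t
  /-- the vertices -/
  v : Fin (t + 1) → ℝ × ℝ
  /-- the vertices are distinct -/
  inj : Function.Injective v
  /-- the vertices are points of `A` -/
  mem : ∀ i, v i ∈ A
  /-- two edges share no point other than a common endpoint -/
  noncrossing : ∀ i j : Fin t, i ≠ j →
    ∀ x ∈ segment ℝ (v i.castSucc) (v i.succ), x ∈ segment ℝ (v j.castSucc) (v j.succ) →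
      (x = v i.castSucc ∨ x = v i.succ) ∧ (x = v j.castSucc ∨ x = v j.succ)

/-- The family `F` of noncrossing paths covers all edges of the complete geometric graph
on `A`. -/
def Covers {A : Finset (ℝ × ℝ)} {k : ℕ} (F : Fin k → PlanePath A) : Prop :=
  ∀ a ∈ A, ∀ b ∈ A, a ≠ b → ∃ s : Fin k, ∃ i : Fin (F s).t,
    s((F s).v i.castSucc, (F s).v i.succ) = s(a, b)

/-- `p(A)`: the minimum number of noncrossing paths in a covering of the complete geometric
graph on `A`. -/
noncomputable def pathCoverNumber (A : Finset (ℝ × ℝ)) : ℕ :=
  sInf {k | ∃ F : Fin k → PlanePath A, Covers F}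

end Pool.Agent.V11103.PathCover
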