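import Mathlib

/-! The graphs: the 5 × 5 grid on the torus with a fan of `k` vertices in one face. -/

set_option autoImplicit false

open Finset

namespace Pool.Agent.V11103.Pc

/-- the vertices of the grid -/
abbrev B : Type := ZMod 5 × ZMod 5

/-- `C₅ □ C₅` -/
def grid : SimpleGraph B where
  Adj p q := q - p = (1, 0) ∨ p - q = (1, 0) ∨ q - p = (0, 1) ∨ p - q = (0, 1)
  symm := ⟨fun p q h => by
    rcases h with h | h | h | h
    · exact Or.inr (Or.inl h)
    · exact Or.inl h
    · exact Or.inr (Or.inr (Or.inr h))
    · exact Or.inr (Or.inr (Or.inl h))⟩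
  loopless := ⟨fun p h => by
    rw [sub_self] at h
    revert h
    decide⟩

instance : DecidableRel grid.Adj := fun p q => by unfold grid; infer_instance

/-- the vertices -/
abbrev V (k : ℕ) : Type := B ⊕ Fin k

/-- The grid, and `k` new vertices `d 0, ..., d (k - 1)`, each adjacent to `(0,0)` and `(1,0)` and to the next
one, and the first one adjacent to `(1,1)`. -/
def G (k : ℕ) : SimpleGraph (V k) where
  Adj
    | .inl p, .inl q => grid.Adj p q
    | .inl p, .inr i => p = (0, 0) ∨ p = (1, 0) ∨ (p = (1, 1) ∧ i.1 = 0)
    | .inr i, .inl p => p = (0, 0) ∨ p = (1, 0) ∨ (p = (1, 1) ∧ i.1 = 0)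
    | .inr i, .inr j => i.1 + 1 = j.1 ∨ j.1 + 1 = i.1
  symm := ⟨fun u v h => by
    rcases u with p | i <;> rcases v with q | j
    · exact SimpleGraph.Adj.symm (G := grid) h
    · exact h
    · exact h
    · exact Or.symm h⟩
  loopless := ⟨fun u h => by
    rcases u with p | i
    · exact grid.loopless.irrefl p h
    · rcases h with h | h <;> omega⟩

/-- the induced subgraph on `S` is a cycle -/
def IsInducedCycle {V : Type} (G : SimpleGraph V) (S : Finset V) : Prop :=
  (G.induce (S : Set V)).Connected ∧ ∀ v ∈ S, {w | w ∈ S ∧ G.Adj v w}.ncard = 2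

/-- `S` is the vertex set of a peripheral cycle: an induced cycle whose removal leaves a connected graph -/
def IsPeripheral {V : Type} (G : SimpleGraph V) (S : Finset V) : Prop :=
  IsInducedCycle G S ∧ (G.induce ((S : Set V)ᶜ)).Connected

lemma closed_eq {V : Type} (G : SimpleGraph V) (S : Finset V)
    (hc : (G.induce (S : Set V)).Connected) (T : Finset V) (hTS : T ⊆ S) (hne : T.Nonempty)
    (hcl : ∀ v ∈ T, ∀ w ∈ S, G.Adj v w → w ∈ T) : S = T := by
  apply Finset.Subset.antisymm _ hTS
  intro w hw
  obtain ⟨v, hv⟩ := hne
  obtain ⟨p⟩ := hc.preconnected ⟨v, hTS hv⟩ ⟨w, hw⟩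
  have key : ∀ (a b : (S : Set V)), (G.induce (S : Set V)).Walk a b → a.1 ∈ T → b.1 ∈ T := by
    intro a b p
    induction p with
    | nil => exact id
    | cons h _ ih =>
      intro ha
      exact ih (hcl _ ha _ (Subtype.prop _) h)
  exact key _ _ p hv

lemma two_nbrs {V : Type} [DecidableEq V] (G : SimpleGraph V) (S : Finset V) (v a b w : V)
    (h2 : {w | w ∈ S ∧ G.Adj v w}.ncard = 2) (hab : a ≠ b) (ha : a ∈ S) (hb : b ∈ S)
    (hva : G.Adj v a) (hvb : G.Adj v b) (hw : w ∈ S) (hvw : G.Adj v w) : w = a ∨ w = b := by
  have hfin : {w | w ∈ S ∧ G.Adj v w}.Finite := S.finite_toSet.subset fun x hx => hx.1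
  have h3 : ({a, b} : Set V) ⊆ {w | w ∈ S ∧ G.Adj v w} := by
    rintro x (rfl | rfl)
    · exact ⟨ha, hva⟩
    · exact ⟨hb, hvb⟩
  have h4 : ({a, b} : Set V) = {w | w ∈ S ∧ G.Adj v w} :=
    Set.eq_of_subset_of_ncard_le h3 (by rw [h2, Set.ncard_pair hab]) hfin
  have h5 : w ∈ ({a, b} : Set V) := by rw [h4]; exact ⟨hw, hvw⟩
  exact h5

lemma triangle_eq {V : Type} [DecidableEq V] (G : SimpleGraph V) (S : Finset V)
    (hS : IsInducedCycle G S) (a b c : V) (ha : a ∈ S) (hb : b ∈ S) (hc : c ∈ S)
    (hab : G.Adj a b) (hac : G.Adj a c) (hbc : G.Adj b c) : S = {a, b, c} := by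
  apply closed_eq G S hS.1 {a, b, c}
  · intro x hx
    simp only [Finset.mem_insert, Finset.mem_singleton] at hx
    rcases hx with rfl | rfl | rfl <;> assumption
  · exact ⟨a, by simp⟩
  · intro v hv w hw hvw
    simp only [Finset.mem_insert, Finset.mem_singleton] at hv ⊢
    rcases hv with rfl | rfl | rfl
    · rcases two_nbrs G S v b c w (hS.2 v ha) hbc.ne hb hc hab hac hw hvw with h | h
      · exact Or.inr (Or.inl h)
      · exact Or.inr (Or.inr h)
    · rcases two_nbrs G S v a c w (hS.2 v hb) hac.ne ha hc hab.symm hbc hw hvw with h | h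
      · exact Or.inl h
      · exact Or.inr (Or.inr h)
    · rcases two_nbrs G S v a b w (hS.2 v hc) hab.ne ha hb hac.symm hbc.symm hw hvw with h | h
      · exact Or.inl h
      · exact Or.inr (Or.inl h)

lemma exists_other {V : Type} [DecidableEq V] (G : SimpleGraph V) (S : Finset V) (v a : V)
    (h2 : {w | w ∈ S ∧ G.Adj v w}.ncard = 2) : ∃ w ∈ S, G.Adj v w ∧ w ≠ a := by
  by_contra hcon
  push Not at hcon
  have h3 : {w | w ∈ S ∧ G.Adj v w} ⊆ {a} := fun w hw => hcon w hw.1 hw.2
  have := Set.ncard_le_ncard h3
  rw [h2, Set.ncard_singleton] at this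
  omega

/-- the base sets: the grid and the first new vertex -/
def low (k : ℕ) : Finset (V k) := (univ.image (fun p : B => (.inl p : V k))) ∪
      (univ.filter (fun i : Fin k => i.1 = 0)).image (fun i => (.inr i : V k))

/-- the triangles through new vertices -/
def tri (k : ℕ) : Finset (Finset (V k)) :=
  (univ.image fun i : Fin k => ({.inl (0, 0), .inl (1, 0), .inr i} : Finset (V k))) ∪
  ((univ : Finset (Fin k × Fin k)).filter (fun q => q.1.1 + 1 = q.2.1)).image
    (fun q => ({.inl (0, 0), .inr q.1, .inr q.2} : Finset (V k))) ∪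
  ((univ : Finset (Fin k × Fin k)).filter (fun q => q.1.1 + 1 = q.2.1)).image
    (fun q => ({.inl (1, 0), .inr q.1, .inr q.2} : Finset (V k)))

lemma cycle_cases (k : ℕ) (S : Finset (V k)) (hS : IsInducedCycle (G k) S) :
    S ⊆ low k ∨ S ∈ tri k := by
  by_cases hlow : S ⊆ low k
  · exact Or.inl hlow
  · right
    rw [Finset.not_subset] at hlow
    obtain ⟨v, hv, hvl⟩ := hlow
    rcases v with p | i
    · exact absurd (by simp [low]) hvl
    · have hi : i.1 ≠ 0 := by
        intro h; exact hvl (by simp [low, h])
      have hA : ∀ j : Fin k, (G k).Adj (.inr j) (.inl (0, 0)) := fun j => Or.inl rfl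
      have hB : ∀ j : Fin k, (G k).Adj (.inr j) (.inl (1, 0)) := fun j => Or.inr (Or.inl rfl)
      have hAB : (G k).Adj (.inl (0, 0)) (.inl (1, 0)) := by
        change grid.Adj _ _; decide
      unfold tri
      rw [mem_union, mem_union]
      by_cases hAS : (.inl (0, 0) : V k) ∈ S
      · by_cases hBS : (.inl (1, 0) : V k) ∈ S
        · left; left
          rw [mem_image]
          exact ⟨i, mem_univ _, (triangle_eq _ S hS _ _ _ hAS hBS hv hAB (hA i).symm (hB i).symm).symm⟩
        · left; right
          obtain ⟨w, hw, hvw, hwA⟩ := exists_other (G k) S (.inr i) (.inl (0, 0)) (hS.2 _ hv)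
          rcases w with p | j
          · exfalso
            rcases hvw with h | h | h
            · exact hwA (by rw [h])
            · exact hBS (by rw [← h]; exact hw)
            · exact hi h.2
          · rw [mem_image]
            rcases hvw with h | h
            · exact ⟨(i, j), by simp [h], (triangle_eq _ S hS _ _ _ hAS hv hw (hA i).symm (hA j).symm
                (Or.inl h)).symm⟩
            · exact ⟨(j, i), by simp [h], (triangle_eq _ S hS _ _ _ hAS hw hv (hA j).symm (hA i).symm
                (Or.inl h)).symm⟩
      · by_cases hBS : (.inl (1, 0) : V k) ∈ S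
        · right
          obtain ⟨w, hw, hvw, hwB⟩ := exists_other (G k) S (.inr i) (.inl (1, 0)) (hS.2 _ hv)
          rcases w with p | j
          · exfalso
            rcases hvw with h | h | h
            · exact hAS (by rw [← h]; exact hw)
            · exact hwB (by rw [h])
            · exact hi h.2
          · rw [mem_image]
            rcases hvw with h | h
            · exact ⟨(i, j), by simp [h], (triangle_eq _ S hS _ _ _ hBS hv hw (hB i).symm (hB j).symm
                (Or.inl h)).symm⟩
            · exact ⟨(j, i), by simp [h], (triangle_eq _ S hS _ _ _ hBS hw hv (hB j).symm (hB i).symm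
                (Or.inl h)).symm⟩
        · exfalso
          -- the largest index in `S`
          obtain ⟨m, hm, hmax⟩ := Finset.exists_max_image
            ((univ : Finset (Fin k)).filter (fun j => (.inr j : V k) ∈ S)) (fun j => j.1)
            ⟨i, by simp [hv]⟩
          rw [mem_filter] at hm
          have hmi : i.1 ≤ m.1 := hmax i (by simp [hv])
          have hm1 : m.1 - 1 < k := by have := m.2; omega
          obtain ⟨w, hw, hvw, hwB⟩ := exists_other (G k) S (.inr m) (.inr ⟨m.1 - 1, hm1⟩)
            (hS.2 _ hm.2)
          rcases w with p | j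
          · rcases hvw with h | h | h
            · exact hAS (by rw [← h]; exact hw)
            · exact hBS (by rw [← h]; exact hw)
            · omega
          · have hjm : j.1 ≤ m.1 := hmax j (by simp [hw])
            rcases hvw with h | h
            · omega
            · apply hwB
              congr 1
              apply Fin.ext
              change j.1 = m.1 - 1
              omega

lemma card_low (k : ℕ) : (low k).card ≤ 26 := by
  unfold low
  refine (card_union_le _ _).trans ?_
  have h1 : (univ.image (fun p : B => (.inl p : V k))).card ≤ 25 := by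
    refine card_image_le.trans ?_
    rw [card_univ]; simp [B, ZMod.card]
  have h2 : ((univ.filter (fun i : Fin k => i.1 = 0)).image (fun i => (.inr i : V k))).card ≤ 1 := by
    refine card_image_le.trans ?_
    rw [card_le_one]
    intro a ha b hb
    rw [mem_filter] at ha hb
    apply Fin.ext; rw [ha.2, hb.2]
  omega

lemma card_tri (k : ℕ) : (tri k).card ≤ 3 * k := by
  unfold tri
  have h1 : ((univ : Finset (Fin k × Fin k)).filter (fun q => q.1.1 + 1 = q.2.1)).card ≤ k := by
    calc _ ≤ (univ : Finset (Fin k)).card := by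
          apply Finset.card_le_card_of_injOn (fun q => q.1) (fun _ _ => mem_coe.2 (mem_univ _))
          intro a ha b hb hab
          simp only [coe_filter, mem_univ, true_and, Set.mem_ofPred_eq] at ha hb
          apply Prod.ext hab
          apply Fin.ext
          have : a.1.1 = b.1.1 := congrArg Fin.val hab
          omega
      _ = k := by simp
  have h2 : (univ.image fun i : Fin k =>
      ({.inl (0, 0), .inl (1, 0), .inr i} : Finset (V k))).card ≤ k := by
    refine card_image_le.trans ?_
    simp
  refine (card_union_le _ _).trans ?_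
  refine (Nat.add_le_add ((card_union_le _ _).trans (Nat.add_le_add h2 (card_image_le.trans h1)))
    (card_image_le.trans h1)).trans ?_
  omega

/-- the number of induced cycles grows linearly -/
theorem count (k : ℕ) : {S : Finset (V k) | IsPeripheral (G k) S}.ncard ≤ 2 ^ 26 + 3 * k := by
  have h : {S : Finset (V k) | IsPeripheral (G k) S} ⊆ ((low k).powerset ∪ tri k : Finset _) := by
    intro S hS
    rw [mem_coe, mem_union, mem_powerset]
    exact cycle_cases k S hS.1
  refine (Set.ncard_le_ncard h (Finset.finite_toSet _)).trans ?_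
  rw [Set.ncard_coe_finset]
  refine (card_union_le _ _).trans (Nat.add_le_add ?_ (card_tri k))
  rw [card_powerset]
  exact Nat.pow_le_pow_right (by norm_num) (card_low k)

end Pool.Agent.V11103.Pc
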