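import Mathlib

/-! A closed curve on the torus which is not null-homotopic is onto in one coordinate. -/

set_option autoImplicit false

open Topology Set

namespace Pool.Agent.V11103.Pc

instance : Fact ((0 : ℝ) < 5) := ⟨by norm_num⟩

/-- the torus `(ℝ / 5ℤ)²` -/
abbrev Torus : Type := AddCircle (5 : ℝ) × AddCircle (5 : ℝ)

/-- the projection of the plane onto the torus -/
def toT (p : ℝ × ℝ) : Torus := ((p.1 : AddCircle (5 : ℝ)), (p.2 : AddCircle (5 : ℝ)))

lemma continuous_toT : Continuous toT := by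
  unfold toT
  have h : Continuous (fun x : ℝ => (x : AddCircle (5 : ℝ))) := AddCircle.continuous_mk' 5
  exact (h.comp continuous_fst).prodMk (h.comp continuous_snd)

/-- a map that misses a point of the circle lifts to the line -/
lemma lift_of_miss {X : Type*} [TopologicalSpace X] (f : C(X, AddCircle (5 : ℝ)))
    (a : ℝ) (h : ∀ x, f x ≠ (a : AddCircle (5 : ℝ))) :
    ∃ L : C(X, ℝ), ∀ x, (L x : AddCircle (5 : ℝ)) = f x := by
  refine ⟨⟨fun x => ((AddCircle.equivIco (5 : ℝ) a (f x) : Ico a (a + 5)) : ℝ), ?_⟩, ?_⟩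
  · rw [continuous_iff_continuousAt]
    intro x
    have h1 : ContinuousAt (AddCircle.equivIco (5 : ℝ) a) (f x) :=
      AddCircle.continuousAt_equivIco (5 : ℝ) a (h x)
    exact continuousAt_subtype_val.comp (h1.comp f.continuous.continuousAt)
  · intro x
    exact (AddCircle.equivIco (5 : ℝ) a).symm_apply_apply (f x)

lemma toT_lift_null {X : Type*} [TopologicalSpace X] (γ : C(X, Torus)) (L M : C(X, ℝ))
    (hL : ∀ x, (L x : AddCircle (5 : ℝ)) = (γ x).1)
    (hM : ∀ x, (M x : AddCircle (5 : ℝ)) = (γ x).2) : γ.Nullhomotopic := by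
  have h1 : γ = (⟨toT, continuous_toT⟩ : C(ℝ × ℝ, Torus)).comp (L.prodMk M) := by
    ext x
    · simp [toT, hL]
    · simp [toT, hM]
  rw [h1]
  have h2 : (⟨toT, continuous_toT⟩ : C(ℝ × ℝ, Torus)).Nullhomotopic := by
    have h3 : (ContinuousMap.id (ℝ × ℝ)).Nullhomotopic := id_nullhomotopic _
    have := h3.comp_right (⟨toT, continuous_toT⟩ : C(ℝ × ℝ, Torus))
    simpa using this
  exact h2.comp_left _

theorem onto_of_not_null {X : Type*} [TopologicalSpace X] (γ : C(X, Torus))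
    (h : ¬ γ.Nullhomotopic) :
    (∀ a : AddCircle (5 : ℝ), ∃ x, (γ x).1 = a) ∨ (∀ a : AddCircle (5 : ℝ), ∃ x, (γ x).2 = a) := by
  by_contra hcon
  push Not at hcon
  obtain ⟨⟨a, ha⟩, ⟨b, hb⟩⟩ := hcon
  obtain ⟨a, rfl⟩ := QuotientAddGroup.mk_surjective a
  obtain ⟨b, rfl⟩ := QuotientAddGroup.mk_surjective b
  obtain ⟨L, hL⟩ := lift_of_miss (⟨fun x => (γ x).1, continuous_fst.comp γ.continuous⟩) a ha
  obtain ⟨M, hM⟩ := lift_of_miss (⟨fun x => (γ x).2, continuous_snd.comp γ.continuous⟩) b hb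
  exact h (toT_lift_null γ L M hL hM)

/-- the points of the plane square `[0,5)²` are different on the torus -/
lemma toT_inj {p q : ℝ × ℝ} (hp1 : 0 ≤ p.1 ∧ p.1 < 5) (hp2 : 0 ≤ p.2 ∧ p.2 < 5)
    (hq1 : 0 ≤ q.1 ∧ q.1 < 5) (hq2 : 0 ≤ q.2 ∧ q.2 < 5) (h : toT p = toT q) : p = q := by
  unfold toT at h
  have h1 := congrArg Prod.fst h
  have h2 := congrArg Prod.snd h
  simp only at h1 h2
  have key : ∀ x y : ℝ, (0 ≤ x ∧ x < 5) → (0 ≤ y ∧ y < 5) →
      (x : AddCircle (5 : ℝ)) = (y : AddCircle (5 : ℝ)) → x = y := by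
    intro x y hx hy hxy
    have := (AddCircle.coe_eq_coe_iff_of_mem_Ico (p := (5 : ℝ)) (a := 0)
      (by constructor <;> linarith [hx.1, hx.2]) (by constructor <;> linarith [hy.1, hy.2])).1 hxy
    exact this
  exact Prod.ext (key _ _ hp1 hq1 h1) (key _ _ hp2 hq2 h2)

end Pool.Agent.V11103.Pc
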