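import Mathlib

/-!
Definitions for the question on quasi-disjointness from ergodic systems versus from itself.

Throughout, `G` is a group acting on compact metrizable spaces `X`, `Y` by homeomorphisms (this is
the class pair `MulAction G X`, `ContinuousConstSMul G X`), and `μ`, `ν` are invariant Borel
probability measures.  The definitions below only use the measurability of the action.
-/

namespace Pool.Agent.V11103
namespace QD

open MeasureTheory

section Defs

variable (G : Type) [Group G]
variable {X : Type} [MeasurableSpace X] [MulAction G X] [MeasurableConstSMul G X]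
variable {Y : Type} [MeasurableSpace Y] [MulAction G Y] [MeasurableConstSMul G Y]

/-- The orbit `{f ∘ T^g : g ∈ G}` of `f ∈ L²(X, μ)`, where `T^g x = g • x`. -/
def koopmanOrbit (μ : Measure X) [SMulInvariantMeasure G X μ] (f : Lp ℂ 2 μ) :
    Set (Lp ℂ 2 μ) :=
  Set.range fun g : G =>
    Lp.compMeasurePreserving (fun x : X => g • x) (measurePreserving_smul g μ) f

/-- The closed subspace of `L²(X, μ)` spanned by those `f` for which `{f ∘ T^g : g ∈ G}` has
compact closure in `L²(X, μ)`. -/
noncomputable def kroneckerSpace (μ : Measure X) [SMulInvariantMeasure G X μ] :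
    Submodule ℂ (Lp ℂ 2 μ) :=
  (Submodule.span ℂ {f : Lp ℂ 2 μ | IsCompact (closure (koopmanOrbit G μ f))}).topologicalClosure

/-- `A` is measurable with respect to the Kronecker factor of `(X, T, μ)`: it is a Borel set
whose indicator function lies in the closed subspace which defines the Kronecker factor. -/
def KroneckerSet (μ : Measure X) [IsFiniteMeasure μ] [SMulInvariantMeasure G X μ]
    (A : Set X) : Prop :=
  ∃ hA : MeasurableSet A,
    indicatorConstLp 2 hA (measure_ne_top μ A) (1 : ℂ) ∈ kroneckerSpace G μ

/-- `lam` is a joining of `(X, T, μ)` and `(Y, S, ν)`: its marginals are `μ` and `ν` and it is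
invariant under the diagonal action. -/
structure IsJoining (μ : Measure X) (ν : Measure Y) (lam : Measure (X × Y)) : Prop where
  fst : lam.map Prod.fst = μ
  snd : lam.map Prod.snd = ν
  invariant : ∀ g : G, lam.map (fun p : X × Y => (g • p.1, g • p.2)) = lam

/-- The image of the joining `lam` on the product of the two Kronecker factors is the product
of the measures of the two Kronecker factors. -/
def ProjectsToKroneckerProduct (μ : Measure X) (ν : Measure Y) [IsFiniteMeasure μ]
    [IsFiniteMeasure ν] [SMulInvariantMeasure G X μ] [SMulInvariantMeasure G Y ν]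
    (lam : Measure (X × Y)) : Prop :=
  ∀ (A : Set X) (B : Set Y), KroneckerSet G μ A → KroneckerSet G ν B →
    lam (A ×ˢ B) = μ A * ν B

/-- `(X, T, μ)` and `(Y, S, ν)` are quasi-disjoint: the product measure is the only joining
whose image on the product of the Kronecker factors is the product measure. -/
def QuasiDisjoint (μ : Measure X) (ν : Measure Y) [IsFiniteMeasure μ]
    [IsFiniteMeasure ν] [SMulInvariantMeasure G X μ] [SMulInvariantMeasure G Y ν] : Prop :=
  ∀ lam : Measure (X × Y), IsJoining G μ ν lam → ProjectsToKroneckerProduct G μ ν lam →
    lam = μ.prod ν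

/-- `(X, T, μ)` is ergodic: every invariant Borel set has measure `0` or `1`. -/
def ErgodicSystem (μ : Measure X) : Prop :=
  ∀ A : Set X, MeasurableSet A → (∀ g : G, (fun x : X => g • x) ⁻¹' A = A) → μ A = 0 ∨ μ A = 1

end Defs

end QD
end Pool.Agent.V11103
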