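import Pool.Agent.V11103.QDJoin

/-!
If a system is quasi-disjoint from every ergodic system then it is quasi-disjoint from every
system: an extreme point argument.
-/

set_option linter.unusedSectionVars false

namespace Pool.Agent.V11103
namespace QD

open MeasureTheory ProbabilityTheory
open scoped ENNReal Topology

section Erg

variable (G : Type) [Group G]
variable {X : Type} [TopologicalSpace X] [CompactSpace X] [PolishSpace X] [MeasurableSpace X]
  [BorelSpace X] [MulAction G X] [ContinuousConstSMul G X]
variable {Y : Type} [TopologicalSpace Y] [CompactSpace Y] [PolishSpace Y] [MeasurableSpace Y]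
  [BorelSpace Y] [MulAction G Y] [ContinuousConstSMul G Y]

/-- the set of measures used in the extreme point argument -/
structure InQ (μ : Measure X) [IsFiniteMeasure μ] [SMulInvariantMeasure G X μ]
    (lam : Measure (X × Y)) : Prop where
  fst : lam.map Prod.fst = μ
  invariant : ∀ g : G, lam.map (fun p : X × Y => (g • p.1, g • p.2)) = lam
  kron : ∀ (A : Set X) (B : Set Y), KroneckerSet G μ A → MeasurableSet B →
    lam (A ×ˢ B) = μ A * lam (Set.univ ×ˢ B)

omit [CompactSpace X] [PolishSpace X] [CompactSpace Y] [PolishSpace Y] in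
lemma meas_diag (g : G) : Measurable (fun p : X × Y => (g • p.1, g • p.2)) :=
    ((measurable_const_smul g).comp measurable_fst).prodMk
      ((measurable_const_smul g).comp measurable_snd)

lemma intCont {Z : Type} [TopologicalSpace Z] [CompactSpace Z] [PolishSpace Z] [MeasurableSpace Z]
    [BorelSpace Z] (P : Measure Z) [IsFiniteMeasure P] {f : Z → ℝ} (hf : Continuous f) :
    Integrable f P := by
  obtain ⟨C, hC⟩ := isCompact_univ.exists_bound_of_continuousOn hf.continuousOn
  exact Integrable.of_bound hf.aestronglyMeasurable C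
    (Filter.Eventually.of_forall fun z => hC z (Set.mem_univ z))

lemma ext_cont {Z : Type} [TopologicalSpace Z] [CompactSpace Z] [PolishSpace Z]
    [MeasurableSpace Z] [BorelSpace Z] {P P' : Measure Z} [IsFiniteMeasure P] [IsFiniteMeasure P']
    (h : ∀ f : C(Z, ℝ), ∫ z, f z ∂P = ∫ z, f z ∂P') : P = P' := by
  let _ := TopologicalSpace.upgradeIsCompletelyMetrizable Z
  refine ext_of_forall_integral_eq_of_IsFiniteMeasure fun f => ?_
  exact h f.toContinuousMap

/-- key identity for the Kronecker sets -/
lemma kron_int {μ : Measure X} [IsProbabilityMeasure μ] [SMulInvariantMeasure G X μ]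
    {P : Measure (X × Y)} [IsProbabilityMeasure P] (hP : InQ G μ P) {A : Set X}
    (hA : KroneckerSet G μ A) (g : C(Y, ℝ)) :
    ∫ p, A.indicator (fun _ => (1 : ℝ)) p.1 * g p.2 ∂P = (μ A).toReal * ∫ p, g p.2 ∂P := by
  have hAm := hA.1
  have e : (P.restrict (Prod.fst ⁻¹' A)).map Prod.snd = (μ A) • (P.map Prod.snd) := by
    ext B hB
    rw [Measure.map_apply measurable_snd hB, Measure.restrict_apply (measurable_snd hB),
      Measure.smul_apply, Measure.map_apply measurable_snd hB, smul_eq_mul]
    have e1 : (Prod.snd ⁻¹' B ∩ Prod.fst ⁻¹' A : Set (X × Y)) = A ×ˢ B := by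
      ext ⟨x, y⟩; simp [and_comm]
    have e2 : (Prod.snd ⁻¹' B : Set (X × Y)) = Set.univ ×ˢ B := by ext; simp
    rw [e1, e2, hP.kron A B hA hB]
  have h1 : ∫ p, A.indicator (fun _ => (1 : ℝ)) p.1 * g p.2 ∂P =
      ∫ y, g y ∂((P.restrict (Prod.fst ⁻¹' A)).map Prod.snd) := by
    rw [integral_map measurable_snd.aemeasurable g.continuous.aestronglyMeasurable,
      ← integral_indicator (measurable_fst hAm)]
    refine integral_congr_ae (Filter.Eventually.of_forall fun p => ?_)
    by_cases hp : p.1 ∈ A <;> simp [hp, Set.indicator]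
  rw [h1, e, integral_smul_measure,
    integral_map measurable_snd.aemeasurable g.continuous.aestronglyMeasurable, smul_eq_mul]

/-- integrals over the product of a function with small first factor -/
lemma int_bound {μ : Measure X} [IsProbabilityMeasure μ]
    {P : Measure (X × Y)} [IsProbabilityMeasure P] (hP : P.map Prod.fst = μ) {k : X → ℝ}
    (hk : Integrable k μ) (g : C(Y, ℝ)) :
    |∫ p, k p.1 * g p.2 ∂P| ≤ ‖g‖ * ∫ x, |k x| ∂μ := by
  have hkP : Integrable (fun p : X × Y => k p.1) P := by
    rw [← hP] at hk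
    exact hk.comp_measurable measurable_fst
  calc |∫ p, k p.1 * g p.2 ∂P| ≤ ∫ p, |k p.1 * g p.2| ∂P := abs_integral_le_integral_abs
    _ ≤ ∫ p, ‖g‖ * |k p.1| ∂P := by
        refine integral_mono_of_nonneg (Filter.Eventually.of_forall fun p => abs_nonneg _)
          (hkP.abs.const_mul _) (Filter.Eventually.of_forall fun p => ?_)
        have := g.norm_coe_le_norm p.2
        rw [Real.norm_eq_abs] at this
        show |k p.1 * g p.2| ≤ ‖g‖ * |k p.1|
        rw [abs_mul, mul_comm]
        exact mul_le_mul_of_nonneg_right this (abs_nonneg _)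
    _ = ‖g‖ * ∫ x, |k x| ∂μ := by
        rw [integral_const_mul]
        congr 1
        rw [← hP, integral_map measurable_fst.aemeasurable]
        rw [hP]; exact hk.abs.aestronglyMeasurable

lemma kron_ineq {μ : Measure X} [IsProbabilityMeasure μ] [SMulInvariantMeasure G X μ]
    {P : Measure (X × Y)} [IsProbabilityMeasure P] (hP : InQ G μ P) {A : Set X}
    (hA : KroneckerSet G μ A) (f : C(X, ℝ)) (g : C(Y, ℝ)) :
    |∫ p, f p.1 * g p.2 ∂P - (μ A).toReal * ∫ p, g p.2 ∂P| ≤
      ‖g‖ * ∫ x, |f x - A.indicator (fun _ => (1 : ℝ)) x| ∂μ := by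
  have hAm := hA.1
  rw [← kron_int G hP hA g]
  have hi1 : Integrable (fun p : X × Y => f p.1 * g p.2) P :=
    intCont P (by fun_prop)
  have hgc : Continuous fun p : X × Y => g p.2 := by fun_prop
  have hi2 : Integrable (fun p : X × Y => A.indicator (fun _ => (1 : ℝ)) p.1 * g p.2) P := by
    refine (intCont P hgc).bdd_mul (c := 1) ?_ ?_
    · exact ((measurable_const.indicator hAm).comp measurable_fst).aestronglyMeasurable
    · refine Filter.Eventually.of_forall fun p => ?_
      by_cases hp : p.1 ∈ A <;> simp [hp, Set.indicator]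
  rw [← integral_sub hi1 hi2]
  have := int_bound (k := fun x => f x - A.indicator (fun _ => (1 : ℝ)) x) hP.fst
    ((intCont μ f.continuous).sub ((integrable_const _).indicator hAm)) g
  refine le_trans (le_of_eq ?_) this
  congr 2
  funext p; ring

lemma inQ_of {μ : Measure X} [IsProbabilityMeasure μ] [SMulInvariantMeasure G X μ]
    {P : Measure (X × Y)} [IsProbabilityMeasure P]
    (h1 : ∀ f : C(X, ℝ), ∫ p, f p.1 ∂P = ∫ x, f x ∂μ)
    (h2 : ∀ (g : G) (f : C(X × Y, ℝ)), ∫ p, f (g • p.1, g • p.2) ∂P = ∫ p, f p ∂P)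
    (h3 : ∀ A : Set X, KroneckerSet G μ A → ∀ (f : C(X, ℝ)) (g : C(Y, ℝ)),
      |∫ p, f p.1 * g p.2 ∂P - (μ A).toReal * ∫ p, g p.2 ∂P| ≤
      ‖g‖ * ∫ x, |f x - A.indicator (fun _ => (1 : ℝ)) x| ∂μ) : InQ G μ P := by
  have hfst : P.map Prod.fst = μ := by
    have : IsProbabilityMeasure (P.map (Prod.fst : X × Y → X)) :=
      Measure.isProbabilityMeasure_map measurable_fst.aemeasurable
    refine ext_cont fun f => ?_
    rw [integral_map measurable_fst.aemeasurable f.continuous.aestronglyMeasurable]
    exact h1 f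
  refine ⟨hfst, ?_, ?_⟩
  · intro g
    have : IsProbabilityMeasure (P.map (fun p : X × Y => (g • p.1, g • p.2))) :=
      Measure.isProbabilityMeasure_map (meas_diag G g).aemeasurable
    refine ext_cont fun f => ?_
    rw [integral_map (meas_diag G g).aemeasurable f.continuous.aestronglyMeasurable]
    exact h2 g f
  · intro A B hA hB
    have hAm := hA.1
    have key : ∀ g : C(Y, ℝ), ∫ p, A.indicator (fun _ => (1 : ℝ)) p.1 * g p.2 ∂P =
        (μ A).toReal * ∫ p, g p.2 ∂P := by
      intro g
      have hgc : Continuous fun p : X × Y => g p.2 := by fun_prop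
      have hi2 : Integrable (fun p : X × Y => A.indicator (fun _ => (1 : ℝ)) p.1 * g p.2) P := by
        refine (intCont P hgc).bdd_mul (c := 1) ?_ ?_
        · exact ((measurable_const.indicator hAm).comp measurable_fst).aestronglyMeasurable
        · refine Filter.Eventually.of_forall fun p => ?_
          by_cases hp : p.1 ∈ A <;> simp [hp, Set.indicator]
      have hle : ∀ ε : ℝ, 0 < ε →
          |∫ p, A.indicator (fun _ => (1 : ℝ)) p.1 * g p.2 ∂P - (μ A).toReal * ∫ p, g p.2 ∂P| ≤
          2 * ‖g‖ * ε := by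
        intro ε hε
        have hint : Integrable (A.indicator (fun _ => (1 : ℝ))) μ :=
          (integrable_const _).indicator hAm
        obtain ⟨f0, hf0, -⟩ := hint.exists_boundedContinuous_integral_sub_le hε
        set f : C(X, ℝ) := f0.toContinuousMap with hfdef
        have hf : ∫ x, |f x - A.indicator (fun _ => (1 : ℝ)) x| ∂μ ≤ ε := by
          refine le_trans (le_of_eq ?_) hf0
          refine integral_congr_ae (Filter.Eventually.of_forall fun x => ?_)
          show |f0 x - A.indicator (fun _ => (1 : ℝ)) x| = |A.indicator (fun _ => (1 : ℝ)) x - f0 x|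
          exact abs_sub_comm _ _
        have hi1 : Integrable (fun p : X × Y => f p.1 * g p.2) P :=
          intCont P (by fun_prop)
        have a1 := h3 A hA f g
        have a2 := int_bound (k := fun x => A.indicator (fun _ => (1 : ℝ)) x - f x) hfst
          (hint.sub (intCont μ f.continuous)) g
        have a3 : ∫ p, (A.indicator (fun _ => (1 : ℝ)) p.1 - f p.1) * g p.2 ∂P =
            ∫ p, A.indicator (fun _ => (1 : ℝ)) p.1 * g p.2 ∂P - ∫ p, f p.1 * g p.2 ∂P := by
          rw [← integral_sub hi2 hi1]
          congr 1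
          funext p; ring
        have a4 : ∫ x, |A.indicator (fun _ => (1 : ℝ)) x - f x| ∂μ ≤ ε := by
          refine le_trans (le_of_eq ?_) hf
          refine integral_congr_ae (Filter.Eventually.of_forall fun x => ?_)
          exact abs_sub_comm _ _
        have hg0 : 0 ≤ ‖g‖ := norm_nonneg _
        have a5 : ‖g‖ * ∫ x, |A.indicator (fun _ => (1 : ℝ)) x - f x| ∂μ ≤ ‖g‖ * ε :=
          mul_le_mul_of_nonneg_left a4 hg0
        have a6 : ‖g‖ * ∫ x, |f x - A.indicator (fun _ => (1 : ℝ)) x| ∂μ ≤ ‖g‖ * ε :=
          mul_le_mul_of_nonneg_left hf hg0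
        rw [a3] at a2
        have := abs_sub_le (∫ p, A.indicator (fun _ => (1 : ℝ)) p.1 * g p.2 ∂P)
          (∫ p, f p.1 * g p.2 ∂P) ((μ A).toReal * ∫ p, g p.2 ∂P)
        linarith
      have hzero : |∫ p, A.indicator (fun _ => (1 : ℝ)) p.1 * g p.2 ∂P -
          (μ A).toReal * ∫ p, g p.2 ∂P| ≤ 0 := by
        refine le_of_forall_pos_le_add fun δ hδ => ?_
        have h0 : 0 < 2 * ‖g‖ + 1 := by positivity
        have := hle (δ / (2 * ‖g‖ + 1)) (by positivity)
        refine this.trans ?_
        rw [zero_add, mul_div_assoc', div_le_iff₀ h0]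
        nlinarith [norm_nonneg g]
      have := abs_nonpos_iff.1 hzero
      linarith
    have e : (P.restrict (Prod.fst ⁻¹' A)).map Prod.snd = (μ A) • (P.map Prod.snd) := by
      have i1 : IsProbabilityMeasure (P.map (Prod.snd : X × Y → Y)) :=
        Measure.isProbabilityMeasure_map measurable_snd.aemeasurable
      have i2 : IsFiniteMeasure ((μ A) • (P.map (Prod.snd : X × Y → Y))) :=
        Measure.smul_finite _ (measure_ne_top _ _)
      refine ext_cont fun g => ?_
      rw [integral_smul_measure,
        integral_map measurable_snd.aemeasurable g.continuous.aestronglyMeasurable,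
        integral_map measurable_snd.aemeasurable g.continuous.aestronglyMeasurable, smul_eq_mul,
        ← key g, ← integral_indicator (measurable_fst hAm)]
      refine integral_congr_ae (Filter.Eventually.of_forall fun p => ?_)
      by_cases hp : p.1 ∈ A <;> simp [hp, Set.indicator]
    have e3 := congrArg (fun m : Measure Y => m B) e
    simp only [Measure.smul_apply, smul_eq_mul] at e3
    rw [Measure.map_apply measurable_snd hB, Measure.restrict_apply (measurable_snd hB),
      Measure.map_apply measurable_snd hB] at e3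
    have e1 : (Prod.snd ⁻¹' B ∩ Prod.fst ⁻¹' A : Set (X × Y)) = A ×ˢ B := by
      ext ⟨x, y⟩; simp [and_comm]
    have e2 : (Prod.snd ⁻¹' B : Set (X × Y)) = Set.univ ×ˢ B := by ext; simp
    rwa [e1, e2] at e3

/-- the compact set of the extreme point argument -/
def Qset (Y : Type) [TopologicalSpace Y] [MeasurableSpace Y]
    [MulAction G Y] (μ : Measure X) [IsProbabilityMeasure μ]
    [SMulInvariantMeasure G X μ] : Set (ProbabilityMeasure (X × Y)) :=
  {P | InQ G μ (P : Measure (X × Y))}

lemma continuous_int (f : C(X × Y, ℝ)) :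
    Continuous fun P : ProbabilityMeasure (X × Y) => ∫ p, f p ∂(P : Measure (X × Y)) := by
  have := ProbabilityMeasure.continuous_integral_boundedContinuousFunction
    (BoundedContinuousFunction.mkOfCompact f)
  simpa using this

lemma isClosed_Qset (μ : Measure X) [IsProbabilityMeasure μ] [SMulInvariantMeasure G X μ] :
    IsClosed (Qset G Y μ) := by
  have e : Qset G Y μ =
      (⋂ f : C(X, ℝ), {P : ProbabilityMeasure (X × Y) | ∫ p : X × Y, f p.1 ∂(P : Measure (X × Y)) = ∫ x, f x ∂μ}) ∩
      (⋂ (g : G) (f : C(X × Y, ℝ)),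
        {P : ProbabilityMeasure (X × Y) | ∫ p, f (g • p.1, g • p.2) ∂(P : Measure (X × Y)) = ∫ p, f p ∂(P : Measure (X × Y))}) ∩
      (⋂ (A : Set X) (_ : KroneckerSet G μ A) (f : C(X, ℝ)) (g : C(Y, ℝ)),
        {P : ProbabilityMeasure (X × Y) | |∫ p : X × Y, f p.1 * g p.2 ∂(P : Measure (X × Y)) -
          (μ A).toReal * ∫ p : X × Y, g p.2 ∂(P : Measure (X × Y))| ≤
          ‖g‖ * ∫ x, |f x - A.indicator (fun _ => (1 : ℝ)) x| ∂μ}) := by
    ext P
    simp only [Qset, Set.mem_inter_iff, Set.mem_iInter, Set.mem_ofPred_eq]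
    constructor
    · intro hP
      refine ⟨⟨fun f => ?_, fun g f => ?_⟩, fun A hA f g => kron_ineq G hP hA f g⟩
      · rw [← hP.fst, integral_map measurable_fst.aemeasurable f.continuous.aestronglyMeasurable]
      · conv_rhs => rw [← hP.invariant g]
        rw [integral_map (meas_diag G g).aemeasurable f.continuous.aestronglyMeasurable]
    · rintro ⟨⟨h1, h2⟩, h3⟩
      exact inQ_of G h1 h2 h3
  rw [e]
  refine (IsClosed.inter ?_ ?_).inter ?_
  · refine isClosed_iInter fun f => isClosed_eq ?_ continuous_const
    exact continuous_int ⟨fun p : X × Y => f p.1, by fun_prop⟩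
  · refine isClosed_iInter fun g => isClosed_iInter fun f => isClosed_eq ?_ (continuous_int f)
    exact continuous_int ⟨fun p : X × Y => f (g • p.1, g • p.2), by fun_prop⟩
  · refine isClosed_iInter fun A => isClosed_iInter fun hA => isClosed_iInter fun f =>
      isClosed_iInter fun g => isClosed_le ?_ continuous_const
    refine Continuous.abs (Continuous.sub ?_ (continuous_const.mul ?_))
    · exact continuous_int ⟨fun p : X × Y => f p.1 * g p.2, by fun_prop⟩
    · exact continuous_int ⟨fun p : X × Y => g p.2, by fun_prop⟩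

end Erg

end QD
end Pool.Agent.V11103
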