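import Pool.Agent.V11103.QDKron

/-!
Disintegration of a joining over its second coordinate; the relatively independent self-joining.
-/

namespace Pool.Agent.V11103
namespace QD

open MeasureTheory ProbabilityTheory
open scoped ENNReal Topology

section Join

variable (G : Type) [Group G]
variable {X : Type} [MeasurableSpace X] [MulAction G X] [MeasurableConstSMul G X]
variable {Y : Type} [MeasurableSpace Y] [MulAction G Y] [MeasurableConstSMul G Y]

lemma exists_kernel [StandardBorelSpace X] {μ : Measure X} {ν : Measure Y}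
    [IsProbabilityMeasure μ] [IsProbabilityMeasure ν]
    [SMulInvariantMeasure G Y ν] {lam : Measure (X × Y)} (hJ : IsJoining G μ ν lam) :
    ∃ κ : Kernel Y X, IsMarkovKernel κ ∧
      (∀ (A : Set X) (B : Set Y), MeasurableSet A → MeasurableSet B →
        lam (A ×ˢ B) = ∫⁻ y in B, κ y A ∂ν) ∧
      ∀ (g : G) (A : Set X), MeasurableSet A →
        (fun y => κ (g • y) A) =ᵐ[ν] fun y => κ y ((fun x : X => g • x) ⁻¹' A) := by
  have hXne : Nonempty X := nonempty_of_isProbabilityMeasure μ
  have hlam : IsProbabilityMeasure lam := by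
    constructor
    have : (lam.map Prod.fst) Set.univ = 1 := by rw [hJ.fst]; simp
    rwa [Measure.map_apply measurable_fst MeasurableSet.univ, Set.preimage_univ] at this
  set ρ : Measure (Y × X) := lam.map Prod.swap with hρ
  have hρp : IsProbabilityMeasure ρ := Measure.isProbabilityMeasure_map measurable_swap.aemeasurable
  have hρf : ρ.fst = ν := by
    rw [Measure.fst, hρ, Measure.map_map measurable_fst measurable_swap, ← hJ.snd]
    rfl
  have key : ∀ (A : Set X) (B : Set Y), MeasurableSet A → MeasurableSet B →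
        lam (A ×ˢ B) = ∫⁻ y in B, ρ.condKernel y A ∂ν := by
    intro A B hA hB
    have h1 : ρ (B ×ˢ A) = lam (A ×ˢ B) := by
      rw [hρ, Measure.map_apply measurable_swap (hB.prod hA), Set.preimage_swap_prod]
    rw [← h1]
    conv_lhs => rw [← ρ.disintegrate ρ.condKernel]
    rw [Measure.compProd_apply_prod hB hA, hρf]
  refine ⟨ρ.condKernel, inferInstance, key, ?_⟩
  intro g A hA
  have hgA : MeasurableSet ((fun x : X => g • x) ⁻¹' A) := measurable_const_smul g hA
  refine ae_eq_of_forall_setLIntegral_eq_of_sigmaFinite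
    ((Kernel.measurable_coe _ hA).comp (measurable_const_smul g)) (Kernel.measurable_coe _ hgA) ?_
  intro B hB _
  rw [← key _ B hgA hB]
  have hgB : MeasurableSet ((fun y : Y => g⁻¹ • y) ⁻¹' B) := measurable_const_smul g⁻¹ hB
  have h2 : ∫⁻ y in B, ρ.condKernel (g • y) A ∂ν =
      ∫⁻ y in (fun y : Y => g⁻¹ • y) ⁻¹' B, ρ.condKernel y A ∂ν := by
    have := (measurePreserving_smul g ν).setLIntegral_comp_preimage hgB
      (Kernel.measurable_coe ρ.condKernel hA)
    rw [← this]
    congr 2
    ext y
    simp
  rw [h2, ← key _ _ hA hgB]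
  have h3 := hJ.invariant g
  have hmeas : Measurable (fun p : X × Y => (g • p.1, g • p.2)) :=
    ((measurable_const_smul g).comp measurable_fst).prodMk
      ((measurable_const_smul g).comp measurable_snd)
  conv_lhs => rw [← h3]
  rw [Measure.map_apply hmeas (hA.prod hgB)]
  congr 1
  ext ⟨x, y⟩
  simp

omit [MeasurableConstSMul G X] [MeasurableConstSMul G Y] in
lemma lintegral_kernel {μ : Measure X} {ν : Measure Y}
    {lam : Measure (X × Y)} (hJ : IsJoining G μ ν lam) {κ : Kernel Y X}
    (hκ : ∀ (A : Set X) (B : Set Y), MeasurableSet A → MeasurableSet B →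
        lam (A ×ˢ B) = ∫⁻ y in B, κ y A ∂ν) {A : Set X} (hA : MeasurableSet A) :
    ∫⁻ y, κ y A ∂ν = μ A := by
  have h1 := hκ A Set.univ hA MeasurableSet.univ
  rw [Measure.restrict_univ] at h1
  rw [← h1, ← hJ.fst, Measure.map_apply measurable_fst hA]
  congr 1
  ext ⟨x, y⟩
  simp

/-- if `lam` projects to the product of the Kronecker factors then the Kronecker factor of the
first coordinate is independent of the whole second coordinate. -/
lemma kernel_const {μ : Measure X} {ν : Measure Y}
    [IsProbabilityMeasure μ] [IsProbabilityMeasure ν] [SMulInvariantMeasure G X μ]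
    [SMulInvariantMeasure G Y ν] {lam : Measure (X × Y)} (hJ : IsJoining G μ ν lam)
    (hK : ProjectsToKroneckerProduct G μ ν lam) {κ : Kernel Y X} [IsMarkovKernel κ]
    (hκ : ∀ (A : Set X) (B : Set Y), MeasurableSet A → MeasurableSet B →
        lam (A ×ˢ B) = ∫⁻ y in B, κ y A ∂ν)
    (hκg : ∀ (g : G) (A : Set X), MeasurableSet A →
        (fun y => κ (g • y) A) =ᵐ[ν] fun y => κ y ((fun x : X => g • x) ⁻¹' A))
    {A : Set X} (hA : KroneckerSet G μ A) :
    ∀ᵐ y ∂ν, κ y A = μ A := by
  obtain ⟨hAm, hAP⟩ := (kroneckerSet_iff G μ A).1 hA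
  set f : Y → ℝ := fun y => (κ y A).toReal with hf
  have hfm : Measurable f := (Kernel.measurable_coe κ hAm).ennreal_toReal
  have hfAP : AP G ν f := by
    intro ε hε
    obtain ⟨F, hF⟩ := hAP ε hε
    refine ⟨F, fun g => ?_⟩
    obtain ⟨h, hhF, hh⟩ := hF g
    refine ⟨h, hhF, ?_⟩
    refine le_trans ?_ hh
    set Ag : Set X := (fun x : X => g • x) ⁻¹' A with hAg
    set Ah : Set X := (fun x : X => h • x) ⁻¹' A with hAh
    have hAgm : MeasurableSet Ag := measurable_const_smul g hAm
    have hAhm : MeasurableSet Ah := measurable_const_smul h hAm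
    have hD : MeasurableSet (symmDiff Ag Ah) := hAgm.symmDiff hAhm
    have e1 : ∫⁻ x, ‖A.indicator (fun _ => (1 : ℝ)) (g • x) -
        A.indicator (fun _ => (1 : ℝ)) (h • x)‖ₑ ∂μ = μ (symmDiff Ag Ah) := by
      rw [← lintegral_indicator_one hD]
      refine lintegral_congr fun x => ?_
      by_cases hg : g • x ∈ A <;> by_cases hh : h • x ∈ A <;>
        simp [hg, hh, hAg, hAh, Set.indicator, Set.mem_symmDiff]
    rw [e1, ← lintegral_kernel G hJ hκ hD]
    have e2 : ∫⁻ y, ‖f (g • y) - f (h • y)‖ₑ ∂ν =
        ∫⁻ y, ‖(κ y Ag).toReal - (κ y Ah).toReal‖ₑ ∂ν := by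
      refine lintegral_congr_ae ?_
      filter_upwards [hκg g A hAm, hκg h A hAm] with y h1 h2
      simp only [hf]
      rw [h1, h2]
    rw [e2]
    refine lintegral_mono fun y => ?_
    have h3 : |(κ y Ag).toReal - (κ y Ah).toReal| ≤ (κ y (symmDiff Ag Ah)).toReal := by
      have := abs_measureReal_sub_le_measureReal_symmDiff (μ := κ y) hAgm.nullMeasurableSet
        hAhm.nullMeasurableSet
      exact this
    rw [← ofReal_norm, Real.norm_eq_abs]
    calc ENNReal.ofReal |(κ y Ag).toReal - (κ y Ah).toReal|
        ≤ ENNReal.ofReal ((κ y (symmDiff Ag Ah)).toReal) := ENNReal.ofReal_le_ofReal h3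
      _ = κ y (symmDiff Ag Ah) := ENNReal.ofReal_toReal (measure_ne_top _ _)
  have hB := AP.levelSet G hfm hfAP (μ A).toReal
  set B : Set Y := {y | (μ A).toReal < f y} with hBdef
  have hBm : MeasurableSet B := measurableSet_lt measurable_const hfm
  have hlt : ∀ y ∈ B, μ A < κ y A := by
    intro y hy
    exact (ENNReal.toReal_lt_toReal (measure_ne_top _ _) (measure_ne_top _ _)).1 hy
  have hprod := hK A B hA hB
  rw [hκ A B hAm hBm] at hprod
  have hν0 : ν B = 0 := by
    have h1 : (fun _ : Y => μ A) ≤ᵐ[ν.restrict B] fun y => κ y A := by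
      refine (ae_restrict_iff' hBm).2 (Filter.Eventually.of_forall fun y hy => (hlt y hy).le)
    have h2 : ∫⁻ _y in B, μ A ∂ν = μ A * ν B := by simp
    have h3 := ae_eq_of_ae_le_of_lintegral_le h1 (by
      rw [h2]; exact ENNReal.mul_ne_top (measure_ne_top _ _) (measure_ne_top _ _))
      (Kernel.measurable_coe κ hAm).aemeasurable (by rw [h2, hprod])
    rw [Filter.EventuallyEq, ae_restrict_iff' hBm] at h3
    refine measure_eq_zero_iff_ae_notMem.2 ?_
    filter_upwards [h3] with y hy hyB
    exact absurd (hy hyB) (hlt y hyB).ne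
  have hle : (fun y => κ y A) ≤ᵐ[ν] fun _ => μ A := by
    have : ∀ᵐ y ∂ν, y ∉ B := measure_eq_zero_iff_ae_notMem.1 hν0
    filter_upwards [this] with y hy
    by_contra hcon
    push Not at hcon
    exact hy ((ENNReal.toReal_lt_toReal (measure_ne_top _ _) (measure_ne_top _ _)).2 hcon)
  have h4 := ae_eq_of_ae_le_of_lintegral_le hle (by
      rw [lintegral_kernel G hJ hκ hAm]; exact measure_ne_top _ _) aemeasurable_const (by
      rw [lintegral_kernel G hJ hκ hAm]; simp)
  exact h4

/-- the Kronecker factor of the first coordinate is independent of the second coordinate -/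
lemma prod_of_kronecker [StandardBorelSpace X] {μ : Measure X} {ν : Measure Y}
    [IsProbabilityMeasure μ] [IsProbabilityMeasure ν] [SMulInvariantMeasure G X μ]
    [SMulInvariantMeasure G Y ν] {lam : Measure (X × Y)} (hJ : IsJoining G μ ν lam)
    (hK : ProjectsToKroneckerProduct G μ ν lam) {A : Set X} (hA : KroneckerSet G μ A)
    {B : Set Y} (hB : MeasurableSet B) : lam (A ×ˢ B) = μ A * ν B := by
  obtain ⟨κ, hκM, hκ, hκg⟩ := exists_kernel G hJ
  have h := kernel_const G hJ hK hκ hκg hA
  rw [hκ A B hA.1 hB]
  calc ∫⁻ y in B, κ y A ∂ν = ∫⁻ _y in B, μ A ∂ν :=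
        lintegral_congr_ae (ae_restrict_of_ae h)
    _ = μ A * ν B := by simp

/-- a system that is quasi-disjoint from itself is quasi-disjoint from every system -/
theorem quasiDisjoint_of_self [StandardBorelSpace X] {μ : Measure X} {ν : Measure Y}
    [IsProbabilityMeasure μ] [IsProbabilityMeasure ν] [SMulInvariantMeasure G X μ]
    [SMulInvariantMeasure G Y ν] (hself : QuasiDisjoint G μ μ) : QuasiDisjoint G μ ν := by
  intro lam hJ hK
  obtain ⟨κ, hκM, hκ, hκg⟩ := exists_kernel G hJ
  set ρ : Measure (X × X) := ν.bind (κ ×ₖ κ) with hρ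
  have hρap : ∀ A B : Set X, MeasurableSet A → MeasurableSet B →
      ρ (A ×ˢ B) = ∫⁻ y, κ y A * κ y B ∂ν := by
    intro A B hA hB
    rw [hρ, Measure.bind_apply (hA.prod hB) (Kernel.aemeasurable _)]
    refine lintegral_congr fun y => ?_
    rw [Kernel.prod_apply_prod]
  have hρp : IsProbabilityMeasure ρ := by
    constructor
    have := hρap Set.univ Set.univ MeasurableSet.univ MeasurableSet.univ
    simpa using this
  have hself' := hself ρ ⟨?_, ?_, ?_⟩ ?_
  · -- conclusion
    have hconst : ∀ A : Set X, MeasurableSet A → ∀ᵐ y ∂ν, κ y A = μ A := by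
      intro A hA
      have h1 : ∫⁻ y, κ y A * κ y A ∂ν = μ A * μ A := by
        rw [← hρap A A hA hA, hself', Measure.prod_prod]
      have h2 := lintegral_kernel G hJ hκ hA
      have hm : Measurable fun y => κ y A := Kernel.measurable_coe κ hA
      set f : Y → ℝ := fun y => (κ y A).toReal with hf
      have hfm : Measurable f := hm.ennreal_toReal
      have hf1 : ∀ y, 0 ≤ f y ∧ f y ≤ 1 := fun y =>
        ⟨ENNReal.toReal_nonneg, ENNReal.toReal_le_of_le_ofReal zero_le_one (by
          simpa using prob_le_one)⟩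
      have hfi : Integrable f ν := by
        refine Integrable.of_bound hfm.aestronglyMeasurable 1 (Filter.Eventually.of_forall fun y => ?_)
        rw [Real.norm_eq_abs, abs_of_nonneg (hf1 y).1]; exact (hf1 y).2
      have hf2i : Integrable (fun y => f y * f y) ν := by
        refine Integrable.of_bound (hfm.mul hfm).aestronglyMeasurable 1
          (Filter.Eventually.of_forall fun y => ?_)
        rw [Real.norm_eq_abs, abs_of_nonneg (mul_nonneg (hf1 y).1 (hf1 y).1)]
        nlinarith [(hf1 y).1, (hf1 y).2]
      have I1 : ∫ y, f y ∂ν = (μ A).toReal := by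
        rw [hf, integral_toReal hm.aemeasurable (Filter.Eventually.of_forall fun y =>
          measure_lt_top _ _), h2]
      have I2 : ∫ y, f y * f y ∂ν = (μ A).toReal * (μ A).toReal := by
        have : (fun y => f y * f y) = fun y => (κ y A * κ y A).toReal := by
          funext y; simp [hf, ENNReal.toReal_mul]
        have hm2 : Measurable fun y => κ y A * κ y A := hm.mul hm
        rw [this, integral_toReal hm2.aemeasurable (Filter.Eventually.of_forall fun y =>
          ENNReal.mul_lt_top (measure_lt_top _ _) (measure_lt_top _ _)), h1, ENNReal.toReal_mul]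
      set m : ℝ := (μ A).toReal with hmdef
      have I3 : ∫ y, (f y - m) ^ 2 ∂ν = 0 := by
        have e : (fun y => (f y - m) ^ 2) = fun y => f y * f y - (2 * m * f y - m * m) := by
          funext y; ring
        have i3 : Integrable (fun y => 2 * m * f y - m * m) ν :=
          (hfi.const_mul (2 * m)).sub (integrable_const _)
        rw [e, integral_sub hf2i i3, I2,
          integral_sub (hfi.const_mul (2 * m)) (integrable_const _), integral_const_mul, I1]
        simp
        ring
      have hint : Integrable (fun y => (f y - m) ^ 2) ν := by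
        have e : (fun y => (f y - m) ^ 2) = fun y => f y * f y - (2 * m * f y - m * m) := by
          funext y; ring
        rw [e]
        exact hf2i.sub ((hfi.const_mul (2 * m)).sub (integrable_const _))
      have h5 := (integral_eq_zero_iff_of_nonneg (fun y => sq_nonneg _) hint).1 I3
      filter_upwards [h5] with y hy
      have : f y = m := by
        have : (f y - m) ^ 2 = 0 := hy
        nlinarith [pow_eq_zero_iff (two_ne_zero) |>.1 this]
      exact (ENNReal.toReal_eq_toReal_iff' (measure_ne_top _ _) (measure_ne_top _ _)).1 this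
    refine (Measure.prod_eq fun A B hA hB => ?_).symm
    rw [hκ A B hA hB]
    calc ∫⁻ y in B, κ y A ∂ν = ∫⁻ _y in B, μ A ∂ν :=
          lintegral_congr_ae (ae_restrict_of_ae (hconst A hA))
      _ = μ A * ν B := by simp
  · ext A hA
    rw [Measure.map_apply measurable_fst hA]
    have : (Prod.fst ⁻¹' A : Set (X × X)) = A ×ˢ Set.univ := by ext; simp
    rw [this, hρap A _ hA MeasurableSet.univ]
    simp [lintegral_kernel G hJ hκ hA]
  · ext A hA
    rw [Measure.map_apply measurable_snd hA]
    have : (Prod.snd ⁻¹' A : Set (X × X)) = Set.univ ×ˢ A := by ext; simp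
    rw [this, hρap _ A MeasurableSet.univ hA]
    simp [lintegral_kernel G hJ hκ hA]
  · intro g
    have hmeas : Measurable (fun p : X × X => (g • p.1, g • p.2)) :=
      ((measurable_const_smul g).comp measurable_fst).prodMk
        ((measurable_const_smul g).comp measurable_snd)
    have hfin : IsProbabilityMeasure (ρ.map (fun p : X × X => (g • p.1, g • p.2))) :=
      Measure.isProbabilityMeasure_map hmeas.aemeasurable
    refine Measure.ext_prod fun {A B} hA hB => ?_
    rw [Measure.map_apply hmeas (hA.prod hB)]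
    have e : (fun p : X × X => (g • p.1, g • p.2)) ⁻¹' (A ×ˢ B) =
      ((fun x : X => g • x) ⁻¹' A) ×ˢ ((fun x : X => g • x) ⁻¹' B) := by ext; simp
    rw [e, hρap _ _ (measurable_const_smul g hA) (measurable_const_smul g hB), hρap _ _ hA hB]
    have h1 : ∫⁻ y, κ (g • y) A * κ (g • y) B ∂ν = ∫⁻ y, κ y A * κ y B ∂ν :=
      (measurePreserving_smul g ν).lintegral_comp
        ((Kernel.measurable_coe κ hA).mul (Kernel.measurable_coe κ hB))
    rw [← h1]
    refine lintegral_congr_ae ?_
    filter_upwards [hκg g A hA, hκg g B hB] with y h1 h2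
    rw [h1, h2]
  · intro A B hA hB
    rw [hρap A B hA.1 hB.1]
    calc ∫⁻ y, κ y A * κ y B ∂ν = ∫⁻ _y, μ A * μ B ∂ν := by
          refine lintegral_congr_ae ?_
          filter_upwards [kernel_const G hJ hK hκ hκg hA, kernel_const G hJ hK hκ hκg hB]
            with y h1 h2
          rw [h1, h2]
      _ = μ A * μ B := by simp

end Join

end QD
end Pool.Agent.V11103
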