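import Pool.Agent.V11103.QDDefs

/-!
The Kronecker space is the space of functions with relatively compact orbit, and the sets
measurable with respect to the Kronecker factor are the sets with an almost periodic indicator.
-/

namespace Pool.Agent.V11103
namespace QD

open MeasureTheory
open scoped ENNReal Topology

section Kron

variable (G : Type) [Group G]
variable {X : Type} [MeasurableSpace X] [MulAction G X] [MeasurableConstSMul G X]

/-- the almost periodic elements form a subspace -/
noncomputable def apSub (μ : Measure X) [SMulInvariantMeasure G X μ] :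
    Submodule ℂ (Lp ℂ 2 μ) where
  carrier := {f | IsCompact (closure (koopmanOrbit G μ f))}
  zero_mem' := by
    have : koopmanOrbit G μ (0 : Lp ℂ 2 μ) = {0} := by
      ext y
      simp only [koopmanOrbit, Set.mem_range, map_zero, Set.mem_singleton_iff]
      constructor
      · rintro ⟨_, rfl⟩; rfl
      · rintro rfl; exact ⟨1, rfl⟩
    show IsCompact (closure (koopmanOrbit G μ (0 : Lp ℂ 2 μ)))
    rw [this]
    simp
  add_mem' := by
    intro f f' hf hf'
    have hK := IsCompact.add (s := closure (koopmanOrbit G μ f))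
      (t := closure (koopmanOrbit G μ f')) hf hf'
    refine hK.of_isClosed_subset isClosed_closure (closure_minimal ?_ hK.isClosed)
    rintro _ ⟨g, rfl⟩
    refine Set.mem_add.2 ⟨_, subset_closure ⟨g, rfl⟩, _, subset_closure ⟨g, rfl⟩, ?_⟩
    simp
  smul_mem' := by
    intro c f hf
    have hK : IsCompact ((fun x : Lp ℂ 2 μ => c • x) '' closure (koopmanOrbit G μ f)) :=
      IsCompact.image hf (continuous_const_smul c)
    refine hK.of_isClosed_subset isClosed_closure (closure_minimal ?_ hK.isClosed)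
    rintro _ ⟨g, rfl⟩
    refine ⟨_, subset_closure ⟨g, rfl⟩, ?_⟩
    show c • _ = _
    ext1
    have h1 := Lp.coeFn_compMeasurePreserving (c • f) (measurePreserving_smul g μ)
    have h2 := Lp.coeFn_compMeasurePreserving f (measurePreserving_smul g μ)
    have h3 := Lp.coeFn_smul c (Lp.compMeasurePreserving (fun x : X => g • x)
      (measurePreserving_smul g μ) f)
    have h4 := (measurePreserving_smul g μ).quasiMeasurePreserving.ae_eq_comp
      (Lp.coeFn_smul c f)
    filter_upwards [h1, h2, h3, h4] with x h1 h2 h3 h4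
    rw [h1, h3]
    simp only [Pi.smul_apply, Function.comp_apply] at *
    rw [h4, h2]

lemma apSub_isClosed (μ : Measure X) [SMulInvariantMeasure G X μ] :
    IsClosed (apSub G μ : Set (Lp ℂ 2 μ)) := by
  rw [← closure_subset_iff_isClosed]
  intro f hf
  show IsCompact (closure (koopmanOrbit G μ f))
  refine TotallyBounded.isCompact_of_isClosed ?_ isClosed_closure
  rw [totallyBounded_closure, Metric.totallyBounded_iff]
  intro ε hε
  obtain ⟨f', hf', hd⟩ := Metric.mem_closure_iff.1 hf (ε / 2) (half_pos hε)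
  have hf'' : IsCompact (closure (koopmanOrbit G μ f')) := hf'
  have htb := (totallyBounded_closure.1 hf''.totallyBounded)
  obtain ⟨t, ht, hsub⟩ := Metric.totallyBounded_iff.1 htb (ε / 2) (half_pos hε)
  refine ⟨t, ht, ?_⟩
  rintro _ ⟨g, rfl⟩
  have h1 := hsub (show Lp.compMeasurePreserving (fun x : X => g • x)
    (measurePreserving_smul g μ) f' ∈ koopmanOrbit G μ f' from ⟨g, rfl⟩)
  simp only [Set.mem_iUnion, Metric.mem_ball, exists_prop] at h1 ⊢
  obtain ⟨y, hy, hdy⟩ := h1
  refine ⟨y, hy, ?_⟩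
  have h2 := (Lp.isometry_compMeasurePreserving (E := ℂ) (p := 2)
    (measurePreserving_smul g μ)).dist_eq f f'
  calc dist (Lp.compMeasurePreserving (fun x : X => g • x) (measurePreserving_smul g μ) f) y
      ≤ dist (Lp.compMeasurePreserving (fun x : X => g • x) (measurePreserving_smul g μ) f)
          (Lp.compMeasurePreserving (fun x : X => g • x) (measurePreserving_smul g μ) f') +
        dist (Lp.compMeasurePreserving (fun x : X => g • x) (measurePreserving_smul g μ) f') y :=
        dist_triangle _ _ _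
    _ < ε / 2 + ε / 2 := by
        refine add_lt_add ?_ hdy
        rw [h2]; exact hd
    _ = ε := by ring

lemma kroneckerSpace_eq (μ : Measure X) [SMulInvariantMeasure G X μ] :
    kroneckerSpace G μ = apSub G μ := by
  have h1 : Submodule.span ℂ {f : Lp ℂ 2 μ | IsCompact (closure (koopmanOrbit G μ f))} =
      apSub G μ := Submodule.span_eq (apSub G μ)
  rw [kroneckerSpace, h1]
  exact IsClosed.submodule_topologicalClosure_eq (apSub_isClosed G μ)

/-- almost periodicity in `L¹` of a real function -/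
def AP (μ : Measure X) (f : X → ℝ) : Prop :=
  ∀ ε : ℝ≥0∞, ε ≠ 0 → ∃ F : Finset G, ∀ g : G, ∃ h ∈ F,
    ∫⁻ x, ‖f (g • x) - f (h • x)‖ₑ ∂μ ≤ ε

lemma edist_indicator (μ : Measure X) [IsFiniteMeasure μ] [SMulInvariantMeasure G X μ]
    {A : Set X} (hA : MeasurableSet A) (g h : G) :
    (edist (Lp.compMeasurePreserving (fun x : X => g • x) (measurePreserving_smul g μ)
      (indicatorConstLp 2 hA (measure_ne_top μ A) (1 : ℂ)))
      (Lp.compMeasurePreserving (fun x : X => h • x) (measurePreserving_smul h μ)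
      (indicatorConstLp 2 hA (measure_ne_top μ A) (1 : ℂ)))) ^ (2 : ℝ) =
    ∫⁻ x, ‖A.indicator (fun _ => (1 : ℝ)) (g • x) - A.indicator (fun _ => (1 : ℝ)) (h • x)‖ₑ ∂μ := by
  rw [Lp.edist_def, eLpNorm_eq_lintegral_rpow_enorm_toReal two_ne_zero ENNReal.ofNat_ne_top]
  rw [← ENNReal.rpow_mul]
  norm_num
  refine lintegral_congr_ae ?_
  have hi : ∀ k : G, (Lp.compMeasurePreserving (fun x : X => k • x) (measurePreserving_smul k μ)
      (indicatorConstLp 2 hA (measure_ne_top μ A) (1 : ℂ)) : X → ℂ) =ᵐ[μ]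
      fun x => A.indicator (fun _ => (1 : ℂ)) (k • x) := by
    intro k
    refine (Lp.coeFn_compMeasurePreserving _ (measurePreserving_smul k μ)).trans ?_
    exact (measurePreserving_smul k μ).quasiMeasurePreserving.ae_eq_comp
      (indicatorConstLp_coeFn (p := 2) (hs := hA) (hμs := measure_ne_top μ A) (c := (1 : ℂ)))
  filter_upwards [hi g, hi h] with x h1 h2
  rw [Lp.compMeasurePreserving_val] at h1 h2
  rw [h1, h2]
  by_cases hg : g • x ∈ A <;> by_cases hh : h • x ∈ A <;> simp [hg, hh]

lemma kroneckerSet_iff (μ : Measure X) [IsFiniteMeasure μ] [SMulInvariantMeasure G X μ]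
    (A : Set X) :
    KroneckerSet G μ A ↔ MeasurableSet A ∧ AP G μ (A.indicator fun _ => (1 : ℝ)) := by
  constructor
  · rintro ⟨hA, hm⟩
    refine ⟨hA, ?_⟩
    rw [kroneckerSpace_eq] at hm
    have hm' : IsCompact (closure (koopmanOrbit G μ
      (indicatorConstLp 2 hA (measure_ne_top μ A) (1 : ℂ)))) := hm
    have htb := (totallyBounded_closure.1 hm'.totallyBounded)
    intro ε hε
    have hpos : (0 : ℝ≥0∞) < ε ^ (1 / 2 : ℝ) := by
      rcases eq_or_ne ε ⊤ with rfl | h
      · simp
      · exact ENNReal.rpow_pos (pos_iff_ne_zero.2 hε) h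
    obtain ⟨t, hts, htf, hcov⟩ := htb.exists_subset (edist_mem_uniformity hpos)
    classical
    choose! c hc using fun (y : Lp ℂ 2 μ) (hy : y ∈ t) => hts hy
    refine ⟨htf.toFinset.image c, fun g => ?_⟩
    have := hcov (show Lp.compMeasurePreserving (fun x : X => g • x)
      (measurePreserving_smul g μ) (indicatorConstLp 2 hA (measure_ne_top μ A) (1 : ℂ)) ∈
        koopmanOrbit G μ _ from ⟨g, rfl⟩)
    simp only [Set.mem_iUnion, exists_prop] at this
    obtain ⟨y, hy, hd⟩ := this
    refine ⟨c y, Finset.mem_image_of_mem c (htf.mem_toFinset.2 hy), ?_⟩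
    rw [← edist_indicator G μ hA g (c y)]
    have hd' : edist (Lp.compMeasurePreserving (fun x : X => g • x)
      (measurePreserving_smul g μ) (indicatorConstLp 2 hA (measure_ne_top μ A) (1 : ℂ))) y <
        ε ^ (1 / 2 : ℝ) := hd
    have hcy := hc y hy
    simp only at hcy
    rw [hcy]
    calc _ ≤ (ε ^ (1 / 2 : ℝ)) ^ (2 : ℝ) := ENNReal.rpow_le_rpow hd'.le (by norm_num)
      _ = ε := by rw [← ENNReal.rpow_mul]; norm_num
  · rintro ⟨hA, hap⟩
    refine ⟨hA, ?_⟩
    rw [kroneckerSpace_eq]
    show IsCompact (closure (koopmanOrbit G μ _))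
    refine TotallyBounded.isCompact_of_isClosed ?_ isClosed_closure
    rw [totallyBounded_closure, EMetric.totallyBounded_iff]
    intro ε hε
    have hε2 : (min ε 1 / 2) ^ (2 : ℝ) ≠ 0 := by
      have : (0 : ℝ≥0∞) < min ε 1 / 2 := by
        refine ENNReal.div_pos (by simp [hε.ne']) (by norm_num)
      have hne : min ε 1 / 2 ≠ ⊤ := by
        refine (ENNReal.div_lt_top ?_ (by norm_num)).ne
        exact ((min_le_right _ _).trans_lt ENNReal.one_lt_top).ne
      exact (ENNReal.rpow_pos this hne).ne'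
    obtain ⟨F, hF⟩ := hap _ hε2
    refine ⟨(fun h : G => Lp.compMeasurePreserving (fun x : X => h • x)
      (measurePreserving_smul h μ) (indicatorConstLp 2 hA (measure_ne_top μ A) (1 : ℂ))) '' F,
      F.finite_toSet.image _, ?_⟩
    rintro _ ⟨g, rfl⟩
    obtain ⟨h, hhF, hh⟩ := hF g
    simp only [Set.mem_iUnion, exists_prop]
    refine ⟨_, ⟨h, hhF, rfl⟩, ?_⟩
    rw [Metric.mem_eball]
    rw [← edist_indicator G μ hA g h] at hh
    have h2 : edist (Lp.compMeasurePreserving (fun x : X => g • x) (measurePreserving_smul g μ)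
      (indicatorConstLp 2 hA (measure_ne_top μ A) (1 : ℂ)))
      (Lp.compMeasurePreserving (fun x : X => h • x) (measurePreserving_smul h μ)
      (indicatorConstLp 2 hA (measure_ne_top μ A) (1 : ℂ))) ≤ min ε 1 / 2 :=
      (ENNReal.rpow_le_rpow_iff (by norm_num : (0 : ℝ) < 2)).1 hh
    refine h2.trans_lt ?_
    have hlt : min ε 1 / 2 < min ε 1 := by
      apply ENNReal.half_lt_self
      · simp [hε.ne']
      · exact ((min_le_right _ _).trans_lt ENNReal.one_lt_top).ne
    exact hlt.trans_le (min_le_left _ _)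

/-- level sets of almost periodic functions -/
lemma AP.levelSet {μ : Measure X} [IsFiniteMeasure μ] [SMulInvariantMeasure G X μ]
    {f : X → ℝ} (hfm : Measurable f) (hf : AP G μ f) (m : ℝ) :
    KroneckerSet G μ {x | m < f x} := by
  have hBm : MeasurableSet {x | m < f x} := measurableSet_lt measurable_const hfm
  rw [kroneckerSet_iff]
  refine ⟨hBm, ?_⟩
  set B : Set X := {x | m < f x} with hB
  set φ : ℕ → ℝ → ℝ := fun n t => min 1 (max 0 ((n : ℝ) * (t - m))) with hφ
  have hφc : ∀ n, Continuous (φ n) := by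
    intro n; simp only [hφ]; fun_prop
  have hφlip : ∀ n s t, ‖φ n s - φ n t‖ ≤ n * ‖s - t‖ := by
    intro n s t
    simp only [hφ]
    have h1 : |min 1 (max 0 ((n : ℝ) * (s - m))) - min 1 (max 0 ((n : ℝ) * (t - m)))| ≤
        |max 0 ((n : ℝ) * (s - m)) - max 0 ((n : ℝ) * (t - m))| := by
      have := abs_min_sub_min_le_max 1 (max 0 ((n : ℝ) * (s - m))) 1 (max 0 ((n : ℝ) * (t - m)))
      simpa using this
    have h2 : |max 0 ((n : ℝ) * (s - m)) - max 0 ((n : ℝ) * (t - m))| ≤
        |(n : ℝ) * (s - m) - (n : ℝ) * (t - m)| := by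
      have := abs_max_sub_max_le_max 0 ((n : ℝ) * (s - m)) 0 ((n : ℝ) * (t - m))
      simpa using this
    have h3 : |(n : ℝ) * (s - m) - (n : ℝ) * (t - m)| = n * |s - t| := by
      rw [show (n : ℝ) * (s - m) - (n : ℝ) * (t - m) = n * (s - t) by ring, abs_mul,
        abs_of_nonneg (Nat.cast_nonneg n)]
    rw [Real.norm_eq_abs, Real.norm_eq_abs]
    linarith
  have hφb : ∀ n t, 0 ≤ φ n t ∧ φ n t ≤ 1 := by
    intro n t
    refine ⟨le_min zero_le_one (le_max_left _ _), min_le_left _ _⟩
  have hlim : Filter.Tendsto (fun n => ∫⁻ x, ‖B.indicator (fun _ => (1 : ℝ)) x - φ n (f x)‖ₑ ∂μ)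
      Filter.atTop (𝓝 0) := by
    have h0 : (0 : ℝ≥0∞) = ∫⁻ _x : X, 0 ∂μ := by simp
    rw [h0]
    refine tendsto_lintegral_of_dominated_convergence (fun _ => 1) ?_ ?_ ?_ ?_
    · intro n
      exact ((measurable_const.indicator hBm).sub ((hφc n).measurable.comp hfm)).enorm
    · intro n
      refine Filter.Eventually.of_forall fun x => ?_
      have hb := hφb n (f x)
      have : ‖B.indicator (fun _ => (1 : ℝ)) x - φ n (f x)‖ ≤ 1 := by
        rw [Real.norm_eq_abs, abs_le]
        by_cases hx : x ∈ B <;> simp only [hx, Set.indicator_of_mem, Set.indicator_of_notMem,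
          not_false_eq_true] <;> constructor <;> linarith
      calc ‖B.indicator (fun _ => (1 : ℝ)) x - φ n (f x)‖ₑ ≤ ENNReal.ofReal 1 := by
            rw [← ofReal_norm]; exact ENNReal.ofReal_le_ofReal this
        _ = 1 := by simp
    · simp
    · refine Filter.Eventually.of_forall fun x => ?_
      refine tendsto_const_nhds.congr' ?_
      by_cases hx : x ∈ B
      · have hpos : 0 < f x - m := by
          have : m < f x := hx
          linarith
        obtain ⟨N, hN⟩ := exists_nat_gt (1 / (f x - m))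
        filter_upwards [Filter.eventually_ge_atTop N] with n hn
        have h1 : 1 ≤ (n : ℝ) * (f x - m) := by
          have : (N : ℝ) ≤ n := by exact_mod_cast hn
          have h2 : 1 / (f x - m) * (f x - m) = 1 := by field_simp
          nlinarith
        have : φ n (f x) = 1 := by
          simp only [hφ]
          rw [max_eq_right (by linarith), min_eq_left h1]
        simp [hx, this]
      · have hle : f x - m ≤ 0 := by
          have : ¬ m < f x := hx
          linarith
        filter_upwards with n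
        have : φ n (f x) = 0 := by
          simp only [hφ]
          rw [max_eq_left (mul_nonpos_of_nonneg_of_nonpos (Nat.cast_nonneg n) hle)]
          simp
        simp [hx, this]
  intro ε hε
  have hε4 : (0 : ℝ≥0∞) < ε / 4 := ENNReal.div_pos hε (by norm_num)
  obtain ⟨n, hn⟩ := ((hlim.eventually (gt_mem_nhds hε4))).exists
  have hε' : ε / (2 * (n + 1)) ≠ 0 := by
    refine (ENNReal.div_pos hε ?_).ne'
    exact ENNReal.mul_ne_top (by norm_num) (by simp)
  obtain ⟨F, hF⟩ := hf _ hε'
  refine ⟨F, fun g => ?_⟩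
  obtain ⟨h, hhF, hh⟩ := hF g
  refine ⟨h, hhF, ?_⟩
  have hshift : ∀ k : G, ∫⁻ x, ‖B.indicator (fun _ => (1 : ℝ)) (k • x) - φ n (f (k • x))‖ₑ ∂μ =
      ∫⁻ x, ‖B.indicator (fun _ => (1 : ℝ)) x - φ n (f x)‖ₑ ∂μ := by
    intro k
    exact (measurePreserving_smul k μ).lintegral_comp
      (((measurable_const.indicator hBm).sub ((hφc n).measurable.comp hfm)).enorm)
  have hmid : ∫⁻ x, ‖φ n (f (g • x)) - φ n (f (h • x))‖ₑ ∂μ ≤ ε / 2 := by
    calc ∫⁻ x, ‖φ n (f (g • x)) - φ n (f (h • x))‖ₑ ∂μ
        ≤ ∫⁻ x, (n + 1) * ‖f (g • x) - f (h • x)‖ₑ ∂μ := by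
          refine lintegral_mono fun x => ?_
          have h1 := hφlip n (f (g • x)) (f (h • x))
          have h2 : (n : ℝ) * ‖f (g • x) - f (h • x)‖ ≤ (n + 1 : ℝ) * ‖f (g • x) - f (h • x)‖ :=
            mul_le_mul_of_nonneg_right (by linarith) (norm_nonneg _)
          rw [← ofReal_norm, ← ofReal_norm]
          calc ENNReal.ofReal ‖φ n (f (g • x)) - φ n (f (h • x))‖
              ≤ ENNReal.ofReal ((n + 1 : ℝ) * ‖f (g • x) - f (h • x)‖) :=
                ENNReal.ofReal_le_ofReal (h1.trans h2)
            _ = (n + 1) * ENNReal.ofReal ‖f (g • x) - f (h • x)‖ := by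
                rw [ENNReal.ofReal_mul (by positivity)]
                congr 1
                rw [ENNReal.ofReal_add (by positivity) zero_le_one]
                simp
      _ = (n + 1) * ∫⁻ x, ‖f (g • x) - f (h • x)‖ₑ ∂μ := by
          have hm : Measurable fun x => ‖f (g • x) - f (h • x)‖ₑ :=
            ((hfm.comp (measurable_const_smul g)).sub
            (hfm.comp (measurable_const_smul h))).enorm
          rw [lintegral_const_mul _ hm]
      _ ≤ (n + 1) * (ε / (2 * (n + 1))) := by gcongr
      _ = ε / 2 := by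
          rw [ENNReal.div_eq_inv_mul, ENNReal.div_eq_inv_mul, ENNReal.mul_inv (by simp) (by simp)]
          have hne0 : ((n : ℝ≥0∞) + 1) ≠ 0 := by simp
          have hnt : ((n : ℝ≥0∞) + 1) ≠ ⊤ := by simp
          calc ((n : ℝ≥0∞) + 1) * (2⁻¹ * ((n : ℝ≥0∞) + 1)⁻¹ * ε)
              = (((n : ℝ≥0∞) + 1) * ((n : ℝ≥0∞) + 1)⁻¹) * (2⁻¹ * ε) := by ring
            _ = 2⁻¹ * ε := by rw [ENNReal.mul_inv_cancel hne0 hnt, one_mul]
  calc ∫⁻ x, ‖B.indicator (fun _ => (1 : ℝ)) (g • x) - B.indicator (fun _ => (1 : ℝ)) (h • x)‖ₑ ∂μ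
      ≤ ∫⁻ x, (‖B.indicator (fun _ => (1 : ℝ)) (g • x) - φ n (f (g • x))‖ₑ +
          ‖φ n (f (g • x)) - φ n (f (h • x))‖ₑ +
          ‖B.indicator (fun _ => (1 : ℝ)) (h • x) - φ n (f (h • x))‖ₑ) ∂μ := by
        refine lintegral_mono fun x => ?_
        have e : B.indicator (fun _ => (1 : ℝ)) (g • x) - B.indicator (fun _ => (1 : ℝ)) (h • x) =
          (B.indicator (fun _ => (1 : ℝ)) (g • x) - φ n (f (g • x))) +
          (φ n (f (g • x)) - φ n (f (h • x))) -
          (B.indicator (fun _ => (1 : ℝ)) (h • x) - φ n (f (h • x))) := by ring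
        rw [e]
        refine (enorm_sub_le).trans ?_
        gcongr
        exact enorm_add_le _ _
    _ = (∫⁻ x, ‖B.indicator (fun _ => (1 : ℝ)) (g • x) - φ n (f (g • x))‖ₑ ∂μ) +
          (∫⁻ x, ‖φ n (f (g • x)) - φ n (f (h • x))‖ₑ ∂μ) +
          ∫⁻ x, ‖B.indicator (fun _ => (1 : ℝ)) (h • x) - φ n (f (h • x))‖ₑ ∂μ := by
        have m1 : Measurable fun x => ‖B.indicator (fun _ => (1 : ℝ)) (g • x) - φ n (f (g • x))‖ₑ :=
          (((measurable_const.indicator hBm).sub ((hφc n).measurable.comp hfm)).enorm).comp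
            (measurable_const_smul g)
        have m2 : Measurable fun x => ‖φ n (f (g • x)) - φ n (f (h • x))‖ₑ :=
          ((((hφc n).measurable.comp hfm).comp (measurable_const_smul g)).sub
            (((hφc n).measurable.comp hfm).comp (measurable_const_smul h))).enorm
        have m12 : Measurable fun x =>
            ‖B.indicator (fun _ => (1 : ℝ)) (g • x) - φ n (f (g • x))‖ₑ +
            ‖φ n (f (g • x)) - φ n (f (h • x))‖ₑ := m1.add m2
        rw [lintegral_add_left m12, lintegral_add_left m1]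
    _ ≤ ε / 4 + ε / 2 + ε / 4 := by
        rw [hshift g, hshift h]
        gcongr
    _ = ε := by
        have h4 : ε / 4 + ε / 4 = ε / 2 := by
          rw [← two_mul, ENNReal.div_eq_inv_mul, ENNReal.div_eq_inv_mul, ← mul_assoc,
            show (4 : ℝ≥0∞) = 2 * 2 by norm_num, ENNReal.mul_inv (by simp) (by simp), ← mul_assoc,
            ENNReal.mul_inv_cancel (by simp) (by simp), one_mul]
        calc ε / 4 + ε / 2 + ε / 4 = (ε / 4 + ε / 4) + ε / 2 := by ring
          _ = ε / 2 + ε / 2 := by rw [h4]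
          _ = ε := ENNReal.add_halves ε

end Kron

end QD
end Pool.Agent.V11103
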