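import Pool.Agent.V11103.QDErg

set_option linter.unusedSectionVars false

/-!
If a system is quasi-disjoint from every ergodic system then it is quasi-disjoint from every
system: conclusion of the extreme point argument.
-/

namespace Pool.Agent.V11103
namespace QD

open MeasureTheory ProbabilityTheory
open scoped ENNReal Topology

section Main

variable (G : Type) [Group G]
variable {X : Type} [TopologicalSpace X] [CompactSpace X] [PolishSpace X] [MeasurableSpace X]
  [BorelSpace X] [MulAction G X] [ContinuousConstSMul G X]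
variable {Y : Type} [TopologicalSpace Y] [CompactSpace Y] [PolishSpace Y] [MeasurableSpace Y]
  [BorelSpace Y] [MulAction G Y] [ContinuousConstSMul G Y]

lemma smulInv_snd {P : Measure (X × Y)}
    (h : ∀ g : G, P.map (fun p : X × Y => (g • p.1, g • p.2)) = P) :
    SMulInvariantMeasure G Y (P.map Prod.snd) := by
  refine ⟨fun g s hs => ?_⟩
  rw [Measure.map_apply measurable_snd (measurable_const_smul g hs),
    Measure.map_apply measurable_snd hs]
  conv_rhs => rw [← h g]
  rw [Measure.map_apply (meas_diag G g) (measurable_snd hs)]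
  rfl

lemma kroneckerSet_of_invariant {ν : Measure Y} [IsFiniteMeasure ν] [SMulInvariantMeasure G Y ν]
    {B : Set Y} (hB : MeasurableSet B) (hinv : ∀ g : G, (fun y : Y => g • y) ⁻¹' B = B) :
    KroneckerSet G ν B := by
  rw [kroneckerSet_iff]
  refine ⟨hB, fun ε _ => ⟨{1}, fun g => ⟨1, by simp, ?_⟩⟩⟩
  have : ∀ y : Y, B.indicator (fun _ => (1 : ℝ)) (g • y) -
      B.indicator (fun _ => (1 : ℝ)) ((1 : G) • y) = 0 := by
    intro y
    have h1 : g • y ∈ B ↔ y ∈ B := by
      have := Set.ext_iff.1 (hinv g) y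
      simpa using this
    by_cases hy : y ∈ B <;> simp [h1, hy, Set.indicator]
  simp only [this, enorm_zero, lintegral_zero]
  exact zero_le

lemma indep_invariant {μ : Measure X} [IsProbabilityMeasure μ] [SMulInvariantMeasure G X μ]
    {P : Measure (X × Y)} [IsProbabilityMeasure P] (hP : InQ G μ P) {B : Set Y}
    (hB : MeasurableSet B) (hinv : ∀ g : G, (fun y : Y => g • y) ⁻¹' B = B) {A : Set X}
    (hA : MeasurableSet A) : P (A ×ˢ B) = μ A * P (Set.univ ×ˢ B) := by
  have e2 : ∀ B : Set Y, (Prod.snd ⁻¹' B : Set (X × Y)) = Set.univ ×ˢ B := by intro B; ext; simp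
  have hsw : ∀ {A : Set X} {B : Set Y}, MeasurableSet A → MeasurableSet B →
      (P.map Prod.swap) (B ×ˢ A) = P (A ×ˢ B) := by
    intro A B hA hB
    rw [Measure.map_apply measurable_swap (hB.prod hA), Set.preimage_swap_prod]
  have i0 : SMulInvariantMeasure G Y (P.map Prod.snd) := smulInv_snd G hP.invariant
  have i1 : IsProbabilityMeasure (P.map (Prod.snd : X × Y → Y)) :=
    Measure.isProbabilityMeasure_map measurable_snd.aemeasurable
  have hJ : IsJoining G (P.map Prod.snd) μ (P.map Prod.swap) := by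
    refine ⟨?_, ?_, ?_⟩
    · rw [Measure.map_map measurable_fst measurable_swap]; rfl
    · rw [Measure.map_map measurable_snd measurable_swap, ← hP.fst]; rfl
    · intro g
      rw [Measure.map_map (meas_diag G g) measurable_swap]
      conv_rhs => rw [← hP.invariant g]
      rw [Measure.map_map measurable_swap (meas_diag G g)]
      rfl
  have hK : ProjectsToKroneckerProduct G (P.map Prod.snd) μ (P.map Prod.swap) := by
    intro B A hB hA
    rw [hsw hA.1 hB.1, hP.kron A B hA hB.1, Measure.map_apply measurable_snd hB.1, e2, mul_comm]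
  have := prod_of_kronecker G hJ hK (kroneckerSet_of_invariant G hB hinv) hA
  rw [hsw hA hB, Measure.map_apply measurable_snd hB, e2] at this
  rw [this, mul_comm]

lemma inQ_cond {μ : Measure X} [IsProbabilityMeasure μ] [SMulInvariantMeasure G X μ]
    {P : Measure (X × Y)} [IsProbabilityMeasure P] (hP : InQ G μ P) {B : Set Y}
    (hB : MeasurableSet B) (hinv : ∀ g : G, (fun y : Y => g • y) ⁻¹' B = B)
    (h0 : P (Set.univ ×ˢ B) ≠ 0) : InQ G μ (ProbabilityTheory.cond P (Set.univ ×ˢ B)) := by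
  have hS : MeasurableSet (Set.univ ×ˢ B : Set (X × Y)) := MeasurableSet.univ.prod hB
  refine ⟨?_, ?_, ?_⟩
  · ext A hA
    rw [Measure.map_apply measurable_fst hA, cond_apply hS]
    have : (Set.univ ×ˢ B ∩ Prod.fst ⁻¹' A : Set (X × Y)) = A ×ˢ B := by
      ext ⟨x, y⟩; simp [and_comm]
    rw [this, indep_invariant G hP hB hinv hA, mul_comm (μ A), ← mul_assoc,
      ENNReal.inv_mul_cancel h0 (measure_ne_top _ _), one_mul]
  · intro g
    ext S hSm
    rw [Measure.map_apply (meas_diag G g) hSm, cond_apply hS, cond_apply hS]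
    congr 1
    have : (Set.univ ×ˢ B ∩ (fun p : X × Y => (g • p.1, g • p.2)) ⁻¹' S : Set (X × Y)) =
      (fun p : X × Y => (g • p.1, g • p.2)) ⁻¹' (Set.univ ×ˢ B ∩ S) := by
      ext ⟨x, y⟩
      have h1 : g • y ∈ B ↔ y ∈ B := by
        have := Set.ext_iff.1 (hinv g) y
        simpa using this
      simp [h1]
    rw [this, ← Measure.map_apply (meas_diag G g) (hS.inter hSm), hP.invariant g]
  · intro A B' hA hB'
    rw [cond_apply hS, cond_apply hS]
    have e1 : (Set.univ ×ˢ B ∩ A ×ˢ B' : Set (X × Y)) = A ×ˢ (B ∩ B') := by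
      ext ⟨x, y⟩; simp; tauto
    have e2 : (Set.univ ×ˢ B ∩ Set.univ ×ˢ B' : Set (X × Y)) = Set.univ ×ˢ (B ∩ B') := by
      ext ⟨x, y⟩; simp
    rw [e1, e2, hP.kron A (B ∩ B') hA (hB.inter hB')]
    ring

/-- the averaged test function -/
lemma exists_test {μ : Measure X} [IsProbabilityMeasure μ] {ν : Measure Y} [IsProbabilityMeasure ν]
    {lam : Measure (X × Y)} [IsProbabilityMeasure lam] (hsnd : lam.map Prod.snd = ν)
    (hne : lam ≠ μ.prod ν) :
    ∃ H : C(X × Y, ℝ), 0 < ∫ p, H p ∂lam ∧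
      ∀ (ν' : Measure Y) [IsProbabilityMeasure ν'], ∫ p, H p ∂(μ.prod ν') = 0 := by
  obtain ⟨F, hF⟩ : ∃ F : C(X × Y, ℝ), ∫ p, F p ∂lam ≠ ∫ p, F p ∂(μ.prod ν) := by
    by_contra hcon
    push Not at hcon
    exact hne (ext_cont hcon)
  have hc : Continuous fun y : Y => ∫ x, F (x, y) ∂μ := by
    have := continuous_parametric_integral_of_continuous (μ := μ) (f := fun (y : Y) (x : X) => F (x, y))
      (by show Continuous fun p : Y × X => F (p.2, p.1)
          fun_prop) (isCompact_univ (X := X))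
    simpa using this
  have hsum : ∀ (ν' : Measure Y) [IsProbabilityMeasure ν'],
      ∫ y, (∫ x, F (x, y) ∂μ) ∂ν' = ∫ p, F p ∂(μ.prod ν') := by
    intro ν' _
    rw [integral_prod_symm _ (intCont _ F.continuous)]
  set H : C(X × Y, ℝ) := ⟨fun p => F p - ∫ x, F (x, p.2) ∂μ,
    F.continuous.sub (hc.comp continuous_snd)⟩ with hH
  have hHint : ∀ (P : Measure (X × Y)) [IsProbabilityMeasure P],
      ∫ p, H p ∂P = ∫ p, F p ∂P - ∫ y, (∫ x, F (x, y) ∂μ) ∂(P.map Prod.snd) := by
    intro P _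
    rw [integral_map measurable_snd.aemeasurable hc.aestronglyMeasurable]
    show ∫ p, (F p - ∫ x, F (x, p.2) ∂μ) ∂P = _
    have i2 : Integrable (fun p : X × Y => ∫ x, F (x, p.2) ∂μ) P :=
      intCont P (hc.comp continuous_snd)
    rw [integral_sub (intCont P F.continuous) i2]
  have hHprod : ∀ (ν' : Measure Y) [IsProbabilityMeasure ν'], ∫ p, H p ∂(μ.prod ν') = 0 := by
    intro ν' _
    rw [hHint, Measure.map_snd_prod]
    simp [hsum ν']
  have hHlam : ∫ p, H p ∂lam ≠ 0 := by
    rw [hHint, hsnd, hsum ν]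
    exact sub_ne_zero.2 hF
  rcases lt_or_gt_of_ne hHlam with h | h
  · refine ⟨-H, ?_, ?_⟩
    · have : ∫ p, (-H) p ∂lam = -∫ p, H p ∂lam := by
        rw [← integral_neg]; rfl
      rw [this]; linarith
    · intro ν' _
      have : ∫ p, (-H) p ∂(μ.prod ν') = -∫ p, H p ∂(μ.prod ν') := by
        rw [← integral_neg]; rfl
      rw [this, hHprod ν', neg_zero]
  · exact ⟨H, h, fun ν' _ => hHprod ν'⟩

/-- the embedding of the space of probability measures in a locally convex space -/
noncomputable def emb (Z : Type) [TopologicalSpace Z] [MeasurableSpace Z]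
    (P : ProbabilityMeasure Z) : C(Z, ℝ) → ℝ := fun f => ∫ z, f z ∂(P : Measure Z)

theorem quasiDisjoint_of_ergodic {μ : Measure X} {ν : Measure Y}
    [IsProbabilityMeasure μ] [IsProbabilityMeasure ν] [SMulInvariantMeasure G X μ]
    [SMulInvariantMeasure G Y ν]
    (H : ∀ (ν' : Measure Y) [IsProbabilityMeasure ν'] [SMulInvariantMeasure G Y ν'],
      ErgodicSystem G ν' → QuasiDisjoint G μ ν') : QuasiDisjoint G μ ν := by
  intro lam hJ hK
  by_contra hne
  have hlam : IsProbabilityMeasure lam := by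
    constructor
    have : (lam.map Prod.fst) Set.univ = 1 := by rw [hJ.fst]; simp
    rwa [Measure.map_apply measurable_fst MeasurableSet.univ, Set.preimage_univ] at this
  have e2 : ∀ B : Set Y, (Prod.snd ⁻¹' B : Set (X × Y)) = Set.univ ×ˢ B := by intro B; ext; simp
  have hlamQ : InQ G μ lam := by
    refine ⟨hJ.fst, hJ.invariant, fun A B hA hB => ?_⟩
    rw [prod_of_kronecker G hJ hK hA hB, ← hJ.snd, Measure.map_apply measurable_snd hB, e2]
  obtain ⟨T, hTpos, hTprod⟩ := exists_test (μ := μ) hJ.snd hne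
  -- maximise
  set Φ : ProbabilityMeasure (X × Y) → ℝ := fun P => ∫ p, T p ∂(P : Measure (X × Y)) with hΦ
  have hΦc : Continuous Φ := continuous_int T
  have hQc : IsCompact (Qset G Y μ) := (isClosed_Qset G μ).isCompact
  set lam' : ProbabilityMeasure (X × Y) := ⟨lam, hlam⟩ with hlam'
  have hlam'Q : lam' ∈ Qset G Y μ := hlamQ
  obtain ⟨P0, hP0, hmax⟩ := hQc.exists_isMaxOn ⟨lam', hlam'Q⟩ hΦc.continuousOn
  have hmax' : ∀ P ∈ Qset G Y μ, Φ P ≤ Φ P0 := fun P hP => hmax hP
  have hM : 0 < Φ P0 := lt_of_lt_of_le hTpos (hmax' lam' hlam'Q)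
  set F : Set (ProbabilityMeasure (X × Y)) := Qset G Y μ ∩ {P | Φ P = Φ P0} with hF
  have hFc : IsCompact F := hQc.inter_right (isClosed_eq hΦc continuous_const)
  have hJc : Continuous (emb (X × Y)) := continuous_pi fun f => continuous_int f
  obtain ⟨e, he⟩ := (hFc.image hJc).extremePoints_nonempty ⟨_, ⟨P0, ⟨hP0, rfl⟩, rfl⟩⟩
  rw [mem_extremePoints_iff_left] at he
  obtain ⟨⟨P, ⟨hPQ, hPM⟩, rfl⟩, hext⟩ := he
  have hPM' : Φ P = Φ P0 := hPM
  have hPinQ : InQ G μ (P : Measure (X × Y)) := hPQ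
  -- the second marginal
  set ν' : Measure Y := (P : Measure (X × Y)).map Prod.snd with hν'
  have i0 : SMulInvariantMeasure G Y ν' := smulInv_snd G hPinQ.invariant
  have i1 : IsProbabilityMeasure ν' :=
    Measure.isProbabilityMeasure_map measurable_snd.aemeasurable
  have herg : ErgodicSystem G ν' := by
    intro B hB hinv
    by_contra hcon
    push Not at hcon
    have hBe : ν' B = (P : Measure (X × Y)) (Set.univ ×ˢ B) := by
      rw [hν', Measure.map_apply measurable_snd hB, e2]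
    have h0 : (P : Measure (X × Y)) (Set.univ ×ˢ B) ≠ 0 := by rw [← hBe]; exact hcon.1
    have hS : MeasurableSet (Set.univ ×ˢ B : Set (X × Y)) := MeasurableSet.univ.prod hB
    have hcompl : (Set.univ ×ˢ Bᶜ : Set (X × Y)) = (Set.univ ×ˢ B)ᶜ := by
      ext ⟨x, y⟩; simp
    have h1 : (P : Measure (X × Y)) (Set.univ ×ˢ Bᶜ) ≠ 0 := by
      rw [hcompl, Ne, prob_compl_eq_zero_iff hS, ← hBe]
      exact hcon.2
    have hinvc : ∀ g : G, (fun y : Y => g • y) ⁻¹' Bᶜ = Bᶜ := by
      intro g; rw [Set.preimage_compl, hinv g]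
    have q1 := inQ_cond G hPinQ hB hinv h0
    have q2 := inQ_cond G hPinQ hB.compl hinvc h1
    set P1 : ProbabilityMeasure (X × Y) :=
      ⟨ProbabilityTheory.cond (P : Measure (X × Y)) (Set.univ ×ˢ B),
        cond_isProbabilityMeasure h0⟩ with hP1
    set P2 : ProbabilityMeasure (X × Y) :=
      ⟨ProbabilityTheory.cond (P : Measure (X × Y)) (Set.univ ×ˢ Bᶜ),
        cond_isProbabilityMeasure h1⟩ with hP2
    set c : ℝ := ((P : Measure (X × Y)) (Set.univ ×ˢ B)).toReal with hc
    set d : ℝ := ((P : Measure (X × Y)) (Set.univ ×ˢ Bᶜ)).toReal with hd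
    have hcpos : 0 < c := ENNReal.toReal_pos h0 (measure_ne_top _ _)
    have hdpos : 0 < d := ENNReal.toReal_pos h1 (measure_ne_top _ _)
    have hcd : c + d = 1 := by
      rw [hc, hd, ← ENNReal.toReal_add (measure_ne_top _ _) (measure_ne_top _ _), hcompl,
        measure_add_measure_compl hS]
      simp
    have hint1 : ∀ f : C(X × Y, ℝ), ∫ p in (Set.univ ×ˢ B), f p ∂(P : Measure (X × Y)) =
        c * ∫ p, f p ∂(P1 : Measure (X × Y)) := by
      intro f
      have : (P1 : Measure (X × Y)) = ((P : Measure (X × Y)) (Set.univ ×ˢ B))⁻¹ •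
        (P : Measure (X × Y)).restrict (Set.univ ×ˢ B) := rfl
      rw [this, integral_smul_measure, ENNReal.toReal_inv, ← hc, smul_eq_mul, ← mul_assoc,
        mul_inv_cancel₀ hcpos.ne', one_mul]
    have hint2 : ∀ f : C(X × Y, ℝ), ∫ p in (Set.univ ×ˢ Bᶜ), f p ∂(P : Measure (X × Y)) =
        d * ∫ p, f p ∂(P2 : Measure (X × Y)) := by
      intro f
      have : (P2 : Measure (X × Y)) = ((P : Measure (X × Y)) (Set.univ ×ˢ Bᶜ))⁻¹ •
        (P : Measure (X × Y)).restrict (Set.univ ×ˢ Bᶜ) := rfl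
      rw [this, integral_smul_measure, ENNReal.toReal_inv, ← hd, smul_eq_mul, ← mul_assoc,
        mul_inv_cancel₀ hdpos.ne', one_mul]
    have hdecomp : ∀ f : C(X × Y, ℝ), ∫ p, f p ∂(P : Measure (X × Y)) =
        c * ∫ p, f p ∂(P1 : Measure (X × Y)) + d * ∫ p, f p ∂(P2 : Measure (X × Y)) := by
      intro f
      rw [← hint1 f, ← hint2 f, hcompl]
      exact (integral_add_compl hS (intCont _ f.continuous)).symm
    have hP1Q : P1 ∈ Qset G Y μ := q1
    have hP2Q : P2 ∈ Qset G Y μ := q2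
    have hΦdec : Φ P = c * Φ P1 + d * Φ P2 := hdecomp T
    have b1 := hmax' P1 hP1Q
    have b2 := hmax' P2 hP2Q
    have hP1M : Φ P1 = Φ P0 := by nlinarith
    have hP2M : Φ P2 = Φ P0 := by nlinarith
    have hx := hext (emb (X × Y) P1) ⟨P1, ⟨hP1Q, hP1M⟩, rfl⟩ (emb (X × Y) P2)
      ⟨P2, ⟨hP2Q, hP2M⟩, rfl⟩ ⟨c, d, hcpos, hdpos, hcd, by
        funext f
        simp only [Pi.add_apply, Pi.smul_apply, smul_eq_mul, emb]
        exact (hdecomp f).symm⟩
    have hPP1 : (P1 : Measure (X × Y)) = (P : Measure (X × Y)) :=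
      ext_cont fun f => congrFun hx f
    have h3 : (P1 : Measure (X × Y)) (Set.univ ×ˢ Bᶜ) = 0 := by
      show ProbabilityTheory.cond (P : Measure (X × Y)) (Set.univ ×ˢ B) (Set.univ ×ˢ Bᶜ) = 0
      rw [cond_apply hS, hcompl, Set.inter_compl_self]
      simp
    rw [hPP1] at h3
    exact h1 h3
  have hfin := H ν' herg (P : Measure (X × Y)) ⟨hPinQ.fst, rfl, hPinQ.invariant⟩ (by
    intro A B hA hB
    rw [hPinQ.kron A B hA hB.1, hν', Measure.map_apply measurable_snd hB.1, e2])
  have : Φ P = 0 := by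
    show ∫ p, T p ∂(P : Measure (X × Y)) = 0
    rw [hfin]
    exact hTprod ν'
  linarith

end Main

end QD
end Pool.Agent.V11103
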