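import Pool.Agent.V11103.QQ2Defs

/-!
A homogeneous quadratic program with two constraints in dimension four which has six strict
local non-global minimizers.
-/

namespace Pool.Agent.V11103
namespace QQ2

/-- `q₀` -/
noncomputable def p0 (x y z w : ℝ) : ℝ := x * x + (-6 / 25) * (x * y) + (3 / 10) * (x * z) + (36 / 5) * (y * z) +
  12 * (y * w) + (-2) * (z * z) + (-28) * (z * w) + 12 * (w * w)

/-- `q₁` -/
noncomputable def p1 (x y z w : ℝ) : ℝ := x * x + (-1 / 5) * (x * y) + (1 / 5) * (x * z) + y * y +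
  (3 / 5) * (y * z) + z * z + w * w

/-- `q₂` -/
noncomputable def p2 (x y z w : ℝ) : ℝ := x * x + (-4 / 25) * (x * y) + (1 / 10) * (x * z) + y * y +
  (-3 / 5) * (y * z) + (-2) * (y * w) + z * z + 4 * (z * w) + (-1) * (w * w)

/-- `q₂ - q₁` -/
noncomputable def pq (x y z w : ℝ) : ℝ := (1 / 25) * (x * y) + (-1 / 10) * (x * z) + (-6 / 5) * (y * z) +
  (-2) * (y * w) + 4 * (z * w) + (-2) * (w * w)

/-- `A₀` -/
noncomputable def A0 : Matrix (Fin 4) (Fin 4) ℝ :=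
  !![1, -3/25, 3/20, 0; -3/25, 0, 18/5, 6; 3/20, 18/5, -2, -14; 0, 6, -14, 12]

/-- `A₁` -/
noncomputable def A1 : Matrix (Fin 4) (Fin 4) ℝ :=
  !![1, -1/10, 1/10, 0; -1/10, 1, 3/10, 0; 1/10, 3/10, 1, 0; 0, 0, 0, 1]

/-- `A₂` -/
noncomputable def A2 : Matrix (Fin 4) (Fin 4) ℝ :=
  !![1, -2/25, 1/20, 0; -2/25, 1, -3/10, -1; 1/20, -3/10, 1, 2; 0, -1, 2, -1]

lemma A0_symm : A0.IsSymm := by
  unfold A0 Matrix.IsSymm
  ext i j
  fin_cases i <;> fin_cases j <;> simp [Matrix.transpose]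

lemma A1_symm : A1.IsSymm := by
  unfold A1 Matrix.IsSymm
  ext i j
  fin_cases i <;> fin_cases j <;> simp [Matrix.transpose]

lemma A2_symm : A2.IsSymm := by
  unfold A2 Matrix.IsSymm
  ext i j
  fin_cases i <;> fin_cases j <;> simp [Matrix.transpose]

lemma qf0 (x : Fin 4 → ℝ) : quadForm A0 x = p0 (x 0) (x 1) (x 2) (x 3) := by
  simp [quadForm, Fin.sum_univ_four, A0, p0]
  ring

lemma qf1 (x : Fin 4 → ℝ) : quadForm A1 x = p1 (x 0) (x 1) (x 2) (x 3) := by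
  simp [quadForm, Fin.sum_univ_four, A1, p1]
  ring

lemma qf2 (x : Fin 4 → ℝ) : quadForm A2 x = p2 (x 0) (x 1) (x 2) (x 3) := by
  simp [quadForm, Fin.sum_univ_four, A2, p2]
  ring

lemma sos1 (a b e f : ℝ) :
    (1 / 10) * (a ^ 2 + b ^ 2 + e ^ 2 + f ^ 2) - 10000 * (((1 / 50) * b + (-1 / 20) * e) ^ 2 + ((1) * a + (-1 / 10) * b + (1 / 10) * e) ^ 2) ≤
      (-1) * (b * b) + (27 / 5) * (b * e) + (10) * (b * f) + (-3) * (e * e) + (-24) * (e * f) + (9) * (f * f) := by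
  have h : ((-1) * (b * b) + (27 / 5) * (b * e) + (10) * (b * f) + (-3) * (e * e) + (-24) * (e * f) + (9) * (f * f)) - ((1 / 10) * (a ^ 2 + b ^ 2 + e ^ 2 + f ^ 2) - 10000 * (((1 / 50) * b + (-1 / 20) * e) ^ 2 + ((1) * a + (-1 / 10) * b + (1 / 10) * e) ^ 2)) =
      (99999 / 10) * ((1) * a + (-10000 / 99999) * b + (10000 / 99999) * e) ^ 2 + (2898971 / 999990) * ((1) * b + (-7298927 / 2898971) * e + (4999950 / 2898971) * f) ^ 2 + (51048489 / 14494855) * ((1) * e + (8534915 / 51048489) * f) ^ 2 + (90810071 / 510484890) * ((1) * f) ^ 2 := by ring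
  have h2 : 0 ≤ (99999 / 10) * ((1) * a + (-10000 / 99999) * b + (10000 / 99999) * e) ^ 2 + (2898971 / 999990) * ((1) * b + (-7298927 / 2898971) * e + (4999950 / 2898971) * f) ^ 2 + (51048489 / 14494855) * ((1) * e + (8534915 / 51048489) * f) ^ 2 + (90810071 / 510484890) * ((1) * f) ^ 2 := by positivity
  linarith

lemma sos2 (a b e f : ℝ) :
    (1 / 10) * (a ^ 2 + b ^ 2 + e ^ 2 + f ^ 2) - 100 * (((1 / 50) * a + (-3 / 5) * e + (-1) * f) ^ 2 + ((-1 / 10) * a + (1) * b + (3 / 10) * e) ^ 2) ≤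
      (1) * (a * a) + (-3 / 10) * (a * e) + (-2) * (e * e) + (-4) * (e * f) := by
  have h : ((1) * (a * a) + (-3 / 10) * (a * e) + (-2) * (e * e) + (-4) * (e * f)) - ((1 / 10) * (a ^ 2 + b ^ 2 + e ^ 2 + f ^ 2) - 100 * (((1 / 50) * a + (-3 / 5) * e + (-1) * f) ^ 2 + ((-1 / 10) * a + (1) * b + (3 / 10) * e) ^ 2)) =
      (97 / 50) * ((1) * a + (-500 / 97) * b + (-435 / 194) * e + (-100 / 97) * f) ^ 2 + (46903 / 970) * ((1) * b + (7350 / 46903) * e + (-10000 / 46903) * f) ^ 2 + (59958393 / 1876120) * ((1) * e + (103432360 / 59958393) * f) ^ 2 + (321005807 / 599583930) * ((1) * f) ^ 2 := by ring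
  have h2 : 0 ≤ (97 / 50) * ((1) * a + (-500 / 97) * b + (-435 / 194) * e + (-100 / 97) * f) ^ 2 + (46903 / 970) * ((1) * b + (7350 / 46903) * e + (-10000 / 46903) * f) ^ 2 + (59958393 / 1876120) * ((1) * e + (103432360 / 59958393) * f) ^ 2 + (321005807 / 599583930) * ((1) * f) ^ 2 := by positivity
  linarith

lemma sos3 (a b e f : ℝ) :
    (1 / 10) * (a ^ 2 + b ^ 2 + e ^ 2 + f ^ 2) - 1 * (((-1 / 20) * a + (-3 / 5) * b + (2) * f) ^ 2 + ((1 / 10) * a + (3 / 10) * b + (1) * e) ^ 2) ≤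
      (3) * (a * a) + (-9 / 25) * (a * b) + (2) * (b * b) + (-2) * (b * f) := by
  have h : ((3) * (a * a) + (-9 / 25) * (a * b) + (2) * (b * b) + (-2) * (b * f)) - ((1 / 10) * (a ^ 2 + b ^ 2 + e ^ 2 + f ^ 2) - 1 * (((-1 / 20) * a + (-3 / 5) * b + (2) * f) ^ 2 + ((1 / 10) * a + (3 / 10) * b + (1) * e) ^ 2)) =
      (233 / 80) * ((1) * a + (-48 / 1165) * b + (8 / 233) * e + (-8 / 233) * f) ^ 2 + (273199 / 116500) * ((1) * b + (35430 / 273199) * e + (-256780 / 273199) * f) ^ 2 + (2341661 / 2731990) * ((1) * e + (112900 / 334523) * f) ^ 2 + (825451 / 477890) * ((1) * f) ^ 2 := by ring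
  have h2 : 0 ≤ (233 / 80) * ((1) * a + (-48 / 1165) * b + (8 / 233) * e + (-8 / 233) * f) ^ 2 + (273199 / 116500) * ((1) * b + (35430 / 273199) * e + (-256780 / 273199) * f) ^ 2 + (2341661 / 2731990) * ((1) * e + (112900 / 334523) * f) ^ 2 + (825451 / 477890) * ((1) * f) ^ 2 := by positivity
  linarith

/-- the analytic core of the second order sufficient condition -/
lemma core {m N B1 BQ s Qd q1d K μ c : ℝ} (hm : c * N - K * (BQ ^ 2 + B1 ^ 2) ≤ m)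
    (hB1 : B1 = -q1d / 2) (hBQ : BQ = -(s + Qd) / 2) (hq : |q1d| ≤ 8 * N) (hQ : |Qd| ≤ 8 * N)
    (hs0 : 0 ≤ s) (hs : K * s ≤ 2 * μ) (hK : 0 ≤ K) (hN : K * 64 * N < c) (hN0 : 0 < N) :
    0 < m + μ * s := by
  have h1 : q1d ^ 2 ≤ 64 * N ^ 2 := by
    have := abs_le.1 hq
    nlinarith [this.1, this.2]
  have h2 : Qd ^ 2 ≤ 64 * N ^ 2 := by
    have := abs_le.1 hQ
    nlinarith [this.1, this.2]
  have h3 : BQ ^ 2 + B1 ^ 2 ≤ s ^ 2 / 2 + 48 * N ^ 2 := by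
    rw [hB1, hBQ]
    nlinarith [sq_nonneg (s - Qd)]
  have h4 : K * (BQ ^ 2 + B1 ^ 2) ≤ K * (s ^ 2 / 2 + 48 * N ^ 2) := mul_le_mul_of_nonneg_left h3 hK
  have h5 : K * (s ^ 2 / 2) ≤ μ * s := by nlinarith
  have h6 : K * (48 * N ^ 2) < c * N := by nlinarith
  nlinarith

lemma bd1 (a b e f : ℝ) : |p1 a b e f| ≤ 8 * (a ^ 2 + b ^ 2 + e ^ 2 + f ^ 2) := by
  unfold p1
  rw [abs_le]
  constructor <;>
  nlinarith [sq_nonneg (a - b), sq_nonneg (a + b), sq_nonneg (a - e), sq_nonneg (a + e),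
    sq_nonneg (b - e), sq_nonneg (b + e), sq_nonneg a, sq_nonneg b, sq_nonneg e, sq_nonneg f]

lemma bdq (a b e f : ℝ) : |pq a b e f| ≤ 8 * (a ^ 2 + b ^ 2 + e ^ 2 + f ^ 2) := by
  unfold pq
  rw [abs_le]
  constructor <;>
  nlinarith [sq_nonneg (a - b), sq_nonneg (a + b), sq_nonneg (a - e), sq_nonneg (a + e),
    sq_nonneg (b - e), sq_nonneg (b + e), sq_nonneg (b - f), sq_nonneg (b + f),
    sq_nonneg (e - f), sq_nonneg (e + f), sq_nonneg a, sq_nonneg b, sq_nonneg e, sq_nonneg f]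

/-- the size of the neighbourhoods -/
noncomputable def dl : ℝ := 1 / 10 ^ 6

lemma sq_bd {a : ℝ} (h : |a| < dl) : a ^ 2 ≤ 1 / 10 ^ 12 := by
  unfold dl at h
  have := abs_lt.1 h
  nlinarith [this.1, this.2]

lemma near1 {a b e f : ℝ} (ha : |a| < dl) (hb : |b| < dl) (he : |e| < dl) (hf : |f| < dl)
    (h1 : p1 (1 + a) b e f = 1) (h2 : p2 (1 + a) b e f ≤ 1)
    (h0 : 0 < a ^ 2 + b ^ 2 + e ^ 2 + f ^ 2) : 1 < p0 (1 + a) b e f := by
  have hN : a ^ 2 + b ^ 2 + e ^ 2 + f ^ 2 ≤ 4 / 10 ^ 12 := by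
    have := sq_bd ha; have := sq_bd hb; have := sq_bd he; have := sq_bd hf
    linarith
  have k := core (s := 1 - p2 (1 + a) b e f) (Qd := pq a b e f) (q1d := p1 a b e f) (μ := 1)
    (sos1 a b e f) (by unfold p1 at *; linarith) (by unfold p1 p2 pq at *; linarith)
    (bd1 a b e f) (bdq a b e f) (by linarith) (by
      have h3 := (abs_le.1 (bdq a b e f)).1
      have h4 := abs_lt.1 hb; have h5 := abs_lt.1 he
      unfold dl at h4 h5
      unfold p1 p2 pq at *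
      linarith [h4.1, h4.2, h5.1, h5.2]) (by norm_num) (by linarith) h0
  unfold p0 p1 p2 at *
  linarith

lemma near2 {a b e f : ℝ} (ha : |a| < dl) (hb : |b| < dl) (he : |e| < dl) (hf : |f| < dl)
    (h1 : p1 a (1 + b) e f = 1) (h2 : p2 a (1 + b) e f ≤ 1)
    (h0 : 0 < a ^ 2 + b ^ 2 + e ^ 2 + f ^ 2) : 0 < p0 a (1 + b) e f := by
  have hN : a ^ 2 + b ^ 2 + e ^ 2 + f ^ 2 ≤ 4 / 10 ^ 12 := by
    have := sq_bd ha; have := sq_bd hb; have := sq_bd he; have := sq_bd hf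
    linarith
  have k := core (s := 1 - p2 a (1 + b) e f) (Qd := pq a b e f) (q1d := p1 a b e f) (μ := 6)
    (sos2 a b e f) (by unfold p1 at *; linarith) (by unfold p1 p2 pq at *; linarith)
    (bd1 a b e f) (bdq a b e f) (by linarith) (by
      have h3 := (abs_le.1 (bdq a b e f)).1
      have h4 := abs_lt.1 ha; have h5 := abs_lt.1 he; have h6 := abs_lt.1 hf
      unfold dl at h4 h5 h6
      unfold p1 p2 pq at *
      linarith [h4.1, h4.2, h5.1, h5.2, h6.1, h6.2]) (by norm_num) (by linarith) h0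
  unfold p0 p1 p2 at *
  linarith

lemma near3 {a b e f : ℝ} (ha : |a| < dl) (hb : |b| < dl) (he : |e| < dl) (hf : |f| < dl)
    (h1 : p1 a b (1 + e) f = 1) (h2 : p2 a b (1 + e) f ≤ 1)
    (h0 : 0 < a ^ 2 + b ^ 2 + e ^ 2 + f ^ 2) : -2 < p0 a b (1 + e) f := by
  have hN : a ^ 2 + b ^ 2 + e ^ 2 + f ^ 2 ≤ 4 / 10 ^ 12 := by
    have := sq_bd ha; have := sq_bd hb; have := sq_bd he; have := sq_bd hf
    linarith
  have k := core (s := 1 - p2 a b (1 + e) f) (Qd := pq a b e f) (q1d := p1 a b e f) (μ := 7)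
    (sos3 a b e f) (by unfold p1 at *; linarith) (by unfold p1 p2 pq at *; linarith)
    (bd1 a b e f) (bdq a b e f) (by linarith) (by
      have h3 := (abs_le.1 (bdq a b e f)).1
      have h4 := abs_lt.1 ha; have h5 := abs_lt.1 hb; have h6 := abs_lt.1 hf
      unfold dl at h4 h5 h6
      unfold p1 p2 pq at *
      linarith [h4.1, h4.2, h5.1, h5.2, h6.1, h6.2]) (by norm_num) (by linarith) h0
  unfold p0 p1 p2 at *
  linarith

lemma comp_lt {x y : Fin 4 → ℝ} (h : ‖y - x‖ < dl) (i : Fin 4) : |y i - x i| < dl := by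
  have := norm_le_pi_norm (y - x) i
  rw [Real.norm_eq_abs, Pi.sub_apply] at this
  exact this.trans_lt h

lemma pos_of_norm {x y : Fin 4 → ℝ} (h : 0 < ‖y - x‖) :
    0 < (y 0 - x 0) ^ 2 + (y 1 - x 1) ^ 2 + (y 2 - x 2) ^ 2 + (y 3 - x 3) ^ 2 := by
  have hne : y - x ≠ 0 := norm_pos_iff.1 h
  by_contra hcon
  push Not at hcon
  apply hne
  have s0 := sq_nonneg (y 0 - x 0); have s1 := sq_nonneg (y 1 - x 1)
  have s2 := sq_nonneg (y 2 - x 2); have s3 := sq_nonneg (y 3 - x 3)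
  have e0 : y 0 - x 0 = 0 := by nlinarith
  have e1 : y 1 - x 1 = 0 := by nlinarith
  have e2 : y 2 - x 2 = 0 := by nlinarith
  have e3 : y 3 - x 3 = 0 := by nlinarith
  ext i
  fin_cases i
  · simpa using e0
  · simpa using e1
  · simpa using e2
  · simpa using e3

/-- the three points -/
noncomputable def E1 : Fin 4 → ℝ := ![1, 0, 0, 0]

/-- the three points -/
noncomputable def E2 : Fin 4 → ℝ := ![0, 1, 0, 0]

/-- the three points -/
noncomputable def E3 : Fin 4 → ℝ := ![0, 0, 1, 0]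

lemma min1 : IsStrictLocalMinimizer A0 A1 A2 E1 := by
  refine ⟨⟨by rw [qf1]; simp [E1, p1], by rw [qf2]; simp [E1, p2]⟩, dl, by unfold dl; norm_num, ?_⟩
  rintro y ⟨h1, h2⟩ hpos hlt
  rw [qf1] at h1
  rw [qf2] at h2
  rw [qf0, qf0]
  have c0 := comp_lt hlt 0; have c1 := comp_lt hlt 1
  have c2 := comp_lt hlt 2; have c3 := comp_lt hlt 3
  have hp := pos_of_norm hpos
  have e0 : E1 0 = 1 := rfl
  have e1 : E1 1 = 0 := rfl
  have e2 : E1 2 = 0 := rfl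
  have e3 : E1 3 = 0 := rfl
  rw [e0] at c0 hp
  rw [e1, sub_zero] at c1 hp
  rw [e2, sub_zero] at c2 hp
  rw [e3, sub_zero] at c3 hp
  have hy : y 0 = 1 + (y 0 - 1) := by ring
  rw [hy] at h1 h2
  have := near1 c0 c1 c2 c3 h1 h2 hp
  rw [← hy] at this
  have e4 : p0 (E1 0) (E1 1) (E1 2) (E1 3) = 1 := by rw [e0, e1, e2, e3]; norm_num [p0]
  rw [e4]
  exact this

lemma min2 : IsStrictLocalMinimizer A0 A1 A2 E2 := by
  refine ⟨⟨by rw [qf1]; simp [E2, p1], by rw [qf2]; simp [E2, p2]⟩, dl, by unfold dl; norm_num, ?_⟩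
  rintro y ⟨h1, h2⟩ hpos hlt
  rw [qf1] at h1
  rw [qf2] at h2
  rw [qf0, qf0]
  have c0 := comp_lt hlt 0; have c1 := comp_lt hlt 1
  have c2 := comp_lt hlt 2; have c3 := comp_lt hlt 3
  have hp := pos_of_norm hpos
  have e0 : E2 0 = 0 := rfl
  have e1 : E2 1 = 1 := rfl
  have e2 : E2 2 = 0 := rfl
  have e3 : E2 3 = 0 := rfl
  rw [e0, sub_zero] at c0 hp
  rw [e1] at c1 hp
  rw [e2, sub_zero] at c2 hp
  rw [e3, sub_zero] at c3 hp
  have hy : y 1 = 1 + (y 1 - 1) := by ring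
  rw [hy] at h1 h2
  have := near2 c0 c1 c2 c3 h1 h2 hp
  rw [← hy] at this
  have e4 : p0 (E2 0) (E2 1) (E2 2) (E2 3) = 0 := by rw [e0, e1, e2, e3]; norm_num [p0]
  rw [e4]
  exact this

lemma min3 : IsStrictLocalMinimizer A0 A1 A2 E3 := by
  refine ⟨⟨by rw [qf1]; simp [E3, p1], by rw [qf2]; simp [E3, p2]⟩, dl, by unfold dl; norm_num, ?_⟩
  rintro y ⟨h1, h2⟩ hpos hlt
  rw [qf1] at h1
  rw [qf2] at h2
  rw [qf0, qf0]
  have c0 := comp_lt hlt 0; have c1 := comp_lt hlt 1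
  have c2 := comp_lt hlt 2; have c3 := comp_lt hlt 3
  have hp := pos_of_norm hpos
  have e0 : E3 0 = 0 := rfl
  have e1 : E3 1 = 0 := rfl
  have e2 : E3 2 = 1 := rfl
  have e3 : E3 3 = 0 := rfl
  rw [e0, sub_zero] at c0 hp
  rw [e1, sub_zero] at c1 hp
  rw [e2] at c2 hp
  rw [e3, sub_zero] at c3 hp
  have hy : y 2 = 1 + (y 2 - 1) := by ring
  rw [hy] at h1 h2
  have := near3 c0 c1 c2 c3 h1 h2 hp
  rw [← hy] at this
  have e4 : p0 (E3 0) (E3 1) (E3 2) (E3 3) = -2 := by rw [e0, e1, e2, e3]; norm_num [p0]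
  rw [e4]
  exact this

lemma quadForm_neg {n : ℕ} (A : Matrix (Fin n) (Fin n) ℝ) (x : Fin n → ℝ) :
    quadForm A (-x) = quadForm A x := by
  unfold quadForm
  simp

lemma strict_neg {n : ℕ} {B0 B1 B2 : Matrix (Fin n) (Fin n) ℝ} {x : Fin n → ℝ}
    (h : IsStrictLocalMinimizer B0 B1 B2 x) : IsStrictLocalMinimizer B0 B1 B2 (-x) := by
  obtain ⟨⟨h1, h2⟩, ε, hε, h⟩ := h
  refine ⟨⟨by rw [quadForm_neg]; exact h1, by rw [quadForm_neg]; exact h2⟩, ε, hε, ?_⟩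
  rintro y ⟨hy1, hy2⟩ hpos hlt
  have e : ‖-y - x‖ = ‖y - -x‖ := by
    rw [← norm_neg (y - -x)]; congr 1; abel
  have := h (-y) ⟨by rw [quadForm_neg]; exact hy1, by rw [quadForm_neg]; exact hy2⟩
    (by rw [e]; exact hpos) (by rw [e]; exact hlt)
  rw [quadForm_neg] at this ⊢
  exact this

/-- a better feasible point -/
lemma better : ∃ y ∈ Feasible A1 A2, quadForm A0 y < -2 := by
  obtain ⟨t, ht⟩ : ∃ t : ℝ, t * t = 1 / 177 :=
    ⟨√(1 / 177), Real.mul_self_sqrt (by norm_num)⟩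
  have e0 : (![0, 5 * t, 8 * t, 8 * t] : Fin 4 → ℝ) 0 = 0 := rfl
  have e1 : (![0, 5 * t, 8 * t, 8 * t] : Fin 4 → ℝ) 1 = 5 * t := rfl
  have e2 : (![0, 5 * t, 8 * t, 8 * t] : Fin 4 → ℝ) 2 = 8 * t := rfl
  have e3 : (![0, 5 * t, 8 * t, 8 * t] : Fin 4 → ℝ) 3 = 8 * t := rfl
  refine ⟨![0, 5 * t, 8 * t, 8 * t], ⟨?_, ?_⟩, ?_⟩
  · rw [qf1, e0, e1, e2, e3]
    unfold p1
    nlinarith
  · rw [qf2, e0, e1, e2, e3]
    unfold p2
    nlinarith
  · rw [qf0, e0, e1, e2, e3]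
    unfold p0
    nlinarith

lemma val1 : quadForm A0 E1 = 1 := by
  rw [qf0]
  show p0 1 0 0 0 = 1
  norm_num [p0]

lemma val2 : quadForm A0 E2 = 0 := by
  rw [qf0]
  show p0 0 1 0 0 = 0
  norm_num [p0]

lemma val3 : quadForm A0 E3 = -2 := by
  rw [qf0]
  show p0 0 0 1 0 = -2
  norm_num [p0]

/-- the six points -/
theorem six : ∀ x ∈ ({E1, -E1, E2, -E2, E3, -E3} : Set (Fin 4 → ℝ)),
    IsStrictLocalNonGlobal A0 A1 A2 x := by
  obtain ⟨y, hy, hlt⟩ := better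
  intro x hx
  simp only [Set.mem_insert_iff, Set.mem_singleton_iff] at hx
  rcases hx with rfl | rfl | rfl | rfl | rfl | rfl
  · exact ⟨min1, y, hy, by rw [val1]; linarith⟩
  · exact ⟨strict_neg min1, y, hy, by rw [quadForm_neg, val1]; linarith⟩
  · exact ⟨min2, y, hy, by rw [val2]; linarith⟩
  · exact ⟨strict_neg min2, y, hy, by rw [quadForm_neg, val2]; linarith⟩
  · exact ⟨min3, y, hy, by rw [val3]; linarith⟩
  · exact ⟨strict_neg min3, y, hy, by rw [quadForm_neg, val3]; linarith⟩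

lemma card_six : ({E1, -E1, E2, -E2, E3, -E3} : Set (Fin 4 → ℝ)).encard = 6 := by
  have a1 : E1 0 = 1 := rfl
  have a2 : E1 1 = 0 := rfl
  have a3 : E1 2 = 0 := rfl
  have b1 : E2 0 = 0 := rfl
  have b2 : E2 1 = 1 := rfl
  have b3 : E2 2 = 0 := rfl
  have c1 : E3 0 = 0 := rfl
  have c2 : E3 1 = 0 := rfl
  have c3 : E3 2 = 1 := rfl
  have hne : ∀ {x y : Fin 4 → ℝ} (i : Fin 4), x i ≠ y i → x ≠ y := fun i h he => h (by rw [he])
  rw [Set.encard_insert_of_notMem, Set.encard_insert_of_notMem, Set.encard_insert_of_notMem,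
    Set.encard_insert_of_notMem, Set.encard_insert_of_notMem, Set.encard_singleton]
  · norm_num
  · rw [Set.mem_singleton_iff]
    exact hne 2 (by rw [Pi.neg_apply, c3]; norm_num)
  · simp only [Set.mem_insert_iff, Set.mem_singleton_iff, not_or]
    exact ⟨hne 1 (by rw [Pi.neg_apply, b2, c2]; norm_num),
      hne 1 (by rw [Pi.neg_apply, Pi.neg_apply, b2, c2]; norm_num)⟩
  · simp only [Set.mem_insert_iff, Set.mem_singleton_iff, not_or]
    exact ⟨hne 1 (by rw [Pi.neg_apply, b2]; norm_num), hne 1 (by rw [b2, c2]; norm_num),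
      hne 1 (by rw [Pi.neg_apply, b2, c2]; norm_num)⟩
  · simp only [Set.mem_insert_iff, Set.mem_singleton_iff, not_or]
    exact ⟨hne 0 (by rw [Pi.neg_apply, a1, b1]; norm_num),
      hne 0 (by rw [Pi.neg_apply, Pi.neg_apply, a1, b1]; norm_num),
      hne 0 (by rw [Pi.neg_apply, a1, c1]; norm_num),
      hne 0 (by rw [Pi.neg_apply, Pi.neg_apply, a1, c1]; norm_num)⟩
  · simp only [Set.mem_insert_iff, Set.mem_singleton_iff, not_or]
    exact ⟨hne 0 (by rw [Pi.neg_apply, a1]; norm_num), hne 0 (by rw [a1, b1]; norm_num),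
      hne 0 (by rw [Pi.neg_apply, a1, b1]; norm_num), hne 0 (by rw [a1, c1]; norm_num),
      hne 0 (by rw [Pi.neg_apply, a1, c1]; norm_num)⟩

end QQ2
end Pool.Agent.V11103
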