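import Mathlib

/-!
Homogeneous quadratic programs with two constraints.
-/

namespace Pool.Agent.V11103
namespace QQ2

/-- The quadratic form `x ↦ xᵀ A x`. -/
def quadForm {n : ℕ} (A : Matrix (Fin n) (Fin n) ℝ) (x : Fin n → ℝ) : ℝ :=
  ∑ i, ∑ j, x i * A i j * x j

/-- The feasible set `{x : q₁(x) = 1, q₂(x) ≤ 1}`. -/
def Feasible {n : ℕ} (A₁ A₂ : Matrix (Fin n) (Fin n) ℝ) : Set (Fin n → ℝ) :=
  {x | quadForm A₁ x = 1 ∧ quadForm A₂ x ≤ 1}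

/-- `x` is a strict local minimizer of `q₀` on the feasible set. (The norm is the sup norm, but
all norms on `ℝⁿ` give the same notion.) -/
def IsStrictLocalMinimizer {n : ℕ} (A₀ A₁ A₂ : Matrix (Fin n) (Fin n) ℝ) (x : Fin n → ℝ) : Prop :=
  x ∈ Feasible A₁ A₂ ∧ ∃ ε > 0, ∀ y ∈ Feasible A₁ A₂, 0 < ‖y - x‖ → ‖y - x‖ < ε →
    quadForm A₀ x < quadForm A₀ y

/-- `x` is a strict local minimizer which is not a global minimizer. -/
def IsStrictLocalNonGlobal {n : ℕ} (A₀ A₁ A₂ : Matrix (Fin n) (Fin n) ℝ) (x : Fin n → ℝ) : Prop :=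
  IsStrictLocalMinimizer A₀ A₁ A₂ x ∧ ∃ y ∈ Feasible A₁ A₂, quadForm A₀ y < quadForm A₀ x

end QQ2
end Pool.Agent.V11103
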