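import Pool.Agent.V11103.SpeedDefs

/-!
An instance of the speed planning problem with constant acceleration and jerk bounds for which
the convex relaxation is not exact.
-/

namespace Pool.Agent.V11103
namespace Speed

open scoped ENNReal

/-- the profile, as a function of the distance to the centre -/
def prof (k : ℕ) : ℚ :=
  if k ≤ 10 then 51 / 50 + k else if k ≤ 12 then 576 / 50 else
    if k ≤ 24 then 1 / 50 + ((24 - k : ℕ) : ℚ) else 0

/-- the rational values of the optimal speed -/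
def wq (i : ℕ) : ℚ := prof ((26 - i) + (i - 26))

/-- the optimal speed -/
noncomputable def ws (i : ℕ) : ℝ := (wq i : ℝ)

/-- the bounds -/
noncomputable def wm (i : ℕ) : ℝ := (wq i : ℝ) + (if i ≤ 1 ∨ 51 ≤ i then 1 else 0)

lemma prof_chk1 : ∀ i ∈ Finset.Icc 2 50, 0 < wq i := by decide +kernel

lemma prof_chk2 : ∀ i ∈ Finset.Icc 1 50, |wq (i + 1) - wq i| ≤ 1 := by decide +kernel

lemma prof_chk3 : ∀ i ∈ Finset.Icc 2 50, i ≠ 26 →
    (|wq (i - 1) + wq (i + 1) - 2 * wq i| + wq i / 1000) ^ 2 * wq i ≤ 4 := by decide +kernel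

lemma ws_pos {i : ℕ} (hi : i ∈ Finset.Icc 2 50) : 0 < ws i := by
  have := prof_chk1 i hi
  unfold ws
  exact_mod_cast this

lemma ws_accel {i : ℕ} (hi : i ∈ Finset.Icc 1 50) : |ws (i + 1) - ws i| ≤ 1 := by
  have := prof_chk2 i hi
  unfold ws
  exact_mod_cast this

lemma ws_jerk {i : ℕ} (hi : i ∈ Finset.Icc 2 50) (hi26 : i ≠ 26) {ρ : ℝ} (hρ : 0 < ρ)
    (hρ1 : ρ ≤ 1 / 1000) : |delta 1 2 ρ ws i| ≤ 1 / √(ws i) := by
  have hpos := ws_pos hi
  have h1 := prof_chk3 i hi hi26
  have h2 : (|ws (i - 1) + ws (i + 1) - 2 * ws i| + ws i / 1000) ^ 2 * ws i ≤ 4 := by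
    unfold ws
    exact_mod_cast h1
  have hs : 0 < √(ws i) := Real.sqrt_pos.2 hpos
  have hs2 : √(ws i) * √(ws i) = ws i := Real.mul_self_sqrt hpos.le
  set X := |ws (i - 1) + ws (i + 1) - 2 * ws i| + ws i / 1000 with hX
  have hX0 : 0 ≤ X := by positivity
  have h3 : |delta 1 2 ρ ws i| ≤ X / 2 := by
    have e : delta 1 2 ρ ws i = ((ws (i - 1) + ws (i + 1) - 2 * ws i) - ρ * ws i) / 2 := by
      unfold delta; ring
    rw [e, abs_div, abs_two]
    have h4 : |(ws (i - 1) + ws (i + 1) - 2 * ws i) - ρ * ws i| ≤ X := by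
      have h5 := abs_sub (ws (i - 1) + ws (i + 1) - 2 * ws i) (ρ * ws i)
      have h6 : |ρ * ws i| ≤ ws i / 1000 := by
        rw [abs_of_pos (by positivity)]
        have := mul_le_mul_of_nonneg_right hρ1 hpos.le
        linarith
      linarith
    linarith
  refine h3.trans ?_
  rw [le_div_iff₀ hs]
  have h7 : (X / 2 * √(ws i)) ^ 2 ≤ 1 := by
    have : (X / 2 * √(ws i)) ^ 2 = X ^ 2 * ws i / 4 := by
      rw [mul_pow, sq (√(ws i)), hs2]; ring
    rw [this]; linarith
  have h8 : 0 ≤ X / 2 * √(ws i) := by positivity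
  nlinarith

/-- tangent line inequality -/
lemma tangent {w v D : ℝ} (hw : 0 < w) (hwv : w ≤ v) (hD0 : 0 ≤ D) (hD : 4 * D ^ 2 * v ^ 3 ≤ 1) :
    1 / √v + D * (v - w) ≤ 1 / √w := by
  have hv : 0 < v := hw.trans_le hwv
  set s := √w with hs
  set r := √v with hr
  have hs0 : 0 < s := Real.sqrt_pos.2 hw
  have hr0 : 0 < r := Real.sqrt_pos.2 hv
  have hsr : s ≤ r := Real.sqrt_le_sqrt hwv
  have hs2 : s ^ 2 = w := Real.sq_sqrt hw.le
  have hr2 : r ^ 2 = v := Real.sq_sqrt hv.le
  have h1 : (2 * D * r ^ 3) ^ 2 ≤ 1 := by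
    have : (2 * D * r ^ 3) ^ 2 = 4 * D ^ 2 * v ^ 3 := by rw [← hr2]; ring
    rw [this]; exact hD
  have h2 : 2 * D * r ^ 3 ≤ 1 := by
    have : 0 ≤ 2 * D * r ^ 3 := by positivity
    nlinarith
  have h3 : D * (s * r * (s + r)) ≤ 1 := by
    have h4 : s * r * (s + r) ≤ 2 * r ^ 3 := by nlinarith [mul_pos hs0 hr0, sq_nonneg (r - s)]
    have := mul_le_mul_of_nonneg_left h4 hD0
    linarith
  have h5 : 1 / s - 1 / r = (r - s) / (s * r) := by field_simp
  have h6 : D * (v - w) ≤ (r - s) / (s * r) := by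
    rw [le_div_iff₀ (by positivity), ← hr2, ← hs2]
    have : D * (r ^ 2 - s ^ 2) * (s * r) = (r - s) * (D * (s * r * (s + r))) := by ring
    rw [this]
    have h7 := mul_le_mul_of_nonneg_left h3 (sub_nonneg.2 hsr)
    linarith
  linarith

/-- the optimal `t` -/
noncomputable def tstar (ρ : ℝ) (i : ℕ) : ℝ := if i = 26 then 1 - ρ * (51 / 100) else 1 / √(ws i)

/-- weights of the certificate, as a function of the distance to the centre -/
def wt (k : ℕ) : ℚ :=
  if k = 1 then 1741 / 10000 else if k = 2 then 952 / 10000 else if k = 3 then 620 / 10000 else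
  if k = 4 then 444 / 10000 else if k = 5 then 338 / 10000 else if k = 6 then 268 / 10000 else
  if k = 7 then 220 / 10000 else if k = 8 then 184 / 10000 else if k = 9 then 157 / 10000 else
  if k = 10 then 136 / 10000 else 0

lemma wt_chk : ∀ i ∈ Finset.Icc 2 50, i ≠ 26 →
    0 ≤ wt ((26 - i) + (i - 26)) ∧ 4 * wt ((26 - i) + (i - 26)) ^ 2 * wq i ^ 3 ≤ 1 := by
  decide +kernel

lemma ws_eq_center : ws 26 = 51 / 50 := by
  have : wq 26 = 51 / 50 := by decide +kernel
  unfold ws; rw [this]; norm_num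

lemma ws_eq_25 : ws 25 = 101 / 50 := by
  have : wq 25 = 101 / 50 := by decide +kernel
  unfold ws; rw [this]; norm_num

lemma ws_eq_27 : ws 27 = 101 / 50 := by
  have : wq 27 = 101 / 50 := by decide +kernel
  unfold ws; rw [this]; norm_num

lemma delta_center (ρ : ℝ) : delta 1 2 ρ ws 26 = 1 - ρ * (51 / 100) := by
  unfold delta
  norm_num [ws_eq_center, ws_eq_25, ws_eq_27]
  ring

lemma memC_ws : MemC 51 1 1 wm ws := by
  refine ⟨?_, ?_, ?_, ?_⟩
  · have : wq 1 = 0 := by decide +kernel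
    unfold ws; rw [this]; norm_num
  · have : wq 51 = 0 := by decide +kernel
    unfold ws; rw [this]; norm_num
  · intro i hi
    refine ⟨(ws_pos hi).le, ?_⟩
    unfold ws wm
    split_ifs <;> linarith
  · intro i hi
    have := ws_accel hi
    simpa using this

lemma wm_eq {i : ℕ} (hi : i ∈ Finset.Icc 2 50) : wm i = ws i := by
  rw [Finset.mem_Icc] at hi
  unfold wm ws
  rw [if_neg (by omega)]; ring

lemma center_viol {ρ : ℝ} (hρ1 : ρ ≤ 1 / 1000) : 1 / √(ws 26) < 1 - ρ * (51 / 100) := by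
  rw [ws_eq_center]
  have h1 : (1009 / 1000 : ℝ) < √(51 / 50) := by
    apply Real.lt_sqrt_of_sq_lt
    norm_num
  have h2 : 1 / √(51 / 50 : ℝ) < 1000 / 1009 := by
    rw [div_lt_div_iff₀ (by linarith) (by norm_num)]
    linarith
  have : ρ * (51 / 100) ≤ 1 / 1000 := by linarith
  have h3 : (1000 / 1009 : ℝ) < 1 - 1 / 1000 := by norm_num
  linarith

lemma feasR_ws {ρ : ℝ} (hρ : 0 < ρ) (hρ1 : ρ ≤ 1 / 1000) : FeasR 51 1 ρ 1 2 wm ws (tstar ρ) := by
  refine ⟨memC_ws, fun i hi => ?_⟩
  have hi' : i ∈ Finset.Icc 2 50 := hi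
  have hpos := ws_pos hi'
  have hinv : invSqrt 1 (ws i) = ENNReal.ofReal (1 / √(ws i)) := by
    unfold invSqrt; rw [if_neg hpos.ne']
  by_cases h26 : i = 26
  · subst h26
    have ht : tstar ρ 26 = 1 - ρ * (51 / 100) := by unfold tstar; rw [if_pos rfl]
    rw [hinv, ht]
    refine ⟨ENNReal.ofReal_le_ofReal (center_viol hρ1).le, ?_⟩
    rw [delta_center, abs_of_nonneg (by linarith)]
  · have ht : tstar ρ i = 1 / √(ws i) := by unfold tstar; rw [if_neg h26]
    rw [hinv, ht]
    exact ⟨le_rfl, ws_jerk hi' h26 hρ hρ1⟩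

/-- optimality of the explicit solution of (R) -/
lemma objR_le {ρ : ℝ} (hρ : 0 < ρ) {w t : ℕ → ℝ} (h : FeasR 51 1 ρ 1 2 wm w t) :
    objR 51 (tstar ρ) ≤ objR 51 t := by
  obtain ⟨hC, ht⟩ := h
  -- positivity of `w`
  have hpos : ∀ i ∈ Finset.Icc 2 50, 0 < w i := by
    intro i hi
    have h1 := (ht i hi).1
    have h2 := (hC.bounds i hi).1
    rcases h2.lt_or_eq with h3 | h3
    · exact h3
    · exfalso
      unfold invSqrt at h1
      rw [if_pos h3.symm] at h1
      exact ENNReal.ofReal_ne_top (top_le_iff.1 h1)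
  have hinv : ∀ i ∈ Finset.Icc 2 50, 1 / √(w i) ≤ t i := by
    intro i hi
    have h1 := (ht i hi).1
    unfold invSqrt at h1
    rw [if_neg (hpos i hi).ne'] at h1
    have h2 : 0 < 1 / √(w i) := by
      have := Real.sqrt_pos.2 (hpos i hi); positivity
    by_contra hcon
    push Not at hcon
    have := (ENNReal.ofReal_lt_ofReal_iff h2).2 hcon
    exact absurd h1 (not_le.2 this)
  have hle : ∀ i ∈ Finset.Icc 2 50, w i ≤ ws i := by
    intro i hi
    rw [← wm_eq hi]; exact (hC.bounds i hi).2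
  -- the errors
  set e : ℕ → ℝ := fun i => ws i - w i with he
  have he0 : ∀ i ∈ Finset.Icc 2 50, 0 ≤ e i := fun i hi => sub_nonneg.2 (hle i hi)
  have hchain : ∀ i ∈ Finset.Icc 2 50, i ≠ 26 →
      tstar ρ i + (wt ((26 - i) + (i - 26)) : ℝ) * e i ≤ t i := by
    intro i hi h26
    obtain ⟨hc1, hc2⟩ := wt_chk i hi h26
    have hc1' : (0 : ℝ) ≤ (wt ((26 - i) + (i - 26)) : ℝ) := by exact_mod_cast hc1
    have hc2' : 4 * (wt ((26 - i) + (i - 26)) : ℝ) ^ 2 * ws i ^ 3 ≤ 1 := by
      unfold ws; exact_mod_cast hc2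
    have h3 := tangent (hpos i hi) (hle i hi) hc1' hc2'
    have ht' : tstar ρ i = 1 / √(ws i) := by unfold tstar; rw [if_neg h26]
    rw [ht']
    exact h3.trans (hinv i hi)
  have hcenter : tstar ρ 26 - (e 25 + e 27) / 2 ≤ t 26 := by
    have h1 := (ht 26 (by decide)).2
    have h2 := (le_abs_self _).trans h1
    have h3 : tstar ρ 26 = 1 - ρ * (51 / 100) := by unfold tstar; rw [if_pos rfl]
    have h4 : delta 1 2 ρ w 26 = (w 25 - (2 + ρ) * w 26 + w 27) / 2 := by
      unfold delta; norm_num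
    have h5 := hle 26 (by decide)
    rw [ws_eq_center] at h5
    rw [h4] at h2
    rw [h3]
    simp only [he, ws_eq_25, ws_eq_27]
    have h6 : ρ * w 26 ≤ ρ * (51 / 50) := mul_le_mul_of_nonneg_left h5 hρ.le
    linarith
  -- monotonicity of the errors along the chains
  have hup : ∀ i ∈ Finset.Icc 27 35, e i ≤ e (i + 1) := by
    intro i hi
    have hi' : i ∈ Finset.Icc 1 50 := by
      rw [Finset.mem_Icc] at hi ⊢; omega
    have h1 := (abs_le.1 (hC.accel i hi')).2
    have h2 : ws (i + 1) - ws i = 1 := by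
      have : ∀ i ∈ Finset.Icc 27 35, wq (i + 1) - wq i = 1 := by decide +kernel
      have := this i hi
      unfold ws; exact_mod_cast this
    simp only [he]
    linarith
  have hdown : ∀ i ∈ Finset.Icc 16 24, e (i + 1) ≤ e i := by
    intro i hi
    have hi' : i ∈ Finset.Icc 1 50 := by
      rw [Finset.mem_Icc] at hi ⊢; omega
    have h1 := (abs_le.1 (hC.accel i hi')).1
    have h2 : ws (i + 1) - ws i = -1 := by
      have : ∀ i ∈ Finset.Icc 16 24, wq (i + 1) - wq i = -1 := by decide +kernel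
      have := this i hi
      unfold ws; exact_mod_cast this
    simp only [he]
    linarith
  -- summation
  have hsub : Finset.Icc 16 36 ⊆ Finset.Icc 2 50 := by decide
  have hsum : 0 ≤ ∑ i ∈ Finset.Icc 2 50, (t i - tstar ρ i) := by
    refine le_trans ?_ (Finset.sum_le_sum_of_subset_of_nonneg hsub ?_)
    · have hstep : ∑ i ∈ Finset.Icc 16 36, (if i = 26 then -(e 25 + e 27) / 2 else
          (wt ((26 - i) + (i - 26)) : ℝ) * e i) ≤ ∑ i ∈ Finset.Icc 16 36, (t i - tstar ρ i) := by
        refine Finset.sum_le_sum fun i hi => ?_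
        have hi' := hsub hi
        by_cases h26 : i = 26
        · rw [if_pos h26, h26]; linarith
        · rw [if_neg h26]; linarith [hchain i hi' h26]
      refine le_trans ?_ hstep
      have hu := fun i hi => hup i hi
      have hd := fun i hi => hdown i hi
      have u1 := hup 27 (by decide); have u2 := hup 28 (by decide)
      have u3 := hup 29 (by decide); have u4 := hup 30 (by decide)
      have u5 := hup 31 (by decide); have u6 := hup 32 (by decide)
      have u7 := hup 33 (by decide); have u8 := hup 34 (by decide)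
      have u9 := hup 35 (by decide)
      have d1 := hdown 24 (by decide); have d2 := hdown 23 (by decide)
      have d3 := hdown 22 (by decide); have d4 := hdown 21 (by decide)
      have d5 := hdown 20 (by decide); have d6 := hdown 19 (by decide)
      have d7 := hdown 18 (by decide); have d8 := hdown 17 (by decide)
      have d9 := hdown 16 (by decide)
      have p25 := he0 25 (by decide); have p27 := he0 27 (by decide)
      have hw : ∀ k : ℕ, (wt k : ℝ) = ((if k = 1 then 1741 / 10000 else if k = 2 then 952 / 10000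
        else if k = 3 then 620 / 10000 else if k = 4 then 444 / 10000 else
        if k = 5 then 338 / 10000 else if k = 6 then 268 / 10000 else
        if k = 7 then 220 / 10000 else if k = 8 then 184 / 10000 else if k = 9 then 157 / 10000
        else if k = 10 then 136 / 10000 else 0 : ℚ) : ℝ) := fun k => rfl
      have hIcc : Finset.Icc 16 36 = {16,17,18,19,20,21,22,23,24,25,26,27,28,29,30,31,32,33,34,35,36} := by
        decide
      rw [hIcc]
      simp only [Finset.sum_insert, Finset.mem_insert, Finset.mem_singleton, Finset.sum_singleton,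
        hw]
      norm_num
      linarith
    · intro i hi _
      by_cases h26 : i = 26
      · exfalso
        subst h26
        rename_i hnot
        exact hnot (by decide)
      · have h1 := hchain i hi h26
        have h2 : (0 : ℝ) ≤ (wt ((26 - i) + (i - 26)) : ℝ) := by
          exact_mod_cast (wt_chk i hi h26).1
        have h3 := mul_nonneg h2 (he0 i hi)
        linarith
  rw [Finset.sum_sub_distrib] at hsum
  have : objR 51 (tstar ρ) = ∑ i ∈ Finset.Icc 2 50, tstar ρ i := rfl
  have h' : objR 51 t = ∑ i ∈ Finset.Icc 2 50, t i := rfl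
  rw [this, h']
  linarith

/-- the relaxation is not exact for this instance -/
theorem not_exact {ρ : ℝ} (hρ : 0 < ρ) (hρ1 : ρ ≤ 1 / 1000) : ¬ IsExact 51 1 ρ 1 2 wm := by
  rintro ⟨-, h⟩
  have hmin : IsMinR 51 1 ρ 1 2 wm ws (tstar ρ) :=
    ⟨feasR_ws hρ hρ1, fun w' t' h' => objR_le hρ h'⟩
  have hP := (h ws (tstar ρ) hmin).1.2 26 (by decide)
  have hpos := ws_pos (i := 26) (by decide)
  unfold invSqrt at hP
  rw [if_neg hpos.ne', delta_center] at hP
  have hv := center_viol hρ1
  have h0 : 0 < 1 / √(ws 26) := by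
    have := Real.sqrt_pos.2 hpos; positivity
  have habs : |1 - ρ * (51 / 100)| = 1 - ρ * (51 / 100) := abs_of_pos (h0.trans hv)
  rw [habs] at hP
  have := (ENNReal.ofReal_lt_ofReal_iff (h0.trans hv)).2 hv
  exact absurd hP (not_le.2 this)

lemma wm_pos (i : ℕ) (hi : i ∈ Finset.Icc 2 50) : 0 < wm i := by
  rw [wm_eq hi]; exact ws_pos hi

end Speed
end Pool.Agent.V11103
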