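import Mathlib

/-!
The jerk-constrained speed planning problem (P) and its convex relaxation (R).
-/

namespace Pool.Agent.V11103
namespace Speed

open scoped ENNReal

/-- `h / √x`, with the convention `h / √0 = +∞`. -/
noncomputable def invSqrt (h x : ℝ) : ℝ≥0∞ := if x = 0 then ⊤ else ENNReal.ofReal (h / √x)

/-- `Δw_i = (w_{i-1} - (2+ρ) w_i + w_{i+1}) / (hJ)`. -/
noncomputable def delta (h J ρ : ℝ) (w : ℕ → ℝ) (i : ℕ) : ℝ :=
  (w (i - 1) - (2 + ρ) * w i + w (i + 1)) / (h * J)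

/-- Membership in the convex compact set `𝒞`; the vector `(w_1, …, w_n)` is given by the values
of `w : ℕ → ℝ` at `1, …, n`. -/
structure MemC (n : ℕ) (h A : ℝ) (wmax w : ℕ → ℝ) : Prop where
  first : w 1 = 0
  last : w n = 0
  bounds : ∀ i ∈ Finset.Icc 2 (n - 1), 0 ≤ w i ∧ w i ≤ wmax i
  accel : ∀ i ∈ Finset.Icc 1 (n - 1), |w (i + 1) - w i| ≤ h * A

/-- Feasibility for (P): `w ∈ 𝒞` and `|Δw_i| ≤ h / √w_i` for `i = 2, …, n - 1`. -/
def FeasP (n : ℕ) (h ρ A J : ℝ) (wmax w : ℕ → ℝ) : Prop :=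
  MemC n h A wmax w ∧
    ∀ i ∈ Finset.Icc 2 (n - 1), ENNReal.ofReal |delta h J ρ w i| ≤ invSqrt h (w i)

/-- The objective function of (P). -/
noncomputable def objP (n : ℕ) (h : ℝ) (w : ℕ → ℝ) : ℝ≥0∞ :=
  ∑ i ∈ Finset.Icc 2 (n - 1), invSqrt h (w i)

/-- `w` is an optimal solution of (P). -/
def IsMinP (n : ℕ) (h ρ A J : ℝ) (wmax w : ℕ → ℝ) : Prop :=
  FeasP n h ρ A J wmax w ∧ ∀ w', FeasP n h ρ A J wmax w' → objP n h w ≤ objP n h w'

/-- Feasibility for (R): `w ∈ 𝒞`, `t_i ≥ h / √w_i` and `t_i ≥ |Δw_i|` for `i = 2, …, n - 1`. -/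
def FeasR (n : ℕ) (h ρ A J : ℝ) (wmax w t : ℕ → ℝ) : Prop :=
  MemC n h A wmax w ∧
    ∀ i ∈ Finset.Icc 2 (n - 1),
      invSqrt h (w i) ≤ ENNReal.ofReal (t i) ∧ |delta h J ρ w i| ≤ t i

/-- The objective function of (R). -/
noncomputable def objR (n : ℕ) (t : ℕ → ℝ) : ℝ := ∑ i ∈ Finset.Icc 2 (n - 1), t i

/-- `(w, t)` is an optimal solution of (R). -/
def IsMinR (n : ℕ) (h ρ A J : ℝ) (wmax w t : ℕ → ℝ) : Prop :=
  FeasR n h ρ A J wmax w t ∧ ∀ w' t', FeasR n h ρ A J wmax w' t' → objR n t ≤ objR n t'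

/-- The optimal value of (P). -/
noncomputable def valP (n : ℕ) (h ρ A J : ℝ) (wmax : ℕ → ℝ) : ℝ≥0∞ :=
  ⨅ (w : ℕ → ℝ) (_ : FeasP n h ρ A J wmax w), objP n h w

/-- The optimal value of (R). -/
noncomputable def valR (n : ℕ) (h ρ A J : ℝ) (wmax : ℕ → ℝ) : ℝ≥0∞ :=
  ⨅ (w : ℕ → ℝ) (t : ℕ → ℝ) (_ : FeasR n h ρ A J wmax w t), ENNReal.ofReal (objR n t)

/-- The relaxation (R) is exact: the optimal values of (R) and (P) agree and, whenever `(w, t)`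
minimizes (R), the vector `w` is feasible and optimal for (P). -/
def IsExact (n : ℕ) (h ρ A J : ℝ) (wmax : ℕ → ℝ) : Prop :=
  valR n h ρ A J wmax = valP n h ρ A J wmax ∧
    ∀ w t, IsMinR n h ρ A J wmax w t → IsMinP n h ρ A J wmax w

end Speed
end Pool.Agent.V11103
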